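import Pool.Agent.Lib.MP_6babc4_nt.TN.Cnv

/-!
# Module Cfa: the contradiction on a cone

PROOF. `M` from `cone_conv`; by `hV.zero` (the homogeneous polynomial of degree `1` with the values of `M`: `∑ C (M (Pi.single i 1)) * X i`) there is `x₁ ∈ V`, `x₁ ≠ 0`, `M x₁ = 0`.
`x₁` is in the span of `V' = {y ∈ V | M y ≠ 0}`: otherwise there is a linear `f` with `f = 0` on `V'` and `f x₁ ≠ 0` (`Submodule.exists_le_ker_of_notMem` or similar), then `f · M = 0` on `V`, by `hV.prime` (polynomials of `f` and `M`) `f = 0` on `V` or `M = 0` on `V`: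
both impossible (`x₁ ∈ V`; `M z = 1`). So `x₁ = ∑ a_i y_i`, `y_i ∈ V'`; by `quad_conv` `‖l j b y_i - M y_i‖ ≤ C_i q_i^(2^j)`, so `‖l j b x₁‖ = ‖l j b x₁ - M x₁‖ ≤ C q^(2^j)` for all `j`, `b`. But `h0` and `step_ge` (induction): `0 < max_b ‖l 0 b x₁‖ ≤ (2^g)^j max_b ‖l j b x₁‖`
`≤ (2^g)^j C q^(2^j) → 0`. Contradiction.
-/

set_option autoImplicit false

open Filter Topology

namespace FreyTN

open FreyG2

/-- the polynomial of a linear form -/
private noncomputable def cfaPoly {r : ℕ} (f : (Fin r → ℂ) →ₗ[ℂ] ℂ) : MvPolynomial (Fin r) ℂ :=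
  ∑ i, MvPolynomial.C (f (Pi.single i 1)) * MvPolynomial.X i

private theorem cfa_eval {r : ℕ} (f : (Fin r → ℂ) →ₗ[ℂ] ℂ) (y : Fin r → ℂ) :
    MvPolynomial.eval y (cfaPoly f) = f y := by
  unfold cfaPoly
  rw [map_sum]
  have h : y = ∑ i, y i • (Pi.single i (1 : ℂ) : Fin r → ℂ) := by
    ext j
    rw [Finset.sum_apply, Finset.sum_eq_single j]
    · simp
    · intro i _ hij
      simp [Pi.single_apply, Ne.symm hij]
    · intro hj
      exact absurd (Finset.mem_univ j) hj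
  conv_rhs => rw [h, map_sum]
  refine Finset.sum_congr rfl fun i _ => ?_
  rw [map_mul, MvPolynomial.eval_C, MvPolynomial.eval_X, map_smul, smul_eq_mul, mul_comm]

private theorem cfa_hom {r : ℕ} (f : (Fin r → ℂ) →ₗ[ℂ] ℂ) : (cfaPoly f).IsHomogeneous 1 := by
  unfold cfaPoly
  refine MvPolynomial.IsHomogeneous.sum _ _ _ fun i _ => ?_
  have h := (MvPolynomial.isHomogeneous_C (Fin r) (f (Pi.single i 1))).mul
    (MvPolynomial.isHomogeneous_X ℂ i)
  rwa [zero_add] at h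

private theorem cfa_back {g r : ℕ} {V : Set (Fin r → ℂ)}
    (l : ℕ → GI g → (Fin r → ℂ) →ₗ[ℂ] ℂ)
    (hl : ∀ y ∈ V, ∀ j, Step (fun b => l j b y) (fun b => l (j + 1) b y)) {y : Fin r → ℂ} (hy : y ∈ V) :
    ∀ (j : ℕ) (R : ℝ), (∀ b, ‖l j b y‖ ≤ R) → ∀ b, ‖l 0 b y‖ ≤ (2 ^ g) ^ j * R := by
  intro j
  induction j with
  | zero =>
    intro R hR b
    rw [pow_zero, one_mul]
    exact hR b
  | succ j ih =>
    intro R hR b
    have h1 : ∀ c, ‖l j c y‖ ≤ 2 ^ g * R := fun c => step_ge (hl y hy j) hR c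
    have h2 := ih (2 ^ g * R) h1 b
    rwa [pow_succ, mul_assoc]

theorem cone_false {g r : ℕ} {V : Set (Fin r → ℂ)} (hV : IsCone V)
    (l : ℕ → GI g → (Fin r → ℂ) →ₗ[ℂ] ℂ)
    (hl : ∀ y ∈ V, ∀ j, Step (fun b => l j b y) (fun b => l (j + 1) b y))
    (hbd : ∃ C : ℝ, ∀ j b y, ‖l j b y‖ ≤ C * ‖y‖) {z : Fin r → ℂ} (hz : z ∈ V)
    (hz1 : ∀ b, Tendsto (fun j => l j b z) atTop (𝓝 1))
    (h0 : ∀ y ∈ V, (∀ b, l 0 b y = 0) → y = 0) : False := by
  obtain ⟨M, hMz, hM⟩ := cone_conv hV l hl hbd hz hz1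
  obtain ⟨x, hx, hx0, hMx⟩ := hV.zero 1 (cfaPoly M) (cfa_hom M) one_ne_zero
  rw [cfa_eval] at hMx
  -- the span
  have hspan : x ∈ Submodule.span ℂ {y | y ∈ V ∧ M y ≠ 0} := by
    by_contra hcon
    obtain ⟨f, hf1, hf2⟩ := Submodule.exists_le_ker_of_notMem hcon
    have hf : ∀ y ∈ V, M y ≠ 0 → f y = 0 := by
      intro y hy hy0
      have h1 : y ∈ Submodule.span ℂ {y | y ∈ V ∧ M y ≠ 0} := Submodule.subset_span ⟨hy, hy0⟩
      exact LinearMap.mem_ker.mp (hf2 h1)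
    have hprod : ∀ y ∈ V, MvPolynomial.eval y (cfaPoly f) * MvPolynomial.eval y (cfaPoly M) = 0 := by
      intro y hy
      rw [cfa_eval, cfa_eval]
      by_cases hy0 : M y = 0
      · rw [hy0, mul_zero]
      · rw [hf y hy hy0, zero_mul]
    rcases hV.prime _ _ hprod with h1 | h1
    · have h2 := h1 x hx
      rw [cfa_eval] at h2
      exact hf1 h2
    · have h2 := h1 z hz
      rw [cfa_eval, hMz] at h2
      exact one_ne_zero h2
  -- quadratic convergence on the span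
  have hQ : ∀ y ∈ Submodule.span ℂ {y | y ∈ V ∧ M y ≠ 0}, ∃ C q : ℝ, 0 < q ∧ q < 1 ∧ 0 ≤ C ∧
      ∀ j b, ‖l j b y - M y‖ ≤ C * q ^ (2 ^ j) := by
    intro y hy
    induction hy using Submodule.span_induction with
    | mem y hy =>
      obtain ⟨C, q, hq0, hq1, h⟩ := quad_conv (fun j b => l j b y) (hl y hy.1) hy.2 (hM y hy.1)
      refine ⟨C, q, hq0, hq1, ?_, h⟩
      have h1 := (norm_nonneg _).trans (h 0 0)
      have h2 : 0 < q ^ (2 ^ 0) := pow_pos hq0 _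
      by_contra hneg
      push Not at hneg
      have := mul_neg_of_neg_of_pos hneg h2
      linarith
    | zero =>
      refine ⟨0, 1 / 2, by norm_num, by norm_num, le_rfl, fun j b => ?_⟩
      rw [map_zero, map_zero, sub_zero, norm_zero, zero_mul]
    | add y y' _ _ ih ih' =>
      obtain ⟨C, q, hq0, hq1, hC, h⟩ := ih
      obtain ⟨C', q', hq0', hq1', hC', h'⟩ := ih'
      refine ⟨C + C', max q q', lt_max_of_lt_left hq0, max_lt hq1 hq1', add_nonneg hC hC', fun j b => ?_⟩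
      have e : l j b (y + y') - M (y + y') = (l j b y - M y) + (l j b y' - M y') := by
        rw [map_add, map_add]
        ring
      rw [e]
      have h1 : q ^ (2 ^ j) ≤ (max q q') ^ (2 ^ j) := pow_le_pow_left₀ hq0.le (le_max_left _ _) _
      have h2 : q' ^ (2 ^ j) ≤ (max q q') ^ (2 ^ j) := pow_le_pow_left₀ hq0'.le (le_max_right _ _) _
      calc ‖(l j b y - M y) + (l j b y' - M y')‖ ≤ ‖l j b y - M y‖ + ‖l j b y' - M y'‖ := norm_add_le _ _
        _ ≤ C * q ^ (2 ^ j) + C' * q' ^ (2 ^ j) := add_le_add (h j b) (h' j b)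
        _ ≤ C * (max q q') ^ (2 ^ j) + C' * (max q q') ^ (2 ^ j) :=
          add_le_add (mul_le_mul_of_nonneg_left h1 hC) (mul_le_mul_of_nonneg_left h2 hC')
        _ = (C + C') * (max q q') ^ (2 ^ j) := by ring
    | smul a y _ ih =>
      obtain ⟨C, q, hq0, hq1, hC, h⟩ := ih
      refine ⟨‖a‖ * C, q, hq0, hq1, mul_nonneg (norm_nonneg _) hC, fun j b => ?_⟩
      have e : l j b (a • y) - M (a • y) = a * (l j b y - M y) := by
        rw [map_smul, map_smul, smul_eq_mul, smul_eq_mul]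
        ring
      rw [e, norm_mul, mul_assoc]
      exact mul_le_mul_of_nonneg_left (h j b) (norm_nonneg _)
  obtain ⟨C, q, hq0, hq1, hC, h⟩ := hQ x hspan
  have hne : ∃ b, l 0 b x ≠ 0 := by
    by_contra hcon
    push Not at hcon
    exact hx0 (h0 x hx hcon)
  obtain ⟨b, hb⟩ := hne
  have hpos : 0 < ‖l 0 b x‖ := norm_pos_iff.mpr hb
  have hle : ∀ j : ℕ, ‖l 0 b x‖ ≤ C * ((((2 ^ j : ℕ) : ℝ)) ^ g * q ^ (2 ^ j)) := by
    intro j
    have h1 : ∀ c, ‖l j c x‖ ≤ C * q ^ (2 ^ j) := by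
      intro c
      have := h j c
      rwa [hMx, sub_zero] at this
    have h2 := cfa_back l hl hx j _ h1 b
    have e : ((2 : ℝ) ^ g) ^ j * (C * q ^ (2 ^ j)) = C * ((((2 ^ j : ℕ) : ℝ)) ^ g * q ^ (2 ^ j)) := by
      push_cast
      rw [← pow_mul, ← pow_mul, mul_comm g j]
      ring
    rwa [e] at h2
  have hlim : Tendsto (fun j : ℕ => C * ((((2 ^ j : ℕ) : ℝ)) ^ g * q ^ (2 ^ j))) atTop (𝓝 (C * 0)) := by
    refine Tendsto.const_mul C ?_
    have h1 := tendsto_pow_const_mul_const_pow_of_lt_one g hq0.le hq1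
    exact h1.comp (tendsto_pow_atTop_atTop_of_one_lt one_lt_two)
  rw [mul_zero] at hlim
  have := ge_of_tendsto' hlim hle
  linarith

end FreyTN
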