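import Pool.Agent.Lib.MP_6babc4_nt.TN.Defs

/-!
# Module Ame: estimates for the arithmetic-geometric mean

`step_le`: `‖w b‖² = ‖sq v b‖ / 2^g ≤ R²`. `step_ge`: for a character `χ a c = (-1)^(a.c)` (`a, c : GI g`, dot product in `ZMod 2`): `∑_b χ a b * sq v b = (∑_c χ a c * v c)²`, so `‖∑_c χ a c v c‖² = 2^g ‖∑_b χ a b w b²‖ ≤ 4^g R²`, and
`2^g v c = ∑_a χ a c (∑_c' χ a c' v c')`, so `‖v c‖ ≤ 2^g R`. `step_eq`: with `‖w b‖ = R`: `2^g R² = ‖∑_c v c v (b+c)‖ ≤ ∑ ‖v c‖ ‖v (b+c)‖ ≤ 2^g R²`, so all `‖v c‖ ‖v (b+c)‖ = R²` and `‖v c‖ = R`.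

`quad_conv`. `D j = ∑_(b,c) ‖v j b - v j c‖` (or the maximum). `v (j+1) b² - v (j+1) c² = 2^(-g) (sq (v j) b - sq (v j) c)`, and with `v j c = x + e c` (`x = v j 0`): `sq (v j) b = 2^g x² + 2 x ∑ e + ∑_c e c e (b+c)`,
so `‖v (j+1) b² - v (j+1) c²‖ ≤ 2 D_j²`; for large `j` `‖v (j+1) b + v (j+1) c‖ ≥ ‖m‖`, so `D (j+1) ≤ K (D j)²`, `K` a constant; once `K D j ≤ 1/2` this gives `D j ≤ C q^(2^j)`. `v (j+1) 0² - v j 0²` `= 2^(-g) ∑_c (v j c)² - v j 0²`, at most `C' D j`,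
and `‖v (j+1) 0 + v j 0‖ ≥ ‖m‖`: `‖v (j+1) 0 - v j 0‖ ≤ C'' D j`; summing up to the limit `m` gives the claim for large `j`, and then for all `j` with a larger `C` (`q^(2^j) > 0`; finitely many `j`).
-/

set_option autoImplicit false

open Filter Topology

namespace FreyTN

/-- the characters of `𝔽₂^g` -/
private noncomputable def amc {g : ℕ} (a c : GI g) : ℂ := if ∑ i, a i * c i = 0 then 1 else -1

private lemma amc_z2 : ∀ x y : ZMod 2, (if x + y = 0 then (1 : ℤ) else -1) =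
    (if x = 0 then 1 else -1) * (if y = 0 then 1 else -1) := by decide

private lemma amc_cast (x : ZMod 2) : (if x = 0 then (1 : ℂ) else -1) = ((if x = 0 then (1 : ℤ) else -1 : ℤ) : ℂ) := by
  split_ifs <;> simp

private lemma amc_add {g : ℕ} (a b c : GI g) : amc a (b + c) = amc a b * amc a c := by
  unfold amc
  have e : ∑ i, a i * (b + c) i = ∑ i, a i * b i + ∑ i, a i * c i := by
    rw [← Finset.sum_add_distrib]
    exact Finset.sum_congr rfl fun i _ => by rw [Pi.add_apply]; ring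
  rw [e, amc_cast, amc_cast (∑ i, a i * b i), amc_cast (∑ i, a i * c i), amc_z2]
  push_cast
  rfl

private lemma amc_add_left {g : ℕ} (a b c : GI g) : amc (a + b) c = amc a c * amc b c := by
  unfold amc
  have e : ∑ i, (a + b) i * c i = ∑ i, a i * c i + ∑ i, b i * c i := by
    rw [← Finset.sum_add_distrib]
    exact Finset.sum_congr rfl fun i _ => by rw [Pi.add_apply]; ring
  rw [e, amc_cast, amc_cast (∑ i, a i * c i), amc_cast (∑ i, b i * c i), amc_z2]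
  push_cast
  rfl

private lemma amc_norm {g : ℕ} (a c : GI g) : ‖amc a c‖ = 1 := by
  unfold amc
  split_ifs <;> simp

private lemma amc_zero {g : ℕ} (a : GI g) : amc a 0 = 1 := by
  unfold amc
  simp

private lemma am_card {g : ℕ} : (Finset.univ : Finset (GI g)).card = 2 ^ g := by
  simp [GI]

private lemma am_two {g : ℕ} (c : GI g) : c + c = 0 := by
  funext i
  exact CharTwo.add_self_eq_zero (c i)

private lemma amc_orth {g : ℕ} (c : GI g) (hc : c ≠ 0) : ∑ a : GI g, amc a c = 0 := by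
  obtain ⟨i, hi⟩ : ∃ i, c i ≠ 0 := by
    by_contra h
    push Not at h
    exact hc (funext h)
  have hi1 : c i = 1 := by
    have : ∀ x : ZMod 2, x ≠ 0 → x = 1 := by decide
    exact this _ hi
  obtain ⟨d, hd⟩ : ∃ d : GI g, d = Pi.single i 1 := ⟨_, rfl⟩
  have hdc : amc d c = -1 := by
    unfold amc
    have e : ∑ j, d j * c j = 1 := by
      rw [Finset.sum_eq_single i]
      · rw [hd, Pi.single_eq_same, hi1]
        decide
      · intro j _ hj
        rw [hd, Pi.single_eq_of_ne hj, zero_mul]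
      · intro h
        exact absurd (Finset.mem_univ i) h
    rw [e, if_neg (by decide)]
  have h1 : ∑ a : GI g, amc a c = ∑ a : GI g, amc (a + d) c :=
    (Equiv.sum_comp (Equiv.addRight d) (fun a => amc a c)).symm
  have h2 : ∑ a : GI g, amc (a + d) c = -∑ a : GI g, amc a c := by
    rw [← Finset.sum_neg_distrib]
    refine Finset.sum_congr rfl fun a _ => ?_
    rw [amc_add_left, hdc]
    ring
  have h3 : (2 : ℂ) * ∑ a : GI g, amc a c = 0 := by
    linear_combination h1 + h2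
  simpa using h3

private lemma am_sq_sum {g : ℕ} (v : GI g → ℂ) (a : GI g) :
    (∑ c, amc a c * v c) ^ 2 = ∑ b, amc a b * sq v b := by
  have h1 : ∑ b, amc a b * sq v b = ∑ c, ∑ b, amc a b * (v c * v (b + c)) := by
    unfold sq
    rw [Finset.sum_comm]
    exact Finset.sum_congr rfl fun b _ => by rw [Finset.mul_sum]
  rw [h1, pow_two, Finset.sum_mul]
  refine Finset.sum_congr rfl fun c _ => ?_
  rw [Finset.mul_sum]
  have h2 : ∑ b, amc a b * (v c * v (b + c)) = ∑ d, amc a (d + c) * (v c * v (d + c + c)) :=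
    (Equiv.sum_comp (Equiv.addRight c) (fun b => amc a b * (v c * v (b + c)))).symm
  rw [h2]
  refine Finset.sum_congr rfl fun d _ => ?_
  rw [add_assoc, am_two, add_zero, amc_add]
  ring

private lemma am_inv {g : ℕ} (v : GI g → ℂ) (c : GI g) :
    (2 : ℂ) ^ g * v c = ∑ a, amc a c * ∑ d, amc a d * v d := by
  have h1 : ∑ a, amc a c * ∑ d, amc a d * v d = ∑ d, (∑ a, amc a (c + d)) * v d := by
    simp_rw [Finset.mul_sum]
    rw [Finset.sum_comm]
    refine Finset.sum_congr rfl fun d _ => ?_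
    rw [Finset.sum_mul]
    refine Finset.sum_congr rfl fun a _ => ?_
    rw [amc_add]
    ring
  rw [h1, Finset.sum_eq_single c]
  · rw [am_two]
    have : ∑ a : GI g, amc a 0 = (2 : ℂ) ^ g := by
      rw [Finset.sum_congr rfl fun a _ => amc_zero a, Finset.sum_const, am_card]
      simp
    rw [this]
  · intro d _ hd
    rw [amc_orth, zero_mul]
    intro h
    apply hd
    have h2 : c + d + d = d := by rw [h, zero_add]
    rw [add_assoc, am_two, add_zero] at h2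
    exact h2.symm
  · intro h
    exact absurd (Finset.mem_univ c) h

private lemma am_sq_norm {g : ℕ} {v w : GI g → ℂ} (h : Step v w) (b : GI g) :
    sq v b = 2 ^ g * w b ^ 2 := by
  rw [h b]
  field_simp

private lemma am_sq_le {g : ℕ} (v : GI g → ℂ) (b : GI g) : ‖sq v b‖ ≤ ∑ c, ‖v c‖ * ‖v (b + c)‖ := by
  unfold sq
  refine (norm_sum_le _ _).trans (le_of_eq ?_)
  exact Finset.sum_congr rfl fun c _ => norm_mul _ _

theorem step_le {g : ℕ} {v w : GI g → ℂ} (h : Step v w) {R : ℝ} (hR : ∀ b, ‖v b‖ ≤ R) (b : GI g) :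
    ‖w b‖ ≤ R := by
  have hR0 : 0 ≤ R := (norm_nonneg _).trans (hR 0)
  have h1 : ‖sq v b‖ ≤ 2 ^ g * R ^ 2 := by
    refine (am_sq_le v b).trans ?_
    calc ∑ c, ‖v c‖ * ‖v (b + c)‖ ≤ ∑ _c : GI g, R * R :=
          Finset.sum_le_sum fun c _ => mul_le_mul (hR c) (hR _) (norm_nonneg _) hR0
      _ = 2 ^ g * R ^ 2 := by
          rw [Finset.sum_const, am_card, nsmul_eq_mul]
          push_cast
          ring
  rw [am_sq_norm h b, norm_mul, norm_pow, norm_pow] at h1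
  have h2 : ‖(2 : ℂ)‖ = 2 := by simp
  rw [h2] at h1
  have h3 : ‖w b‖ ^ 2 ≤ R ^ 2 := le_of_mul_le_mul_left h1 (by positivity)
  exact (pow_le_pow_iff_left₀ (norm_nonneg _) hR0 two_ne_zero).1 h3

theorem step_ge {g : ℕ} {v w : GI g → ℂ} (h : Step v w) {R : ℝ} (hR : ∀ b, ‖w b‖ ≤ R) (b : GI g) :
    ‖v b‖ ≤ 2 ^ g * R := by
  have hR0 : 0 ≤ R := (norm_nonneg _).trans (hR 0)
  have h2 : ‖(2 : ℂ) ^ g‖ = 2 ^ g := by simp
  have h1 : ∀ a : GI g, ‖∑ c, amc a c * v c‖ ≤ 2 ^ g * R := by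
    intro a
    have h3 : ‖∑ c, amc a c * v c‖ ^ 2 ≤ (2 ^ g * R) ^ 2 := by
      rw [← norm_pow, am_sq_sum]
      calc ‖∑ b, amc a b * sq v b‖ ≤ ∑ b, ‖amc a b * sq v b‖ := norm_sum_le _ _
        _ ≤ ∑ _b : GI g, 2 ^ g * R ^ 2 := by
            refine Finset.sum_le_sum fun c _ => ?_
            rw [norm_mul, amc_norm, one_mul, am_sq_norm h c, norm_mul, h2, norm_pow]
            exact mul_le_mul_of_nonneg_left (pow_le_pow_left₀ (norm_nonneg _) (hR c) 2) (by positivity)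
        _ = (2 ^ g * R) ^ 2 := by
            rw [Finset.sum_const, am_card, nsmul_eq_mul]
            push_cast
            ring
    exact (pow_le_pow_iff_left₀ (norm_nonneg _) (by positivity) two_ne_zero).1 h3
  have h4 : 2 ^ g * ‖v b‖ ≤ 2 ^ g * (2 ^ g * R) := by
    calc 2 ^ g * ‖v b‖ = ‖(2 : ℂ) ^ g * v b‖ := by rw [norm_mul, h2]
      _ = ‖∑ a, amc a b * ∑ d, amc a d * v d‖ := by rw [am_inv]
      _ ≤ ∑ a, ‖amc a b * ∑ d, amc a d * v d‖ := norm_sum_le _ _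
      _ ≤ ∑ _a : GI g, 2 ^ g * R := by
          refine Finset.sum_le_sum fun a _ => ?_
          rw [norm_mul, amc_norm, one_mul]
          exact h1 a
      _ = 2 ^ g * (2 ^ g * R) := by
          rw [Finset.sum_const, am_card, nsmul_eq_mul]
          push_cast
          ring
  exact le_of_mul_le_mul_left h4 (by positivity)

theorem step_eq {g : ℕ} {v w : GI g → ℂ} (h : Step v w) {R : ℝ} (hR : ∀ b, ‖v b‖ ≤ R)
    (hw : ∃ b, ‖w b‖ = R) (b : GI g) : ‖v b‖ = R := by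
  have hR0 : 0 ≤ R := (norm_nonneg _).trans (hR 0)
  obtain ⟨b0, hb0⟩ := hw
  have h2 : ‖(2 : ℂ) ^ g‖ = 2 ^ g := by simp
  have h1 : 2 ^ g * R ^ 2 ≤ ∑ c, ‖v c‖ * ‖v (b0 + c)‖ := by
    calc 2 ^ g * R ^ 2 = ‖sq v b0‖ := by rw [am_sq_norm h b0, norm_mul, h2, norm_pow, hb0]
      _ ≤ _ := am_sq_le v b0
  have h3 : ∀ c, 0 ≤ R ^ 2 - ‖v c‖ * ‖v (b0 + c)‖ := by
    intro c
    have := mul_le_mul (hR c) (hR (b0 + c)) (norm_nonneg _) hR0
    nlinarith
  have h4 : ∑ c, (R ^ 2 - ‖v c‖ * ‖v (b0 + c)‖) ≤ 0 := by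
    rw [Finset.sum_sub_distrib, Finset.sum_const, am_card, nsmul_eq_mul]
    push_cast
    linarith
  have h5 : R ^ 2 - ‖v b‖ * ‖v (b0 + b)‖ ≤ 0 :=
    (Finset.single_le_sum (f := fun c => R ^ 2 - ‖v c‖ * ‖v (b0 + c)‖) (fun c _ => h3 c)
      (Finset.mem_univ b)).trans h4
  apply le_antisymm (hR b)
  rcases hR0.eq_or_lt with h6 | h6
  · rw [← h6]
    exact norm_nonneg _
  · by_contra h7
    push Not at h7
    have h8 : ‖v b‖ * ‖v (b0 + b)‖ ≤ ‖v b‖ * R := mul_le_mul_of_nonneg_left (hR _) (norm_nonneg _)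
    nlinarith

/-- the spread -/
private noncomputable def amD {g : ℕ} (v : GI g → ℂ) : ℝ := ∑ c, ‖v c - v 0‖

private lemma amD_le {g : ℕ} (v : GI g → ℂ) (c : GI g) : ‖v c - v 0‖ ≤ amD v :=
  Finset.single_le_sum (f := fun c => ‖v c - v 0‖) (fun _ _ => norm_nonneg _) (Finset.mem_univ c)

private lemma amD_nonneg {g : ℕ} (v : GI g → ℂ) : 0 ≤ amD v := Finset.sum_nonneg fun _ _ => norm_nonneg _

private lemma am_sq_exp {g : ℕ} (v : GI g → ℂ) (b : GI g) :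
    sq v b = 2 ^ g * v 0 ^ 2 + 2 * v 0 * ∑ c, (v c - v 0) + ∑ c, (v c - v 0) * (v (b + c) - v 0) := by
  have h1 : ∑ c, (v (b + c) - v 0) = ∑ c, (v c - v 0) :=
    Equiv.sum_comp (Equiv.addLeft b) (fun c => v c - v 0)
  have h2 : sq v b = ∑ c, (v 0 ^ 2 + v 0 * (v c - v 0) + v 0 * (v (b + c) - v 0) +
      (v c - v 0) * (v (b + c) - v 0)) := by
    unfold sq
    exact Finset.sum_congr rfl fun c _ => by ring
  rw [h2, Finset.sum_add_distrib, Finset.sum_add_distrib, Finset.sum_add_distrib, ← Finset.mul_sum,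
    ← Finset.mul_sum, h1, Finset.sum_const, am_card, nsmul_eq_mul]
  push_cast
  ring

private lemma am_prod_le {g : ℕ} (v : GI g → ℂ) (b : GI g) :
    ‖∑ c, (v c - v 0) * (v (b + c) - v 0)‖ ≤ amD v ^ 2 := by
  calc ‖∑ c, (v c - v 0) * (v (b + c) - v 0)‖ ≤ ∑ c, ‖(v c - v 0) * (v (b + c) - v 0)‖ := norm_sum_le _ _
    _ ≤ ∑ c, ‖v c - v 0‖ * amD v := by
        refine Finset.sum_le_sum fun c _ => ?_
        rw [norm_mul]
        exact mul_le_mul_of_nonneg_left (amD_le v _) (norm_nonneg _)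
    _ = amD v ^ 2 := by
        rw [← Finset.sum_mul]
        unfold amD
        ring

private lemma am_step_diff {g : ℕ} {v w : GI g → ℂ} (h : Step v w) (b : GI g) :
    ‖w b ^ 2 - w 0 ^ 2‖ ≤ 2 * amD v ^ 2 := by
  have h1 : w b ^ 2 - w 0 ^ 2 = (∑ c, (v c - v 0) * (v (b + c) - v 0) -
      ∑ c, (v c - v 0) * (v (0 + c) - v 0)) / 2 ^ g := by
    rw [h b, h 0, am_sq_exp v b, am_sq_exp v 0]
    ring
  have h2 : ‖(2 : ℂ) ^ g‖ = 2 ^ g := by simp
  rw [h1, norm_div, h2]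
  have h3 : (1 : ℝ) ≤ 2 ^ g := one_le_pow₀ (by norm_num)
  have h4 : ‖∑ c, (v c - v 0) * (v (b + c) - v 0) - ∑ c, (v c - v 0) * (v (0 + c) - v 0)‖ ≤
      2 * amD v ^ 2 := by
    refine (norm_sub_le _ _).trans ?_
    have := am_prod_le v b
    have := am_prod_le v 0
    linarith
  exact (div_le_self (norm_nonneg _) h3).trans h4

private lemma am_step_zero {g : ℕ} {v w : GI g → ℂ} (h : Step v w) :
    ‖w 0 ^ 2 - v 0 ^ 2‖ ≤ 2 * ‖v 0‖ * amD v + amD v ^ 2 := by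
  have h1 : w 0 ^ 2 - v 0 ^ 2 = (2 * v 0 * ∑ c, (v c - v 0) +
      ∑ c, (v c - v 0) * (v (0 + c) - v 0)) / 2 ^ g := by
    rw [h 0, am_sq_exp v 0]
    field_simp
    ring
  have h2 : ‖(2 : ℂ) ^ g‖ = 2 ^ g := by simp
  rw [h1, norm_div, h2]
  have h3 : (1 : ℝ) ≤ 2 ^ g := one_le_pow₀ (by norm_num)
  refine (div_le_self (norm_nonneg _) h3).trans ?_
  refine (norm_add_le _ _).trans ?_
  have h4 := am_prod_le v 0
  have h5 : ‖∑ c, (v c - v 0)‖ ≤ amD v := norm_sum_le _ _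
  have h6 : ‖2 * v 0 * ∑ c, (v c - v 0)‖ ≤ 2 * ‖v 0‖ * amD v := by
    rw [norm_mul, norm_mul]
    have : ‖(2 : ℂ)‖ = 2 := by simp
    rw [this]
    exact mul_le_mul_of_nonneg_left h5 (by positivity)
  linarith

private lemma am_split {x y : ℂ} {M B : ℝ} (hM : 0 < M) (h1 : M ≤ ‖x + y‖) (h2 : ‖x ^ 2 - y ^ 2‖ ≤ B) :
    ‖x - y‖ ≤ B / M := by
  rw [le_div_iff₀ hM]
  calc ‖x - y‖ * M ≤ ‖x - y‖ * ‖x + y‖ := mul_le_mul_of_nonneg_left h1 (norm_nonneg _)
    _ = ‖x ^ 2 - y ^ 2‖ := by rw [← norm_mul]; ring_nf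
    _ ≤ B := h2

private lemma am_two_pow (i n : ℕ) : 2 ^ i + n ≤ 2 ^ (i + n) := by
  induction n with
  | zero => simp
  | succ n ih =>
    have h1 : 2 ^ (i + (n + 1)) = 2 ^ (i + n) + 2 ^ (i + n) := by
      rw [← add_assoc, pow_succ]
      ring
    have h2 : 1 ≤ 2 ^ (i + n) := Nat.one_le_two_pow
    omega

theorem quad_conv {g : ℕ} (v : ℕ → GI g → ℂ) (h : ∀ j, Step (v j) (v (j + 1))) {m : ℂ} (hm : m ≠ 0)
    (hv : ∀ b, Tendsto (fun j => v j b) atTop (𝓝 m)) :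
    ∃ C q : ℝ, 0 < q ∧ q < 1 ∧ ∀ j b, ‖v j b - m‖ ≤ C * q ^ (2 ^ j) := by
  have hm0 : 0 < ‖m‖ := norm_pos_iff.2 hm
  have hm2 : ‖m‖ < ‖m + m‖ := by
    have : ‖m + m‖ = 2 * ‖m‖ := by
      rw [← two_mul, norm_mul]
      simp
    rw [this]
    linarith
  set K : ℝ := 2 ^ g * 2 / ‖m‖ with hK
  have hK0 : 0 < K := by positivity
  set A : ℝ := (4 * ‖m‖ + 1) / ‖m‖ with hA
  have hA0 : 0 < A := by positivity
  -- the spread tends to zero
  have hD : Tendsto (fun j => amD (v j)) atTop (𝓝 0) := by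
    have h1 : Tendsto (fun j => ∑ c, ‖v j c - v j 0‖) atTop (𝓝 (∑ _c : GI g, ‖m - m‖)) :=
      tendsto_finsetSum _ fun c _ => ((hv c).sub (hv 0)).norm
    simpa [amD] using h1
  have hev : ∀ᶠ j in atTop, amD (v j) < min 1 (1 / (2 * K)) ∧ ‖v j 0‖ < 2 * ‖m‖ ∧
      ‖m‖ < ‖v (j + 1) 0 + v j 0‖ ∧ ∀ b, ‖m‖ < ‖v (j + 1) b + v (j + 1) 0‖ := by
    have e1 : ∀ᶠ j in atTop, amD (v j) < min 1 (1 / (2 * K)) :=
      hD.eventually (gt_mem_nhds (lt_min one_pos (by positivity)))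
    have e2 : ∀ᶠ j in atTop, ‖v j 0‖ < 2 * ‖m‖ := (hv 0).norm.eventually (gt_mem_nhds (by linarith))
    have hs : ∀ b, Tendsto (fun j => v (j + 1) b) atTop (𝓝 m) := fun b => (tendsto_add_atTop_iff_nat 1).2 (hv b)
    have e3 : ∀ᶠ j in atTop, ‖m‖ < ‖v (j + 1) 0 + v j 0‖ :=
      ((hs 0).add (hv 0)).norm.eventually (lt_mem_nhds hm2)
    have e4 : ∀ᶠ j in atTop, ∀ b, ‖m‖ < ‖v (j + 1) b + v (j + 1) 0‖ :=
      eventually_all.2 fun b => ((hs b).add (hs 0)).norm.eventually (lt_mem_nhds hm2)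
    filter_upwards [e1, e2, e3, e4] with j h1 h2 h3 h4
    exact ⟨h1, h2, h3, h4⟩
  obtain ⟨J, hJ⟩ := eventually_atTop.1 hev
  have hrec : ∀ j, J ≤ j → amD (v (j + 1)) ≤ K * amD (v j) ^ 2 := by
    intro j hj
    obtain ⟨-, -, -, h4⟩ := hJ j hj
    have h5 : ∀ b, ‖v (j + 1) b - v (j + 1) 0‖ ≤ 2 * amD (v j) ^ 2 / ‖m‖ := fun b =>
      am_split hm0 (h4 b).le (am_step_diff (h j) b)
    calc amD (v (j + 1)) ≤ ∑ _b : GI g, 2 * amD (v j) ^ 2 / ‖m‖ := Finset.sum_le_sum fun b _ => h5 b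
      _ = K * amD (v j) ^ 2 := by
          rw [Finset.sum_const, am_card, nsmul_eq_mul, hK]
          push_cast
          ring
  have hdec : ∀ i, K * amD (v (J + i)) ≤ (1 / 2) ^ (2 ^ i) := by
    intro i
    induction i with
    | zero =>
      have h1 := (hJ J le_rfl).1.le.trans (min_le_right _ _)
      have h2 := mul_le_mul_of_nonneg_left h1 hK0.le
      calc K * amD (v (J + 0)) = K * amD (v J) := by rw [add_zero]
        _ ≤ K * (1 / (2 * K)) := h2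
        _ = (1 / 2) ^ (2 ^ 0) := by
            field_simp
            norm_num
    | succ i ih =>
      have h1 := hrec (J + i) (by omega)
      have h0 : 0 ≤ K * amD (v (J + i)) := mul_nonneg hK0.le (amD_nonneg _)
      calc K * amD (v (J + (i + 1))) ≤ K * (K * amD (v (J + i)) ^ 2) := mul_le_mul_of_nonneg_left h1 hK0.le
        _ = (K * amD (v (J + i))) ^ 2 := by ring
        _ ≤ ((1 / 2) ^ (2 ^ i)) ^ 2 := pow_le_pow_left₀ h0 ih 2
        _ = (1 / 2) ^ (2 ^ (i + 1)) := by rw [← pow_mul, ← pow_succ]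
  have hstep : ∀ j, J ≤ j → ‖v (j + 1) 0 - v j 0‖ ≤ A * amD (v j) := by
    intro j hj
    obtain ⟨h1, h2, h3, -⟩ := hJ j hj
    have h4 := am_step_zero (h j)
    have h5 : 2 * ‖v j 0‖ * amD (v j) + amD (v j) ^ 2 ≤ (4 * ‖m‖ + 1) * amD (v j) := by
      have h6 := amD_nonneg (v j)
      have h7 : amD (v j) ≤ 1 := h1.le.trans (min_le_left _ _)
      nlinarith [mul_le_mul_of_nonneg_right h2.le h6, mul_le_mul_of_nonneg_right h7 h6]
    have h6 := am_split hm0 h3.le (h4.trans h5)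
    rw [hA]
    calc _ ≤ _ := h6
      _ = _ := by ring
  -- the constant `q`
  obtain ⟨q, hq0, hq1, hq2⟩ : ∃ q : ℝ, 0 < q ∧ q < 1 ∧ q ^ (2 ^ J) = 1 / 2 := by
    refine ⟨(1 / 2 : ℝ) ^ (((2 ^ J : ℕ) : ℝ)⁻¹), by positivity, ?_, ?_⟩
    · exact Real.rpow_lt_one (by norm_num) (by norm_num) (by positivity)
    · exact Real.rpow_inv_natCast_pow (by norm_num) (by positivity)
  have hbig : ∀ i b, ‖v (J + i) b - m‖ ≤ (1 / K + 2 * (A / K)) * q ^ (2 ^ (J + i)) := by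
    intro i b
    have hqi : q ^ (2 ^ (J + i)) = (1 / 2) ^ (2 ^ i) := by
      rw [pow_add, pow_mul, hq2]
    rw [hqi]
    have h1 : ∀ n, dist (v (J + i + n) 0) (v (J + i + (n + 1)) 0) ≤
        2 * (A / K * (1 / 2) ^ (2 ^ i)) / 2 / 2 ^ n := by
      intro n
      rw [dist_comm, dist_eq_norm]
      have h2 := hstep (J + i + n) (by omega)
      have h3 := hdec (i + n)
      have h4 : (1 / 2 : ℝ) ^ (2 ^ (i + n)) ≤ (1 / 2) ^ (2 ^ i + n) :=
        pow_le_pow_of_le_one (by norm_num) (by norm_num) (am_two_pow i n)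
      have h5 : amD (v (J + i + n)) ≤ (1 / 2) ^ (2 ^ i + n) / K := by
        rw [le_div_iff₀ hK0, mul_comm]
        rw [← add_assoc] at h3
        exact h3.trans h4
      calc ‖v (J + i + (n + 1)) 0 - v (J + i + n) 0‖ ≤ A * amD (v (J + i + n)) := h2
        _ ≤ A * ((1 / 2) ^ (2 ^ i + n) / K) := mul_le_mul_of_nonneg_left h5 hA0.le
        _ = 2 * (A / K * (1 / 2) ^ (2 ^ i)) / 2 / 2 ^ n := by
            rw [pow_add, one_div_pow 2 n]
            field_simp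
    have h6 : Tendsto (fun n => v (J + i + n) 0) atTop (𝓝 m) := by
      have : Tendsto (fun n => J + i + n) atTop atTop := tendsto_add_atTop_nat (J + i) |>.congr fun n => by ring
      exact (hv 0).comp this
    have h7 := dist_le_of_le_geometric_two_of_tendsto₀ h1 h6
    rw [dist_eq_norm, add_zero] at h7
    have h8 : ‖v (J + i) b - v (J + i) 0‖ ≤ (1 / 2) ^ (2 ^ i) / K := by
      refine (amD_le _ b).trans ?_
      rw [le_div_iff₀ hK0, mul_comm]
      exact hdec i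
    calc ‖v (J + i) b - m‖ ≤ ‖v (J + i) b - v (J + i) 0‖ + ‖v (J + i) 0 - m‖ := norm_sub_le_norm_sub_add_norm_sub _ _ _
      _ ≤ (1 / 2) ^ (2 ^ i) / K + 2 * (A / K * (1 / 2) ^ (2 ^ i)) := add_le_add h8 h7
      _ = (1 / K + 2 * (A / K)) * (1 / 2) ^ (2 ^ i) := by ring
  refine ⟨(1 / K + 2 * (A / K)) + ∑ j ∈ Finset.range J, ∑ b, ‖v j b - m‖ / q ^ (2 ^ j), q, hq0, hq1,
    fun j b => ?_⟩
  have hqj : 0 < q ^ (2 ^ j) := by positivity
  have hS : 0 ≤ ∑ j ∈ Finset.range J, ∑ b, ‖v j b - m‖ / q ^ (2 ^ j) :=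
    Finset.sum_nonneg fun j _ => Finset.sum_nonneg fun b _ => by positivity
  rw [add_mul]
  rcases le_or_gt J j with hj | hj
  · obtain ⟨i, rfl⟩ := Nat.exists_eq_add_of_le hj
    have h1 := hbig i b
    have h2 := mul_nonneg hS hqj.le
    linarith
  · have h1 : ‖v j b - m‖ / q ^ (2 ^ j) ≤ ∑ j ∈ Finset.range J, ∑ b, ‖v j b - m‖ / q ^ (2 ^ j) := by
      calc ‖v j b - m‖ / q ^ (2 ^ j) ≤ ∑ b, ‖v j b - m‖ / q ^ (2 ^ j) :=
            Finset.single_le_sum (f := fun b => ‖v j b - m‖ / q ^ (2 ^ j)) (fun b _ => by positivity)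
              (Finset.mem_univ b)
        _ ≤ _ := Finset.single_le_sum (f := fun j => ∑ b, ‖v j b - m‖ / q ^ (2 ^ j))
            (fun j _ => Finset.sum_nonneg fun b _ => by positivity) (Finset.mem_range.2 hj)
    rw [div_le_iff₀ hqj] at h1
    have h2 : 0 ≤ (1 / K + 2 * (A / K)) * q ^ (2 ^ j) := by positivity
    linarith

end FreyTN
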