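import Pool.Agent.Lib.MP_6babc4_nt.TN.Defs

/-!
# Module Aub: a basis among the functions with coefficients at most `1`

PROOF. Let `W` be the span of the functions `f i : X → ℂ` (finite dimensional), `r = dim W`. `r < B`: otherwise there are `B` linearly independent functions `f (ρ a)`, and then `B` points `x` with `det (f (ρ a) (x b)) ≠ 0` (`B` linearly independent functions on a set have a nonzero minor: the evaluations span the dual of their span;
or by induction on `B`), contradicting `hB`. Choose a basis `e` of `W` and, among the finitely many `ρ : Fin r → I`, one with maximal `‖e.det (f ∘ ρ)‖`; it is `> 0` as the `f i` span `W`. So `f ∘ ρ` is a basis of `W`; `c i` = the coordinates of `f i` in it; by Cramer's rule `c i a = e.det (f ∘ (ρ with a replaced by i)) / e.det (f ∘ ρ)`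
(`Basis.det` is multilinear and alternating), of absolute value `≤ 1`.
-/

set_option autoImplicit false

namespace FreyTN

/-- From a spanning family of an `n`-dimensional space one can choose `n` linearly independent members. -/
private theorem aub_choose {V I : Type} [AddCommGroup V] [Module ℂ V] [FiniteDimensional ℂ V]
    (v : I → V) (hv : Submodule.span ℂ (Set.range v) = ⊤) (n : ℕ) (hn : Module.finrank ℂ V = n) :
    ∃ ρ : Fin n → I, LinearIndependent ℂ (v ∘ ρ) := by
  obtain ⟨κ, a, -, hsp, hli⟩ := exists_linearIndependent' ℂ v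
  rw [hv] at hsp
  let b : Module.Basis κ ℂ V := Module.Basis.mk hli hsp.ge
  have : Fintype κ := FiniteDimensional.fintypeBasisIndex b
  have hc : Fintype.card κ = n := by
    rw [← hn, Module.finrank_eq_card_basis b]
  let eq : Fin n ≃ κ := (Fintype.equivFinOfCardEq hc).symm
  exact ⟨a ∘ eq, hli.comp eq eq.injective⟩

/-- Linearly independent functions have a nonzero minor. -/
private theorem aub_minor {X : Type} (B : ℕ) (g : Fin B → X → ℂ) (hg : LinearIndependent ℂ g) :
    ∃ x : Fin B → X, Matrix.det (Matrix.of fun a b => g a (x b)) ≠ 0 := by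
  let v : X → (Fin B → ℂ) := fun x a => g a x
  have hv : Submodule.span ℂ (Set.range v) = ⊤ := by
    by_contra hne
    obtain ⟨l, hl0, hl⟩ := Submodule.exists_le_ker_of_lt_top _ (lt_top_iff_ne_top.2 hne)
    apply hl0
    have h1 : ∑ a, (l (Pi.single a 1)) • g a = 0 := by
      funext x
      have h2 : l (v x) = 0 := by
        have : v x ∈ LinearMap.ker l := hl (Submodule.subset_span ⟨x, rfl⟩)
        exact this
      rw [LinearMap.pi_apply_eq_sum_univ l (v x)] at h2
      simp only [Finset.sum_apply, Pi.smul_apply, smul_eq_mul, Pi.zero_apply]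
      rw [← h2]
      refine Finset.sum_congr rfl fun a _ => ?_
      rw [smul_eq_mul, mul_comm]
      congr 2
      funext j
      simp [Pi.single_apply, eq_comm]
    have h3 := Fintype.linearIndependent_iff.1 hg _ h1
    apply LinearMap.pi_ext'
    intro a
    ext
    simpa using h3 a
  obtain ⟨x, hx⟩ := aub_choose v hv B (by simp)
  refine ⟨x, ?_⟩
  have h4 : LinearIndependent ℂ (Matrix.of fun a b => g a (x b)).transpose.row := by
    exact hx
  have h5 := Matrix.linearIndependent_rows_iff_isUnit.1 h4
  have h6 := (Matrix.isUnit_iff_isUnit_det _).1 h5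
  rw [Matrix.det_transpose] at h6
  exact h6.ne_zero

theorem aub {X I : Type} [Fintype I] (f : I → X → ℂ) (B : ℕ)
    (hB : ∀ (ρ : Fin B → I) (x : Fin B → X),
      Matrix.det (Matrix.of fun a b => f (ρ a) (x b)) = 0) :
    ∃ r < B, ∃ (ρ : Fin r → I) (c : I → Fin r → ℂ), (∀ i a, ‖c i a‖ ≤ 1) ∧
      (∀ i x, f i x = ∑ a, c i a * f (ρ a) x) ∧ ∀ a, c (ρ a) = Pi.single a 1 := by
  classical
  let W : Submodule ℂ (X → ℂ) := Submodule.span ℂ (Set.range f)
  have : FiniteDimensional ℂ W := FiniteDimensional.span_of_finite ℂ (Set.finite_range f)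
  let F : I → W := fun i => ⟨f i, Submodule.subset_span ⟨i, rfl⟩⟩
  have hFs : Submodule.span ℂ (Set.range F) = ⊤ := by
    apply Submodule.map_injective_of_injective (Submodule.injective_subtype W)
    rw [Submodule.map_span, Submodule.map_top, Submodule.range_subtype]
    congr 1
    ext y
    constructor
    · rintro ⟨_, ⟨i, rfl⟩, rfl⟩
      exact ⟨i, rfl⟩
    · rintro ⟨i, rfl⟩
      exact ⟨F i, ⟨i, rfl⟩, rfl⟩
  obtain ⟨r, hr⟩ : ∃ r, r = Module.finrank ℂ W := ⟨_, rfl⟩
  obtain ⟨ρ0, h0⟩ := aub_choose F hFs r hr.symm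
  have hrB : r < B := by
    by_contra hge
    push Not at hge
    have h1 : LinearIndependent ℂ (fun a : Fin B => f (ρ0 (Fin.castLE hge a))) := by
      have h2 := h0.comp (Fin.castLE hge) (Fin.castLE_injective hge)
      exact h2.map' W.subtype (Submodule.ker_subtype W)
    obtain ⟨x, hx⟩ := aub_minor B _ h1
    exact hx (hB _ x)
  let e : Module.Basis (Fin r) ℂ W := Module.finBasisOfFinrankEq ℂ W hr.symm
  have hdet0 : e.det (F ∘ ρ0) ≠ 0 := by
    have : LinearIndependent ℂ (F ∘ ρ0) ∧ Submodule.span ℂ (Set.range (F ∘ ρ0)) = ⊤ :=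
      ⟨h0, h0.span_eq_top_of_card_eq_finrank' (by simp [hr])⟩
    exact ((Module.Basis.is_basis_iff_det e).1 this).ne_zero
  have : Nonempty (Fin r → I) := ⟨ρ0⟩
  obtain ⟨ρ, hρ⟩ := Finite.exists_max (fun ρ : Fin r → I => ‖e.det (F ∘ ρ)‖)
  have hpos : 0 < ‖e.det (F ∘ ρ)‖ := lt_of_lt_of_le (norm_pos_iff.2 hdet0) (hρ ρ0)
  have hne : e.det (F ∘ ρ) ≠ 0 := norm_pos_iff.1 hpos
  have hbas := (Module.Basis.is_basis_iff_det e).2 (isUnit_iff_ne_zero.2 hne)
  let b : Module.Basis (Fin r) ℂ W := Module.Basis.mk hbas.1 hbas.2.ge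
  have hb : ∀ a, b a = F (ρ a) := fun a => by simp [b]
  have hrep : ∀ i, F i = ∑ a, b.repr (F i) a • F (ρ a) := by
    intro i
    conv_lhs => rw [← b.sum_repr (F i)]
    simp only [hb]
  refine ⟨r, hrB, ρ, fun i a => b.repr (F i) a, ?_, ?_, ?_⟩
  · intro i a
    have h1 : e.det (F ∘ Function.update ρ a i) = b.repr (F i) a * e.det (F ∘ ρ) := by
      have h2 : F ∘ Function.update ρ a i = Function.update (F ∘ ρ) a (F i) := by
        rw [Function.comp_update]
      rw [h2, hrep i, AlternatingMap.map_update_sum]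
      rw [Finset.sum_eq_single a]
      · rw [AlternatingMap.map_update_smul]
        have h3 : Function.update (F ∘ ρ) a (F (ρ a)) = F ∘ ρ := by
          have : F (ρ a) = (F ∘ ρ) a := rfl
          rw [this, Function.update_eq_self]
        rw [h3, smul_eq_mul, ← hrep i]
      · intro a' _ ha'
        rw [AlternatingMap.map_update_smul]
        have h3 : e.det (Function.update (F ∘ ρ) a (F (ρ a'))) = 0 :=
          AlternatingMap.map_update_self e.det (F ∘ ρ) (Ne.symm ha')
        rw [h3, smul_zero]
      · intro h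
        exact absurd (Finset.mem_univ a) h
    have h4 := hρ (Function.update ρ a i)
    rw [h1, norm_mul] at h4
    by_contra h5
    push Not at h5
    have : ‖e.det (F ∘ ρ)‖ < ‖b.repr (F i) a‖ * ‖e.det (F ∘ ρ)‖ := by
      nlinarith
    linarith
  · intro i x
    have h1 : f i x = ((∑ a, b.repr (F i) a • F (ρ a) : W) : X → ℂ) x :=
      congrArg (fun w : W => (w : X → ℂ) x) (hrep i)
    rw [h1]
    simp only [Submodule.coe_sum, Submodule.coe_smul, Finset.sum_apply, Pi.smul_apply,
      smul_eq_mul]
    rfl
  · intro a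
    have : F (ρ a) = b a := (hb a).symm
    simp only [this, Module.Basis.repr_self]
    funext j
    rw [Finsupp.single_apply, Pi.single_apply]
    by_cases hj : a = j
    · subst hj; simp
    · simp [hj, Ne.symm hj]

end FreyTN
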