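import Pool.Agent.Lib.MP_6babc4_nt.TN.Plc

/-!
# Module Grm: the field of germs of sequences of complex numbers

`germ_closed`. PROOF. `IsAlgClosed.of_exists_root`: a monic irreducible polynomial over the germs of degree `d`; choose representatives of the coefficients; for each `n` the polynomial over `ℂ` with leading coefficient `1` has a root `z n`; the germ of `z` is a root (`eval` as a finite sum over `range (d + 1)`; equality for almost all `n`).

`germPlc`. `O` = the germs with a limit (`Germ.Tendsto x (𝓝 c)` for some `c`; closed under `+`, `*`, `-`), `st` = the limit (unique: `ℂ` is Hausdorff, the ultrafilter is not `⊥`), `ι` = constant germs. `inv`: let `x = ↑f ∉ O`. For every `M` the set `{n | ‖f n‖ ≤ M}` is not in the ultrafilter: otherwise `f` has a limit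
(`(closedBall 0 M)` is compact: `IsCompact.ultrafilter_le_nhds'` for the image ultrafilter). So `‖f n‖ > M` almost everywhere for every `M`, `f⁻¹` tends to `0`. `ne`: the germ of `n ↦ n`.

`germ_bdd`: the same compactness argument; `‖c‖ ≤ C` as closed balls are closed. `germ_tendsto`: uniqueness of limits.
-/

set_option autoImplicit false

open Filter Topology

namespace FreyTN

/-- The field of germs of sequences of complex numbers at a nonprincipal ultrafilter. -/
abbrev GK : Type := Germ ((hyperfilter ℕ : Ultrafilter ℕ) : Filter ℕ) ℂ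

theorem germ_closed : IsAlgClosed GK := by
  refine IsAlgClosed.of_exists_root GK fun p hp hirr => ?_
  have hd : p.natDegree ≠ 0 := by
    intro h
    have h1 := hirr.natDegree_pos
    omega
  set d := p.natDegree with hd'
  have hrep : ∀ x : GK, ∃ f : ℕ → ℂ, (f : GK) = x := fun x =>
    Filter.Germ.inductionOn x fun f => ⟨f, rfl⟩
  choose a ha using fun i : Fin d => hrep (p.coeff i)
  have hroot : ∀ n : ℕ, ∃ z : ℂ, z ^ d + ∑ i : Fin d, a i n * z ^ (i : ℕ) = 0 := by
    intro n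
    have h1 : (Polynomial.X ^ d + ∑ i : Fin d, Polynomial.C (a i n) * Polynomial.X ^ (i : ℕ) :
        Polynomial ℂ).degree = d := by
      rw [Polynomial.degree_add_eq_left_of_degree_lt]
      · exact Polynomial.degree_X_pow d
      · rw [Polynomial.degree_X_pow]
        exact Polynomial.degree_sum_fin_lt _
    obtain ⟨z, hz⟩ := IsAlgClosed.exists_root (Polynomial.X ^ d +
      ∑ i : Fin d, Polynomial.C (a i n) * Polynomial.X ^ (i : ℕ) : Polynomial ℂ) (by
        rw [h1]
        exact_mod_cast hd)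
    refine ⟨z, ?_⟩
    rw [Polynomial.IsRoot.def, Polynomial.eval_add, Polynomial.eval_finsetSum] at hz
    simpa only [Polynomial.eval_pow, Polynomial.eval_X, Polynomial.eval_mul, Polynomial.eval_C]
      using hz
  choose z hz using hroot
  refine ⟨(z : GK), ?_⟩
  rw [Polynomial.eval_eq_sum_range, Finset.sum_range_succ, ← hd', hp.coeff_natDegree, one_mul,
    Finset.sum_range]
  have h1 : ∑ i : Fin d, p.coeff i * (z : GK) ^ (i : ℕ) =
      Filter.Germ.coeRingHom ((hyperfilter ℕ : Ultrafilter ℕ) : Filter ℕ)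
        (∑ i : Fin d, a i * z ^ (i : ℕ)) := by
    rw [map_sum]
    refine Finset.sum_congr rfl fun i _ => ?_
    rw [map_mul, map_pow, ← ha i]
    rfl
  have h2 : (z : GK) ^ d = Filter.Germ.coeRingHom ((hyperfilter ℕ : Ultrafilter ℕ) : Filter ℕ)
      (z ^ d) := by
    rw [map_pow]
    rfl
  rw [h1, h2, ← map_add]
  have h3 : ∑ i : Fin d, a i * z ^ (i : ℕ) + z ^ d = 0 := by
    funext n
    have h4 := hz n
    simp only [Pi.add_apply, Finset.sum_apply, Pi.mul_apply, Pi.pow_apply, Pi.zero_apply]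
    rw [add_comm]
    exact h4
  rw [h3, map_zero]

theorem germ_bdd (f : ℕ → ℂ) (C : ℝ)
    (h : ∀ᶠ n in ((hyperfilter ℕ : Ultrafilter ℕ) : Filter ℕ), ‖f n‖ ≤ C) :
    ∃ c, Tendsto f ((hyperfilter ℕ : Ultrafilter ℕ) : Filter ℕ) (𝓝 c) ∧ ‖c‖ ≤ C := by
  have h2 := (isCompact_closedBall (0 : ℂ) C).ultrafilter_le_nhds
    ((hyperfilter ℕ : Ultrafilter ℕ).map f) (by
      rw [le_principal_iff, Ultrafilter.mem_coe, Ultrafilter.mem_map]
      refine Filter.mem_of_superset h fun j hj => ?_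
      rw [Set.mem_preimage, mem_closedBall_zero_iff]
      exact hj)
  obtain ⟨x, hx, hx2⟩ := h2
  exact ⟨x, hx2, mem_closedBall_zero_iff.1 hx⟩

/-- The germ has the limit `c`. -/
private def Lim (x : GK) (c : ℂ) : Prop := Filter.Germ.Tendsto x (𝓝 c)

private lemma lim_coe (f : ℕ → ℂ) (c : ℂ) :
    Lim (f : GK) c ↔ Tendsto f ((hyperfilter ℕ : Ultrafilter ℕ) : Filter ℕ) (𝓝 c) :=
  Filter.Germ.coe_tendsto

private lemma lim_unique {x : GK} {c c' : ℂ} (h : Lim x c) (h' : Lim x c') : c = c' := by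
  revert h h'
  refine Filter.Germ.inductionOn x fun f h h' => ?_
  rw [lim_coe] at h h'
  exact tendsto_nhds_unique h h'

private lemma lim_add {x y : GK} {c c' : ℂ} (h : Lim x c) (h' : Lim y c') : Lim (x + y) (c + c') := by
  revert h h'
  refine Filter.Germ.inductionOn₂ x y fun f f' h h' => ?_
  rw [lim_coe] at h h'
  exact (lim_coe (f + f') (c + c')).2 (h.add h')

private lemma lim_mul {x y : GK} {c c' : ℂ} (h : Lim x c) (h' : Lim y c') : Lim (x * y) (c * c') := by
  revert h h'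
  refine Filter.Germ.inductionOn₂ x y fun f f' h h' => ?_
  rw [lim_coe] at h h'
  exact (lim_coe (f * f') (c * c')).2 (h.mul h')

private lemma lim_neg {x : GK} {c : ℂ} (h : Lim x c) : Lim (-x) (-c) := by
  revert h
  refine Filter.Germ.inductionOn x fun f h => ?_
  rw [lim_coe] at h
  exact (lim_coe (-f) (-c)).2 h.neg

private lemma lim_const (c : ℂ) : Lim (↑(fun _ : ℕ => c) : GK) c :=
  (lim_coe _ c).2 tendsto_const_nhds

/-- The finite germs. -/
private noncomputable def grmO : Subring GK where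
  carrier := {x | ∃ c, Lim x c}
  mul_mem' := by
    rintro x y ⟨c, hc⟩ ⟨c', hc'⟩
    exact ⟨c * c', lim_mul hc hc'⟩
  one_mem' := ⟨1, lim_const 1⟩
  add_mem' := by
    rintro x y ⟨c, hc⟩ ⟨c', hc'⟩
    exact ⟨c + c', lim_add hc hc'⟩
  zero_mem' := ⟨0, lim_const 0⟩
  neg_mem' := by
    rintro x ⟨c, hc⟩
    exact ⟨-c, lim_neg hc⟩

private noncomputable def grmStf (x : grmO) : ℂ := Classical.choose x.2

private lemma grmStf_spec (x : grmO) : Lim x (grmStf x) := Classical.choose_spec x.2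

private lemma grmStf_eq (x : grmO) {c : ℂ} (h : Lim x c) : grmStf x = c :=
  lim_unique (grmStf_spec x) h

private noncomputable def grmSt : grmO →+* ℂ where
  toFun := grmStf
  map_one' := grmStf_eq 1 (lim_const 1)
  map_mul' x y := grmStf_eq (x * y) (lim_mul (grmStf_spec x) (grmStf_spec y))
  map_zero' := grmStf_eq 0 (lim_const 0)
  map_add' x y := grmStf_eq (x + y) (lim_add (grmStf_spec x) (grmStf_spec y))

private noncomputable def grmI : ℂ →+* GK :=
  (Filter.Germ.coeRingHom ((hyperfilter ℕ : Ultrafilter ℕ) : Filter ℕ)).comp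
    (Pi.constRingHom ℕ ℂ)

private lemma lim_grmI (c : ℂ) : Lim (grmI c) c := lim_const c

private lemma grm_inv (x : GK) (hx : x ∉ grmO) : Lim x⁻¹ 0 := by
  revert hx
  refine Filter.Germ.inductionOn x fun f hf => ?_
  have h1 : ∀ M : ℝ, ∀ᶠ n in ((hyperfilter ℕ : Ultrafilter ℕ) : Filter ℕ), M < ‖f n‖ := by
    intro M
    by_contra hM
    have h2 : ∀ᶠ n in ((hyperfilter ℕ : Ultrafilter ℕ) : Filter ℕ), ‖f n‖ ≤ M := by
      have h3 := (Ultrafilter.eventually_not (f := (hyperfilter ℕ : Ultrafilter ℕ))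
        (p := fun n => M < ‖f n‖)).2 hM
      exact h3.mono fun n hn => not_lt.1 hn
    obtain ⟨c, hc, -⟩ := germ_bdd f M h2
    exact hf ⟨c, (lim_coe f c).2 hc⟩
  have h2 : Tendsto (fun n => ‖f n‖) ((hyperfilter ℕ : Ultrafilter ℕ) : Filter ℕ) atTop :=
    tendsto_atTop.2 fun M => (h1 M).mono fun n hn => hn.le
  have h3 : Tendsto f⁻¹ ((hyperfilter ℕ : Ultrafilter ℕ) : Filter ℕ) (𝓝 0) := by
    rw [tendsto_zero_iff_norm_tendsto_zero]
    have h4 := tendsto_inv_atTop_zero.comp h2
    refine h4.congr fun n => ?_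
    rw [Function.comp_apply, Pi.inv_apply, norm_inv]
  exact (lim_coe f⁻¹ 0).2 h3

private lemma grm_ne : (↑(fun n : ℕ => (n : ℂ)) : GK) ∉ grmO := by
  rintro ⟨c, hc⟩
  rw [lim_coe] at hc
  have h1 : Tendsto (fun n : ℕ => ‖(n : ℂ)‖) ((hyperfilter ℕ : Ultrafilter ℕ) : Filter ℕ) atTop := by
    have h2 : Tendsto (fun n : ℕ => ‖(n : ℂ)‖) atTop atTop := by
      simp only [Complex.norm_natCast]
      exact tendsto_natCast_atTop_atTop
    exact h2.mono_left Nat.hyperfilter_le_atTop
  exact not_tendsto_nhds_of_tendsto_atTop h1 _ hc.norm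

/-- The place: the limit. -/
noncomputable def germPlc : Plc GK where
  O := grmO
  st := grmSt
  ι := grmI
  mem c := ⟨c, lim_grmI c⟩
  st_ι c := grmStf_eq ⟨grmI c, ⟨c, lim_grmI c⟩⟩ (lim_grmI c)
  inv x hx := ⟨⟨0, grm_inv x hx⟩, grmStf_eq ⟨x⁻¹, ⟨0, grm_inv x hx⟩⟩ (grm_inv x hx)⟩
  ne := ⟨_, grm_ne⟩

theorem germ_mem (f : ℕ → ℂ) : ((f : GK) ∈ germPlc.O) ↔
    ∃ c, Tendsto f ((hyperfilter ℕ : Ultrafilter ℕ) : Filter ℕ) (𝓝 c) := by
  constructor
  · rintro ⟨c, hc⟩
    exact ⟨c, (lim_coe f c).1 hc⟩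
  · rintro ⟨c, hc⟩
    exact ⟨c, (lim_coe f c).2 hc⟩

theorem germ_st (f : ℕ → ℂ) (c : ℂ)
    (h : Tendsto f ((hyperfilter ℕ : Ultrafilter ℕ) : Filter ℕ) (𝓝 c)) (hm : (f : GK) ∈ germPlc.O) :
    germPlc.st ⟨(f : GK), hm⟩ = c :=
  grmStf_eq ⟨(f : GK), hm⟩ ((lim_coe f c).2 h)

end FreyTN
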