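import Pool.Agent.Lib.MP_6babc4_nt.TN.Coi
import Pool.Agent.Lib.MP_6babc4_nt.TN.Grm
import Pool.Agent.Lib.MP_6babc4_nt.TN.Aub
import Pool.Agent.Lib.MP_6babc4_nt.TN.Ame

/-!
# Module Ext: from a sequence of counterexamples to a configuration over the field of germs

PROOF. `U = hyperfilter ℕ`. For each `n` apply `aub` to the functions `l n x j b`, `j ≤ n` (index type `Fin (n + 1) × GI g`) on `X n`: `r_n < B`, `ρ_n`, `c_n`. `r_n = r` for almost all `n` (`U` is an ultrafilter, finitely many values `< B`); for the other `n` the values below are `0`. Choose an injection `ξ n : Fin n → X n` (`n < card`).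
`φ i a` = germ of `n ↦ l n (ξ n i) (ρ_n a)` (for `i < n`, `r_n = r`), `c j b a` = germ of `n ↦ c_n (j, b) a` (`j ≤ n`). For fixed `i, j, b` almost all `n` satisfy `i < n`, `j < n`, `r_n = r`, and `∑ a, c j b a * φ i a` = germ of `n ↦ l n (ξ n i) j b`.
`hφ`: `‖l n x j b‖ ≤ 1 + δ 0` by `step_le` (`‖l n x 0 b‖ ≤ 1 + δ 0`), `germ_bdd`. `hc`: `germ_bdd` with `C = 1`. `hrel`: `Step`. `hnear`: the limit of `l n (ξ n i) j b - 1` has absolute value `≤ δ j`. `hnp`: for `i ≠ k` the vectors `l n (ξ n i) 0`, `l n (ξ n k) 0` are not proportional; pigeonhole for the pair `(b, b')` (finitely many): one pair for almost all `n`.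

`hmono`. Let `y : Fin r → O` with `y ∈ VK (coneId φ S)`, `S` nonempty or not (not needed), `y a = ↑(y_n a)`. CLAIM: for almost all `n`: for all `j < n` and `b` the relation `(∑_a c_n (j+1,b) a y_n a)² = 2^(-g) ∑_b' (∑_a c_n (j,b') a y_n a)(∑_a c_n (j,b+b') a y_n a)` holds. Otherwise choose for almost all `n` a pair `j_n < n`, `b_n` violating it; the quadratic polynomial
`F = (∑_a C γ_a X_a)² - 2^(-g) ∑_b' (..)(..)` over the germs, with the coefficients the germs of `n ↦ c_n (j_n + 1, b_n) a` etc. (write `F = ∑_(a,a') C (germ of κ_n a a') X_a X_a'`) vanishes at `t • φ i` for all `i`, `t` (the relations hold on `X n`, and are homogeneous), so `F ∈ coneId φ S`, `eval y F = 0`, i.e. the relation `(j_n, b_n)` holds at `y_n` for almost all `n`. Contradiction.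
So for almost all `n` the vectors `v_j = (∑_a c_n (j,b) a y_n a)_b`, `j ≤ n`, form a normalised path, and with `ρ_n a = (j, b)`: `‖y_n a‖ = ‖v_j b‖ ≤ max_b' ‖v_0 b'‖` (`c_n (ρ_n a) = Pi.single a 1`, `step_le`). The maximum is attained at one `b'` for almost all `n` (finitely many); take limits: `st (y a)`, `st (∑ c 0 b' a' * y a')`.
-/

set_option autoImplicit false

open Filter Topology

namespace FreyTN

/-- A configuration over the field of germs. -/
structure Cfg (g : ℕ) (δ : ℕ → ℝ) where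
  /-- the dimension -/
  r : ℕ
  /-- the points -/
  φ : ℕ → Fin r → germPlc.O
  /-- the coefficients of the linear forms -/
  c : ℕ → GI g → Fin r → germPlc.O
  hc : ∀ j b a, ‖germPlc.st (c j b a)‖ ≤ 1
  hrel : ∀ i j b, (∑ a, c (j + 1) b a * φ i a) ^ 2 * 2 ^ g =
    ∑ b', (∑ a, c j b' a * φ i a) * ∑ a, c j (b + b') a * φ i a
  hnear : ∀ i j b, ‖germPlc.st (∑ a, c j b a * φ i a) - 1‖ ≤ δ j
  hnp : ∀ i k, i ≠ k → NPr (fun b => ∑ a, c 0 b a * φ i a) (fun b => ∑ a, c 0 b a * φ k a)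
  hmono : ∀ (S : Set ℕ) (y : Fin r → germPlc.O),
    (fun a => (y a : GK)) ∈ VK (coneId (fun i a => (φ i a : GK)) S) →
    ∀ a, ∃ b, ‖germPlc.st (y a)‖ ≤ ‖germPlc.st (∑ a', c 0 b a' * y a')‖


private noncomputable abbrev ExtU : Filter ℕ := ((hyperfilter ℕ : Ultrafilter ℕ) : Filter ℕ)

private theorem ext_pigeon {β : Type} [Finite β] (p : β → ℕ → Prop)
    (h : ∀ᶠ n in ExtU, ∃ b, p b n) : ∃ b, ∀ᶠ n in ExtU, p b n := by
  by_contra hc
  have h1 : ∀ b, ∀ᶠ n in ExtU, ¬ p b n := by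
    intro b
    exact Ultrafilter.eventually_not.2 fun hb => hc ⟨b, hb⟩
  have h2 : ∀ᶠ n in ExtU, ∀ b, ¬ p b n := Filter.eventually_all.2 h1
  have h3 : ∀ᶠ n in ExtU, False := by
    filter_upwards [h, h2] with n ⟨b, hb⟩ h4
    exact h4 b hb
  exact (Filter.eventually_false_iff_eq_bot.1 h3 ▸ (inferInstance : ExtU.NeBot)).ne rfl

private theorem ext_lt (i : ℕ) : ∀ᶠ n in ExtU, i < n := by
  have h : ∀ᶠ n in atTop, i < n := eventually_gt_atTop i
  rw [← Nat.cofinite_eq_atTop] at h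
  exact (hyperfilter_le_cofinite) h

private theorem ext_tend (x : germPlc.O) (f : ℕ → ℂ) (hx : (x : GK) = (f : GK)) :
    Tendsto f ExtU (𝓝 (germPlc.st x)) := by
  have hm : (f : GK) ∈ germPlc.O := hx ▸ x.2
  obtain ⟨c, hc⟩ := (germ_mem f).1 hm
  have h1 := germ_st f c hc hm
  have h2 : x = ⟨(f : GK), hm⟩ := Subtype.ext hx
  rw [h2, h1]
  exact hc

private theorem ext_le (x : germPlc.O) (f : ℕ → ℂ) (hx : (x : GK) = (f : GK)) (w : ℂ) (D : ℝ)
    (h : ∀ᶠ n in ExtU, ‖f n - w‖ ≤ D) : ‖germPlc.st x - w‖ ≤ D :=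
  le_of_tendsto ((ext_tend x f hx).sub_const w).norm h

private theorem ext_mono (x y : germPlc.O) (f h : ℕ → ℂ) (hx : (x : GK) = (f : GK))
    (hy : (y : GK) = (h : GK)) (hle : ∀ᶠ n in ExtU, ‖f n‖ ≤ ‖h n‖) :
    ‖germPlc.st x‖ ≤ ‖germPlc.st y‖ :=
  le_of_tendsto_of_tendsto (ext_tend x f hx).norm (ext_tend y h hy).norm hle

private theorem ext_mem (f : ℕ → ℂ) (C : ℝ) (h : ∀ᶠ n in ExtU, ‖f n‖ ≤ C) :
    (f : GK) ∈ germPlc.O := by
  obtain ⟨c, hc, -⟩ := germ_bdd f C h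
  exact (germ_mem f).2 ⟨c, hc⟩

private theorem ext_sum {ι : Type} (s : Finset ι) (f h : ι → ℕ → ℂ) :
    ∑ a ∈ s, ((f a : GK) * (h a : GK)) = ((fun n => ∑ a ∈ s, f a n * h a n : ℕ → ℂ) : GK) := by
  have h1 : ((fun n => ∑ a ∈ s, f a n * h a n : ℕ → ℂ)) = ∑ a ∈ s, (f a * h a) := by
    funext n
    rw [Finset.sum_apply]
    rfl
  rw [h1]
  exact (map_sum (Germ.coeRingHom ExtU) (fun a => f a * h a) s).symm

private theorem ext_path {g n : ℕ} (v : ℕ → GI g → ℂ) (hs : ∀ j < n, Step (v j) (v (j + 1)))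
    {R : ℝ} (hR : ∀ b, ‖v 0 b‖ ≤ R) : ∀ j ≤ n, ∀ b, ‖v j b‖ ≤ R := by
  intro j
  induction j with
  | zero => intro _ b; exact hR b
  | succ j ih =>
    intro hj b
    exact step_le (hs j (by omega)) (ih (by omega)) b

/-- The data at one level. -/
private def ExtGood {g : ℕ} {X : Type} (n : ℕ) (l : X → ℕ → GI g → ℂ) (r : ℕ)
    (ρ : Fin r → ℕ × GI g) (c : ℕ → GI g → Fin r → ℂ) : Prop :=
  (∀ j b a, ‖c j b a‖ ≤ 1) ∧
  (∀ j ≤ n, ∀ b x, l x j b = ∑ a, c j b a * l x (ρ a).1 (ρ a).2) ∧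
  (∀ a, (ρ a).1 ≤ n ∧ c (ρ a).1 (ρ a).2 = Pi.single a 1)

private theorem ext_good {g n B : ℕ} {X : Type} (l : X → ℕ → GI g → ℂ) (hr : RankLt n B l) :
    ∃ r < B, ∃ (ρ : Fin r → ℕ × GI g) (c : ℕ → GI g → Fin r → ℂ), ExtGood n l r ρ c := by
  obtain ⟨r, hrB, ρ, c, h1, h2, h3⟩ := aub (X := X) (I := Fin (n + 1) × GI g)
    (fun i x => l x i.1 i.2) B (by
      intro ρ x
      exact hr (fun a => ((ρ a).1.val, (ρ a).2)) x (fun a => by
        have := (ρ a).1.isLt
        show (ρ a).1.val ≤ n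
        omega))
  refine ⟨r, hrB, fun a => ((ρ a).1.val, (ρ a).2),
    fun j b a => if h : j < n + 1 then c (⟨j, h⟩, b) a else 0, ?_, ?_, ?_⟩
  · intro j b a
    by_cases h : j < n + 1
    · simp only [dif_pos h]
      exact h1 _ _
    · simp only [dif_neg h, norm_zero]
      exact zero_le_one
  · intro j hj b x
    have hj' : j < n + 1 := by omega
    have := h2 (⟨j, hj'⟩, b) x
    simp only [dif_pos hj']
    exact this
  · intro a
    refine ⟨by
      have := (ρ a).1.isLt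
      show (ρ a).1.val ≤ n
      omega, ?_⟩
    funext a'
    have hj' : (ρ a).1.val < n + 1 := (ρ a).1.isLt
    simp only [dif_pos hj']
    have := congrFun (h3 a) a'
    exact this

private theorem ext_points {X : Type} [Fintype X] (n : ℕ) (hX : n < Fintype.card X) :
    ∃ ξ : ℕ → X, ∀ i j, i < n → j < n → ξ i = ξ j → i = j := by
  have hne : Nonempty X := Fintype.card_pos_iff.1 (by omega)
  have h1 : Fintype.card (Fin n) ≤ Fintype.card X := by
    rw [Fintype.card_fin]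
    exact hX.le
  obtain ⟨e⟩ := Function.Embedding.nonempty_of_card_le h1
  refine ⟨fun i => if h : i < n then e ⟨i, h⟩ else Classical.arbitrary X, ?_⟩
  intro i j hi hj h
  simp only [dif_pos hi, dif_pos hj] at h
  have := e.injective h
  exact congrArg Fin.val this

private theorem ext_choice {g : ℕ} (B : ℕ) (X : ℕ → Type) (l : ∀ n, X n → ℕ → GI g → ℂ)
    (hr : ∀ n, RankLt n B (l n)) :
    ∃ (r : ℕ) (ρ : ∀ _ : ℕ, Fin r → ℕ × GI g) (c : ∀ _ : ℕ, ℕ → GI g → Fin r → ℂ),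
      ∀ᶠ n in ExtU, ExtGood n (l n) r (ρ n) (c n) := by
  have h1 : ∃ r : Fin B, ∀ᶠ n in ExtU, ∃ (ρ : Fin r → ℕ × GI g) (c : ℕ → GI g → Fin r → ℂ),
      ExtGood n (l n) r ρ c := by
    apply ext_pigeon
    refine Eventually.of_forall fun n => ?_
    obtain ⟨r, hrB, ρ, c, h⟩ := ext_good (l n) (hr n)
    exact ⟨⟨r, hrB⟩, ρ, c, h⟩
  obtain ⟨r, h2⟩ := h1
  classical
  have h3 : ∀ n, ∃ (ρ : Fin r → ℕ × GI g) (c : ℕ → GI g → Fin r → ℂ),
      (∃ (ρ : Fin r → ℕ × GI g) (c : ℕ → GI g → Fin r → ℂ), ExtGood n (l n) r ρ c) →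
        ExtGood n (l n) r ρ c := by
    intro n
    by_cases h : ∃ (ρ : Fin r → ℕ × GI g) (c : ℕ → GI g → Fin r → ℂ), ExtGood n (l n) r ρ c
    · obtain ⟨ρ, c, h'⟩ := h
      exact ⟨ρ, c, fun _ => h'⟩
    · exact ⟨fun _ => (0, 0), fun _ _ _ => 0, fun h' => absurd h' h⟩
  choose ρ c h4 using h3
  refine ⟨r, ρ, c, ?_⟩
  filter_upwards [h2] with n hn
  exact h4 n hn

theorem cfg_exists {g : ℕ} {δ : ℕ → ℝ} (B : ℕ) (X : ℕ → Type) [∀ n, Fintype (X n)]
    (hX : ∀ n, n < Fintype.card (X n)) (l : ∀ n, X n → ℕ → GI g → ℂ)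
    (hs : ∀ n x, ∀ j < n, Step (l n x j) (l n x (j + 1)))
    (hn : ∀ n x, ∀ j ≤ n, ∀ b, ‖l n x j b - 1‖ ≤ δ j)
    (hp : ∀ n x y, x ≠ y → NPr (l n x 0) (l n y 0))
    (hr : ∀ n, RankLt n B (l n)) : Nonempty (Cfg g δ) := by
  obtain ⟨r, ρ, c, hG⟩ := ext_choice B X l hr
  have hξ : ∀ n, ∃ ξ : ℕ → X n, ∀ i j, i < n → j < n → ξ i = ξ j → i = j :=
    fun n => ext_points n (hX n)
  choose ξ hξ using hξ
  have hlb : ∀ n x, ∀ j ≤ n, ∀ b, ‖l n x j b‖ ≤ 1 + δ 0 := by
    intro n x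
    apply ext_path (l n x) (hs n x)
    intro b
    have h1 := hn n x 0 (Nat.zero_le _) b
    have h2 : ‖l n x 0 b‖ ≤ ‖l n x 0 b - 1‖ + ‖(1 : ℂ)‖ := by
      have := norm_add_le (l n x 0 b - 1) 1
      simpa using this
    rw [norm_one] at h2
    linarith
  have hφm : ∀ i a, ((fun n => l n (ξ n i) (ρ n a).1 (ρ n a).2 : ℕ → ℂ) : GK) ∈ germPlc.O := by
    intro i a
    apply ext_mem _ (1 + δ 0)
    filter_upwards [hG] with n hg
    exact hlb n _ _ (hg.2.2 a).1 _
  have hcm : ∀ j b a, ((fun n => c n j b a : ℕ → ℂ) : GK) ∈ germPlc.O := by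
    intro j b a
    apply ext_mem _ 1
    filter_upwards [hG] with n hg
    exact hg.1 j b a
  let φ : ℕ → Fin r → germPlc.O := fun i a => ⟨_, hφm i a⟩
  let cc : ℕ → GI g → Fin r → germPlc.O := fun j b a => ⟨_, hcm j b a⟩
  have hL : ∀ i j b, ((∑ a, cc j b a * φ i a : germPlc.O) : GK) =
      ((fun n => l n (ξ n i) j b : ℕ → ℂ) : GK) := by
    intro i j b
    have h1 : ((∑ a, cc j b a * φ i a : germPlc.O) : GK) =
        ∑ a, (((fun n => c n j b a : ℕ → ℂ) : GK) *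
          ((fun n => l n (ξ n i) (ρ n a).1 (ρ n a).2 : ℕ → ℂ) : GK)) := by
      rw [AddSubmonoidClass.coe_finsetSum]
      rfl
    rw [h1, ext_sum]
    apply Germ.coe_eq.2
    filter_upwards [hG, ext_lt j] with n hg hj
    exact (hg.2.1 j hj.le b _).symm
  refine ⟨{ r := r, φ := φ, c := cc, hc := ?_, hrel := ?_, hnear := ?_, hnp := ?_, hmono := ?_ }⟩
  · intro j b a
    have := ext_le (cc j b a) (fun n => c n j b a) rfl 0 1 (by
      filter_upwards [hG] with n hg
      rw [sub_zero]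
      exact hg.1 j b a)
    rwa [sub_zero] at this
  · intro i j b
    apply Subtype.ext
    have h1 : (((∑ a, cc (j + 1) b a * φ i a) ^ 2 * 2 ^ g : germPlc.O) : GK) =
        ((∑ a, cc (j + 1) b a * φ i a : germPlc.O) : GK) ^ 2 * 2 ^ g := rfl
    have h2 : ((∑ b', (∑ a, cc j b' a * φ i a) * ∑ a, cc j (b + b') a * φ i a : germPlc.O) : GK) =
        ∑ b', (((∑ a, cc j b' a * φ i a : germPlc.O) : GK) *
          ((∑ a, cc j (b + b') a * φ i a : germPlc.O) : GK)) := by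
      rw [AddSubmonoidClass.coe_finsetSum]
      rfl
    rw [h1, h2]
    simp only [hL]
    rw [ext_sum]
    have h3 : ((fun n => l n (ξ n i) (j + 1) b : ℕ → ℂ) : GK) ^ 2 * 2 ^ g =
        ((fun n => l n (ξ n i) (j + 1) b ^ 2 * 2 ^ g : ℕ → ℂ) : GK) := rfl
    rw [h3]
    apply Germ.coe_eq.2
    filter_upwards [ext_lt j] with n hj
    have h4 := hs n (ξ n i) j hj b
    show l n (ξ n i) (j + 1) b ^ 2 * 2 ^ g = _
    rw [h4, div_mul_cancel₀ _ (pow_ne_zero _ two_ne_zero)]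
    rfl
  · intro i j b
    apply ext_le _ _ (hL i j b)
    filter_upwards [ext_lt j] with n hj
    exact hn n _ j hj.le b
  · intro i k hik
    have h1 : ∃ p : GI g × GI g, ∀ᶠ n in ExtU,
        l n (ξ n i) 0 p.1 * l n (ξ n k) 0 p.2 ≠ l n (ξ n i) 0 p.2 * l n (ξ n k) 0 p.1 := by
      apply ext_pigeon
      filter_upwards [ext_lt i, ext_lt k] with n hi hk
      have hne : ξ n i ≠ ξ n k := fun h => hik (hξ n i k hi hk h)
      obtain ⟨b, b', h⟩ := hp n _ _ hne
      exact ⟨(b, b'), h⟩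
    obtain ⟨⟨b, b'⟩, h2⟩ := h1
    refine ⟨b, b', fun h => ?_⟩
    have h3 : ((∑ a, cc 0 b a * φ i a : germPlc.O) : GK) * ((∑ a, cc 0 b' a * φ k a : germPlc.O) : GK) =
        ((∑ a, cc 0 b' a * φ i a : germPlc.O) : GK) * ((∑ a, cc 0 b a * φ k a : germPlc.O) : GK) :=
      congrArg Subtype.val h
    simp only [hL] at h3
    have h4 : (fun n => l n (ξ n i) 0 b * l n (ξ n k) 0 b') =ᶠ[ExtU]
        fun n => l n (ξ n i) 0 b' * l n (ξ n k) 0 b := Germ.coe_eq.1 h3
    have h5 : ∀ᶠ n in ExtU, False := by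
      filter_upwards [h2, h4] with n h6 h7
      exact h6 h7
    exact (Filter.eventually_false_iff_eq_bot.1 h5 ▸ (inferInstance : ExtU.NeBot)).ne rfl
  · intro S y hy a
    -- representatives
    have hY : ∀ a, ∃ f : ℕ → ℂ, (y a : GK) = (f : GK) := by
      intro a
      obtain ⟨f, hf⟩ := Quot.exists_rep (y a : GK)
      exact ⟨f, hf.symm⟩
    choose Y hY using hY
    have hclaim : ∀ᶠ n in ExtU, ∀ j < n, ∀ b : GI g,
        (∑ a, c n (j + 1) b a * Y a n) ^ 2 * 2 ^ g =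
          ∑ b', (∑ a, c n j b' a * Y a n) * ∑ a, c n j (b + b') a * Y a n := by
      by_contra hcon
      have h1 : ∀ᶠ n in ExtU, ¬ ∀ j < n, ∀ b : GI g,
          (∑ a, c n (j + 1) b a * Y a n) ^ 2 * 2 ^ g =
            ∑ b', (∑ a, c n j b' a * Y a n) * ∑ a, c n j (b + b') a * Y a n :=
        Ultrafilter.eventually_not.2 hcon
      have h2 : ∀ n, ∃ (j : ℕ) (b : GI g), (¬ ∀ j < n, ∀ b : GI g,
          (∑ a, c n (j + 1) b a * Y a n) ^ 2 * 2 ^ g =
            ∑ b', (∑ a, c n j b' a * Y a n) * ∑ a, c n j (b + b') a * Y a n) →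
          (j < n ∧ (∑ a, c n (j + 1) b a * Y a n) ^ 2 * 2 ^ g ≠
            ∑ b', (∑ a, c n j b' a * Y a n) * ∑ a, c n j (b + b') a * Y a n) := by
        intro n
        by_cases h : ∀ j < n, ∀ b : GI g,
          (∑ a, c n (j + 1) b a * Y a n) ^ 2 * 2 ^ g =
            ∑ b', (∑ a, c n j b' a * Y a n) * ∑ a, c n j (b + b') a * Y a n
        · exact ⟨0, 0, fun h' => absurd h h'⟩
        · have h' := h
          push Not at h'
          obtain ⟨j, hj, b, hb⟩ := h'
          exact ⟨j, b, fun _ => ⟨hj, hb⟩⟩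
      choose jj bb h3 using h2
      have h4 : ∀ᶠ n in ExtU, jj n < n ∧
          (∑ a, c n (jj n + 1) (bb n) a * Y a n) ^ 2 * 2 ^ g ≠
            ∑ b', (∑ a, c n (jj n) b' a * Y a n) * ∑ a, c n (jj n) (bb n + b') a * Y a n := by
        filter_upwards [h1] with n hn1
        exact h3 n hn1
      let γ : Fin r → ℕ → ℂ := fun a n => c n (jj n + 1) (bb n) a
      let α : GI g → Fin r → ℕ → ℂ := fun b' a n => c n (jj n) b' a
      let β : GI g → Fin r → ℕ → ℂ := fun b' a n => c n (jj n) (bb n + b') a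
      let F : MvPolynomial (Fin r) GK :=
        (∑ a, MvPolynomial.C (γ a : GK) * MvPolynomial.X a) ^ 2 * MvPolynomial.C (2 ^ g) -
          ∑ b', (∑ a, MvPolynomial.C (α b' a : GK) * MvPolynomial.X a) *
            ∑ a, MvPolynomial.C (β b' a : GK) * MvPolynomial.X a
      have hev : ∀ z : Fin r → ℕ → ℂ, MvPolynomial.eval (fun a => (z a : GK)) F =
          ((fun n => (∑ a, γ a n * z a n) ^ 2 * 2 ^ g -
            ∑ b', (∑ a, α b' a n * z a n) * ∑ a, β b' a n * z a n : ℕ → ℂ) : GK) := by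
        intro z
        have e1 : MvPolynomial.eval (fun a => (z a : GK)) F =
            (∑ a, (γ a : GK) * (z a : GK)) ^ 2 * 2 ^ g -
              ∑ b', (∑ a, (α b' a : GK) * (z a : GK)) * ∑ a, (β b' a : GK) * (z a : GK) := by
          simp only [F, map_sub, map_mul, map_pow, map_sum, MvPolynomial.eval_C,
            MvPolynomial.eval_X]
        rw [e1]
        simp only [ext_sum]
        rfl
      have hFS : F ∈ coneId (fun i a => (φ i a : GK)) S := by
        intro i _ t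
        obtain ⟨τ, hτ⟩ := Quot.exists_rep t
        have hτ' : t = (τ : GK) := hτ.symm
        have e1 : (t • fun a => (φ i a : GK)) =
            fun a => ((fun n => τ n * l n (ξ n i) (ρ n a).1 (ρ n a).2 : ℕ → ℂ) : GK) := by
          funext a
          rw [hτ']
          rfl
        show MvPolynomial.eval (t • fun a => (φ i a : GK)) F = 0
        rw [e1, hev]
        have e2 : ((fun _ => 0 : ℕ → ℂ) : GK) = 0 := rfl
        rw [← e2]
        apply Germ.coe_eq.2
        filter_upwards [hG, h4] with n hg hn4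
        have hj : jj n < n := hn4.1
        have key : ∀ j ≤ n, ∀ b : GI g,
            ∑ a, c n j b a * (τ n * l n (ξ n i) (ρ n a).1 (ρ n a).2) = τ n * l n (ξ n i) j b := by
          intro j hj b
          rw [hg.2.1 j hj b (ξ n i), Finset.mul_sum]
          refine Finset.sum_congr rfl fun a _ => ?_
          ring
        show (∑ a, c n (jj n + 1) (bb n) a * (τ n * l n (ξ n i) (ρ n a).1 (ρ n a).2)) ^ 2 * 2 ^ g -
            ∑ b', (∑ a, c n (jj n) b' a * (τ n * l n (ξ n i) (ρ n a).1 (ρ n a).2)) *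
              ∑ a, c n (jj n) (bb n + b') a * (τ n * l n (ξ n i) (ρ n a).1 (ρ n a).2) = 0
        rw [key (jj n + 1) hj (bb n)]
        simp only [key (jj n) hj.le]
        have h5 := hs n (ξ n i) (jj n) hj (bb n)
        have h6 : l n (ξ n i) (jj n + 1) (bb n) ^ 2 * 2 ^ g =
            ∑ b', l n (ξ n i) (jj n) b' * l n (ξ n i) (jj n) (bb n + b') := by
          rw [h5, div_mul_cancel₀ _ (pow_ne_zero _ two_ne_zero)]
          rfl
        rw [mul_pow, mul_assoc, h6, Finset.mul_sum, sub_eq_zero]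
        refine Finset.sum_congr rfl fun b' _ => ?_
        ring
      have h5 := hy F hFS
      have h6 : (fun a => (y a : GK)) = fun a => (Y a : GK) := funext hY
      rw [h6, hev] at h5
      have e2 : ((fun _ => 0 : ℕ → ℂ) : GK) = 0 := rfl
      rw [← e2] at h5
      have h7 := Germ.coe_eq.1 h5
      have h8 : ∀ᶠ n in ExtU, False := by
        filter_upwards [h4, h7] with n hn4 hn7
        exact hn4.2 (sub_eq_zero.1 hn7)
      exact (Filter.eventually_false_iff_eq_bot.1 h8 ▸ (inferInstance : ExtU.NeBot)).ne rfl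
    have hpig : ∃ b, ∀ᶠ n in ExtU, ‖Y a n‖ ≤ ‖∑ a', c n 0 b a' * Y a' n‖ := by
      apply ext_pigeon
      filter_upwards [hclaim, hG] with n hcl hg
      obtain ⟨b0, hb0⟩ := Finite.exists_max (fun b : GI g => ‖∑ a', c n 0 b a' * Y a' n‖)
      refine ⟨b0, ?_⟩
      have h1 := ext_path (n := n) (fun j b => ∑ a', c n j b a' * Y a' n) (by
        intro j hj b
        have h2 := hcl j hj b
        rw [eq_div_iff (pow_ne_zero _ two_ne_zero)]
        exact h2) hb0 (ρ n a).1 (hg.2.2 a).1 (ρ n a).2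
      have h3 : ∑ a', c n (ρ n a).1 (ρ n a).2 a' * Y a' n = Y a n := by
        rw [(hg.2.2 a).2]
        simp [Pi.single_apply]
      rw [← h3]
      exact h1
    obtain ⟨b, hb⟩ := hpig
    refine ⟨b, ext_mono (y a) _ (Y a) (fun n => ∑ a', c n 0 b a' * Y a' n) (hY a) ?_ hb⟩
    have h1 : ((∑ a', cc 0 b a' * y a' : germPlc.O) : GK) =
        ∑ a', (((fun n => c n 0 b a' : ℕ → ℂ) : GK) * (Y a' : GK)) := by
      rw [AddSubmonoidClass.coe_finsetSum]
      refine Finset.sum_congr rfl fun a' _ => ?_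
      rw [← hY a']
      rfl
    rw [h1, ext_sum]

end FreyTN
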