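import Pool.Agent.Lib.MP_6babc4_nt.TN.Spc
import Pool.Agent.Lib.MP_6babc4_nt.TN.Ext
import Pool.Agent.Lib.MP_6babc4_nt.TN.Cfa

/-!
# Module Thd: the key lemma, finite form

`no_cfg`. PROOF. `φ' i = (φ i a : GK)`, not zero and pairwise linearly independent (`hnp`: if `s φ' i = t φ' k` then the vectors `∑ a, c 0 b a φ i a` are proportional). `S`, `J = coneId φ' S` from `coneId_exists`; `HI J` (`coneId_hom`; `eval 0 f = eval (0 • φ' x) f = 0`, `S` nonempty). An enumeration of `S` gives `f : ℕ → ..` with `f i ∈ VK J`.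
Let `i ∈ S`, `z = st (φ i)`: `z ∈ ZC` (`st_mem`), `L j b z → 1` for `L j b y = ∑ a, st (c j b a) * y a` (`hnear`, `δ → 0`), so `z ≠ 0`. On `ZC`: (1) `Step (L j · y) (L (j+1) · y)` (the polynomial `2^g (∑ c (j+1) b a X a)² - ∑ (..)(..)` over `O` maps into `J`: it vanishes on the lines of the `φ' i`); (2) `‖y a‖ ≤ ‖L 0 b y‖` for some `b` (`spec_points` and `hmono`), so
`L 0 · y = 0` implies `y = 0`. `spec_acc`: choose `0 < w_n`, decreasing to `0`, and `y_n ∈ ZC`, `p0 y_n = 1`, `p1 y_n = w_n`, `‖y_n - z‖ < 1/(n+1)`: pairwise linearly independent. `cone_seq`: `V`, `IsCone V`, `z ∈ V`. `V ⊆ ZC`: for `F` over `O` with `F.map subtype ∈ J` the polynomial `F.map st` vanishes at all `t • y_n ∈ ZC` (`zc_smul`).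
`cone_false` for `V`, `L` (`‖L j b y‖ ≤ r ‖y‖` by `hc`).

`bound`. PROOF. By contradiction: `push_neg`, for `k = N = n` a counterexample `X n`; `cfg_exists`, `no_cfg`.
-/

set_option autoImplicit false

open Filter Topology

namespace FreyTN

open FreyG2

/-- The linear form with the coefficients `st (c a)`. -/
private noncomputable def frm {r : ℕ} (c : Fin r → germPlc.O) : (Fin r → ℂ) →ₗ[ℂ] ℂ :=
  ∑ a, germPlc.st (c a) • LinearMap.proj (R := ℂ) (φ := fun _ : Fin r => ℂ) a

private lemma frm_apply {r : ℕ} (c : Fin r → germPlc.O) (y : Fin r → ℂ) :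
    frm c y = ∑ a, germPlc.st (c a) * y a := by
  unfold frm
  rw [LinearMap.sum_apply]
  rfl

private lemma frm_st {r : ℕ} (c y : Fin r → germPlc.O) :
    frm c (fun a => germPlc.st (y a)) = germPlc.st (∑ a, c a * y a) := by
  rw [frm_apply, map_sum]
  exact Finset.sum_congr rfl fun a _ => (map_mul _ _ _).symm

/-- A sequence of different small positive numbers. -/
private lemma small_seq (η : ℕ → ℝ) (hη : ∀ n, 0 < η n) :
    ∃ w : ℕ → ℝ, StrictAnti w ∧ ∀ n, 0 < w n ∧ w n < η n := by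
  have hpos : ∀ i, 0 < min 1 (η i) / 2 := fun i =>
    half_pos (lt_min one_pos (hη i))
  have hle : ∀ i, min 1 (η i) / 2 ≤ 1 / 2 := fun i => by
    have := min_le_left 1 (η i)
    linarith
  have hw0 : ∀ n, 0 < ∏ i ∈ Finset.range n, min 1 (η i) / 2 := fun n =>
    Finset.prod_pos fun i _ => hpos i
  have hw1 : ∀ n, ∏ i ∈ Finset.range n, min 1 (η i) / 2 ≤ 1 := fun n =>
    Finset.prod_le_one (fun i _ => (hpos i).le) fun i _ => by linarith [hle i]
  refine ⟨fun n => ∏ i ∈ Finset.range (n + 1), min 1 (η i) / 2, ?_, fun n => ⟨hw0 _, ?_⟩⟩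
  · refine strictAnti_nat_of_succ_lt fun n => ?_
    rw [Finset.prod_range_succ _ (n + 1)]
    have h1 := hw0 (n + 1)
    have h2 := hle (n + 1)
    nlinarith
  · show ∏ i ∈ Finset.range (n + 1), min 1 (η i) / 2 < η n
    rw [Finset.prod_range_succ]
    have h1 := hw0 n
    have h2 := hw1 n
    have h3 := hpos n
    have h4 : min 1 (η n) ≤ η n := min_le_right _ _
    nlinarith [hη n]

theorem no_cfg {g : ℕ} {δ : ℕ → ℝ} (hδ : Tendsto δ atTop (𝓝 0)) (C : Cfg g δ) : False := by
  have hac : IsAlgClosed GK := germ_closed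
  let φ' : ℕ → Fin C.r → GK := fun i a => (C.φ i a : GK)
  obtain ⟨S, hS, hprime⟩ := coneId_exists (𝕂 := GK) (X := ℕ) φ'
  set J := coneId φ' S with hJdef
  obtain ⟨i₀, hi₀⟩ := hS.nonempty
  have hJ : HI J := by
    refine ⟨hprime, fun f hf n => coneId_hom φ' S f hf n, fun f hf => ?_⟩
    have h1 := hf i₀ hi₀ 0
    rwa [zero_smul] at h1
  have hvk : ∀ i ∈ S, φ' i ∈ VK J := by
    intro i hi F hF
    have h1 := hF i hi 1
    rwa [one_smul] at h1
  -- the linear forms
  let L : ℕ → GI g → (Fin C.r → ℂ) →ₗ[ℂ] ℂ := fun j b => frm (C.c j b)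
  -- relation on `ZC`
  have hstep : ∀ y ∈ ZC germPlc J, ∀ j, Step (fun b => L j b y) (fun b => L (j + 1) b y) := by
    intro y hy j b
    let F : MvPolynomial (Fin C.r) germPlc.O :=
      (∑ a, MvPolynomial.C (C.c (j + 1) b a) * MvPolynomial.X a) ^ 2 * 2 ^ g -
        ∑ b', (∑ a, MvPolynomial.C (C.c j b' a) * MvPolynomial.X a) *
          ∑ a, MvPolynomial.C (C.c j (b + b') a) * MvPolynomial.X a
    have hF : MvPolynomial.map germPlc.O.subtype F ∈ J := by
      intro i hi t
      have h1 := congrArg (germPlc.O.subtype) (C.hrel i j b)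
      simp only [map_mul, map_pow, map_sum, map_ofNat, Subring.subtype_apply] at h1
      simp only [F, map_sub, map_mul, map_pow, map_sum, map_ofNat, MvPolynomial.map_C,
        MvPolynomial.map_X, MvPolynomial.eval_C, MvPolynomial.eval_X, Subring.subtype_apply,
        Pi.smul_apply, smul_eq_mul]
      have h2 : ∀ c : Fin C.r → germPlc.O, ∑ a, (c a : GK) * (t * φ' i a) =
          t * ∑ a, (c a : GK) * (C.φ i a : GK) := by
        intro c
        rw [Finset.mul_sum]
        refine Finset.sum_congr rfl fun a _ => ?_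
        show (c a : GK) * (t * (C.φ i a : GK)) = _
        ring
      simp only [h2]
      have h3 : ∀ b', t * (∑ a, (C.c j b' a : GK) * (C.φ i a : GK)) *
          (t * ∑ a, (C.c j (b + b') a : GK) * (C.φ i a : GK)) =
          t ^ 2 * ((∑ a, (C.c j b' a : GK) * (C.φ i a : GK)) *
          ∑ a, (C.c j (b + b') a : GK) * (C.φ i a : GK)) := fun b' => by ring
      simp only [h3]
      rw [← Finset.mul_sum, ← h1]
      ring
    have h1 := hy F hF
    simp only [F, map_sub, map_mul, map_pow, map_sum, map_ofNat, MvPolynomial.map_C,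
      MvPolynomial.map_X, MvPolynomial.eval_C, MvPolynomial.eval_X] at h1
    have h2 : ((2 : ℂ) ^ g) ≠ 0 := pow_ne_zero _ two_ne_zero
    show (L (j + 1) b y) ^ 2 = sq (fun b => L j b y) b / 2 ^ g
    rw [eq_div_iff h2]
    unfold sq
    simp only [L, frm_apply]
    exact sub_eq_zero.1 h1
  have hzero : ∀ y ∈ ZC germPlc J, (∀ b, L 0 b y = 0) → y = 0 := by
    intro y hy h0
    obtain ⟨y', hy1, hy2⟩ := spec_points germPlc hJ hy
    funext a
    obtain ⟨b, hb⟩ := C.hmono S y' hy1 a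
    have h1 := h0 b
    rw [← hy2] at h1 ⊢
    rw [frm_st] at h1
    rw [h1, norm_zero] at hb
    exact norm_le_zero_iff.1 hb
  -- the base point
  let z : Fin C.r → ℂ := fun a => germPlc.st (C.φ i₀ a)
  have hz : z ∈ ZC germPlc J := st_mem germPlc (C.φ i₀) (hvk i₀ hi₀)
  have hz1 : ∀ b, Tendsto (fun j => L j b z) atTop (𝓝 1) := by
    intro b
    rw [tendsto_iff_norm_sub_tendsto_zero]
    refine squeeze_zero (fun j => norm_nonneg _) (fun j => ?_) hδ
    have h1 := C.hnear i₀ j b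
    rw [← frm_st] at h1
    exact h1
  have hz0 : z ≠ 0 := by
    intro h0
    have h1 := hz1 0
    rw [h0] at h1
    simp only [map_zero] at h1
    exact zero_ne_one (tendsto_nhds_unique tendsto_const_nhds h1)
  -- the accumulation
  let e := hS.natEmbedding
  have hli : ∀ i k, i ≠ k → LinearIndependent GK ![φ' (e i), φ' (e k)] := by
    intro i k hik
    have hne : ((e i : S) : ℕ) ≠ ((e k : S) : ℕ) := fun h => hik (e.injective (Subtype.ext h))
    obtain ⟨b, b', hb⟩ := C.hnp _ _ hne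
    rw [LinearIndependent.pair_iff]
    intro s t hst
    have h1 : ∀ c : Fin C.r → germPlc.O, s * ((∑ a, c a * C.φ (e i) a : germPlc.O) : GK) +
        t * ((∑ a, c a * C.φ (e k) a : germPlc.O) : GK) = 0 := by
      intro c
      have h2 : ∀ a, s * (C.φ (e i) a : GK) + t * (C.φ (e k) a : GK) = 0 := fun a => congrFun hst a
      have h3 : ∀ i, ((∑ a, c a * C.φ i a : germPlc.O) : GK) =
          ∑ a, (c a : GK) * (C.φ i a : GK) := by
        intro i
        push_cast
        rfl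
      rw [h3, h3, Finset.mul_sum, Finset.mul_sum, ← Finset.sum_add_distrib]
      refine Finset.sum_eq_zero fun a _ => ?_
      linear_combination (c a : GK) * h2 a
    have h2 := h1 (C.c 0 b)
    have h3 := h1 (C.c 0 b')
    have h4 : (((∑ a, C.c 0 b a * C.φ (e i) a) * (∑ a, C.c 0 b' a * C.φ (e k) a) -
        (∑ a, C.c 0 b' a * C.φ (e i) a) * (∑ a, C.c 0 b a * C.φ (e k) a) : germPlc.O) : GK) ≠ 0 := by
      intro h5
      exact hb (sub_eq_zero.1 (Subtype.ext h5))
    rw [AddSubgroupClass.coe_sub, Subring.coe_mul, Subring.coe_mul] at h4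
    constructor
    · refine (mul_eq_zero.1 (?_ : s * _ = 0)).resolve_right h4
      linear_combination ((∑ a, C.c 0 b' a * C.φ (e k) a : germPlc.O) : GK) * h2 -
        ((∑ a, C.c 0 b a * C.φ (e k) a : germPlc.O) : GK) * h3
    · refine (mul_eq_zero.1 (?_ : t * _ = 0)).resolve_right h4
      linear_combination ((∑ a, C.c 0 b a * C.φ (e i) a : germPlc.O) : GK) * h3 -
        ((∑ a, C.c 0 b' a * C.φ (e i) a : germPlc.O) : GK) * h2
  obtain ⟨p0, p1, hp0, hp1, hacc⟩ := spec_acc germPlc hJ (fun i => φ' (e i))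
    (fun i => hvk _ (e i).2) hli hz hz0
  choose η hη hη2 using fun n : ℕ => hacc (1 / ((n : ℝ) + 1)) (by positivity)
  obtain ⟨w, hw, hw2⟩ := small_seq η hη
  have hex : ∀ n, ∃ y ∈ ZC germPlc J, p0 y = 1 ∧ p1 y = (w n : ℂ) ∧ ‖y - z‖ < 1 / ((n : ℝ) + 1) := by
    intro n
    refine hη2 n (w n : ℂ) ?_
    rw [Complex.norm_real, Real.norm_of_nonneg (hw2 n).1.le]
    exact (hw2 n).2
  choose y hyZ hy0 hy1 hy2 using hex
  have hyli : ∀ i k, i ≠ k → LinearIndependent ℂ ![y i, y k] := by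
    intro i k hik
    rw [LinearIndependent.pair_iff]
    intro s t hst
    have h1 := congrArg p0 hst
    have h2 := congrArg p1 hst
    rw [map_add, map_smul, map_smul, hy0, hy0, map_zero, smul_eq_mul, smul_eq_mul, mul_one,
      mul_one] at h1
    rw [map_add, map_smul, map_smul, hy1, hy1, map_zero, smul_eq_mul, smul_eq_mul] at h2
    have h3 : (w i : ℂ) - w k ≠ 0 := by
      intro h4
      exact hik (hw.injective (Complex.ofReal_injective (sub_eq_zero.1 h4)))
    have h4 : s = 0 := by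
      refine (mul_eq_zero.1 (?_ : s * ((w i : ℂ) - w k) = 0)).resolve_right h3
      linear_combination h2 - (w k : ℂ) * h1
    refine ⟨h4, ?_⟩
    rw [h4, zero_add] at h1
    exact h1
  have hyt : Tendsto y atTop (𝓝 z) := by
    rw [tendsto_iff_norm_sub_tendsto_zero]
    refine squeeze_zero (fun j => norm_nonneg _) (fun j => (hy2 j).le) ?_
    exact tendsto_one_div_add_atTop_nhds_zero_nat
  obtain ⟨V, hV, hzV, hVf⟩ := cone_seq y hyli hyt
  have hVZ : ∀ v ∈ V, v ∈ ZC germPlc J := by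
    intro v hv F hF
    refine hVf _ (fun i t => ?_) v hv
    exact zc_smul germPlc hJ t (hyZ i) F hF
  refine cone_false hV L (fun v hv j => hstep v (hVZ v hv) j) ⟨C.r, fun j b v => ?_⟩ hzV hz1
    (fun v hv h0 => hzero v (hVZ v hv) h0)
  show ‖frm (C.c j b) v‖ ≤ C.r * ‖v‖
  rw [frm_apply]
  refine (norm_sum_le _ _).trans ?_
  have h1 : ∀ a ∈ (Finset.univ : Finset (Fin C.r)), ‖germPlc.st (C.c j b a) * v a‖ ≤ ‖v‖ := by
    intro a _
    rw [norm_mul]
    have h2 := C.hc j b a
    have h3 := norm_le_pi_norm v a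
    have h4 := norm_nonneg (v a)
    nlinarith [norm_nonneg (germPlc.st (C.c j b a))]
  refine (Finset.sum_le_card_nsmul _ _ _ h1).trans ?_
  rw [Finset.card_univ, Fintype.card_fin, nsmul_eq_mul]

/-- The key lemma. -/
theorem bound (g : ℕ) {δ : ℕ → ℝ} (hδ : Tendsto δ atTop (𝓝 0)) (B : ℕ) :
    ∃ k N : ℕ, ∀ (X : Type) [Fintype X] (l : X → ℕ → GI g → ℂ),
      (∀ x, ∀ j < k, Step (l x j) (l x (j + 1))) → (∀ x, ∀ j ≤ k, ∀ b, ‖l x j b - 1‖ ≤ δ j) →
      (∀ x y, x ≠ y → NPr (l x 0) (l y 0)) → RankLt k B l → Fintype.card X ≤ N := by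
  by_contra hcon
  push Not at hcon
  choose X hX l h1 h2 h3 h4 h5 using fun n : ℕ => hcon n n
  obtain ⟨C⟩ := cfg_exists B X h5 l h1 h2 h3 h4
  exact no_cfg hδ C

end FreyTN
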