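import Pool.Agent.Lib.MP_6babc4_nt.TN.Rnk
import Pool.Agent.Lib.MP_6babc4_nt.TN.Thd

/-!
# Module Fxd: the points over a fixed pair of fields

`arc_bound`. PROOF. `l x j b = σ (v x j b) / ((2^g)^j s_x)` with `s_x` from `Arc`: `Step`, `‖l x j b - 1‖ ≤ δ j`, `NPr (l x 0) (l y 0)` (`σ` injective, `s_x ≠ 0`); the determinants of `l` are those of the
`v x j b`, mapped by `σ`, rows and columns divided by numbers. Apply `bound` (Thd).

`fixed_count`. PROOF. COPY of `fixed_count` of G2/Fxd (on main; copy also `primes_list`, `fxd_absNorm`, `fxd_coprime`, `fxd_prime`, `fxd_one`; do not import G2/Fxd) with `2^g` in place of `4` and of `8`, the pairs `(j, b)`, `1 ≤ j ≤ k`,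
in place of the words: `η = ε / (2^g M₀ + 1)`, `t > 2/η`, `k, N` from `arc_bound` for `B = 2 t^(2^g)`, `C₂` from `classes`, `T > M (number of the pairs (j, b)) / η` primes `p` between `c₁ R^η` and `2^(T+1) c₁ R^η`; each `u` has a prime `p` of the list such that all
`v j b`, `1 ≤ j ≤ k`, are `0` or coprime to `p`; for given `p` at most `N` points in each class (`rank_lt`, `arc_bound`), at most `C₂ p^(2^g M₀)` classes.
-/

set_option autoImplicit false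

open Filter Topology NumberField Module

namespace FreyTN

private theorem fxd_absNorm {F : Type} [Field F] [NumberField F] (a : 𝓞 F) {R : ℝ}
    (hR : 1 ≤ R) (h : ∀ τ : F →+* ℂ, ‖τ (a : F)‖ ≤ R) {M : ℕ} (hM : finrank ℚ F ≤ M) :
    ((Ideal.absNorm (Ideal.span {a}) : ℕ) : ℝ) ≤ R ^ M := by
  have h1 : ((Algebra.norm ℚ (a : F) : ℚ) : ℂ) = ∏ σ : F →ₐ[ℚ] ℂ, σ (a : F) := by
    have := Algebra.norm_eq_prod_embeddings ℚ ℂ (a : F)
    simpa using this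
  have h0 : ((Ideal.absNorm (Ideal.span {a}) : ℕ) : ℝ) = ‖((Algebra.norm ℚ (a : F) : ℚ) : ℂ)‖ := by
    rw [Ideal.absNorm_span_singleton, ← Algebra.coe_norm_int]
    rw [Nat.cast_natAbs]
    simp
  rw [h0, h1, norm_prod]
  calc ∏ σ : F →ₐ[ℚ] ℂ, ‖σ (a : F)‖ ≤ ∏ _σ : F →ₐ[ℚ] ℂ, R :=
        Finset.prod_le_prod (fun _ _ => norm_nonneg _) (fun σ _ => h σ.toRingHom)
    _ = R ^ finrank ℚ F := by rw [Finset.prod_const, Finset.card_univ, AlgHom.card]
    _ ≤ R ^ M := pow_le_pow_right₀ hR hM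

private theorem fxd_coprime {F : Type} [Field F] [NumberField F] (a : 𝓞 F) {p : ℕ}
    (hp : p.Prime) (h : ¬ p ∣ Ideal.absNorm (Ideal.span {a})) : IsCoprime a (p : 𝓞 F) := by
  have h1 : Nat.Coprime (Ideal.absNorm (Ideal.span {a})) p :=
    ((Nat.Prime.coprime_iff_not_dvd hp).mpr h).symm
  have h2 : IsCoprime ((Ideal.absNorm (Ideal.span {a}) : ℕ) : ℤ) (p : ℤ) :=
    Nat.isCoprime_iff_coprime.mpr h1
  have h3 : IsCoprime ((Ideal.absNorm (Ideal.span {a}) : ℕ) : 𝓞 F) (p : 𝓞 F) := by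
    have := h2.map (Int.castRingHom (𝓞 F))
    simpa using this
  have h4 : a ∣ ((Ideal.absNorm (Ideal.span {a}) : ℕ) : 𝓞 F) :=
    Ideal.mem_span_singleton.mp (Ideal.absNorm_mem _)
  exact h3.of_isCoprime_of_dvd_left h4

private theorem fxd_prime {F : Type} [Field F] [NumberField F] {β : Type} (S : Finset β)
    (a : β → 𝓞 F) {R : ℝ} (hR : 1 ≤ R) (h : ∀ i ∈ S, ∀ τ : F →+* ℂ, ‖τ (a i : F)‖ ≤ R) {M : ℕ}
    (hM : finrank ℚ F ≤ M) (P : Finset ℕ) {X : ℝ} (hX : 0 ≤ X)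
    (hP : ∀ p ∈ P, p.Prime ∧ X < p) (hbig : R ^ (M * S.card) < X ^ P.card) :
    ∃ p ∈ P, ∀ i ∈ S, a i = 0 ∨ IsCoprime (a i) (p : 𝓞 F) := by
  classical
  by_contra hcon
  push Not at hcon
  set S' := S.filter (fun i => a i ≠ 0) with hS'
  set N : ℕ := ∏ i ∈ S', Ideal.absNorm (Ideal.span {a i}) with hN
  have hN0 : N ≠ 0 := by
    rw [hN, Finset.prod_ne_zero_iff]
    intro i hi
    rw [Ne, Ideal.absNorm_eq_zero_iff, Ideal.span_singleton_eq_bot]
    exact (Finset.mem_filter.mp hi).2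
  have hdvd : ∀ p ∈ P, p ∣ N := by
    intro p hp
    obtain ⟨i, hi, h0, hnc⟩ := hcon p hp
    by_contra hnd
    refine hnc (fxd_coprime (a i) (hP p hp).1 fun hd => hnd ?_)
    exact hd.trans (Finset.dvd_prod_of_mem _ (Finset.mem_filter.mpr ⟨hi, h0⟩))
  have hprod : ∏ p ∈ P, p ∣ N :=
    Finset.prod_primes_dvd N (fun p hp => (hP p hp).1.prime) hdvd
  have hle : ∏ p ∈ P, p ≤ N := Nat.le_of_dvd (Nat.pos_of_ne_zero hN0) hprod
  have h1 : X ^ P.card ≤ ((∏ p ∈ P, p : ℕ) : ℝ) := by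
    rw [← Finset.prod_const, Nat.cast_prod]
    exact Finset.prod_le_prod (fun _ _ => hX) (fun p hp => (hP p hp).2.le)
  have h2 : (N : ℝ) ≤ R ^ (M * S.card) := by
    rw [hN, Nat.cast_prod]
    calc ∏ i ∈ S', ((Ideal.absNorm (Ideal.span {a i}) : ℕ) : ℝ) ≤ ∏ _i ∈ S', R ^ M :=
          Finset.prod_le_prod (fun _ _ => Nat.cast_nonneg _)
            (fun i hi => fxd_absNorm (a i) hR (h i (Finset.mem_filter.mp hi).1) hM)
      _ = R ^ (M * S'.card) := by rw [Finset.prod_const, ← pow_mul]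
      _ ≤ R ^ (M * S.card) :=
          pow_le_pow_right₀ hR (Nat.mul_le_mul_left _ (Finset.card_filter_le _ _))
  have h3 : ((∏ p ∈ P, p : ℕ) : ℝ) ≤ N := by exact_mod_cast hle
  linarith

theorem arc_bound (g : ℕ) {δ : ℕ → ℝ} (hδ : Tendsto δ atTop (𝓝 0)) (B : ℕ) : ∃ k N : ℕ,
    ∀ (F : Type) [Field F] [NumberField F] (σ : F →+* ℂ) (R : ℝ) (X : Type) [Fintype X]
      (v : X → ℕ → GI g → 𝓞 F), (∀ x, Arc k R δ σ (v x)) →
      (∀ x y, x ≠ y → NPr (v x 0) (v y 0)) →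
      RankLt k B (fun x j b => (v x j b : F)) → Fintype.card X ≤ N := by
  obtain ⟨k, N, h⟩ := bound g hδ B
  refine ⟨k, N, fun F _ _ σ R X _ v harc hnp hrk => ?_⟩
  choose s hs0 hs using fun x => (harc x).2.1
  have h2 : ∀ j : ℕ, ((2 : ℂ) ^ g) ^ j ≠ 0 := fun j => pow_ne_zero _ (pow_ne_zero _ two_ne_zero)
  set l : X → ℕ → GI g → ℂ := fun x j b => σ (v x j b : F) / ((2 ^ g) ^ j * s x) with hl
  refine h X l (fun x j hj b => ?_) (fun x j hj b => ?_) (fun x y hxy => ?_) (fun r x hr => ?_)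
  · have h3 := congrArg (fun z : 𝓞 F => σ (z : F)) ((harc x).1 j hj b)
    simp only [sq, map_pow, map_mul, map_sum, map_ofNat] at h3
    have h4 : ∀ c, l x j c * l x j (b + c) =
        σ (v x j c : F) * σ (v x j (b + c) : F) / (((2 ^ g) ^ j * s x) ^ 2) := by
      intro c
      simp only [hl]
      rw [div_mul_div_comm]
      congr 1
      ring
    simp only [sq]
    rw [Finset.sum_congr rfl fun c _ => h4 c, ← Finset.sum_div]
    simp only [hl]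
    rw [div_pow, h3]
    have h5 := h2 j
    have h6 := h2 (j + 1)
    have h7 := hs0 x
    have h8 : (2 : ℂ) ^ g ≠ 0 := pow_ne_zero _ two_ne_zero
    field_simp
    ring
  · have h3 := hs x j hj b
    have h5 : ((2 : ℂ) ^ g) ^ j * s x ≠ 0 := mul_ne_zero (h2 j) (hs0 x)
    have h6 : l x j b - 1 = (σ (v x j b : F) - (2 ^ g) ^ j * s x) / ((2 ^ g) ^ j * s x) := by
      simp only [hl]
      rw [sub_div, div_self h5]
    rw [h6, norm_div, div_le_iff₀ (norm_pos_iff.mpr h5), norm_mul, norm_pow, norm_pow]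
    have h7 : ‖(2 : ℂ)‖ = 2 := by simp
    rw [h7]
    calc _ ≤ (2 ^ g) ^ j * ‖s x‖ * δ j := h3
      _ = δ j * ((2 ^ g) ^ j * ‖s x‖) := by ring
  · obtain ⟨i, j, hij⟩ := hnp x y hxy
    refine ⟨i, j, fun he => hij ?_⟩
    simp only [hl, pow_zero, one_mul] at he
    have h7 := hs0 x
    have h8 := hs0 y
    have h9 : σ (v x 0 i : F) * σ (v y 0 j : F) = σ (v x 0 j : F) * σ (v y 0 i : F) := by
      field_simp at he
      exact he
    have h11 : σ ((v x 0 i : F) * (v y 0 j : F)) = σ ((v x 0 j : F) * (v y 0 i : F)) := by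
      rw [map_mul σ, map_mul σ]
      exact h9
    have h10 := σ.injective h11
    apply RingOfIntegers.coe_injective
    rw [map_mul, map_mul]
    exact h10
  · have h3 := hrk r x hr
    have h4 : Matrix.of (fun i j => l (x j) (r i).1 (r i).2) = Matrix.of (fun i j =>
        (((2 : ℂ) ^ g) ^ (r i).1)⁻¹ * Matrix.of (fun i j => (s (x j))⁻¹ *
          Matrix.of (fun i j => σ (v (x j) (r i).1 (r i).2 : F)) i j) i j) := by
      ext i j
      simp only [hl, Matrix.of_apply]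
      rw [div_eq_mul_inv, mul_inv]
      ring
    have h5 : Matrix.det (Matrix.of fun i j => σ (v (x j) (r i).1 (r i).2 : F)) = 0 := by
      have h6 := congrArg σ h3
      rw [RingHom.map_det, map_zero] at h6
      exact h6
    rw [h4, Matrix.det_mul_column, Matrix.det_mul_row, h5]
    simp

private theorem fxd_one {g k t N C₂ : ℕ} {δ : ℕ → ℝ}
    (hN : ∀ (F : Type) [Field F] [NumberField F] (σ : F →+* ℂ) (R : ℝ) (X : Type) [Fintype X]
      (v : X → ℕ → GI g → 𝓞 F), (∀ x, Arc k R δ σ (v x)) →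
      (∀ x y, x ≠ y → NPr (v x 0) (v y 0)) →
      RankLt k (2 * t ^ 2 ^ g) (fun x j b => (v x j b : F)) → Fintype.card X ≤ N)
    {M : ℕ} (hC₂ : ∀ (E F : Type) [Field E] [NumberField E] [Field F]
      [NumberField F] [Algebra E F], finrank ℚ F ≤ M → ∀ p : ℕ, p.Prime → p ≠ 2 →
      ∀ (X : Type) (u : X → GI g → 𝓞 E) (v : X → ℕ → GI g → 𝓞 F),
        (∀ x, Path k (v x)) → (∀ x b, v x 0 b = algebraMap (𝓞 E) (𝓞 F) (u x b)) →
        (∀ x j b, 1 ≤ j → j ≤ k → v x j b = 0 ∨ IsCoprime (v x j b) (p : 𝓞 F)) →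
        ∃ (α : Type) (_ : Fintype α) (cls : X → α),
          Fintype.card α ≤ C₂ * p ^ (2 ^ g * finrank ℚ E) ∧
          ∀ x y, cls x = cls y → ∀ j ≤ k, ∀ b, (p : 𝓞 F) ∣ v x j b - v y j b)
    (E F : Type) [Field E] [NumberField E] [Field F] [NumberField F] [Algebra E F]
    (hF : finrank ℚ F ≤ M) {p : ℕ} (hp : p.Prime) (hp2 : p ≠ 2) (σ : F →+* ℂ) (R : ℝ)
    (X : Type) [Fintype X] (u : X → GI g → 𝓞 E) (v : X → ℕ → GI g → 𝓞 F)
    (hu : ∀ x y, x ≠ y → NPr (u x) (u y)) (harc : ∀ x, Arc k R δ σ (v x))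
    (hv0 : ∀ x b, v x 0 b = algebraMap (𝓞 E) (𝓞 F) (u x b))
    (hn : ∀ x j b, 1 ≤ j → j ≤ k → v x j b = 0 ∨ IsCoprime (v x j b) (p : 𝓞 F))
    (hbig : ((2 * t ^ 2 ^ g).factorial : ℝ) * ((2 ^ g) ^ k * R) ^ (2 * t ^ 2 ^ g) <
      (p : ℝ) ^ (t ^ (2 ^ g + 1))) :
    Fintype.card X ≤ N * (C₂ * p ^ (2 ^ g * finrank ℚ E)) := by
  classical
  obtain ⟨α, hαf, cls, hα, hcl⟩ := hC₂ E F hF p hp hp2 X u v (fun x => (harc x).1) hv0 hn
  have hfib : ∀ c ∈ (Finset.univ : Finset α),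
      ((Finset.univ : Finset X).filter (fun x => cls x = c)).card ≤ N := by
    intro c _
    rw [← Fintype.card_subtype]
    have hrk := rank_lt (X := {x : X // cls x = c}) hp hp2 (fun x => v x.1)
      (fun x => (harc x.1).1) (fun x y j hj b => hcl x.1 y.1 (x.2.trans y.2.symm) j hj b)
      (fun x j b h1 h2 => hn x.1 j b h1 h2) (fun x j h1 b τ => (harc x.1).2.2 j h1 b τ) hbig
    refine hN F σ R {x : X // cls x = c} (fun x => v x.1) (fun x => harc x.1)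
      (fun x y hxy => ?_) hrk
    obtain ⟨i, j, hij⟩ := hu x.1 y.1 (fun h => hxy (Subtype.ext h))
    refine ⟨i, j, fun h => hij ?_⟩
    have hinj2 : Function.Injective (algebraMap (𝓞 E) (𝓞 F)) :=
      FaithfulSMul.algebraMap_injective (𝓞 E) (𝓞 F)
    apply hinj2
    rw [map_mul, map_mul]
    simpa only [hv0] using h
  have h1 := Finset.card_le_mul_card_image_of_maps_to (f := cls) (s := (Finset.univ : Finset X))
    (t := (Finset.univ : Finset α)) (fun _ _ => Finset.mem_univ _) N hfib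
  rw [Finset.card_univ, Finset.card_univ] at h1
  exact h1.trans (Nat.mul_le_mul_left _ hα)

private theorem primes_list (T : ℕ) (X : ℝ) (hX : 2 ≤ X) : ∃ P : Finset ℕ, P.card = T ∧
    ∀ p ∈ P, p.Prime ∧ X < p ∧ (p : ℝ) ≤ 2 ^ (T + 1) * X := by
  induction T with
  | zero => exact ⟨∅, rfl, by simp⟩
  | succ T ih =>
    obtain ⟨P, hP, hp⟩ := ih
    have hpow : (1 : ℝ) ≤ 2 ^ (T + 1) := one_le_pow₀ (by norm_num)
    have hY : X ≤ 2 ^ (T + 1) * X := by nlinarith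
    have h1 : 1 ≤ (2 : ℝ) ^ (T + 1) * X := by linarith
    have hn0 : ⌊(2 : ℝ) ^ (T + 1) * X⌋₊ ≠ 0 := (Nat.floor_pos.mpr h1).ne'
    obtain ⟨p, hpp, hlt, hle⟩ := Nat.exists_prime_lt_and_le_two_mul _ hn0
    have hlt' : (2 : ℝ) ^ (T + 1) * X < p := Nat.lt_of_floor_lt hlt
    have hle' : (p : ℝ) ≤ 2 * (2 ^ (T + 1) * X) := by
      calc (p : ℝ) ≤ ((2 * ⌊(2 : ℝ) ^ (T + 1) * X⌋₊ : ℕ) : ℝ) := by exact_mod_cast hle
        _ = 2 * (⌊(2 : ℝ) ^ (T + 1) * X⌋₊ : ℝ) := by push_cast; ring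
        _ ≤ 2 * (2 ^ (T + 1) * X) := by
            have := Nat.floor_le (a := (2 : ℝ) ^ (T + 1) * X) (by linarith)
            linarith
    have hnot : p ∉ P := fun h => absurd (hp p h).2.2 (not_le.mpr hlt')
    refine ⟨insert p P, by rw [Finset.card_insert_of_notMem hnot, hP], ?_⟩
    intro q hq
    rcases Finset.mem_insert.mp hq with rfl | hq
    · exact ⟨hpp, lt_of_le_of_lt hY hlt', by rw [pow_succ 2 (T + 1)]; linarith⟩
    · obtain ⟨a, b, c⟩ := hp q hq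
      refine ⟨a, b, c.trans ?_⟩
      rw [pow_succ (2 : ℝ) (T + 1)]
      nlinarith

theorem fixed_count (g : ℕ) {δ : ℕ → ℝ} (hδ : Tendsto δ atTop (𝓝 0)) (M₀ : ℕ) {ε : ℝ}
    (hε : 0 < ε) : ∃ k : ℕ, ∀ M : ℕ, ∃ C : ℝ, 1 ≤ C ∧
    ∀ (E F : Type) [Field E] [NumberField E] [Field F] [NumberField F] [Algebra E F],
      finrank ℚ E ≤ M₀ → finrank ℚ F ≤ M → ∀ (σ : F →+* ℂ) (R : ℝ), 1 ≤ R →
        ∀ U : Finset (GI g → 𝓞 E), (∀ u ∈ U, ∀ w ∈ U, u ≠ w → NPr u w) →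
          (∀ u ∈ U, ∃ v : ℕ → GI g → 𝓞 F,
            Arc k R δ σ v ∧ ∀ b, v 0 b = algebraMap (𝓞 E) (𝓞 F) (u b)) →
          (U.card : ℝ) ≤ C * R ^ ε := by
  classical
  set n : ℕ := 2 ^ g with hn
  set η : ℝ := ε / (n * M₀ + 1) with hη
  have hηpos : 0 < η := by positivity
  obtain ⟨t₀, ht₀⟩ := exists_nat_gt (2 / η)
  set t : ℕ := t₀ + 1 with ht
  have ht2 : 2 ≤ η * t := by
    have h1 : 2 / η < t := by
      refine ht₀.trans ?_
      rw [ht]; push_cast; linarith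
    rw [div_lt_iff₀ hηpos] at h1
    linarith
  obtain ⟨k, N, hN⟩ := arc_bound g hδ (2 * t ^ n)
  refine ⟨k, fun M => ?_⟩
  obtain ⟨C₂, hC₂⟩ := classes g k M
  set S : Finset (ℕ × GI g) := (Finset.Icc 1 k) ×ˢ (Finset.univ : Finset (GI g)) with hS
  have hSmem : ∀ s b, ((s, b) ∈ S ↔ (1 ≤ s ∧ s ≤ k)) := by
    intro s b
    rw [hS, Finset.mem_product, Finset.mem_Icc]
    simp
  obtain ⟨T₀, hT₀⟩ := exists_nat_gt ((M * S.card : ℕ) / η : ℝ)
  set T : ℕ := T₀ + M * S.card + 1 with hT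
  have hT1 : 1 ≤ T := by omega
  have hT2 : M * S.card ≤ T := by omega
  have hT3 : ((M * S.card : ℕ) : ℝ) ≤ η * T := by
    rw [div_lt_iff₀ hηpos] at hT₀
    have : (T₀ : ℝ) ≤ T := by rw [hT]; exact_mod_cast (by omega : T₀ ≤ T₀ + M * S.card + 1)
    nlinarith
  set f : ℝ := ((2 * t ^ n).factorial : ℝ) with hf
  have hf1 : 1 ≤ f := by
    rw [hf]; exact_mod_cast Nat.succ_le_of_lt (Nat.factorial_pos _)
  set c₁ : ℝ := 2 * (2 ^ g) ^ k * (f * ((2 ^ g) ^ k) ^ (2 * t ^ n)) with hc₁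
  have h8k : (1 : ℝ) ≤ (2 ^ g) ^ k := one_le_pow₀ (one_le_pow₀ (by norm_num))
  have h8kt : (1 : ℝ) ≤ ((2 ^ g) ^ k) ^ (2 * t ^ n) := one_le_pow₀ h8k
  have hfk : (1 : ℝ) ≤ f * ((2 ^ g) ^ k) ^ (2 * t ^ n) := one_le_mul_of_one_le_of_one_le hf1 h8kt
  have hc2 : 2 * (2 ^ g) ^ k ≤ c₁ := by
    rw [hc₁]
    have : (0 : ℝ) ≤ 2 * (2 ^ g) ^ k := by positivity
    nlinarith
  have hcf : f * ((2 ^ g) ^ k) ^ (2 * t ^ n) ≤ c₁ := by
    rw [hc₁]
    have : (1 : ℝ) ≤ 2 * (2 ^ g) ^ k := by linarith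
    nlinarith
  have hc22 : 2 ≤ c₁ := by linarith
  set C : ℝ := 1 + N * (C₂ * (2 ^ (T + 1) * c₁) ^ (n * M₀)) * T with hC
  refine ⟨C, ?_, ?_⟩
  · rw [hC]
    have : (0 : ℝ) ≤ N * (C₂ * (2 ^ (T + 1) * c₁) ^ (n * M₀)) * T := by positivity
    linarith
  intro E F _ _ _ _ _ hE hF σ R hR U hU hUv
  set Rη : ℝ := R ^ η with hRη
  have hRη1 : 1 ≤ Rη := Real.one_le_rpow hR hηpos.le
  set X : ℝ := c₁ * Rη with hX
  have hX2 : 2 ≤ X := by
    rw [hX]
    nlinarith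
  obtain ⟨P, hPc, hP⟩ := primes_list T X hX2
  have hR8 : (1 : ℝ) ≤ (2 ^ g) ^ k * R := one_le_mul_of_one_le_of_one_le h8k hR
  -- first inequality
  have hpowη : ∀ m n : ℕ, (m : ℝ) ≤ η * n → R ^ m ≤ Rη ^ n := by
    intro m n hmn
    rw [hRη, ← Real.rpow_mul_natCast (by linarith), ← Real.rpow_natCast]
    exact Real.rpow_le_rpow_of_exponent_le hR hmn
  have hbig1 : ((2 ^ g) ^ k * R) ^ (M * S.card) < X ^ P.card := by
    rw [hPc, hX, mul_pow, mul_pow]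
    have h1 : R ^ (M * S.card) ≤ Rη ^ T := hpowη _ _ hT3
    have h2 : (((2 : ℝ) ^ g) ^ k) ^ (M * S.card) < c₁ ^ T := by
      calc (((2 : ℝ) ^ g) ^ k) ^ (M * S.card) ≤ ((2 ^ g) ^ k) ^ T := pow_le_pow_right₀ h8k hT2
        _ < c₁ ^ T := by
            apply pow_lt_pow_left₀ _ (by positivity) (by omega)
            linarith
    have h3 : (0 : ℝ) < R ^ (M * S.card) := by positivity
    calc (((2 : ℝ) ^ g) ^ k) ^ (M * S.card) * R ^ (M * S.card) < c₁ ^ T * R ^ (M * S.card) :=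
          mul_lt_mul_of_pos_right h2 h3
      _ ≤ c₁ ^ T * Rη ^ T := mul_le_mul_of_nonneg_left h1 (by positivity)
  have hbig2 : ∀ p ∈ P, f * ((2 ^ g) ^ k * R) ^ (2 * t ^ n) < (p : ℝ) ^ (t ^ (n + 1)) := by
    intro p hp
    have ht5 : t ^ (n + 1) ≠ 0 := pow_ne_zero _ (by omega)
    have h1 : R ^ (2 * t ^ n) ≤ Rη ^ (t ^ (n + 1)) := by
      apply hpowη
      push_cast
      have h4 : (0 : ℝ) ≤ (t : ℝ) ^ n := by positivity
      rw [pow_succ (t : ℝ) n]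
      calc 2 * (t : ℝ) ^ n ≤ (η * t) * (t : ℝ) ^ n := mul_le_mul_of_nonneg_right ht2 h4
        _ = η * ((t : ℝ) ^ n * t) := by ring
    have h2 : f * ((2 ^ g) ^ k) ^ (2 * t ^ n) ≤ c₁ ^ (t ^ (n + 1)) :=
      hcf.trans (le_self_pow₀ (by linarith) ht5)
    calc f * ((2 ^ g) ^ k * R) ^ (2 * t ^ n) = f * ((2 ^ g) ^ k) ^ (2 * t ^ n) * R ^ (2 * t ^ n) := by
          rw [mul_pow]; ring
      _ ≤ c₁ ^ (t ^ (n + 1)) * Rη ^ (t ^ (n + 1)) := mul_le_mul h2 h1 (by positivity) (by positivity)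
      _ = X ^ (t ^ (n + 1)) := (mul_pow c₁ Rη _).symm
      _ < (p : ℝ) ^ (t ^ (n + 1)) := pow_lt_pow_left₀ (hP p hp).2.1 (by linarith) ht5
  -- the trees and the primes
  choose v hvA hv0 using fun u : {u // u ∈ U} => hUv u.1 u.2
  have hex : ∀ u : {u // u ∈ U}, ∃ p ∈ P, ∀ i ∈ S,
      v u i.1 i.2 = 0 ∨ IsCoprime (v u i.1 i.2) (p : 𝓞 F) := by
    intro u
    refine fxd_prime S (fun i => v u i.1 i.2) hR8 (fun i hi τ => ?_) hF P (by linarith : 0 ≤ X)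
      (fun p hp => ⟨(hP p hp).1, (hP p hp).2.1⟩) hbig1
    exact (hvA u).2.2 i.1 ((hSmem i.1 i.2).mp hi).2 i.2 τ
  choose pc hpcP hpc using hex
  set Q : ℕ := ⌊2 ^ (T + 1) * X⌋₊ with hQ
  have hXT : (1 : ℝ) ≤ 2 ^ (T + 1) * X := by
    have : (1 : ℝ) ≤ 2 ^ (T + 1) := one_le_pow₀ (by norm_num)
    nlinarith
  have hQ1 : 1 ≤ Q := Nat.le_floor (by exact_mod_cast hXT)
  have hfib : ∀ p ∈ P, ((Finset.univ : Finset {u // u ∈ U}).filter (fun x => pc x = p)).card ≤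
      N * (C₂ * Q ^ (n * M₀)) := by
    intro p hp
    rw [← Fintype.card_subtype]
    have hpp := (hP p hp).1
    have hp2 : p ≠ 2 := by
      intro h
      have := (hP p hp).2.1
      rw [h] at this
      push_cast at this
      linarith
    have h1 := fxd_one hN hC₂ E F hF hpp hp2 σ R {x : {u // u ∈ U} // pc x = p}
      (fun x => x.1.1) (fun x => v x.1)
      (fun x y hxy => hU x.1.1 x.1.2 y.1.1 y.1.2 (fun h => hxy (Subtype.ext (Subtype.ext h))))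
      (fun x => hvA x.1) (fun x => hv0 x.1) (fun x s b hs hsk => by
        have h2 := hpc x.1 (s, b) ((hSmem s b).mpr ⟨hs, hsk⟩)
        rw [x.2] at h2
        exact h2)
      (hbig2 p hp)
    refine h1.trans (Nat.mul_le_mul_left _ (Nat.mul_le_mul_left _ ?_))
    have hpQ : p ≤ Q := Nat.le_floor (hP p hp).2.2
    calc p ^ (n * finrank ℚ E) ≤ Q ^ (n * finrank ℚ E) := Nat.pow_le_pow_left hpQ _
      _ ≤ Q ^ (n * M₀) := Nat.pow_le_pow_right hQ1 (Nat.mul_le_mul_left _ hE)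
  have hcard := Finset.card_le_mul_card_image_of_maps_to (f := pc)
    (s := (Finset.univ : Finset {u // u ∈ U})) (t := P) (fun x _ => hpcP x) _ hfib
  rw [Finset.card_univ, Fintype.card_coe, hPc] at hcard
  have hcardR : (U.card : ℝ) ≤ N * (C₂ * (Q : ℝ) ^ (n * M₀)) * T := by exact_mod_cast hcard
  have hQR : (Q : ℝ) ^ (n * M₀) ≤ (2 ^ (T + 1) * c₁) ^ (n * M₀) * R ^ ε := by
    have h1 : (Q : ℝ) ≤ 2 ^ (T + 1) * X := Nat.floor_le (by linarith)
    calc (Q : ℝ) ^ (n * M₀) ≤ (2 ^ (T + 1) * X) ^ (n * M₀) :=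
          pow_le_pow_left₀ (by positivity) h1 _
      _ = (2 ^ (T + 1) * c₁) ^ (n * M₀) * Rη ^ (n * M₀) := by rw [hX]; rw [← mul_pow]; ring
      _ ≤ (2 ^ (T + 1) * c₁) ^ (n * M₀) * R ^ ε := by
          apply mul_le_mul_of_nonneg_left _ (by positivity)
          rw [hRη, ← Real.rpow_mul_natCast (by linarith)]
          apply Real.rpow_le_rpow_of_exponent_le hR
          rw [hη]
          push_cast
          rw [div_mul_eq_mul_div, div_le_iff₀ (by positivity)]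
          nlinarith
  have hRε : 0 ≤ R ^ ε := by positivity
  calc (U.card : ℝ) ≤ N * (C₂ * (Q : ℝ) ^ (n * M₀)) * T := hcardR
    _ ≤ N * (C₂ * ((2 ^ (T + 1) * c₁) ^ (n * M₀) * R ^ ε)) * T := by gcongr
    _ = (N * (C₂ * (2 ^ (T + 1) * c₁) ^ (n * M₀)) * T) * R ^ ε := by ring
    _ ≤ C * R ^ ε := by
        apply mul_le_mul_of_nonneg_right _ hRε
        rw [hC]
        linarith

end FreyTN
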