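import Pool.Agent.Lib.MP_6babc4_nt.TN.Dfn
import Pool.Agent.Lib.MP_6babc4_nt.Cyc.Tow

/-!
# Module Evn: squares in the theta field have even orders at the primes over good primes

`even_of_sq`. PROOF. `z = β² = ψ a`. `L₀ = IntermediateField.adjoin K {z}`, `L₁ = IntermediateField.adjoin K {β}`: finite over `K` (`z` and `β` are algebraic over `K`), number fields; `L₀ ≤ L₁ ≤ adjoin K (thetaSet τ)`; `L₀` is an algebra over `K` and there is
`i₀ : L₀ →ₐ[K] L` with `ψ ∘ i₀` = the inclusion (`L₀ ≤ ψ.fieldRange`), so `i₀ z = a`. With `i₀` as an algebra structure: `ord_algebraMap` (Cyc/Tow) gives a prime `P₀` of `L₀`, `e > 0` with `ord P (i₀ c) = e * ord P₀ c`: it is enough that `ord P₀ z` is even.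
Let `P₁` be a prime of `L₁` over `P₀` (`Ideal.exists_ideal_over_prime_of_isIntegral` or so), `v` the prime of `K` under `P₀`; `w ∉ v` since `w ∉ P`, so `v` is not bad, and `2 ∉ v` as `2 ∣ w`: `P₁² ∤ v 𝓞_(L₁)`. By `ord_algebraMap` for `L₀ → L₁`: `ord P₁ c = e₁ * ord P₀' c`, `P₀'` is under `P₁`: it is `P₀`.
`e₁ = 1`: if `e₁ ≥ 2` then for each `c ∈ P₀` we have `ord P₁ c ≥ 2` or `c = 0`, so `c ∈ P₁²`; `v 𝓞_(L₀) ⊆ P₀`, so `v 𝓞_(L₁) ⊆ P₁²`, a contradiction. So `ord P₀ z = ord P₁ (β²) = 2 ord P₁ β`.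
-/

set_option autoImplicit false

open NumberField IsDedekindDomain Module

namespace FreyTN

open FreyCyc FreySparse

/-- Finite intermediate fields are number fields. -/
private theorem evn_nf {K : IntermediateField ℚ ℂ} [NumberField K] (F : IntermediateField K ℂ)
    [FiniteDimensional K F] : NumberField F := by
  have : FiniteDimensional ℚ F := FiniteDimensional.trans ℚ K F
  exact ⟨⟩

/-- The order of a number at a prime of `L₀` is even if it has a square root in an extension in which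
no element of order one at this prime becomes a square of an ideal. -/
private theorem evn_step {L₀ L₁ : Type} [Field L₀] [NumberField L₀] [Field L₁] [NumberField L₁]
    [Algebra L₀ L₁] (P₀ : HeightOneSpectrum (𝓞 L₀)) (z : L₀) (b : L₁) (hb : b ≠ 0)
    (h : algebraMap L₀ L₁ z = b ^ 2)
    (hr : ∀ P₁ : HeightOneSpectrum (𝓞 L₁), Above P₀ P₁ → ∀ e : ℕ,
      (∀ c : L₀, ord P₁ (algebraMap L₀ L₁ c) = e * ord P₀ c) → e < 2) :
    Even (ord P₀ z) := by
  obtain ⟨P₁, hP₁⟩ := exists_above L₁ P₀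
  obtain ⟨Q, e, hQ, he0, he⟩ := ord_algebraMap (E := L₀) P₁
  have hQP : Q = P₀ := below_unique hQ hP₁
  subst hQP
  have h2 := hr P₁ hP₁ e he
  have h1 : e = 1 := by omega
  have h3 := he z
  rw [h, ord_pow P₁ hb, h1] at h3
  exact ⟨ord P₁ b, by push_cast at h3; linarith⟩

theorem even_of_sq {g : ℕ} {K : IntermediateField ℚ ℂ} [NumberField K]
    {τ : Matrix (Fin g) (Fin g) ℂ} {w : ℕ} (h2 : 2 ∣ w)
    (hw : ∀ v : HeightOneSpectrum (𝓞 K), Bad K τ v → (w : 𝓞 K) ∈ v.asIdeal)
    (L : Type) [Field L] [NumberField L] [Algebra K L] (ψ : L →ₐ[K] ℂ)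
    (P : HeightOneSpectrum (𝓞 L)) (hP : (w : 𝓞 L) ∉ P.asIdeal) (a : L) (ha : a ≠ 0) (β : ℂ)
    (hβ : β ∈ IntermediateField.adjoin K (thetaSet τ)) (h : ψ a = β ^ 2) : Even (ord P a) := by
  have : FiniteDimensional K L := by
    have : FiniteDimensional ℚ L := inferInstance
    exact FiniteDimensional.right ℚ K L
  have haK : IsIntegral K (ψ a) := (Algebra.IsIntegral.isIntegral (R := K) a).map ψ
  have hβK : IsIntegral K β := by
    refine IsIntegral.of_pow (n := 2) (by norm_num) ?_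
    rw [← h]; exact haK
  have hβ0 : β ≠ 0 := by
    rintro rfl
    rw [zero_pow (by norm_num), map_eq_zero] at h
    exact ha h
  let L₀ : IntermediateField K ℂ := IntermediateField.adjoin K {ψ a}
  let L₁ : IntermediateField K ℂ := IntermediateField.adjoin K {β}
  have hf0 : FiniteDimensional K L₀ := IntermediateField.adjoin.finiteDimensional haK
  have hf1 : FiniteDimensional K L₁ := IntermediateField.adjoin.finiteDimensional hβK
  have hn0 : NumberField L₀ := evn_nf L₀
  have hn1 : NumberField L₁ := evn_nf L₁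
  have hz0 : ψ a ∈ L₀ := IntermediateField.mem_adjoin_simple_self K _
  have hb1 : β ∈ L₁ := IntermediateField.mem_adjoin_simple_self K _
  have h01 : L₀ ≤ L₁ := by
    rw [IntermediateField.adjoin_le_iff, Set.singleton_subset_iff]
    rw [h]
    exact pow_mem hb1 2
  have h0r : L₀ ≤ ψ.fieldRange := by
    rw [IntermediateField.adjoin_le_iff, Set.singleton_subset_iff]
    exact ⟨a, rfl⟩
  -- the embedding of `L₀` in `L`
  let i₀ : L₀ →ₐ[K] L :=
    (AlgEquiv.ofInjectiveField ψ).symm.toAlgHom.comp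
      (AlgHom.codRestrict L₀.val ψ.range fun x => h0r x.2)
  have hi₀ : ∀ x : L₀, ψ (i₀ x) = (x : ℂ) := by
    intro x
    have h1 := (AlgEquiv.ofInjectiveField ψ).apply_symm_apply
      (AlgHom.codRestrict L₀.val ψ.range (fun x => h0r x.2) x)
    exact congrArg Subtype.val h1
  let A0 : Algebra L₀ L := i₀.toRingHom.toAlgebra
  let A1 : Algebra L₀ L₁ := (IntermediateField.inclusion h01).toRingHom.toAlgebra
  obtain ⟨P₀, e, hP₀, he0, he⟩ := ord_algebraMap (E := L₀) P
  have hz : algebraMap L₀ L ⟨ψ a, hz0⟩ = a := by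
    apply ψ.injective
    exact hi₀ ⟨ψ a, hz0⟩
  rw [← hz, he]
  refine Even.mul_left (evn_step P₀ ⟨ψ a, hz0⟩ (⟨β, hb1⟩ : L₁) ?_ ?_ ?_) _
  · intro hc
    exact hβ0 (congrArg Subtype.val hc)
  · exact Subtype.ext h
  · intro P₁ hP₁ e₁ he₁
    by_contra hlt
    obtain ⟨v, hv⟩ := exists_below (K := K) P₀
    have hwv : (w : 𝓞 K) ∉ v.asIdeal := by
      intro hc
      apply hP
      have h3 := (mem_iff_of_above hv (w : 𝓞 K)).mpr hc
      rw [map_natCast] at h3
      have h4 := (mem_iff_of_above hP₀ (w : 𝓞 L₀)).mpr h3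
      rwa [map_natCast] at h4
    apply hwv
    refine hw v ⟨?_, L₁, hn1, P₁, ?_, ?_⟩
    · intro hc
      obtain ⟨k, hk⟩ := h2
      apply hwv
      rw [hk, Nat.cast_mul]
      exact Ideal.mul_mem_right _ _ (by exact_mod_cast hc)
    · rw [IntermediateField.adjoin_le_iff, Set.singleton_subset_iff]
      exact hβ
    · rw [Ideal.dvd_iff_le, Ideal.map_le_iff_le_comap]
      intro x hx
      rw [Ideal.mem_comap]
      by_cases hx0 : x = 0
      · rw [hx0, map_zero]; exact zero_mem _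
      · have hx1 : algebraMap (𝓞 K) (𝓞 L₁) x ≠ 0 := by
          rwa [ne_eq, FaithfulSMul.algebraMap_eq_zero_iff]
        have hx2 : algebraMap (𝓞 K) (𝓞 L₀) x ≠ 0 := by
          rwa [ne_eq, FaithfulSMul.algebraMap_eq_zero_iff]
        rw [← Ideal.dvd_span_singleton, pow_dvd_iff P₁ hx1]
        have h5 := (ord_pos_iff P₀ hx2).mpr ((mem_iff_of_above hv x).mpr hx)
        have h6 : algebraMap (𝓞 L₁) L₁ (algebraMap (𝓞 K) (𝓞 L₁) x) =
            algebraMap L₀ L₁ (algebraMap (𝓞 L₀) L₀ (algebraMap (𝓞 K) (𝓞 L₀) x)) := by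
          apply Subtype.ext
          rfl
        rw [h6, he₁]
        have h7 : (2 : ℤ) ≤ e₁ := by exact_mod_cast not_lt.1 hlt
        push_cast
        nlinarith

end FreyTN
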