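import Pool.Agent.Lib.MP_6babc4_nt.TN.Dfn
import Pool.Agent.Lib.MP_6babc4_nt.Cyc.Fld

/-!
# Module Kct: the number of the fields in `ℂ` of bounded discriminant; small multiples

`fields_count`. PROOF. `field_in_C` (Cyc/Fld) for `K ⊆ ℂ` (`ι = algebraMap K ℂ`): `K = ℚ(θ)`, `θ ∈ AlgInt d (C √|D_K|) ⊆ AlgInt d (C √Y)`, a finite set with at most `C' (C √Y)^(d(d+1))` elements (`algInt_card`, Sp/Pol).
`𝒦` = image of `θ ↦ IntermediateField.adjoin ℚ {θ}`.

`small_multiple`. PROOF. MINKOWSKI. Let `N ≠ 0` be an integer with all `N u b` integral (finitely many; e.g. `IsLocalization.exist_integer_multiples_of_finset`), `𝔞` the ideal generated by the `N u b`,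
`M_v = ⨆ b, v (N u b) > 0` for an infinite place `v`. By `NumberField.mixedEmbedding.exists_ne_zero_mem_ideal_lt` for the fractional ideal `𝔞⁻¹` and `f v = X / M_v` there is `α ∈ 𝔞⁻¹`, `α ≠ 0`, `v α < X / M_v` for all `v`, if
`minkowskiBound K 𝔞⁻¹ = N(𝔞)⁻¹ 2^(-r₂) √|D_K| 2^d` (`minkowskiBound`, `volume_fundamentalDomain_fractionalIdealLatticeBasis`, `volume_fundamentalDomain_latticeBasis`; compare Sp/Fld, line 25 and following) is less than
`volume (convexBodyLT K f) = convexBodyLTFactor K * ∏ f v ^ mult v` (`convexBodyLT_volume`), and `∏ f v ^ mult v = X^d / ∏ M_v^(mult v)`, `∏ M_v^(mult v) / N(𝔞) = mulHeight (N u) = mulHeight u` (`NumberField.mulHeight_eq`,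
`NumberField.absNorm_mul_finprod_finitePlace_eq_one`, `Height.mulHeight_smul_eq_mulHeight`). The factor is at least `1` (`one_le_convexBodyLTFactor`). So `X = 4 √|D_K| exp (logHeight u / [K:ℚ])` is enough: `X^d = 4^d √|D_K|^d mulHeight u > 2^d √|D_K| mulHeight u` (`C = 4`; any `C` depending on `d` only is fine). Take `a = α N`, `w b = α (N u b)` (integral: `α ∈ 𝔞⁻¹`), `v (w b) ≤ v α · M_v < X`.
-/

set_option autoImplicit false

open NumberField Module

namespace FreyTN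

open FreyCyc FreySparse

theorem fields_count (d : ℕ) : ∃ (A : ℕ) (C : ℝ), 1 ≤ C ∧ ∀ Y : ℝ, 1 ≤ Y →
    ∃ 𝒦 : Finset (IntermediateField ℚ ℂ), (𝒦.card : ℝ) ≤ C * Y ^ A ∧
      ∀ (K : IntermediateField ℚ ℂ) [NumberField K], finrank ℚ K ≤ d → |(discr K : ℝ)| ≤ Y →
        K ∈ 𝒦 := by
  classical
  obtain ⟨C₀, hC₀, h₀⟩ := field_in_C d
  obtain ⟨C₁, hC₁, h₁⟩ := algInt_card d
  refine ⟨d * (d + 1), C₁ * C₀ ^ (d * (d + 1)), ?_, ?_⟩
  · exact one_le_mul_of_one_le_of_one_le hC₁ (one_le_pow₀ hC₀)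
  intro Y hY
  have hsY : 1 ≤ √Y := Real.one_le_sqrt.2 hY
  have hB : 1 ≤ C₀ * √Y := one_le_mul_of_one_le_of_one_le hC₀ hsY
  obtain ⟨hfin, hcard⟩ := h₁ (C₀ * √Y) hB
  refine ⟨hfin.toFinset.image (fun θ => IntermediateField.adjoin ℚ {θ}), ?_, ?_⟩
  · have hsY' : √Y ≤ Y := by
      calc √Y = √Y * 1 := (mul_one _).symm
        _ ≤ √Y * √Y := by gcongr
        _ = Y := Real.mul_self_sqrt (by linarith)
    have h2 : ((hfin.toFinset.image (fun θ => IntermediateField.adjoin ℚ {θ})).card : ℝ) ≤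
        (AlgInt d (C₀ * √Y)).ncard := by
      rw [Set.ncard_eq_toFinset_card _ hfin]
      exact_mod_cast Finset.card_image_le
    refine h2.trans (hcard.trans ?_)
    rw [mul_pow, mul_assoc]
    gcongr
  · intro K _ hK hD
    obtain ⟨θ, hθ, hz⟩ := h₀ K hK (algebraMap K ℂ)
    rw [Finset.mem_image]
    refine ⟨θ, ?_, ?_⟩
    · rw [Set.Finite.mem_toFinset]
      obtain ⟨h3, h4, h5⟩ := hθ
      refine ⟨h3, h4, fun w hw => (h5 w hw).trans ?_⟩
      gcongr
    · ext z
      rw [hz z]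
      constructor
      · rintro ⟨x, rfl⟩
        exact x.2
      · intro h
        exact ⟨⟨z, h⟩, rfl⟩

section Minkowski

open scoped NNReal ENNReal nonZeroDivisors
open NumberField.InfinitePlace NumberField.mixedEmbedding MeasureTheory

/-- Minkowski's theorem for the inverse of an ideal. -/
private theorem exists_inv_ideal (K : Type) [Field K] [NumberField K] (J : Ideal (𝓞 K))
    (hJ : J ≠ ⊥) (s : InfinitePlace K → ℝ) (hs : ∀ v, 0 < s v) (X : ℝ) (hX : 0 < X)
    (h : 2 ^ finrank ℚ K * √|(discr K : ℝ)| * (∏ v : InfinitePlace K, s v ^ v.mult) <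
      X ^ finrank ℚ K * Ideal.absNorm J) :
    ∃ α : K, α ≠ 0 ∧ (∀ x ∈ J, IsIntegral ℤ (α * (x : K))) ∧ ∀ v : InfinitePlace K, v α * s v ≤ X := by
  classical
  have hJ0 : ((J : FractionalIdeal (𝓞 K)⁰ K)) ≠ 0 := FractionalIdeal.coeIdeal_ne_zero.2 hJ
  have hN0 : (0 : ℝ) < Ideal.absNorm J := by
    have := (Ideal.absNorm_eq_zero_iff (I := J)).not.2 hJ
    exact_mod_cast Nat.pos_of_ne_zero this
  set I : (FractionalIdeal (𝓞 K)⁰ K)ˣ := (Units.mk0 _ hJ0)⁻¹ with hI
  have hIv : (I : FractionalIdeal (𝓞 K)⁰ K) = (J : FractionalIdeal (𝓞 K)⁰ K)⁻¹ := by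
    rw [hI, Units.val_inv_eq_inv_val, Units.val_mk0]
  let f : InfinitePlace K → ℝ≥0 := fun v => ⟨X / s v, (div_pos hX (hs v)).le⟩
  have hP0 : 0 < ∏ v : InfinitePlace K, s v ^ v.mult := Finset.prod_pos fun v _ => pow_pos (hs v) _
  have hfprod : (((∏ v, f v ^ v.mult : ℝ≥0)) : ℝ) =
      X ^ finrank ℚ K / ∏ v : InfinitePlace K, s v ^ v.mult := by
    rw [NNReal.coe_prod]
    have h1 : ∀ v : InfinitePlace K, ((f v ^ v.mult : ℝ≥0) : ℝ) = X ^ v.mult / s v ^ v.mult := by
      intro v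
      rw [NNReal.coe_pow, ← div_pow]
      rfl
    rw [Finset.prod_congr rfl fun v _ => h1 v, Finset.prod_div_distrib, Finset.prod_pow_eq_pow_sum,
      sum_mult_eq]
  have hmink : minkowskiBound K I < volume (convexBodyLT K f) := by
    have h2 : minkowskiBound K I ≤
        ENNReal.ofReal (2 ^ finrank ℚ K * √|(discr K : ℝ)| / Ideal.absNorm J) := by
      rw [minkowskiBound, volume_fundamentalDomain_fractionalIdealLatticeBasis,
        mixedEmbedding.finrank, volume_fundamentalDomain_latticeBasis, hIv, map_inv₀,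
        FractionalIdeal.coeIdeal_absNorm]
      have h3 : (2⁻¹ : ℝ≥0∞) ^ nrComplexPlaces K * (NNReal.sqrt ‖discr K‖₊ : ℝ≥0) ≤
          ENNReal.ofReal √|(discr K : ℝ)| := by
        have h4 : ENNReal.ofReal √|(discr K : ℝ)| = ((NNReal.sqrt ‖discr K‖₊ : ℝ≥0) : ℝ≥0∞) := by
          rw [← ENNReal.ofReal_coe_nnreal]
          congr 1
          rw [Real.coe_sqrt]
          simp [Int.norm_eq_abs]
        rw [h4]
        calc (2⁻¹ : ℝ≥0∞) ^ nrComplexPlaces K * (NNReal.sqrt ‖discr K‖₊ : ℝ≥0) ≤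
            1 * (NNReal.sqrt ‖discr K‖₊ : ℝ≥0) := by
              gcongr
              exact pow_le_one₀ (by positivity) (by simp)
          _ = _ := one_mul _
      calc ENNReal.ofReal (((Ideal.absNorm J : ℚ)⁻¹ : ℚ) : ℝ) *
            ((2⁻¹ : ℝ≥0∞) ^ nrComplexPlaces K * (NNReal.sqrt ‖discr K‖₊ : ℝ≥0)) *
            2 ^ finrank ℚ K ≤
          ENNReal.ofReal (((Ideal.absNorm J : ℚ)⁻¹ : ℚ) : ℝ) * ENNReal.ofReal √|(discr K : ℝ)| *
            2 ^ finrank ℚ K := by gcongr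
        _ = ENNReal.ofReal (((Ideal.absNorm J : ℚ)⁻¹ : ℚ) : ℝ) * ENNReal.ofReal √|(discr K : ℝ)| *
            ENNReal.ofReal (2 ^ finrank ℚ K) := by
              congr 1
              rw [ENNReal.ofReal_pow (by norm_num)]
              norm_num
        _ = _ := by
              rw [← ENNReal.ofReal_mul (by positivity), ← ENNReal.ofReal_mul (by positivity)]
              congr 1
              push_cast
              ring
    have h5 : ENNReal.ofReal (X ^ finrank ℚ K / ∏ v : InfinitePlace K, s v ^ v.mult) ≤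
        volume (convexBodyLT K f) := by
      rw [convexBodyLT_volume, ← hfprod, ENNReal.ofReal_coe_nnreal]
      calc ((∏ v, f v ^ v.mult : ℝ≥0) : ℝ≥0∞) = 1 * ((∏ v, f v ^ v.mult : ℝ≥0) : ℝ≥0∞) :=
            (one_mul _).symm
        _ ≤ _ := by
            gcongr
            exact mod_cast one_le_convexBodyLTFactor K
    refine h2.trans_lt (lt_of_lt_of_le ?_ h5)
    rw [ENNReal.ofReal_lt_ofReal_iff (by positivity), div_lt_div_iff₀ hN0 hP0]
    exact h
  obtain ⟨α, hα, hα0, hlt⟩ := exists_ne_zero_mem_ideal_lt K I hmink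
  refine ⟨α, hα0, ?_, ?_⟩
  · intro x hx
    rw [hIv, FractionalIdeal.mem_inv_iff hJ0] at hα
    have h6 := hα (x : K) (FractionalIdeal.mem_coeIdeal_of_mem _ hx)
    rw [FractionalIdeal.mem_one_iff] at h6
    obtain ⟨y, hy⟩ := h6
    rw [← hy]
    exact RingOfIntegers.isIntegral_coe y
  · intro v
    have h7 := (hlt v).le
    have h8 : ((f v : ℝ≥0) : ℝ) = X / s v := rfl
    rw [h8, le_div_iff₀ (hs v)] at h7
    exact h7

end Minkowski

theorem small_multiple (d : ℕ) : ∃ C : ℝ, 1 ≤ C ∧ ∀ (K : Type) [Field K] [NumberField K],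
    finrank ℚ K ≤ d → ∀ (ι : Type) [Finite ι] (u : ι → K), u ≠ 0 →
      ∃ (a : K) (w : ι → 𝓞 K), a ≠ 0 ∧ (∀ b, (w b : K) = a * u b) ∧
        ∀ b (σ : K →+* ℂ), ‖σ (w b : K)‖ ≤
          C * √|(discr K : ℝ)| * Real.exp (Height.logHeight u / finrank ℚ K) := by
  classical
  refine ⟨4, by norm_num, ?_⟩
  intro K _ _ _ ι _ u hu
  obtain ⟨N, hN⟩ := IsLocalization.exist_integer_multiples_of_finite (nonZeroDivisors (𝓞 K)) u
  choose y hy using hN
  have hN0 : ((N : 𝓞 K) : K) ≠ 0 := by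
    have := nonZeroDivisors.coe_ne_zero N
    exact_mod_cast this
  have hy' : ∀ b, (y b : K) = ((N : 𝓞 K) : K) * u b := by
    intro b
    have h := hy b
    rw [Algebra.smul_def] at h
    exact h
  have hyu : (fun b => (y b : K)) = ((N : 𝓞 K) : K) • u := by
    funext b
    rw [hy' b]
    rfl
  obtain ⟨b₀, hb₀⟩ := Function.ne_iff.1 hu
  have hy0 : y b₀ ≠ 0 := by
    intro h
    have h1 := hy' b₀
    rw [h] at h1
    rcases mul_eq_zero.1 h1.symm with h2 | h2
    · exact hN0 h2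
    · exact hb₀ h2
  have hyne : y ≠ 0 := fun h => hy0 (congrFun h b₀)
  have hyne' : (fun b => (y b : K)) ≠ 0 := by
    intro h
    have h1 : (y b₀ : K) = 0 := congrFun h b₀
    exact hy0 (by exact_mod_cast h1)
  set J : Ideal (𝓞 K) := Ideal.span (Set.range y) with hJ
  have hJb : J ≠ ⊥ := by
    intro h
    have h1 : y b₀ ∈ J := Ideal.subset_span ⟨b₀, rfl⟩
    rw [h] at h1
    exact hy0 (by simpa using h1)
  have hNJ : (0 : ℝ) < Ideal.absNorm J := by
    have := (Ideal.absNorm_eq_zero_iff (I := J)).not.2 hJb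
    exact_mod_cast Nat.pos_of_ne_zero this
  set s : InfinitePlace K → ℝ := fun v => ⨆ b, v (y b : K) with hs
  have hbdd : ∀ v : InfinitePlace K, BddAbove (Set.range fun b => v (y b : K)) :=
    fun v => Set.finite_range _ |>.bddAbove
  have hsb : ∀ (v : InfinitePlace K) b, v (y b : K) ≤ s v := fun v b => le_ciSup (hbdd v) b
  have hs0 : ∀ v, 0 < s v := by
    intro v
    refine lt_of_lt_of_le ?_ (hsb v b₀)
    exact v.pos_iff.2 (by exact_mod_cast hy0)
  have hP : (∏ v : InfinitePlace K, s v ^ v.mult) = Height.mulHeight u * Ideal.absNorm J := by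
    have h1 := NumberField.mulHeight_eq hyne'
    have h2 := NumberField.absNorm_mul_finprod_finitePlace_eq_one hyne
    have h3 : Height.mulHeight (fun b => (y b : K)) = Height.mulHeight u := by
      rw [hyu, Height.mulHeight_smul_eq_mulHeight u hN0]
    rw [← h3, h1]
    rw [← hJ] at h2
    calc (∏ v : InfinitePlace K, s v ^ v.mult) = (∏ v : InfinitePlace K, s v ^ v.mult) * 1 :=
          (mul_one _).symm
      _ = _ := by rw [← h2]; ring
  have hH1 : 1 ≤ Height.mulHeight u := Height.one_le_mulHeight u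
  have hD1 : 1 ≤ √|(discr K : ℝ)| := by
    rw [Real.one_le_sqrt]
    have : (1 : ℤ) ≤ |discr K| := Int.one_le_abs (discr_ne_zero K)
    exact_mod_cast this
  have hd0 : finrank ℚ K ≠ 0 := finrank_pos.ne'
  set X : ℝ := 4 * √|(discr K : ℝ)| * Real.exp (Height.logHeight u / finrank ℚ K) with hX
  have hX0 : 0 < X := by positivity
  have hXd : X ^ finrank ℚ K = 4 ^ finrank ℚ K * √|(discr K : ℝ)| ^ finrank ℚ K *
      Height.mulHeight u := by
    rw [hX, mul_pow, mul_pow, ← Real.exp_nat_mul,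
      mul_div_cancel₀ _ (by exact_mod_cast hd0 : ((finrank ℚ K : ℕ) : ℝ) ≠ 0),
      Height.logHeight_eq_log_mulHeight, Real.exp_log (by linarith)]
  obtain ⟨α, hα0, hint, hα⟩ := exists_inv_ideal K J hJb s hs0 X hX0 (by
    rw [hP, hXd]
    have h1 : √|(discr K : ℝ)| ≤ √|(discr K : ℝ)| ^ finrank ℚ K := le_self_pow₀ hD1 hd0
    have h2 : (2 : ℝ) ^ finrank ℚ K < 4 ^ finrank ℚ K := by
      gcongr
      norm_num
    have h3 : (2 : ℝ) ^ finrank ℚ K * √|(discr K : ℝ)| <
        4 ^ finrank ℚ K * √|(discr K : ℝ)| ^ finrank ℚ K :=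
      mul_lt_mul h2 h1 (by positivity) (by positivity)
    calc (2 : ℝ) ^ finrank ℚ K * √|(discr K : ℝ)| * (Height.mulHeight u * Ideal.absNorm J) =
        ((2 : ℝ) ^ finrank ℚ K * √|(discr K : ℝ)|) * (Height.mulHeight u * Ideal.absNorm J) := by ring
      _ < (4 ^ finrank ℚ K * √|(discr K : ℝ)| ^ finrank ℚ K) *
          (Height.mulHeight u * Ideal.absNorm J) := by
            gcongr
      _ = _ := by ring)
  refine ⟨α * ((N : 𝓞 K) : K), fun b => ⟨α * (y b : K), hint _ (Ideal.subset_span ⟨b, rfl⟩)⟩,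
    mul_ne_zero hα0 hN0, ?_, ?_⟩
  · intro b
    change α * (y b : K) = _
    rw [hy' b]
    ring
  · intro b σ
    change ‖σ (α * (y b : K))‖ ≤ X
    have h1 : ‖σ (α * (y b : K))‖ = (InfinitePlace.mk σ) α * (InfinitePlace.mk σ) (y b : K) := by
      rw [map_mul, norm_mul]
      rfl
    rw [h1]
    refine le_trans ?_ (hα (InfinitePlace.mk σ))
    gcongr
    exact hsb _ b

end FreyTN
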