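import Pool.Agent.Lib.MP_6babc4_nt.TN.Defs

/-!
# Module Dup: the duplication formula of the theta constants

PROOF. `‖exp(π i quad τ m)‖ = exp(-π quad (im τ) m)`, absolutely summable for `τ` (hypothesis `h`) and for `2 τ` (`quad (im τ) ≥ 0`). With `e m = exp(π i quad τ m)`:
`2^(-g) sq (theta τ) b = 2^(-g) ∑_c ∑_(p,q) (-1)^(c.p) (-1)^((b+c).q) e p e q = ∑_(p,q) (-1)^(b.q) e p e q · [p ≡ q mod 2]`, as `2^(-g) ∑_c (-1)^(c.(p+q)) = 1` if `p + q ≡ 0` modulo `2` and `0` otherwise
(`sgn (b + c) m = sgn b m * sgn c m`, `sgn c (p + q) = sgn c p * sgn c q`, orthogonality). The pairs `p ≡ q` are `p = m + n`, `q = m - n` for exactly one pair `(m, n)`;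
`quad τ (m + n) + quad τ (m - n) = 2 quad τ m + 2 quad τ n` and `sgn b (m - n) = sgn b m * sgn b n`: the sum is `(theta (2 τ) b)^2`. (`tsum_mul_tsum_of_summable_norm`, `Summable.tsum_finsetSum`, `tsum_subtype` or
`Function.Injective.tsum_eq` for the injective map `(m, n) ↦ (m + n, m - n)` whose image is the support.)
-/

set_option autoImplicit false

namespace FreyTN

private lemma dup_z2 : ∀ x y : ZMod 2, (if x + y = 0 then (1 : ℤ) else -1) =
    (if x = 0 then 1 else -1) * (if y = 0 then 1 else -1) := by decide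

private lemma dup_add_right {g : ℕ} (b : GI g) (m n : Fin g → ℤ) :
    sgn b (m + n) = sgn b m * sgn b n := by
  unfold sgn
  rw [← dup_z2, ← Finset.sum_add_distrib]
  have e : ∀ i, b i * ((m + n) i : ZMod 2) = b i * (m i : ZMod 2) + b i * (n i : ZMod 2) := by
    intro i
    rw [Pi.add_apply]
    push_cast
    ring
  rw [Finset.sum_congr rfl fun i _ => e i]

private lemma dup_add_left {g : ℕ} (b c : GI g) (m : Fin g → ℤ) :
    sgn (b + c) m = sgn b m * sgn c m := by
  unfold sgn
  rw [← dup_z2, ← Finset.sum_add_distrib]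
  have e : ∀ i, (b + c) i * (m i : ZMod 2) = b i * (m i : ZMod 2) + c i * (m i : ZMod 2) := by
    intro i
    rw [Pi.add_apply]
    ring
  rw [Finset.sum_congr rfl fun i _ => e i]

private lemma dup_neg {g : ℕ} (b : GI g) (m : Fin g → ℤ) : sgn b (-m) = sgn b m := by
  unfold sgn
  have e : ∀ i, b i * ((-m) i : ZMod 2) = -(b i * (m i : ZMod 2)) := by
    intro i
    rw [Pi.neg_apply]
    push_cast
    ring
  rw [Finset.sum_congr rfl fun i _ => e i, Finset.sum_neg_distrib]
  simp only [neg_eq_zero]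

private lemma dup_sub {g : ℕ} (b : GI g) (m n : Fin g → ℤ) :
    sgn b (m - n) = sgn b m * sgn b n := by
  rw [sub_eq_add_neg, dup_add_right, dup_neg]

private lemma dup_norm {g : ℕ} (b : GI g) (m : Fin g → ℤ) : ‖(sgn b m : ℂ)‖ = 1 := by
  unfold sgn
  split_ifs <;> simp

open Classical in
private lemma dup_orth {g : ℕ} (m : Fin g → ℤ) :
    ∑ c : GI g, (sgn c m : ℂ) = if ∀ i, (m i : ZMod 2) = 0 then (2 : ℂ) ^ g else 0 := by
  split_ifs with h
  · have e : ∀ c : GI g, (sgn c m : ℂ) = 1 := by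
      intro c
      unfold sgn
      rw [if_pos]
      · simp
      · exact Finset.sum_eq_zero fun i _ => by rw [h i, mul_zero]
    rw [Finset.sum_congr rfl fun c _ => e c, Finset.sum_const, Finset.card_univ]
    simp [ZMod.card]
  · push Not at h
    obtain ⟨i0, h0⟩ := h
    have h1 : sgn (Pi.single i0 1 : GI g) m = -1 := by
      unfold sgn
      rw [if_neg]
      rw [Finset.sum_eq_single i0]
      · rw [Pi.single_eq_same, one_mul]
        exact h0
      · intro j _ hj
        rw [Pi.single_eq_of_ne hj, zero_mul]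
      · intro hc
        exact absurd (Finset.mem_univ i0) hc
    have h2 : ∑ c : GI g, (sgn c m : ℂ) = ∑ c : GI g, (sgn (c + Pi.single i0 1) m : ℂ) :=
      (Equiv.sum_comp (Equiv.addRight (Pi.single i0 1 : GI g)) fun c => (sgn c m : ℂ)).symm
    have h3 : ∑ c : GI g, (sgn (c + Pi.single i0 1) m : ℂ) = -∑ c : GI g, (sgn c m : ℂ) := by
      rw [← Finset.sum_neg_distrib]
      refine Finset.sum_congr rfl fun c _ => ?_
      rw [dup_add_left, h1]
      push_cast
      ring
    rw [h3] at h2
    exact self_eq_neg.1 h2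

private lemma dup_im {g : ℕ} (τ : Matrix (Fin g) (Fin g) ℂ) (m : Fin g → ℤ) :
    (quad τ m).im = quad (τ.map Complex.im) m := by
  unfold quad
  rw [Complex.im_sum]
  refine Finset.sum_congr rfl fun i _ => ?_
  rw [Complex.im_sum]
  refine Finset.sum_congr rfl fun j _ => ?_
  simp [Complex.mul_im, Complex.mul_re, Matrix.map_apply]

private lemma dup_normE {g : ℕ} (τ : Matrix (Fin g) (Fin g) ℂ) (m : Fin g → ℤ) :
    ‖Complex.exp (Real.pi * Complex.I * quad τ m)‖ =
      Real.exp (-(Real.pi * quad (τ.map Complex.im) m)) := by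
  rw [Complex.norm_exp, ← dup_im]
  congr 1
  simp [Complex.mul_re, Complex.mul_im]

private lemma dup_smul {g : ℕ} (τ : Matrix (Fin g) (Fin g) ℂ) (m : Fin g → ℤ) :
    quad ((2 : ℂ) • τ) m = 2 * quad τ m := by
  unfold quad
  rw [Finset.mul_sum]
  refine Finset.sum_congr rfl fun i _ => ?_
  rw [Finset.mul_sum]
  refine Finset.sum_congr rfl fun j _ => ?_
  rw [Matrix.smul_apply, smul_eq_mul]
  ring

private lemma dup_par {g : ℕ} (τ : Matrix (Fin g) (Fin g) ℂ) (m n : Fin g → ℤ) :
    quad τ (m + n) + quad τ (m - n) = 2 * quad τ m + 2 * quad τ n := by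
  unfold quad
  rw [Finset.mul_sum, Finset.mul_sum, ← Finset.sum_add_distrib, ← Finset.sum_add_distrib]
  refine Finset.sum_congr rfl fun i _ => ?_
  rw [Finset.mul_sum, Finset.mul_sum, ← Finset.sum_add_distrib, ← Finset.sum_add_distrib]
  refine Finset.sum_congr rfl fun j _ => ?_
  rw [Pi.add_apply, Pi.add_apply, Pi.sub_apply, Pi.sub_apply]
  push_cast
  ring

open Classical in
/-- the function of the pairs -/
private noncomputable def dupG {g : ℕ} (τ : Matrix (Fin g) (Fin g) ℂ) (b : GI g)
    (z : (Fin g → ℤ) × (Fin g → ℤ)) : ℂ :=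
  if ∀ i, ((z.1 + z.2) i : ZMod 2) = 0 then
    (sgn b z.2 : ℂ) * (Complex.exp (Real.pi * Complex.I * quad τ z.1) *
      Complex.exp (Real.pi * Complex.I * quad τ z.2)) else 0

theorem theta_step {g : ℕ} (τ : Matrix (Fin g) (Fin g) ℂ)
    (h0 : ∀ m : Fin g → ℤ, 0 ≤ quad (τ.map Complex.im) m)
    (h : Summable (fun m : Fin g → ℤ => Real.exp (-(Real.pi * quad (τ.map Complex.im) m)))) :
    Step (theta τ) (theta ((2 : ℂ) • τ)) := by
  intro b
  set A : Matrix (Fin g) (Fin g) ℂ → GI g → (Fin g → ℤ) → ℂ := fun σ c m =>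
    (sgn c m : ℂ) * Complex.exp (Real.pi * Complex.I * quad σ m) with hA
  have hAn : ∀ σ c m, ‖A σ c m‖ = Real.exp (-(Real.pi * quad (σ.map Complex.im) m)) := by
    intro σ c m
    rw [hA, norm_mul, dup_norm, one_mul, dup_normE]
  have hs1 : ∀ c, Summable fun m => ‖A τ c m‖ := fun c => by
    simp_rw [hAn]
    exact h
  have hq2 : ∀ m, quad (((2 : ℂ) • τ).map Complex.im) m = 2 * quad (τ.map Complex.im) m := by
    intro m
    rw [← dup_im, dup_smul, ← dup_im]
    simp
  have hs2 : ∀ c, Summable fun m => ‖A ((2 : ℂ) • τ) c m‖ := fun c => by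
    refine Summable.of_nonneg_of_le (fun m => norm_nonneg _) (fun m => ?_) h
    rw [hAn, hq2]
    refine Real.exp_le_exp.2 (neg_le_neg ?_)
    refine mul_le_mul_of_nonneg_left ?_ Real.pi_pos.le
    linarith [h0 m]
  have ht : ∀ σ c, theta σ c = ∑' m, A σ c m := fun σ c => rfl
  -- the right hand side
  have hR : sq (theta τ) b = 2 ^ g * ∑' z, dupG τ b z := by
    unfold sq
    have e1 : ∀ c : GI g, theta τ c * theta τ (b + c) =
        ∑' z : (Fin g → ℤ) × (Fin g → ℤ), A τ c z.1 * A τ (b + c) z.2 := fun c => by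
      rw [ht, ht]
      exact tsum_mul_tsum_of_summable_norm (hs1 c) (hs1 (b + c))
    rw [Finset.sum_congr rfl fun c _ => e1 c,
      ← Summable.tsum_finsetSum fun c _ => summable_mul_of_summable_norm (hs1 c) (hs1 (b + c)),
      ← tsum_mul_left]
    refine tsum_congr fun z => ?_
    have e2 : ∀ c : GI g, A τ c z.1 * A τ (b + c) z.2 =
        (sgn c (z.1 + z.2) : ℂ) * ((sgn b z.2 : ℂ) *
          (Complex.exp (Real.pi * Complex.I * quad τ z.1) *
            Complex.exp (Real.pi * Complex.I * quad τ z.2))) := by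
      intro c
      simp only [hA]
      rw [dup_add_right, dup_add_left]
      push_cast
      ring
    rw [Finset.sum_congr rfl fun c _ => e2 c, ← Finset.sum_mul, dup_orth]
    unfold dupG
    split_ifs
    · rfl
    · rw [zero_mul, mul_zero]
  -- the left hand side
  have hinj : Function.Injective
      (fun z : (Fin g → ℤ) × (Fin g → ℤ) => (z.1 + z.2, z.1 - z.2)) := by
    intro z z' hz
    have h1 := congrArg Prod.fst hz
    have h2 := congrArg Prod.snd hz
    have e1 : ∀ i, z.1 i + z.2 i = z'.1 i + z'.2 i := fun i => congrFun h1 i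
    have e2 : ∀ i, z.1 i - z.2 i = z'.1 i - z'.2 i := fun i => congrFun h2 i
    refine Prod.ext (funext fun i => ?_) (funext fun i => ?_)
    · have := e1 i
      have := e2 i
      omega
    · have := e1 i
      have := e2 i
      omega
  have hsup : Function.support (dupG τ b) ⊆
      Set.range (fun z : (Fin g → ℤ) × (Fin g → ℤ) => (z.1 + z.2, z.1 - z.2)) := by
    intro z hz
    have hc : ∀ i, ((z.1 + z.2) i : ZMod 2) = 0 := by
      by_contra hc
      exact hz (if_neg hc)
    have hd : ∀ i, ∃ k : ℤ, z.1 i + z.2 i = 2 * k := by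
      intro i
      have := (ZMod.intCast_zmod_eq_zero_iff_dvd _ 2).1 (hc i)
      obtain ⟨k, hk⟩ := this
      exact ⟨k, by simpa using hk⟩
    choose k hk using hd
    refine ⟨(k, z.1 - k), ?_⟩
    refine Prod.ext (funext fun i => ?_) (funext fun i => ?_)
    · have := hk i
      simp only [Pi.add_apply, Pi.sub_apply]
      omega
    · have := hk i
      simp only [Pi.sub_apply]
      omega
  have hL : theta ((2 : ℂ) • τ) b ^ 2 = ∑' z, dupG τ b z := by
    rw [pow_two, ht, tsum_mul_tsum_of_summable_norm (hs2 b) (hs2 b), ← hinj.tsum_eq hsup]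
    refine tsum_congr fun z => ?_
    unfold dupG
    rw [if_pos]
    · show A ((2 : ℂ) • τ) b z.1 * A ((2 : ℂ) • τ) b z.2 = (sgn b (z.1 - z.2) : ℂ) *
        (Complex.exp (Real.pi * Complex.I * quad τ (z.1 + z.2)) *
          Complex.exp (Real.pi * Complex.I * quad τ (z.1 - z.2)))
      rw [← Complex.exp_add, ← mul_add, dup_par, dup_sub, mul_add, Complex.exp_add]
      simp only [hA, dup_smul]
      push_cast
      ring
    · intro i
      show (((z.1 + z.2) + (z.1 - z.2)) i : ZMod 2) = 0
      rw [ZMod.intCast_zmod_eq_zero_iff_dvd]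
      refine ⟨z.1 i, ?_⟩
      simp only [Pi.add_apply, Pi.sub_apply]
      push_cast
      ring
  rw [hL, hR, mul_div_cancel_left₀]
  exact pow_ne_zero _ two_ne_zero

end FreyTN
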