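import Pool.Agent.Lib.MP_6babc4_nt.TN.Lat
import Pool.Agent.Lib.MP_6babc4_nt.TN.Dup

/-!
# Module The: the path of the theta constants and its limit

PROOF. For `Siegel ρ τ` all `2^j τ` satisfy the hypotheses of `theta_step` (`quad (2^j im τ) m = 2^j quad (im τ) m`, `lat_bound` for `j`), and `(2^(j+1)) • τ = 2 • (2^j • τ)`.
`theta (2^j τ) b - 1 = ∑_(m ≠ 0) ± exp(π i 2^j quad τ m)` has absolute value at most `∑_(m ≠ 0) exp(-π 2^j quad (im τ) m) ≤ δ j` (the term `m = 0` is `1`).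
-/

set_option autoImplicit false

open Filter Topology

namespace FreyTN

/-- The imaginary part of `quad τ m`. -/
private lemma quad_im {g : ℕ} (τ : Matrix (Fin g) (Fin g) ℂ) (m : Fin g → ℤ) :
    (quad τ m).im = quad (τ.map Complex.im) m := by
  unfold quad
  rw [Complex.im_sum]
  refine Finset.sum_congr rfl fun i _ => ?_
  rw [Complex.im_sum]
  refine Finset.sum_congr rfl fun j _ => ?_
  have h1 : ((m i : ℂ)) = (((m i : ℤ) : ℝ) : ℂ) := by push_cast; rfl
  have h2 : ((m j : ℂ)) = (((m j : ℤ) : ℝ) : ℂ) := by push_cast; rfl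
  rw [h1, h2, Complex.mul_im, Complex.ofReal_re, Complex.ofReal_im, mul_zero, zero_add,
    Complex.mul_im, Complex.ofReal_re, Complex.ofReal_im, zero_mul, add_zero, Matrix.map_apply]

private lemma quad_smul {g : ℕ} (j : ℕ) (τ : Matrix (Fin g) (Fin g) ℂ) (m : Fin g → ℤ) :
    quad (((2 ^ j : ℂ) • τ).map Complex.im) m = 2 ^ j * quad (τ.map Complex.im) m := by
  rw [← quad_im, ← quad_im]
  have h1 : quad ((2 ^ j : ℂ) • τ) m = (2 ^ j : ℂ) * quad τ m := by
    unfold quad
    rw [Finset.mul_sum]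
    refine Finset.sum_congr rfl fun i _ => ?_
    rw [Finset.mul_sum]
    refine Finset.sum_congr rfl fun k _ => ?_
    rw [Matrix.smul_apply, smul_eq_mul]
    ring
  have h2 : (2 ^ j : ℂ) = (((2 : ℝ) ^ j : ℝ) : ℂ) := by push_cast; rfl
  rw [h1, h2, Complex.mul_im, Complex.ofReal_re, Complex.ofReal_im, zero_mul, add_zero]

private lemma norm_sgn {g : ℕ} (b : GI g) (m : Fin g → ℤ) : ‖(sgn b m : ℂ)‖ = 1 := by
  unfold sgn
  split_ifs <;> simp

private lemma norm_term {g : ℕ} (τ : Matrix (Fin g) (Fin g) ℂ) (b : GI g) (m : Fin g → ℤ) :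
    ‖(sgn b m : ℂ) * Complex.exp (Real.pi * Complex.I * quad τ m)‖ =
      Real.exp (-(Real.pi * quad (τ.map Complex.im) m)) := by
  rw [norm_mul, norm_sgn, one_mul, Complex.norm_exp, ← quad_im]
  congr 1
  rw [mul_assoc, Complex.mul_re, Complex.ofReal_re, Complex.ofReal_im, zero_mul, sub_zero,
    Complex.mul_re, Complex.I_re, Complex.I_im, zero_mul, one_mul, zero_sub]
  ring

private lemma term_zero {g : ℕ} (τ : Matrix (Fin g) (Fin g) ℂ) (b : GI g) :
    (sgn b (0 : Fin g → ℤ) : ℂ) * Complex.exp (Real.pi * Complex.I * quad τ 0) = 1 := by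
  unfold sgn quad
  simp

theorem theta_path (g : ℕ) {ρ : ℝ} (hρ : 0 < ρ) : ∃ δ : ℕ → ℝ, Tendsto δ atTop (𝓝 0) ∧
    ∀ τ : Matrix (Fin g) (Fin g) ℂ, Siegel ρ τ →
      (∀ j : ℕ, Step (theta ((2 ^ j : ℂ) • τ)) (theta ((2 ^ (j + 1) : ℂ) • τ))) ∧
      ∀ (j : ℕ) (b : GI g), ‖theta ((2 ^ j : ℂ) • τ) b - 1‖ ≤ δ j := by
  classical
  obtain ⟨δ, hδ, hlat⟩ := lat_bound g hρ
  refine ⟨δ, hδ, fun τ hτ => ?_⟩
  obtain ⟨-, hpd, hmin⟩ := hτ
  have hY := hlat (τ.map Complex.im) hpd hmin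
  have hsum : ∀ j : ℕ, Summable (fun m : Fin g → ℤ =>
      Real.exp (-(Real.pi * quad (((2 ^ j : ℂ) • τ).map Complex.im) m))) := by
    intro j
    have h1 := (hY j).1
    simpa only [quad_smul] using h1
  refine ⟨fun j => ?_, fun j b => ?_⟩
  · have h1 : ((2 ^ (j + 1) : ℂ) • τ) = (2 : ℂ) • ((2 ^ j : ℂ) • τ) := by
      rw [smul_smul, pow_succ, mul_comm]
    rw [h1]
    refine theta_step _ (fun m => ?_) (hsum j)
    rw [quad_smul]
    refine mul_nonneg (by positivity) ?_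
    by_cases hm : m = 0
    · subst hm
      unfold quad
      simp
    · exact hρ.le.trans (hmin m hm)
  · have hs : Summable (fun m : Fin g → ℤ => (sgn b m : ℂ) *
        Complex.exp (Real.pi * Complex.I * quad ((2 ^ j : ℂ) • τ) m)) := by
      refine Summable.of_norm ?_
      simpa only [norm_term] using hsum j
    have h1 : theta ((2 ^ j : ℂ) • τ) b = 1 + ∑' m : Fin g → ℤ, if m = 0 then 0 else
        (sgn b m : ℂ) * Complex.exp (Real.pi * Complex.I * quad ((2 ^ j : ℂ) • τ) m) := by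
      unfold theta
      rw [hs.tsum_eq_add_tsum_ite 0, term_zero]
    have hn : ∀ m : Fin g → ℤ, ‖if m = 0 then (0 : ℂ) else
        (sgn b m : ℂ) * Complex.exp (Real.pi * Complex.I * quad ((2 ^ j : ℂ) • τ) m)‖ =
        if m = 0 then 0 else Real.exp (-(Real.pi * (2 ^ j * quad (τ.map Complex.im) m))) := by
      intro m
      split_ifs
      · exact norm_zero
      · rw [norm_term, quad_smul]
    have hs2 : Summable (fun m : Fin g → ℤ => ‖if m = 0 then (0 : ℂ) else
        (sgn b m : ℂ) * Complex.exp (Real.pi * Complex.I * quad ((2 ^ j : ℂ) • τ) m)‖) := by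
      refine Summable.of_nonneg_of_le (fun m => norm_nonneg _) (fun m => ?_) ((hY j).1)
      rw [hn]
      split_ifs
      · exact (Real.exp_pos _).le
      · exact le_refl _
    rw [h1, add_sub_cancel_left]
    refine (norm_tsum_le_tsum_norm hs2).trans ?_
    simp only [hn]
    exact (hY j).2

end FreyTN
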