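import Pool.Agent.Lib.MP_6babc4_nt.TN.Defs

/-!
# Definitions of the statement: bad primes and Frey's inequality for a theta null point
-/

set_option autoImplicit false

open NumberField IsDedekindDomain Module

namespace FreyTN

/-- The numbers `θ_b(2^j τ) / θ_c(τ)` with `θ_c(τ) ≠ 0`. -/
def thetaSet {g : ℕ} (τ : Matrix (Fin g) (Fin g) ℂ) : Set ℂ :=
  {z | ∃ (j : ℕ) (b c : GI g), theta τ c ≠ 0 ∧ z = theta ((2 ^ j : ℂ) • τ) b / theta τ c}

/-- The prime `v` of `K` does not divide `2` and it is ramified in the field generated over `K` by the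
numbers `θ_b(2^j τ) / θ_c(τ)` (that is, in a number field `L` contained in this field). -/
def Bad {g : ℕ} (K : IntermediateField ℚ ℂ) [NumberField K] (τ : Matrix (Fin g) (Fin g) ℂ)
    (v : HeightOneSpectrum (𝓞 K)) : Prop :=
  (2 : 𝓞 K) ∉ v.asIdeal ∧ ∃ (L : IntermediateField K ℂ) (_ : NumberField L)
    (P : HeightOneSpectrum (𝓞 L)), L ≤ IntermediateField.adjoin K (thetaSet τ) ∧
      P.asIdeal ^ 2 ∣ v.asIdeal.map (algebraMap (𝓞 K) (𝓞 L))

/-- Frey's inequality `h(u) ≤ κ log (|D_K| ∏ N v)`, the product over a finite set of bad primes `v`; `h` is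
the absolute logarithmic height of the point `u` of projective space. -/
def Frey {g : ℕ} (κ : ℝ) (K : IntermediateField ℚ ℂ) [NumberField K]
    (τ : Matrix (Fin g) (Fin g) ℂ) (u : GI g → K) : Prop :=
  ∃ s : Finset (HeightOneSpectrum (𝓞 K)), (∀ v ∈ s, Bad K τ v) ∧
    Height.logHeight u / finrank ℚ K ≤
      κ * Real.log (|(discr K : ℝ)| * ∏ v ∈ s, (Ideal.absNorm v.asIdeal : ℝ))

/-- A path of length `k` over `𝓞 F` which at `σ` is close to a multiple of `(1, .., 1)`, of size at most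
`(2^g)^k R` at all places. -/
def Arc {g : ℕ} {F : Type} [Field F] [NumberField F] (k : ℕ) (R : ℝ) (δ : ℕ → ℝ) (σ : F →+* ℂ)
    (v : ℕ → GI g → 𝓞 F) : Prop :=
  Path k v ∧
  (∃ s : ℂ, s ≠ 0 ∧ ∀ j ≤ k, ∀ b,
    ‖σ (v j b : F) - (2 ^ g) ^ j * s‖ ≤ (2 ^ g) ^ j * ‖s‖ * δ j) ∧
  ∀ j ≤ k, ∀ b, ∀ τ : F →+* ℂ, ‖τ (v j b : F)‖ ≤ (2 ^ g) ^ k * R

end FreyTN
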