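import Pool.Agent.Lib.MP_6babc4_nt.G2.Twr
import Pool.Agent.Lib.MP_6babc4_nt.TN.Dfn

/-!
# Module Twr: the field of the first `k` levels of a path; integrality; sizes

`path_exists`. PROOF. Induction on `k` (for the statement as it is). `k = 0`: `F = K`, `ψ = Algebra.ofId K ℂ`, `v 0 = u`, `A = M + 1`. From `k` to `k+1`: over `F` the elements `c b = 2^g sq (v k) b` satisfy `ψ (c b) = β (k+1) b ^ 2`, so their orders at the primes `P` with `w ∉ P` are
even if `c b ≠ 0` (hypothesis for `L = F`). `sqrt_list` (G2/Twr; `n = Fintype.card (GI g)`, an equivalence with `Fin n`) gives `F' ⊇ F` with `x b ^ 2 = c b`; extend `ψ` to `ψ' : F' → ℂ` over `F` (`IsAlgClosed.lift`; `ℂ` is an `F`-algebra by `ψ`); `ψ' (x b) = ± β (k+1) b`: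
`v' (k+1) b = ± x b`. Constants: the private lemma `twr_comp` of G2/Twr (copy).

`path_of_map`. PROOF. `ψ` is injective.

`path_int`. PROOF. Induction on `j`: `v (j+1) b ^ 2 = 2^g sq (v j) b` is integral.

`path_house`. PROOF. `‖τ (v j b)‖ ≤ (2^g)^j R` by induction on `j`: `‖τ (v (j+1) b)‖^2 ≤ 2^g · 2^g · ((2^g)^j R)^2`.
-/

set_option autoImplicit false

open NumberField IsDedekindDomain Module

namespace FreyTN

open FreyCyc FreySparse FreyG2

private lemma twr_one_le (E : Type) [Field E] [NumberField E] : (1 : ℝ) ≤ |(discr E : ℝ)| := by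
  have h : (1 : ℤ) ≤ |discr E| := Int.one_le_abs (discr_ne_zero E)
  exact_mod_cast h

private lemma twr_comp {a b c w : ℕ} {D D' D3 : ℝ} (ha : 1 ≤ a) (hc : 1 ≤ c) (hw : 1 ≤ w)
    (hD : 1 ≤ D) (hD' : 0 ≤ D') (h1 : D' ≤ (a * D * w) ^ b) (h2 : D3 ≤ (c * D' * w) ^ c) :
    D3 ≤ (((a * c * (b + 1) : ℕ) : ℝ) * D * w) ^ (a * c * (b + 1)) := by
  have ha' : (1 : ℝ) ≤ a := by exact_mod_cast ha
  have hc' : (1 : ℝ) ≤ c := by exact_mod_cast hc
  have hw' : (1 : ℝ) ≤ w := by exact_mod_cast hw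
  have hD0 : 0 ≤ D := by linarith
  have haD : 1 ≤ (a : ℝ) * D := one_le_mul_of_one_le_of_one_le ha' hD
  have haDw : 1 ≤ (a : ℝ) * D * w := one_le_mul_of_one_le_of_one_le haD hw'
  set X : ℝ := a * c * D * w with hX
  have hX2 : X = c * (a * D * w) := by rw [hX]; ring
  have hX1 : 1 ≤ X := by
    rw [hX2]
    exact one_le_mul_of_one_le_of_one_le hc' haDw
  have hX3 : (a : ℝ) * D * w ≤ X := by
    rw [hX2]
    exact le_mul_of_one_le_left (by linarith) hc'
  have hX4 : (c : ℝ) * w ≤ X := by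
    have h3 : X = (c * w) * (a * D) := by rw [hX]; ring
    rw [h3]
    exact le_mul_of_one_le_right (by positivity) haD
  have h4 : (c : ℝ) * D' * w ≤ X ^ (b + 1) := by
    calc (c : ℝ) * D' * w = (c * w) * D' := by ring
      _ ≤ X * X ^ b := mul_le_mul hX4 (h1.trans (pow_le_pow_left₀ (by linarith) hX3 b)) hD'
          (by linarith)
      _ = X ^ (b + 1) := by ring
  have h5 : X ≤ ((a * c * (b + 1) : ℕ) : ℝ) * D * w := by
    push_cast
    have h6 : (a : ℝ) * c * (b + 1) * D * w = X * (b + 1) := by rw [hX]; ring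
    rw [h6]
    refine le_mul_of_one_le_right (by linarith) ?_
    have : (0 : ℝ) ≤ b := Nat.cast_nonneg b
    linarith
  calc D3 ≤ (c * D' * w) ^ c := h2
    _ ≤ (X ^ (b + 1)) ^ c := pow_le_pow_left₀ (by positivity) h4 c
    _ = X ^ ((b + 1) * c) := by rw [← pow_mul]
    _ ≤ X ^ (a * c * (b + 1)) := by
        refine pow_le_pow_right₀ hX1 ?_
        calc (b + 1) * c = 1 * (c * (b + 1)) := by ring
          _ ≤ a * (c * (b + 1)) := Nat.mul_le_mul_right _ ha
          _ = a * c * (b + 1) := by ring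
    _ ≤ _ := pow_le_pow_left₀ (by linarith) h5 _

private lemma twr_map_sq {R S : Type*} [CommRing R] [CommRing S] (f : R →+* S) {g : ℕ} (v : GI g → R)
    (b : GI g) : f (sq v b) = sq (fun c => f (v c)) b := by
  unfold sq
  rw [map_sum]
  exact Finset.sum_congr rfl fun c _ => map_mul f _ _


theorem path_exists (g k M : ℕ) : ∃ A : ℕ, 1 ≤ A ∧ ∀ (K : Type) [Field K] [NumberField K]
    [Algebra K ℂ], finrank ℚ K ≤ M → ∀ w : ℕ, w ≠ 0 → 2 ∣ w → ∀ (β : ℕ → GI g → ℂ) (u : GI g → K),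
      (∀ b, β 0 b = algebraMap K ℂ (u b)) →
      (∀ j < k, ∀ b, β (j + 1) b ^ 2 = 2 ^ g * sq (β j) b) →
      (∀ (L : Type) [Field L] [NumberField L] [Algebra K L] (ψ : L →ₐ[K] ℂ)
        (P : HeightOneSpectrum (𝓞 L)), (w : 𝓞 L) ∉ P.asIdeal →
          ∀ (a : L), ∀ j < k, ∀ b : GI g, a ≠ 0 → ψ a = β (j + 1) b ^ 2 → Even (ord P a)) →
      ∃ (F : Type) (_ : Field F) (_ : NumberField F) (_ : Algebra K F) (ψ : F →ₐ[K] ℂ)
        (v : ℕ → GI g → F), (∀ j ≤ k, ∀ b, ψ (v j b) = β j b) ∧ finrank ℚ F ≤ A ∧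
          |(discr F : ℝ)| ≤ (A * |(discr K : ℝ)| * w) ^ A := by
  induction k with
  | zero =>
    refine ⟨M + 1, by omega, ?_⟩
    intro K _ _ _ hM w hw h2 β u hu hβ hev
    refine ⟨K, inferInstance, inferInstance, Algebra.id K, Algebra.ofId K ℂ, fun _ => u, ?_,
      by omega, ?_⟩
    · intro j hj b
      rw [Nat.le_zero.1 hj, hu]
      rfl
    · have hw' : (1 : ℝ) ≤ w := by exact_mod_cast Nat.one_le_iff_ne_zero.mpr hw
      have hD := twr_one_le K
      have hM' : (1 : ℝ) ≤ ((M + 1 : ℕ) : ℝ) := by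
        push_cast
        have : (0 : ℝ) ≤ M := Nat.cast_nonneg M
        linarith
      have h3 : |(discr K : ℝ)| ≤ ((M + 1 : ℕ) : ℝ) * |(discr K : ℝ)| * w := by
        calc |(discr K : ℝ)| = 1 * |(discr K : ℝ)| * 1 := by ring
          _ ≤ ((M + 1 : ℕ) : ℝ) * |(discr K : ℝ)| * w :=
              mul_le_mul (mul_le_mul_of_nonneg_right hM' (by linarith)) hw' zero_le_one
                (by positivity)
      exact h3.trans (le_self_pow₀ (hD.trans h3) (by omega))
  | succ k ih =>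
    obtain ⟨A, hA, hF⟩ := ih
    obtain ⟨A', hA', hF'⟩ := sqrt_list (Fintype.card (GI g)) A
    refine ⟨A * A' * (A + 1), Nat.one_le_iff_ne_zero.mpr (by positivity), ?_⟩
    intro K _ _ _ hM w hw h2 β u hu hβ hev
    have hw1 : 1 ≤ w := Nat.one_le_iff_ne_zero.mpr hw
    obtain ⟨F, _, _, _, ψ, v, hv, hdeg, hD⟩ := hF K hM w hw h2 β u hu
      (fun j hj b => hβ j (by omega) b)
      (fun L _ _ _ ψ P hP a j hj b ha hab => hev L ψ P hP a j (by omega) b ha hab)
    have hc : ∀ b, ψ (2 ^ g * sq (v k) b) = β (k + 1) b ^ 2 := by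
      intro b
      have h1 := twr_map_sq (ψ : F →+* ℂ) (v k) b
      have h3 : (fun c => (ψ : F →+* ℂ) (v k c)) = β k := by
        funext c
        exact hv k le_rfl c
      rw [h3] at h1
      rw [hβ k (by omega) b, map_mul, map_pow, map_ofNat, ← h1]
      rfl
    let e := Fintype.equivFin (GI g)
    obtain ⟨F', iF, iN, iA, x, hx, hdegF, hDF⟩ := hF' F hdeg w hw h2
      (fun i => 2 ^ g * sq (v k) (e.symm i))
      (fun P hP i hi => hev F ψ P hP _ k (by omega) (e.symm i) hi (hc _))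
    letI : Algebra F ℂ := (ψ : F →+* ℂ).toAlgebra
    haveI : Algebra.IsAlgebraic F F' := Algebra.IsAlgebraic.tower_top (K := ℚ) F
    let φ : F' →ₐ[F] ℂ := IsAlgClosed.lift
    have hφ : ∀ y : F, φ (algebraMap F F' y) = ψ y := fun y => φ.commutes y
    letI iKF : Algebra K F' := ((algebraMap F F').comp (algebraMap K F)).toAlgebra
    let ψ' : F' →ₐ[K] ℂ :=
      { (φ : F' →+* ℂ) with
        commutes' := fun r => by
          change φ (algebraMap F F' (algebraMap K F r)) = algebraMap K ℂ r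
          rw [hφ]
          exact ψ.commutes r }
    have hψ' : ∀ y : F', ψ' y = φ y := fun _ => rfl
    have hsq : ∀ b, φ (x (e b)) ^ 2 = β (k + 1) b ^ 2 := by
      intro b
      rw [← map_pow, hx, hφ, Equiv.symm_apply_apply, hc]
    classical
    refine ⟨F', iF, iN, iKF, ψ', fun j b => if j ≤ k then algebraMap F F' (v j b) else
      if φ (x (e b)) = β (k + 1) b then x (e b) else -x (e b), ?_, ?_, ?_⟩
    · intro j hj b
      rw [hψ']
      beta_reduce
      by_cases h : j ≤ k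
      · rw [if_pos h, hφ]
        exact hv j h b
      · have hj' : j = k + 1 := by omega
        rw [if_neg h, hj']
        split_ifs with h4
        · exact h4
        · rw [map_neg]
          rcases sq_eq_sq_iff_eq_or_eq_neg.1 (hsq b) with h5 | h5
          · exact absurd h5 h4
          · rw [h5, neg_neg]
    · refine hdegF.trans ?_
      calc A' = 1 * A' * 1 := by ring
        _ ≤ A * A' * (A + 1) := Nat.mul_le_mul (Nat.mul_le_mul_right A' hA) (by omega)
    · exact twr_comp hA hA' hw1 (twr_one_le K) (abs_nonneg _) hD hDF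

theorem path_of_map {g k : ℕ} {F : Type} [Field F] (ψ : F →+* ℂ) {v : ℕ → GI g → F}
    {β : ℕ → GI g → ℂ} (h : ∀ j ≤ k, ∀ b, ψ (v j b) = β j b) (hβ : Path k β) : Path k v := by
  intro j hj b
  apply ψ.injective
  have h3 : (fun c => ψ (v j c)) = β j := by
    funext c
    exact h j hj.le c
  rw [map_pow, h (j + 1) hj b, hβ j hj b, map_mul, map_pow, map_ofNat, twr_map_sq, h3]

theorem path_int {g k : ℕ} {F : Type} [Field F] {v : ℕ → GI g → F} (hv : Path k v)
    (hu : ∀ b, IsIntegral ℤ (v 0 b)) (j : ℕ) (hj : j ≤ k) (b : GI g) : IsIntegral ℤ (v j b) := by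
  induction j generalizing b with
  | zero => exact hu b
  | succ j ih =>
    refine IsIntegral.of_pow (n := 2) (by norm_num) ?_
    rw [hv j hj b]
    refine IsIntegral.mul ?_ ?_
    · have h1 : IsIntegral ℤ ((2 : ℤ) : F) := isIntegral_algebraMap (R := ℤ) (A := F) (x := 2)
      have h2 : ((2 : ℤ) : F) = 2 := by norm_num
      rw [h2] at h1
      exact h1.pow g
    · unfold sq
      exact IsIntegral.sum _ fun c _ => (ih (by omega) c).mul (ih (by omega) _)

theorem path_house {g k : ℕ} {F : Type} [Field F] {v : ℕ → GI g → F} (hv : Path k v)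
    (τ : F →+* ℂ) {R : ℝ} (hu : ∀ b, ‖τ (v 0 b)‖ ≤ R) (j : ℕ) (hj : j ≤ k) (b : GI g) :
    ‖τ (v j b)‖ ≤ (2 ^ g) ^ k * R := by
  have hR : 0 ≤ R := (norm_nonneg _).trans (hu 0)
  have key : ∀ j ≤ k, ∀ b, ‖τ (v j b)‖ ≤ (2 ^ g) ^ j * R := by
    intro j
    induction j with
    | zero =>
      intro _ b
      rw [pow_zero, one_mul]
      exact hu b
    | succ j ih =>
      intro hj b
      have hr := ih (by omega)
      set r : ℝ := (2 ^ g) ^ j * R with hr0
      have h1 : ‖τ (sq (v j) b)‖ ≤ 2 ^ g * r ^ 2 := by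
        rw [twr_map_sq]
        unfold sq
        refine (norm_sum_le _ _).trans ?_
        have h2 : ∀ c ∈ (Finset.univ : Finset (GI g)), ‖τ (v j c) * τ (v j (b + c))‖ ≤ r ^ 2 := by
          intro c _
          rw [norm_mul, pow_two]
          exact mul_le_mul (hr c) (hr _) (norm_nonneg _) ((norm_nonneg _).trans (hr c))
        refine (Finset.sum_le_card_nsmul _ _ _ h2).trans (le_of_eq ?_)
        rw [nsmul_eq_mul, Finset.card_univ]
        congr 1
        simp [ZMod.card]
      have h3 : ‖τ (v (j + 1) b)‖ ^ 2 ≤ ((2 ^ g) ^ (j + 1) * R) ^ 2 := by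
        rw [← norm_pow, ← map_pow, hv j hj b, map_mul, norm_mul, map_pow, norm_pow, map_ofNat,
          Complex.norm_ofNat]
        calc (2 : ℝ) ^ g * ‖τ (sq (v j) b)‖ ≤ 2 ^ g * (2 ^ g * r ^ 2) :=
              mul_le_mul_of_nonneg_left h1 (by positivity)
          _ = ((2 ^ g) ^ (j + 1) * R) ^ 2 := by rw [hr0]; ring
      exact (pow_le_pow_iff_left₀ (norm_nonneg _) (by positivity) two_ne_zero).1 h3
  refine (key j hj b).trans ?_
  refine mul_le_mul_of_nonneg_right (pow_le_pow_right₀ (one_le_pow₀ (by norm_num)) hj) hR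

end FreyTN
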