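import Pool.Agent.Lib.MP_6babc4_nt.TN.Pai
import Pool.Agent.Lib.MP_6babc4_nt.TN.Kct
import Pool.Agent.Lib.MP_6babc4_nt.TN.Evn
import Pool.Agent.Lib.MP_6babc4_nt.TN.Twr
import Pool.Agent.Lib.MP_6babc4_nt.TN.The

/-!
# Module Fin: Frey's inequality for theta null points in all dimensions

`theta_ne`. PROOF. If `theta τ = 0` then by the steps (`theta_path` of The) `theta (2^j τ) = 0` for all `j`, but `theta (2^j τ) b → 1`.

`bad_finite`. PROOF. Every finite set `s` of bad primes has `2^(card s) ≤ ∏ N v ≤ X`. So the set is finite (`Set.Infinite.exists_subset_card_eq`), `s` = its `toFinset`.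

`point_mem`. The vector of one exception, normalised, is in `PSet`. PROOF. Let `w₀ = 2 * ∏ v ∈ s, absNorm v` (`s` = all bad primes; `absNorm v ∈ v`). `c` with `theta τ c ≠ 0` (`theta_ne`), `a u = W` integral with small conjugates (`small_multiple`), `s₀ = W c / theta τ c` in `ℂ`: `W b = s₀ theta τ b` for all `b`, `s₀ ≠ 0`.
`β j b = (2^g)^j * s₀ * theta (2^j τ) b = (2^g)^j * W c * (theta (2^j τ) b / theta τ c) ∈ adjoin K (thetaSet τ)`, `β (j+1) b ^ 2 = 2^g sq (β j) b` (`Step`). `path_exists` (hypothesis by `even_of_sq`) gives `F, ψ, v`; `path_of_map`, `path_int`, `path_house`: the `v j b` (as elements of `𝓞 F` for `j ≤ k`;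
`0` for `j > k`) satisfy `Arc k R δ ψ`: `‖β j b - (2^g)^j s₀‖ = (2^g)^j ‖s₀‖ ‖theta (2^j τ) b - 1‖`. `E = K`, `z b = ψ (algebraMap K F (W b / W b₀)) = (u b / u b₀ : ℂ)`.

`frey_all`. PROOF. `δ` from `theta_path g hρ`; `k` from `pset_count g hδ d hε`, `A₁` from `path_exists g k d`, `A₂, C₂` from `pset_count` with `M = A₁`; `A₃, C₃` from `fields_count d`; `C₄` from `small_multiple d`.
An exception `(K, τ, u)`: `¬ Frey` with `s = ∅`, and with all finite sets `s` of bad primes: `κ log (|D_K| ∏ N v) < logHeight u / d ≤ log H`, so `|D_K| ∏ N v < Y = H^(1/κ)` (`Y ≥ 1`). So `K ∈ 𝒦` (`fields_count` for `Y`), the bad primes are finite in number, `point_mem` with `D = (2 A₁ Y)^A₁`, `R = C₄ √|D_K| H ≤ C₄ Y H`: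
the normalised vector `u / u b₀` is in `T K = {w : GI g → K | (w b : ℂ)_b ∈ PSet g δ k d A₁ D R}`, a finite set with at most `ncard PSet` elements (the map `w ↦ (w b : ℂ)_b` is injective). Sum `≤ C₃ Y^A₃ C₂ D^A₂ R^ε = C₃ C₂ (2 A₁)^(A₁ A₂) C₄^ε H^((A₃ + A₁ A₂ + ε)/κ + ε)`.
`B = A₃ + A₁ A₂ + ε`.
-/

set_option autoImplicit false

open Filter Topology NumberField IsDedekindDomain Module

namespace FreyTN

open FreyCyc FreySparse

theorem theta_ne {g : ℕ} {ρ : ℝ} (hρ : 0 < ρ) {τ : Matrix (Fin g) (Fin g) ℂ}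
    (hτ : Siegel ρ τ) : ∃ c : GI g, theta τ c ≠ 0 := by
  obtain ⟨δ, hδ, hpath⟩ := theta_path g hρ
  obtain ⟨hstep, hlim⟩ := hpath τ hτ
  by_contra hcon
  have h0 : ∀ c, theta τ c = 0 := fun c => by
    by_contra h
    exact hcon ⟨c, h⟩
  have hall : ∀ j : ℕ, ∀ b : GI g, theta ((2 ^ j : ℂ) • τ) b = 0 := by
    intro j
    induction j with
    | zero =>
      intro b
      rw [pow_zero, one_smul]
      exact h0 b
    | succ j ih =>
      intro b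
      have h1 := hstep j b
      have h2 : sq (theta ((2 ^ j : ℂ) • τ)) b = 0 := by
        unfold sq
        refine Finset.sum_eq_zero fun c _ => ?_
        rw [ih c, zero_mul]
      rw [h2, zero_div] at h1
      exact pow_eq_zero_iff (two_ne_zero) |>.1 h1
  have h1 : ∀ j, (1 : ℝ) ≤ δ j := by
    intro j
    have h2 := hlim j 0
    rw [hall j 0, zero_sub, norm_neg, norm_one] at h2
    exact h2
  have h2 : (1 : ℝ) ≤ 0 := ge_of_tendsto' hδ h1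
  linarith

theorem bad_finite {g : ℕ} {K : IntermediateField ℚ ℂ} [NumberField K]
    {τ : Matrix (Fin g) (Fin g) ℂ} {X : ℝ}
    (h : ∀ s : Finset (HeightOneSpectrum (𝓞 K)), (∀ v ∈ s, Bad K τ v) →
      ∏ v ∈ s, (Ideal.absNorm v.asIdeal : ℝ) ≤ X) :
    ∃ s : Finset (HeightOneSpectrum (𝓞 K)), ∀ v, v ∈ s ↔ Bad K τ v := by
  have hfin : {v : HeightOneSpectrum (𝓞 K) | Bad K τ v}.Finite := by
    by_contra hinf
    have hinf' : {v : HeightOneSpectrum (𝓞 K) | Bad K τ v}.Infinite := hinf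
    obtain ⟨n, hn⟩ := pow_unbounded_of_one_lt X (one_lt_two)
    obtain ⟨s, hs, hc⟩ := hinf'.exists_subset_card_eq n
    have h1 := h s (fun v hv => hs hv)
    have h2 : (2 : ℝ) ^ n ≤ ∏ v ∈ s, (Ideal.absNorm v.asIdeal : ℝ) := by
      rw [← hc, ← Finset.prod_const]
      refine Finset.prod_le_prod (fun v _ => by norm_num) (fun v _ => ?_)
      have h3 : 1 < Ideal.absNorm v.asIdeal :=
        NumberField.HeightOneSpectrum.one_lt_absNorm v
      exact_mod_cast h3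
    linarith
  refine ⟨hfin.toFinset, fun v => ?_⟩
  rw [Set.Finite.mem_toFinset]
  rfl

/-- The path `(2^g)^j s₀ theta (2^j τ)`. -/
private noncomputable def bet {g : ℕ} (τ : Matrix (Fin g) (Fin g) ℂ) (s₀ : ℂ) (j : ℕ) (b : GI g) :
    ℂ := (2 ^ g) ^ j * s₀ * theta ((2 ^ j : ℂ) • τ) b

private lemma bet_path {g : ℕ} {τ : Matrix (Fin g) (Fin g) ℂ} (s₀ : ℂ)
    (h : ∀ j : ℕ, Step (theta ((2 ^ j : ℂ) • τ)) (theta ((2 ^ (j + 1) : ℂ) • τ))) (j : ℕ)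
    (b : GI g) : bet τ s₀ (j + 1) b ^ 2 = 2 ^ g * sq (bet τ s₀ j) b := by
  have h1 : sq (bet τ s₀ j) b = ((2 ^ g) ^ j * s₀) ^ 2 * sq (theta ((2 ^ j : ℂ) • τ)) b := by
    unfold sq bet
    rw [Finset.mul_sum]
    refine Finset.sum_congr rfl fun c _ => ?_
    ring
  have h2 := h j b
  have h3 : (2 ^ g : ℂ) ≠ 0 := pow_ne_zero _ two_ne_zero
  have h4 : sq (theta ((2 ^ j : ℂ) • τ)) b = 2 ^ g * theta ((2 ^ (j + 1) : ℂ) • τ) b ^ 2 := by
    rw [h2]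
    field_simp
  rw [h1, h4]
  unfold bet
  ring

/-- The arc over `𝓞 F` from the path over `F`. -/
private lemma arc_exists {g k : ℕ} {δ : ℕ → ℝ} {R : ℝ} {F : Type} [Field F] [NumberField F]
    (ψ : F →+* ℂ) {v : ℕ → GI g → F} {τ : Matrix (Fin g) (Fin g) ℂ} {s₀ : ℂ} (hs₀ : s₀ ≠ 0)
    (h : ∀ j : ℕ, Step (theta ((2 ^ j : ℂ) • τ)) (theta ((2 ^ (j + 1) : ℂ) • τ)))
    (hlim : ∀ (j : ℕ) (b : GI g), ‖theta ((2 ^ j : ℂ) • τ) b - 1‖ ≤ δ j)
    (hv : ∀ j ≤ k, ∀ b, ψ (v j b) = bet τ s₀ j b) (hint : ∀ b, IsIntegral ℤ (v 0 b))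
    (hR : ∀ b (σ : F →+* ℂ), ‖σ (v 0 b)‖ ≤ R) :
    ∃ V : ℕ → GI g → 𝓞 F, Arc k R δ ψ V ∧ ∀ j ≤ k, ∀ b, (V j b : F) = v j b := by
  classical
  have hP : Path k v := path_of_map ψ hv (fun j _ b => bet_path s₀ h j b)
  have hI : ∀ j ≤ k, ∀ b, IsIntegral ℤ (v j b) := fun j hj b => path_int hP hint j hj b
  obtain ⟨V, hV⟩ : ∃ V : ℕ → GI g → 𝓞 F, ∀ j ≤ k, ∀ b, (V j b : F) = v j b := by
    refine ⟨fun j b => if hj : j ≤ k then ⟨v j b, hI j hj b⟩ else 0, fun j hj b => ?_⟩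
    dsimp only
    rw [dif_pos hj]
    rfl
  refine ⟨V, ⟨?_, ⟨s₀, hs₀, ?_⟩, ?_⟩, hV⟩
  · intro j hj b
    apply NumberField.RingOfIntegers.coe_injective
    have h1 := hP j hj b
    unfold sq at h1 ⊢
    rw [map_pow, map_mul, map_pow, map_sum]
    have h2 : (algebraMap (𝓞 F) F) 2 = 2 := map_ofNat _ 2
    have hV' : ∀ i ≤ k, ∀ x, algebraMap (𝓞 F) F (V i x) = v i x := fun i hi x => hV i hi x
    rw [h2, hV' (j + 1) hj b, h1]
    congr 1
    refine Finset.sum_congr rfl fun c _ => ?_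
    rw [map_mul, hV' j hj.le c, hV' j hj.le (b + c)]
  · intro j hj b
    rw [hV j hj b, hv j hj b]
    unfold bet
    have h1 : (2 ^ g) ^ j * s₀ * theta ((2 ^ j : ℂ) • τ) b - (2 ^ g) ^ j * s₀ =
        (2 ^ g) ^ j * s₀ * (theta ((2 ^ j : ℂ) • τ) b - 1) := by ring
    rw [h1, norm_mul, norm_mul, norm_pow, norm_pow, Complex.norm_ofNat]
    exact mul_le_mul_of_nonneg_left (hlim j b) (by positivity)
  · intro j hj b σ
    rw [hV j hj b]
    exact path_house hP σ (fun b => hR b σ) j hj b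

theorem point_mem {g : ℕ} {ρ : ℝ} (hρ : 0 < ρ) {δ : ℕ → ℝ}
    (hpath : ∀ τ : Matrix (Fin g) (Fin g) ℂ, Siegel ρ τ →
      (∀ j : ℕ, Step (theta ((2 ^ j : ℂ) • τ)) (theta ((2 ^ (j + 1) : ℂ) • τ))) ∧
      ∀ (j : ℕ) (b : GI g), ‖theta ((2 ^ j : ℂ) • τ) b - 1‖ ≤ δ j) {k d A : ℕ} (hA : 1 ≤ A)
    (hT : ∀ (K : Type) [Field K] [NumberField K]
      [Algebra K ℂ], finrank ℚ K ≤ d → ∀ w : ℕ, w ≠ 0 → 2 ∣ w → ∀ (β : ℕ → GI g → ℂ)
        (u : GI g → K), (∀ b, β 0 b = algebraMap K ℂ (u b)) →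
        (∀ j < k, ∀ b, β (j + 1) b ^ 2 = 2 ^ g * sq (β j) b) →
        (∀ (L : Type) [Field L] [NumberField L] [Algebra K L] (ψ : L →ₐ[K] ℂ)
          (P : HeightOneSpectrum (𝓞 L)), (w : 𝓞 L) ∉ P.asIdeal →
            ∀ (a : L), ∀ j < k, ∀ b : GI g, a ≠ 0 → ψ a = β (j + 1) b ^ 2 → Even (ord P a)) →
        ∃ (F : Type) (_ : Field F) (_ : NumberField F) (_ : Algebra K F) (ψ : F →ₐ[K] ℂ)
          (v : ℕ → GI g → F), (∀ j ≤ k, ∀ b, ψ (v j b) = β j b) ∧ finrank ℚ F ≤ A ∧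
            |(discr F : ℝ)| ≤ (A * |(discr K : ℝ)| * w) ^ A)
    {K : IntermediateField ℚ ℂ} [NumberField K] (hd : finrank ℚ K ≤ d)
    {τ : Matrix (Fin g) (Fin g) ℂ} (hτ : Siegel ρ τ) (u : GI g → K)
    (hu : ∀ a b, (u a : ℂ) * theta τ b = (u b : ℂ) * theta τ a)
    (a : K) (W : GI g → 𝓞 K) (ha : a ≠ 0) (hW : ∀ b, (W b : K) = a * u b) {R : ℝ} (hR : 1 ≤ R)
    (hWR : ∀ b (σ : K →+* ℂ), ‖σ (W b : K)‖ ≤ R)
    (s : Finset (HeightOneSpectrum (𝓞 K))) (hs : ∀ v, Bad K τ v → v ∈ s) {Y : ℝ}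
    (hY : |(discr K : ℝ)| * ∏ v ∈ s, (Ideal.absNorm v.asIdeal : ℝ) ≤ Y) (b₀ : GI g)
    (hb₀ : u b₀ ≠ 0) :
    (fun b => ((u b / u b₀ : K) : ℂ)) ∈ PSet g δ k d A ((2 * A * Y) ^ A) R := by
  classical
  obtain ⟨hstep, hlim⟩ := hpath τ hτ
  obtain ⟨c, hc⟩ := theta_ne hρ hτ
  have hub : ((u b₀ : K) : ℂ) ≠ 0 := by
    intro h
    apply hb₀
    exact_mod_cast h
  have hac : ((a : K) : ℂ) ≠ 0 := by
    intro h
    apply ha
    exact_mod_cast h
  have huc : ((u c : K) : ℂ) ≠ 0 := by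
    intro h
    have h1 := hu b₀ c
    rw [h, zero_mul] at h1
    exact mul_ne_zero hub hc h1
  have hWc : ∀ b, ((W b : K) : ℂ) = (a : ℂ) * (u b : ℂ) := by
    intro b
    rw [hW b]
    push_cast
    rfl
  obtain ⟨s₀, hs₀⟩ : ∃ s₀ : ℂ, s₀ = ((W c : K) : ℂ) / theta τ c := ⟨_, rfl⟩
  have hs₀' : s₀ ≠ 0 := by
    rw [hs₀, hWc c]
    exact div_ne_zero (mul_ne_zero hac huc) hc
  have hWb : ∀ b, ((W b : K) : ℂ) = s₀ * theta τ b := by
    intro b
    rw [hs₀, div_mul_eq_mul_div, eq_div_iff hc, hWc b, hWc c, mul_assoc, mul_assoc, hu b c]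
  obtain ⟨w, hw⟩ : ∃ w : ℕ, w = 2 * ∏ v ∈ s, Ideal.absNorm v.asIdeal := ⟨_, rfl⟩
  have hN : ∀ v : HeightOneSpectrum (𝓞 K), 1 ≤ Ideal.absNorm v.asIdeal := fun v =>
    (NumberField.HeightOneSpectrum.one_lt_absNorm v).le
  have hNp : 1 ≤ ∏ v ∈ s, Ideal.absNorm v.asIdeal := Finset.one_le_prod' (fun v _ => hN v)
  have hw0 : w ≠ 0 := by
    rw [hw]
    omega
  have h2w : 2 ∣ w := ⟨_, hw⟩
  have hbad : ∀ v : HeightOneSpectrum (𝓞 K), Bad K τ v → (w : 𝓞 K) ∈ v.asIdeal := by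
    intro v hv
    have hvs := hs v hv
    have h1 : Ideal.absNorm v.asIdeal ∣ w := by
      rw [hw]
      exact Dvd.dvd.mul_left (Finset.dvd_prod_of_mem _ hvs) 2
    obtain ⟨m, hm⟩ := h1
    rw [hm, Nat.cast_mul]
    exact Ideal.mul_mem_right _ _ (Ideal.absNorm_mem v.asIdeal)
  have hβ0 : ∀ b, bet τ s₀ 0 b = algebraMap K ℂ ((W b : 𝓞 K) : K) := by
    intro b
    unfold bet
    rw [pow_zero, one_mul, pow_zero, one_smul, ← hWb b]
    rfl
  have hmem : ∀ (j : ℕ) (b : GI g),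
      bet τ s₀ j b ∈ IntermediateField.adjoin K (thetaSet τ) := by
    intro j b
    have h1 : bet τ s₀ j b = algebraMap K ℂ ((2 ^ g) ^ j * ((W c : 𝓞 K) : K)) *
        (theta ((2 ^ j : ℂ) • τ) b / theta τ c) := by
      unfold bet
      rw [map_mul, map_pow, map_pow, map_ofNat]
      have h2 : algebraMap K ℂ ((W c : 𝓞 K) : K) = ((W c : K) : ℂ) := rfl
      rw [h2, hs₀]
      ring
    rw [h1]
    refine mul_mem (IntermediateField.algebraMap_mem _ _) ?_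
    exact IntermediateField.subset_adjoin _ _ ⟨j, b, c, hc, rfl⟩
  obtain ⟨F, iF, iNF, iAF, ψ, v, hv, hF1, hF2⟩ := hT K hd w hw0 h2w (bet τ s₀)
    (fun b => ((W b : 𝓞 K) : K)) hβ0 (fun j _ b => bet_path s₀ hstep j b)
    (fun L _ _ _ ψ P hP x j _ b hx hψ =>
      even_of_sq h2w hbad L ψ P hP x hx (bet τ s₀ (j + 1) b) (hmem _ _) hψ)
  have hinj : Function.Injective ψ := ψ.toRingHom.injective
  have hv0 : ∀ b, v 0 b = algebraMap K F ((W b : 𝓞 K) : K) := by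
    intro b
    apply hinj
    rw [hv 0 (Nat.zero_le k) b, hβ0 b, AlgHom.commutes]
  have hWint : ∀ b, IsIntegral ℤ (v 0 b) := by
    intro b
    rw [hv0 b]
    have h1 : IsIntegral ℤ ((W b : 𝓞 K) : K) := (W b).2
    exact h1.map (algebraMap K F).toIntAlgHom
  have hWR' : ∀ b (σ : F →+* ℂ), ‖σ (v 0 b)‖ ≤ R := by
    intro b σ
    rw [hv0 b]
    exact hWR b (σ.comp (algebraMap K F))
  obtain ⟨V, hArc, hVv⟩ := arc_exists (k := k) (δ := δ) (R := R) ψ.toRingHom hs₀' hstep hlim hv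
    hWint hWR'
  -- the discriminants
  have hDK : (1 : ℝ) ≤ |(discr K : ℝ)| := by
    have h1 : (1 : ℤ) ≤ |discr K| := Int.one_le_abs (NumberField.discr_ne_zero K)
    exact_mod_cast h1
  have hNpR : (1 : ℝ) ≤ ∏ v ∈ s, (Ideal.absNorm v.asIdeal : ℝ) := by
    exact_mod_cast hNp
  have hDY : |(discr K : ℝ)| ≤ Y := by
    refine le_trans ?_ hY
    exact le_mul_of_one_le_right (by positivity) hNpR
  have hY1 : 1 ≤ Y := hDK.trans hDY
  have hA1 : (1 : ℝ) ≤ A := by exact_mod_cast hA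
  have hAY : Y ≤ 2 * A * Y := by nlinarith
  have hAY1 : 1 ≤ 2 * A * Y := hY1.trans hAY
  have hD1 : |(discr K : ℝ)| ≤ (2 * A * Y) ^ A := by
    calc |(discr K : ℝ)| ≤ 2 * A * Y := hDY.trans hAY
      _ = (2 * A * Y) ^ 1 := (pow_one _).symm
      _ ≤ (2 * A * Y) ^ A := pow_le_pow_right₀ hAY1 hA
  have hD2 : |(discr F : ℝ)| ≤ (2 * A * Y) ^ A := by
    refine hF2.trans ?_
    refine pow_le_pow_left₀ (by positivity) ?_ A
    rw [hw]
    push_cast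
    calc (A : ℝ) * |(discr K : ℝ)| * (2 * ∏ v ∈ s, (Ideal.absNorm v.asIdeal : ℝ)) =
        2 * A * (|(discr K : ℝ)| * ∏ v ∈ s, (Ideal.absNorm v.asIdeal : ℝ)) := by ring
      _ ≤ 2 * A * Y := mul_le_mul_of_nonneg_left hY (by positivity)
  have hWb0 : W b₀ ≠ 0 := by
    intro h
    have h1 := hWc b₀
    rw [h] at h1
    have h2 : ((a : K) : ℂ) * (u b₀ : ℂ) ≠ 0 := mul_ne_zero hac hub
    apply h2
    rw [← h1]
    simp
  refine ⟨K, F, inferInstance, inferInstance, iF, iNF, iAF, ψ.toRingHom, W, V, b₀, hd, hF1, hD1,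
    hD2, hArc, ?_, hWb0, ?_⟩
  · intro b
    apply NumberField.RingOfIntegers.coe_injective
    have h1 : algebraMap (𝓞 F) F (V 0 b) = v 0 b := hVv 0 (Nat.zero_le k) b
    rw [h1, hv0 b]
    rfl
  · intro b
    have h1 : (W b : K) / (W b₀ : K) = u b / u b₀ := by
      rw [hW b, hW b₀, mul_div_mul_left _ _ ha]
    rw [h1]
    have h2 : ψ (algebraMap K F (u b / u b₀)) = algebraMap K ℂ (u b / u b₀) := ψ.commutes _
    exact h2.symm

private lemma fin_calc {A₁ A₂ A₃ : ℕ} {C₂ C₃ C₄ ε κ H : ℝ} (hC₄ : 1 ≤ C₄) (hH : 1 ≤ H) :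
    C₃ * (H ^ (1 / κ)) ^ A₃ * (C₂ * ((2 * A₁ * H ^ (1 / κ)) ^ A₁) ^ A₂ *
      (C₄ * H ^ (1 / κ) * H) ^ ε) =
      (C₃ * C₂ * (2 * A₁) ^ (A₁ * A₂) * C₄ ^ ε) * H ^ ((A₃ + A₁ * A₂ + ε) / κ + ε) := by
  have hH0 : 0 < H := by linarith
  have hC0 : 0 ≤ C₄ := by linarith
  have hY0 : 0 ≤ H ^ (1 / κ) := (Real.rpow_pos_of_pos hH0 _).le
  have h1 : (H ^ (1 / κ)) ^ A₃ = H ^ ((A₃ : ℝ) / κ) := by
    rw [← Real.rpow_natCast, ← Real.rpow_mul hH0.le]
    congr 1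
    ring
  have h2 : ((2 * A₁ * H ^ (1 / κ)) ^ A₁) ^ A₂ =
      (2 * A₁ : ℝ) ^ (A₁ * A₂) * H ^ ((A₁ * A₂ : ℝ) / κ) := by
    rw [← pow_mul, mul_pow]
    congr 1
    rw [← Real.rpow_natCast, ← Real.rpow_mul hH0.le]
    congr 1
    push_cast
    ring
  have h3 : (C₄ * H ^ (1 / κ) * H) ^ ε = C₄ ^ ε * H ^ (ε / κ) * H ^ ε := by
    rw [Real.mul_rpow (mul_nonneg hC0 hY0) hH0.le, Real.mul_rpow hC0 hY0,
      ← Real.rpow_mul hH0.le]
    congr 3
    ring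
  have h4 : H ^ ((A₃ + A₁ * A₂ + ε) / κ + ε) =
      H ^ ((A₃ : ℝ) / κ) * H ^ ((A₁ * A₂ : ℝ) / κ) * H ^ (ε / κ) * H ^ ε := by
    rw [← Real.rpow_add hH0, ← Real.rpow_add hH0, ← Real.rpow_add hH0]
    congr 1
    ring
  rw [h1, h2, h3, h4]
  ring

theorem frey_all (g d : ℕ) {ρ ε : ℝ} (hρ : 0 < ρ) (hε : 0 < ε) :
    ∃ B c : ℝ, 0 < B ∧ ∀ κ : ℝ, 0 < κ → ∀ H : ℝ, 1 ≤ H →
      ∃ (𝒦 : Finset (IntermediateField ℚ ℂ))
        (T : ∀ K : IntermediateField ℚ ℂ, Finset (GI g → K)),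
        (∑ K ∈ 𝒦, ((T K).card : ℝ)) ≤ c * H ^ (B / κ + ε) ∧
        ∀ (K : IntermediateField ℚ ℂ) [NumberField K], finrank ℚ K = d →
          ∀ τ : Matrix (Fin g) (Fin g) ℂ, Siegel ρ τ →
            ∀ u : GI g → K, u ≠ 0 → (∀ a b, (u a : ℂ) * theta τ b = (u b : ℂ) * theta τ a) →
              Height.logHeight u / d ≤ Real.log H → ¬ Frey κ K τ u →
                K ∈ 𝒦 ∧ ∃ w ∈ T K, w ≠ 0 ∧ ∀ a b, u a * w b = u b * w a := by
  classical
  obtain ⟨δ, hδ, hpath⟩ := theta_path g hρ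
  obtain ⟨k, hk⟩ := pset_count g hδ d hε
  obtain ⟨A₁, hA₁, hT⟩ := path_exists g k d
  obtain ⟨A₂, C₂, hC₂, hcount⟩ := hk A₁
  obtain ⟨A₃, C₃, hC₃, hfields⟩ := fields_count d
  obtain ⟨C₄, hC₄, hsm⟩ := small_multiple d
  refine ⟨A₃ + A₁ * A₂ + ε, C₃ * C₂ * (2 * A₁) ^ (A₁ * A₂) * C₄ ^ ε, by positivity, ?_⟩
  intro κ hκ H hH
  have hH0 : 0 < H := by linarith
  obtain ⟨Y, hYdef⟩ : ∃ Y : ℝ, Y = H ^ (1 / κ) := ⟨_, rfl⟩
  have hY1 : 1 ≤ Y := by
    rw [hYdef]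
    exact Real.one_le_rpow hH (by positivity)
  obtain ⟨𝒦, h𝒦c, h𝒦⟩ := hfields Y hY1
  have hA₁R : (1 : ℝ) ≤ A₁ := by exact_mod_cast hA₁
  obtain ⟨D, hD⟩ : ∃ D : ℝ, D = (2 * A₁ * Y) ^ A₁ := ⟨_, rfl⟩
  obtain ⟨R, hR⟩ : ∃ R : ℝ, R = C₄ * Y * H := ⟨_, rfl⟩
  have hAY1 : 1 ≤ 2 * A₁ * Y := by nlinarith
  have hD1 : 1 ≤ D := by
    rw [hD]
    exact one_le_pow₀ hAY1
  have hR1 : 1 ≤ R := by
    rw [hR]
    have h1 : 1 ≤ C₄ * Y := by nlinarith
    nlinarith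
  obtain ⟨hfin, hcard⟩ := hcount D R hD1 hR1
  have hinjK : ∀ K : IntermediateField ℚ ℂ,
      Function.Injective (fun (w : GI g → K) (b : GI g) => ((w b : K) : ℂ)) := by
    intro K w w' h
    funext b
    have h1 := congrFun h b
    exact Subtype.ext h1
  have hfinK : ∀ K : IntermediateField ℚ ℂ,
      ((fun (w : GI g → K) (b : GI g) => ((w b : K) : ℂ)) ⁻¹' PSet g δ k d A₁ D R).Finite :=
    fun K => hfin.preimage (hinjK K).injOn
  refine ⟨𝒦, fun K => (hfinK K).toFinset, ?_, ?_⟩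
  · -- the count
    have h1 : ∀ K ∈ 𝒦, (((hfinK K).toFinset.card : ℕ) : ℝ) ≤ C₂ * D ^ A₂ * R ^ ε := by
      intro K _
      refine le_trans ?_ hcard
      rw [Set.ncard_eq_toFinset_card _ hfin]
      have h2 : (hfinK K).toFinset.card ≤ hfin.toFinset.card := by
        refine Finset.card_le_card_of_injOn
          (fun (w : GI g → K) (b : GI g) => ((w b : K) : ℂ)) ?_ (hinjK K).injOn
        intro w hw
        rw [Finset.mem_coe, Set.Finite.mem_toFinset] at hw ⊢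
        exact hw
      exact_mod_cast h2
    have h3 : (0 : ℝ) ≤ C₂ * D ^ A₂ * R ^ ε := by positivity
    calc (∑ K ∈ 𝒦, (((hfinK K).toFinset.card : ℕ) : ℝ)) ≤ ∑ K ∈ 𝒦, C₂ * D ^ A₂ * R ^ ε :=
          Finset.sum_le_sum h1
      _ = (𝒦.card : ℝ) * (C₂ * D ^ A₂ * R ^ ε) := by rw [Finset.sum_const, nsmul_eq_mul]
      _ ≤ C₃ * Y ^ A₃ * (C₂ * D ^ A₂ * R ^ ε) := mul_le_mul_of_nonneg_right h𝒦c h3
      _ = _ := by
        rw [hD, hR, hYdef]
        exact fin_calc hC₄ hH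
  · intro K _ hKd τ hτ u hu hprop hht hFrey
    have hlogd : Height.logHeight u / finrank ℚ K ≤ Real.log H := by
      rw [hKd]
      exact hht
    have hDK : (1 : ℝ) ≤ |(discr K : ℝ)| := by
      have h1 : (1 : ℤ) ≤ |discr K| := Int.one_le_abs (NumberField.discr_ne_zero K)
      exact_mod_cast h1
    have hNs : ∀ s : Finset (HeightOneSpectrum (𝓞 K)),
        (1 : ℝ) ≤ ∏ v ∈ s, (Ideal.absNorm v.asIdeal : ℝ) := by
      intro s
      have h1 : 1 ≤ ∏ v ∈ s, Ideal.absNorm v.asIdeal := Finset.one_le_prod' (fun v _ =>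
        (NumberField.HeightOneSpectrum.one_lt_absNorm v).le)
      exact_mod_cast h1
    have hkey : ∀ s : Finset (HeightOneSpectrum (𝓞 K)), (∀ v ∈ s, Bad K τ v) →
        |(discr K : ℝ)| * ∏ v ∈ s, (Ideal.absNorm v.asIdeal : ℝ) ≤ Y := by
      intro s hs
      by_contra hcon
      rw [not_le] at hcon
      apply hFrey
      refine ⟨s, hs, hlogd.trans ?_⟩
      have h2 : Real.log Y = (1 / κ) * Real.log H := by
        rw [hYdef, Real.log_rpow hH0]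
      have h3 : Real.log Y ≤
          Real.log (|(discr K : ℝ)| * ∏ v ∈ s, (Ideal.absNorm v.asIdeal : ℝ)) :=
        Real.log_le_log (by linarith) hcon.le
      calc Real.log H = κ * Real.log Y := by
            rw [h2]
            field_simp
        _ ≤ _ := mul_le_mul_of_nonneg_left h3 hκ.le
    have hDY : |(discr K : ℝ)| ≤ Y := by
      have h1 := hkey ∅ (by simp)
      rwa [Finset.prod_empty, mul_one] at h1
    obtain ⟨s, hs⟩ := bad_finite (K := K) (τ := τ) (X := Y) (fun s hs => by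
      refine le_trans ?_ (hkey s hs)
      exact le_mul_of_one_le_left (by linarith [hNs s]) hDK)
    obtain ⟨a, W, ha, hW, hWR⟩ := hsm K hKd.le (GI g) u hu
    obtain ⟨b₀, hb₀⟩ : ∃ b₀, u b₀ ≠ 0 := by
      by_contra hcon
      apply hu
      funext b
      by_contra h
      exact hcon ⟨b, h⟩
    have hWR' : ∀ b (σ : K →+* ℂ), ‖σ (W b : K)‖ ≤ R := by
      intro b σ
      refine (hWR b σ).trans ?_
      rw [hR]
      have h1 : √|(discr K : ℝ)| ≤ Y := by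
        refine le_trans ?_ hDY
        rw [Real.sqrt_le_left (by positivity)]
        nlinarith
      have h2 : Real.exp (Height.logHeight u / finrank ℚ K) ≤ H := by
        calc Real.exp (Height.logHeight u / finrank ℚ K) ≤ Real.exp (Real.log H) :=
              Real.exp_le_exp.2 hlogd
          _ = H := Real.exp_log hH0
      refine mul_le_mul (mul_le_mul_of_nonneg_left h1 (by linarith)) h2 (by positivity)
        (by positivity)
    have hmem := point_mem hρ hpath hA₁ hT hKd.le hτ u hprop a W ha hW hR1 hWR' s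
      (fun v hv => (hs v).2 hv) (hkey s (fun v hv => (hs v).1 hv)) b₀ hb₀
    refine ⟨h𝒦 K hKd.le hDY, fun b => u b / u b₀, ?_, ?_, ?_⟩
    · rw [Set.Finite.mem_toFinset, Set.mem_preimage, hD]
      exact hmem
    · intro h
      have h1 := congrFun h b₀
      simp only [Pi.zero_apply] at h1
      rw [div_self hb₀] at h1
      exact one_ne_zero h1
    · intro x y
      field_simp

end FreyTN
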