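import Pool.Agent.Lib.MP_6babc4_nt.TN.Loa

/-!
# Module Loc: the theta constants of a diagonal matrix

`theta_diag`. PROOF. Induction on `g` or `tsum` of a product over `Fin g → ℤ` (`∏_i f_i(m_i)` with `f_i` absolutely summable: the sum is `∏_i ∑ f_i`; use `Fin.consEquiv` and `Summable.tsum_mul_tsum_of_summable_norm`): `sgn b m = ∏_i sgn1 (b i) (m i)`,
`quad τ m = ∑_i i t_i m_i²`.

`siegel_diag`. PROOF. `∑ t_i m_i² ≥ t_j m_j² ≥ ρ` if `m_j ≠ 0`; the diagonal matrix is positive definite (`Matrix.PosDef.diagonal`).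
-/

set_option autoImplicit false

open Filter Topology

namespace FreyTN

private lemma sgn_zmod (x y : ZMod 2) :
    (if x + y = 0 then (1 : ℤ) else -1) =
      (if x = 0 then (1 : ℤ) else -1) * (if y = 0 then (1 : ℤ) else -1) := by
  revert x y
  decide

private lemma sgn_prod_aux {ι : Type*} (s : Finset ι) (f : ι → ZMod 2) :
    (if ∑ i ∈ s, f i = 0 then (1 : ℤ) else -1) =
      ∏ i ∈ s, (if f i = 0 then (1 : ℤ) else -1) := by
  classical
  induction s using Finset.induction_on with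
  | empty => simp
  | insert a s ha ih => rw [Finset.sum_insert ha, Finset.prod_insert ha, sgn_zmod, ih]

private lemma sgn_prod {g : ℕ} (b : GI g) (m : Fin g → ℤ) :
    sgn b m = ∏ i, (if b i * (m i : ZMod 2) = 0 then (1 : ℤ) else -1) := by
  unfold sgn
  exact sgn_prod_aux Finset.univ fun i => b i * (m i : ZMod 2)

private lemma quad_diag {R : Type*} [CommRing R] {g : ℕ} (d : Fin g → R) (m : Fin g → ℤ) :
    quad (Matrix.diagonal d) m = ∑ i, d i * (m i : R) ^ 2 := by
  unfold quad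
  refine Finset.sum_congr rfl fun i _ => ?_
  rw [Finset.sum_eq_single i]
  · rw [Matrix.diagonal_apply_eq]; ring
  · intro j _ hj
    rw [Matrix.diagonal_apply_ne' _ hj]; ring
  · intro h; exact absurd (Finset.mem_univ i) h

private lemma tsum_prod_fin : ∀ (g : ℕ) (f : Fin g → ℤ → ℝ), (∀ i, Summable fun k => ‖f i k‖) →
    (Summable fun m : Fin g → ℤ => ‖∏ i, f i (m i)‖) ∧
      ∑' m : Fin g → ℤ, ∏ i, f i (m i) = ∏ i, ∑' k, f i k := by
  intro g
  induction g with
  | zero =>
    intro f _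
    constructor
    · exact (hasSum_fintype _).summable
    · rw [tsum_fintype]
      simp
  | succ g ih =>
    intro f hf
    obtain ⟨h1, h2⟩ := ih (fun i => f i.succ) fun i => hf i.succ
    let e := Fin.consEquiv (fun _ : Fin (g + 1) => ℤ)
    have he : ∀ x : ℤ × (Fin g → ℤ), ∏ i, f i (e x i) = f 0 x.1 * ∏ i : Fin g, f i.succ (x.2 i) := by
      intro x
      rw [Fin.prod_univ_succ]
      rfl
    constructor
    · rw [← e.summable_iff]
      have h3 := Summable.mul_norm (hf 0) h1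
      refine h3.congr fun x => ?_
      simp only [Function.comp]
      rw [he]
    · rw [← e.tsum_eq, Fin.prod_univ_succ, ← h2,
        tsum_mul_tsum_of_summable_norm (hf 0) h1]
      exact tsum_congr he

private lemma summable_exp {t : ℝ} (ht : 0 < t) :
    Summable fun k : ℤ => Real.exp (-Real.pi * (k : ℝ) ^ 2 * t) := by
  have h1 : 0 < Real.pi * t := mul_pos Real.pi_pos ht
  have h2 : Summable fun k : ℕ => Real.exp (-(Real.pi * t)) ^ k := by
    refine summable_geometric_of_lt_one (Real.exp_pos _).le ?_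
    rw [Real.exp_lt_one_iff]
    linarith
  have h3 : ∀ k : ℕ, Real.exp (-Real.pi * ((k : ℤ) : ℝ) ^ 2 * t) ≤ Real.exp (-(Real.pi * t)) ^ k := by
    intro k
    rw [← Real.exp_nat_mul]
    apply Real.exp_le_exp.mpr
    have h4 : (k : ℝ) ≤ (k : ℝ) ^ 2 := by
      rcases Nat.eq_zero_or_pos k with h | h
      · subst h; simp
      · have : (1 : ℝ) ≤ k := by exact_mod_cast h
        nlinarith
    have h5 : (k : ℝ) * (Real.pi * t) ≤ (k : ℝ) ^ 2 * (Real.pi * t) :=
      mul_le_mul_of_nonneg_right h4 h1.le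
    push_cast
    nlinarith
  have h6 : Summable fun k : ℕ => Real.exp (-Real.pi * ((k : ℤ) : ℝ) ^ 2 * t) :=
    Summable.of_nonneg_of_le (fun k => (Real.exp_pos _).le) h3 h2
  refine Summable.of_nat_of_neg h6 ?_
  refine h6.congr fun k => ?_
  push_cast
  ring_nf

theorem theta_diag {g : ℕ} (t : Fin g → ℝ) (ht : ∀ i, 0 < t i) (b : GI g) :
    theta (Matrix.diagonal fun i => Complex.I * (t i : ℂ)) b = ∏ i, (th1 (b i) (t i) : ℂ) := by
  have hs : ∀ i : Fin g, Summable fun k : ℤ =>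
      ‖((if b i * (k : ZMod 2) = 0 then 1 else -1) * Real.exp (-Real.pi * (k : ℝ) ^ 2 * t i) : ℝ)‖ := by
    intro i
    refine (summable_exp (ht i)).congr fun k => ?_
    rw [norm_mul, Real.norm_eq_abs (Real.exp _), abs_of_pos (Real.exp_pos _)]
    split_ifs <;> simp
  obtain ⟨-, h2⟩ := tsum_prod_fin g (fun i k =>
    ((if b i * (k : ZMod 2) = 0 then 1 else -1) * Real.exp (-Real.pi * (k : ℝ) ^ 2 * t i) : ℝ)) hs
  have h3 : ∀ i, (th1 (b i) (t i)) = ∑' k : ℤ,
      ((if b i * (k : ZMod 2) = 0 then 1 else -1) * Real.exp (-Real.pi * (k : ℝ) ^ 2 * t i) : ℝ) :=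
    fun i => rfl
  rw [← Complex.ofReal_prod]
  have h4 : ∏ i, th1 (b i) (t i) = ∏ i, ∑' k : ℤ,
      ((if b i * (k : ZMod 2) = 0 then 1 else -1) * Real.exp (-Real.pi * (k : ℝ) ^ 2 * t i) : ℝ) :=
    Finset.prod_congr rfl fun i _ => h3 i
  rw [h4, ← h2, Complex.ofReal_tsum]
  unfold theta
  refine tsum_congr fun m => ?_
  rw [Complex.ofReal_prod, sgn_prod, quad_diag]
  have h5 : (Real.pi : ℂ) * Complex.I * ∑ i, Complex.I * (t i : ℂ) * (m i : ℂ) ^ 2 =
      ∑ i, ((-Real.pi * (m i : ℝ) ^ 2 * t i : ℝ) : ℂ) := by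
    rw [Finset.mul_sum]
    refine Finset.sum_congr rfl fun i _ => ?_
    push_cast
    have hI : Complex.I * Complex.I = -1 := Complex.I_mul_I
    calc (Real.pi : ℂ) * Complex.I * (Complex.I * (t i : ℂ) * (m i : ℂ) ^ 2)
        = (Complex.I * Complex.I) * (Real.pi * (m i : ℂ) ^ 2 * t i) := by ring
      _ = -Real.pi * (m i : ℂ) ^ 2 * t i := by rw [hI]; ring
  rw [h5, Complex.exp_sum, Int.cast_prod, ← Finset.prod_mul_distrib]
  refine Finset.prod_congr rfl fun i _ => ?_
  split_ifs <;> simp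

theorem siegel_diag {g : ℕ} {ρ : ℝ} (hρ : 0 < ρ) (t : Fin g → ℝ) (ht : ∀ i, ρ ≤ t i) :
    Siegel ρ (Matrix.diagonal fun i => Complex.I * (t i : ℂ)) := by
  have hmap : (Matrix.diagonal fun i => Complex.I * (t i : ℂ)).map Complex.im =
      Matrix.diagonal t := by
    rw [Matrix.diagonal_map (by simp)]
    congr 1
    funext i
    simp
  refine ⟨Matrix.isSymm_diagonal _, ?_, ?_⟩
  · rw [hmap]
    exact Matrix.PosDef.diagonal fun i => hρ.trans_le (ht i)
  · intro m hm
    rw [hmap, quad_diag]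
    obtain ⟨j, hj⟩ : ∃ j, m j ≠ 0 := by
      by_contra h
      push Not at h
      exact hm (funext h)
    have h1 : (1 : ℝ) ≤ (m j : ℝ) ^ 2 := by
      have h2 : 1 ≤ (m j) ^ 2 := by
        have := sq_nonneg (m j)
        rcases this.lt_or_eq with h | h
        · exact h
        · exact absurd (pow_eq_zero_iff (two_ne_zero)|>.mp h.symm) hj
      exact_mod_cast h2
    have h3 : t j * (m j : ℝ) ^ 2 ≤ ∑ i, t i * (m i : ℝ) ^ 2 :=
      Finset.single_le_sum (f := fun i => t i * (m i : ℝ) ^ 2)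
        (fun i _ => mul_nonneg (hρ.le.trans (ht i)) (sq_nonneg _)) (Finset.mem_univ j)
    have h4 : ρ ≤ t j * (m j : ℝ) ^ 2 := by
      have := ht j
      nlinarith
    exact h4.trans h3

end FreyTN
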