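import Pool.Agent.Lib.MP_6babc4_nt.TN.Itg

/-!
# Module Alg: algebraic independence for the minimal `p`; `2 ≤ μ`

`v_inj`. PROOF. Suppose `G ≠ 0`, `thp P p G ∈ J`. Some homogeneous component `G_D ≠ 0`, `thp P p G_D ∈ J` (it is the component of degree `D` of `thp P p G`, as `thp P p (X k)` is homogeneous of degree `1`). `D ≥ 1` (`hJ.zero`: a nonzero constant is not in `J`). `Plc.pull` for `G_D`: `F` over `O`, `F.map st ≠ 0`, homogeneous of degree `D`.
The polynomial `aeval (fun k => ∑ i, C (ι (p k i)) X i) F` over `O` maps into `J`, so for `y ∈ ZC`: `eval (p.mulVec y) (F.map st) = 0`. Choose `a : Fin μ → ℂ` with `eval a (F.map st) ≠ 0` (`MvPolynomial.funext`), `a ≠ 0` (`D ≥ 1`), `a k₀ ≠ 0`. `p' : Matrix (Fin (μ - 1)) (Fin r) ℂ`: the rows `a k₀ p_k - a k p_k₀`, `k ≠ k₀`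
(`Fin.succAbove`). If `y ∈ ZC`, `p'.mulVec y = 0` then `p.mulVec y = c a` with `c = (p y)_(k₀) / a k₀`, `0 = eval (c a) (F.map st) = c^D eval a (F.map st)`, so `c = 0`, `p y = 0`, `y = 0`. So `Nz P J p'`, contradicting minimality (`μ ≥ 1` as `G` is not constant).

`two_le`. PROOF. `μ = 0`: `Nz` for the empty matrix: `VK = {0}` by `v_zero`, but the `f i` are not `0`. `μ = 1`: by `v_int` each `X i` is a root of a monic polynomial over `𝕂[Y]` modulo `J`; evaluating at points `y ∈ VK` with `pK P p y = 1` (constant function): `y i` is a root of a fixed monic polynomial over `𝕂`. So there are only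
finitely many such `y`. But `y = (pK P p (f j) 0)⁻¹ • f j` is such a point for each `j` (`v_zero`), and they are different (linear independence). Contradiction.
-/

set_option autoImplicit false

namespace FreyTN

variable {𝕂 : Type} [Field 𝕂] [IsAlgClosed 𝕂]

open MvPolynomial in
omit [IsAlgClosed 𝕂] in
private theorem alg_hom (P : Plc 𝕂) {μ r : ℕ} (p : Matrix (Fin μ) (Fin r) ℂ)
    {G : MvPolynomial (Fin μ) 𝕂} {n : ℕ} (h : G.IsHomogeneous n) :
    (thp P p G).IsHomogeneous n := by
  have h1 : ∀ k, (∑ i, C (P.ι (p k i)) * X i : MvPolynomial (Fin r) 𝕂).IsHomogeneous 1 := by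
    intro k
    apply IsHomogeneous.sum
    intro j _
    exact isHomogeneous_C_mul_X _ _
  have h2 := h.aeval _ h1
  rw [one_mul] at h2
  exact h2

open MvPolynomial in
omit [IsAlgClosed 𝕂] in
private theorem alg_comp (P : Plc 𝕂) {μ r : ℕ} (p : Matrix (Fin μ) (Fin r) ℂ)
    (G : MvPolynomial (Fin μ) 𝕂) (n : ℕ) :
    homogeneousComponent n (thp P p G) = thp P p (homogeneousComponent n G) := by
  classical
  conv_lhs => rw [← sum_homogeneousComponent G, map_sum, map_sum]
  have h1 : ∀ j ∈ Finset.range (G.totalDegree + 1),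
      homogeneousComponent n (thp P p (homogeneousComponent j G))
        = if j = n then thp P p (homogeneousComponent n G) else 0 := by
    intro j _
    rw [homogeneousComponent_of_mem (n := j)
      (alg_hom P p (homogeneousComponent_isHomogeneous j G))]
    by_cases h : j = n
    · subst h; simp
    · rw [if_neg (Ne.symm h), if_neg h]
  rw [Finset.sum_congr rfl h1, Finset.sum_ite_eq']
  split_ifs with h
  · rfl
  · rw [homogeneousComponent_eq_zero n G (by
      rw [Finset.mem_range] at h; omega), map_zero]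

private theorem alg_eval_hom {R : Type*} [CommRing R] {B D : ℕ} {G : MvPolynomial (Fin B) R}
    (h : G.IsHomogeneous D) (t : R) (y : Fin B → R) :
    MvPolynomial.eval (t • y) G = t ^ D * MvPolynomial.eval y G := by
  rw [MvPolynomial.eval_eq, MvPolynomial.eval_eq, Finset.mul_sum]
  apply Finset.sum_congr rfl
  intro d hd
  have hdeg : ∑ i ∈ d.support, d i = D := (h.degree_eq_sum_deg_support hd).symm
  simp only [Pi.smul_apply, smul_eq_mul, mul_pow]
  rw [Finset.prod_mul_distrib, Finset.prod_pow_eq_pow_sum, hdeg]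
  ring

open MvPolynomial in
omit [IsAlgClosed 𝕂] in
private theorem alg_phi (P : Plc 𝕂) {μ r : ℕ} (p : Matrix (Fin μ) (Fin r) ℂ)
    (F : MvPolynomial (Fin μ) P.O) :
    map P.O.subtype (aeval (R := P.O) (fun k => ∑ i, C (⟨P.ι (p k i), P.mem _⟩ : P.O) *
      (X i : MvPolynomial (Fin r) P.O)) F) = thp P p (map P.O.subtype F) := by
  induction F using MvPolynomial.induction_on with
  | C a =>
    rw [aeval_C, algebraMap_eq, map_C, map_C, thp, aeval_C]
    rfl
  | add f g hf hg => rw [map_add, map_add, map_add, map_add, hf, hg]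
  | mul_X f k hf =>
    rw [map_mul, map_mul, hf, map_mul, map_mul, aeval_X, map_X]
    congr 1
    rw [thp, aeval_X, map_sum]
    refine Finset.sum_congr rfl fun i _ => ?_
    rw [map_mul, map_C, map_X]
    rfl

open MvPolynomial in
omit [IsAlgClosed 𝕂] in
private theorem alg_phst (P : Plc 𝕂) {μ r : ℕ} (p : Matrix (Fin μ) (Fin r) ℂ)
    (F : MvPolynomial (Fin μ) P.O) (y : Fin r → ℂ) :
    eval y (map P.st (aeval (R := P.O) (fun k => ∑ i, C (⟨P.ι (p k i), P.mem _⟩ : P.O) *
      (X i : MvPolynomial (Fin r) P.O)) F)) = eval (p.mulVec y) (map P.st F) := by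
  induction F using MvPolynomial.induction_on with
  | C a =>
    rw [aeval_C, algebraMap_eq, map_C, map_C, eval_C, eval_C]
  | add f g hf hg => rw [map_add, map_add, map_add, map_add, map_add, hf, hg]
  | mul_X f k hf =>
    rw [map_mul, map_mul, map_mul, hf, map_mul, map_mul, aeval_X, map_X, eval_X]
    congr 1
    rw [map_sum, map_sum]
    show _ = ∑ i, p k i * y i
    refine Finset.sum_congr rfl fun i _ => ?_
    rw [map_mul, map_mul, map_C, map_X, eval_C, eval_X, P.st_ι]

open MvPolynomial in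
omit [IsAlgClosed 𝕂] in
/-- A nonzero polynomial over the residue field vanishing on the image of the specialisation. -/
private theorem alg_rel (P : Plc 𝕂) {μ r : ℕ} {J : Ideal (MvPolynomial (Fin r) 𝕂)} (hJ : HI J)
    (p : Matrix (Fin μ) (Fin r) ℂ) {G : MvPolynomial (Fin μ) 𝕂} (hG : G ≠ 0)
    (hGJ : thp P p G ∈ J) :
    ∃ (D : ℕ) (H : MvPolynomial (Fin μ) ℂ), 1 ≤ D ∧ H ≠ 0 ∧ H.IsHomogeneous D ∧
      ∀ y ∈ ZC P J, eval (p.mulVec y) H = 0 := by
  obtain ⟨D, hD⟩ : ∃ D, homogeneousComponent D G ≠ 0 := by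
    by_contra hcon
    push Not at hcon
    apply hG
    rw [← sum_homogeneousComponent G]
    exact Finset.sum_eq_zero fun n _ => hcon n
  have hDJ : thp P p (homogeneousComponent D G) ∈ J := by
    rw [← alg_comp]
    exact hJ.hom _ hGJ D
  have hDh := homogeneousComponent_isHomogeneous D G
  set G' := homogeneousComponent D G with hG'
  have hD1 : 1 ≤ D := by
    rcases Nat.eq_zero_or_pos D with h0 | h0
    · exfalso
      have h1 : G' = C (coeff 0 G) := by
        rw [hG', h0, homogeneousComponent_zero]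
      have h2 := hJ.zero _ hDJ
      rw [eval_thp, h1, eval_C] at h2
      rw [h2, map_zero] at h1
      exact hD h1
    · exact h0
  obtain ⟨c, F, hc, hF, hst⟩ := P.pull G' hD
  have hFh : F.IsHomogeneous D := by
    apply IsHomogeneous.of_map (f := P.O.subtype) Subtype.val_injective
    rw [hF]
    exact hDh.C_mul c
  refine ⟨D, map P.st F, hD1, hst, hFh.map _, ?_⟩
  intro y hy
  rw [← alg_phst]
  apply hy
  rw [alg_phi, hF, map_mul]
  exact Ideal.mul_mem_left _ _ hDJ

theorem v_inj (P : Plc 𝕂) {μ r : ℕ} {J : Ideal (MvPolynomial (Fin r) 𝕂)} (hJ : HI J)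
    {p : Matrix (Fin μ) (Fin r) ℂ} (hN : Nz P J p)
    (hmin : ∀ (μ' : ℕ) (p' : Matrix (Fin μ') (Fin r) ℂ), Nz P J p' → μ ≤ μ') :
    Function.Injective ((Ideal.Quotient.mk J).comp (thp P p).toRingHom) := by
  rw [injective_iff_map_eq_zero]
  intro G hG0
  by_contra hG
  have hGJ : thp P p G ∈ J := Ideal.Quotient.eq_zero_iff_mem.1 hG0
  obtain ⟨D, H, hD, hH, hHh, hv⟩ := alg_rel P hJ p hG hGJ
  obtain ⟨a, ha⟩ : ∃ a : Fin μ → ℂ, MvPolynomial.eval a H ≠ 0 := by
    by_contra hcon
    push Not at hcon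
    apply hH
    refine MvPolynomial.funext fun a => ?_
    rw [hcon a, map_zero]
  have ha0 : a ≠ 0 := by
    intro h0
    apply ha
    have h1 := alg_eval_hom hHh 0 a
    rw [zero_smul, zero_pow (by omega), zero_mul] at h1
    rw [h0]
    exact h1
  obtain ⟨k₀, hk₀⟩ := Function.ne_iff.1 ha0
  rw [Pi.zero_apply] at hk₀
  obtain _ | μ' := μ
  · exact k₀.elim0
  let p' : Matrix (Fin μ') (Fin r) ℂ :=
    Matrix.of fun k i => a k₀ * p (k₀.succAbove k) i - a (k₀.succAbove k) * p k₀ i
  have hN' : Nz P J p' := by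
    intro y hy hy0
    have h1 : ∀ k, a k₀ * (p.mulVec y) (k₀.succAbove k)
        = a (k₀.succAbove k) * (p.mulVec y) k₀ := by
      intro k
      have h2 : (p'.mulVec y) k = 0 := by
        rw [hy0]
        rfl
      have h3 : (p'.mulVec y) k = a k₀ * (p.mulVec y) (k₀.succAbove k)
          - a (k₀.succAbove k) * (p.mulVec y) k₀ := by
        simp only [Matrix.mulVec, dotProduct, p', Matrix.of_apply]
        rw [Finset.mul_sum, Finset.mul_sum, ← Finset.sum_sub_distrib]
        refine Finset.sum_congr rfl fun i _ => ?_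
        ring
      rw [h3] at h2
      exact sub_eq_zero.1 h2
    set c : ℂ := (p.mulVec y) k₀ / a k₀ with hc
    have h4 : p.mulVec y = c • a := by
      funext k
      rw [Pi.smul_apply, smul_eq_mul]
      rcases Fin.eq_self_or_eq_succAbove k₀ k with h5 | ⟨j, h5⟩
      · rw [h5, hc, div_mul_cancel₀ _ hk₀]
      · rw [h5, hc, div_mul_eq_mul_div, eq_div_iff hk₀, mul_comm _ (a k₀), h1 j, mul_comm]
    have h6 := hv y hy
    rw [h4, alg_eval_hom hHh] at h6
    have h7 : c = 0 := by
      rcases mul_eq_zero.1 h6 with h8 | h8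
      · exact pow_eq_zero_iff (by omega) |>.1 h8
      · exact absurd h8 ha
    apply hN y hy
    rw [h4, h7, zero_smul]
  have := hmin μ' p' hN'
  omega

theorem two_le (P : Plc 𝕂) {μ r : ℕ} {J : Ideal (MvPolynomial (Fin r) 𝕂)} (hJ : HI J)
    {p : Matrix (Fin μ) (Fin r) ℂ} (hN : Nz P J p) (f : ℕ → Fin r → 𝕂) (hf : ∀ i, f i ∈ VK J)
    (hli : ∀ i j, i ≠ j → LinearIndependent 𝕂 ![f i, f j]) : 2 ≤ μ := by
  by_contra hμ
  have hf0 : ∀ i, f i ≠ 0 := by
    intro i
    have := (hli i (i + 1) (by omega)).ne_zero 0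
    simpa using this
  have hμ' : μ = 0 ∨ μ = 1 := by omega
  rcases hμ' with h0 | h0
  · subst h0
    exact hf0 0 (v_zero P hJ hN (hf 0) (funext fun k => k.elim0))
  · subst h0
    have hc0 : ∀ j, pK P p (f j) 0 ≠ 0 := by
      intro j h1
      apply hf0 j
      apply v_zero P hJ hN (hf j)
      funext k
      rw [Subsingleton.elim k 0]
      exact h1
    set z : ℕ → Fin r → 𝕂 := fun j => (pK P p (f j) 0)⁻¹ • f j with hz
    have hzV : ∀ j, z j ∈ VK J := fun j => vk_smul hJ _ (hf j)
    have hz1 : ∀ j, pK P p (z j) = fun _ => 1 := by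
      intro j
      funext k
      rw [Subsingleton.elim k 0, hz]
      show ((p.map P.ι).mulVec ((pK P p (f j) 0)⁻¹ • f j)) 0 = 1
      rw [Matrix.mulVec_smul, Pi.smul_apply, smul_eq_mul]
      exact inv_mul_cancel₀ (hc0 j)
    have hint := v_int P hJ hN
    have hroot : ∀ i : Fin r, ∃ Q : Polynomial 𝕂, Q ≠ 0 ∧ ∀ j, Q.eval (z j i) = 0 := by
      intro i
      obtain ⟨Q, hQm, hQ⟩ := hint (Ideal.Quotient.mk J (MvPolynomial.X i))
      refine ⟨Q.map (MvPolynomial.eval (fun _ => (1 : 𝕂))), (hQm.map _).ne_zero, ?_⟩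
      intro j
      have h1 := congrArg (Ideal.Quotient.lift J (MvPolynomial.eval (z j)) (hzV j)) hQ
      rw [Polynomial.hom_eval₂, map_zero, Ideal.Quotient.lift_mk, MvPolynomial.eval_X] at h1
      rw [Polynomial.eval_map, ← h1]
      congr 1
      apply RingHom.ext
      intro G
      have h2 := eval_thp P p (z j) G
      rw [hz1 j] at h2
      rw [← h2]
      rfl
    choose Q hQ0 hQ using hroot
    have hinj : Function.Injective z := by
      intro i j hij
      by_contra hne
      have h1 := hli i j hne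
      rw [LinearIndependent.pair_iff] at h1
      have h2 := h1 (pK P p (f i) 0)⁻¹ (-(pK P p (f j) 0)⁻¹) (by
        rw [neg_smul, ← sub_eq_add_neg, sub_eq_zero]
        exact hij)
      exact inv_ne_zero (hc0 i) h2.1
    have hfin : (Set.range z).Finite := by
      refine Set.Finite.subset (Set.Finite.pi (ι := Fin r)
        (t := fun i => {x : 𝕂 | (Q i).IsRoot x}) fun i => ?_) ?_
      · exact Polynomial.finite_setOfPred_isRoot (hQ0 i)
      · rintro _ ⟨j, rfl⟩
        rw [Set.mem_univ_pi]
        intro i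
        exact hQ i j
    exact Set.infinite_range_of_injective hinj hfin

end FreyTN
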