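import Pool.Agent.Lib.MP_6babc4_nt.TN.Plc

/-!
# Module Bdd: first properties of the specialisation

`st_mem`: apply `P.st` to `eval y F = 0` in `O`. `vk_smul`: `f ∈ J`, `eval (t • y) f = ∑ t^n eval y (homogeneousComponent n f)`. `zc_smul`: `F ↦ F(ι c · X)`: with `F = ∑ F_n` (homogeneous components over `O`; `map` commutes with `homogeneousComponent`) `eval (c • y) (F.map st) = ∑ c^n eval y (F_n.map st) = 0`.
`zc_closed`: intersection of zero sets. `eval_thp`: both sides are ring homomorphisms in `G`.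

`v_bdd`. PROOF. If not all `y i ∈ O`: `i₀` from `plc_max` (`univ`), so `y i₀ ∉ O` (otherwise all `y k = (y k / y i₀) y i₀ ∈ O`). `y' = (y i₀)⁻¹ • y ∈ VK`, coordinates in `O`, `y' i₀ = 1`. `ȳ' = st y' ∈ ZC`, `p ȳ' = st (pK y') = st (pK y · (y i₀)⁻¹) = 0` (`st (y i₀)⁻¹ = 0`), so `ȳ' = 0` by `Nz`,
but `ȳ' i₀ = 1`. `v_zero`: `pK y = 0` implies `pK (x • y) = 0 ∈ O` for an `x ∉ O` and all its multiples, so `c y i ∈ O` for all `c : 𝕂`; if `y i ≠ 0` take `c = x / y i`. `min_exists`: the identity matrix has the property (`μ = r`); `Nat.find`.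
-/

set_option autoImplicit false

namespace FreyTN

variable {𝕂 : Type} [Field 𝕂]

private lemma bd_eval_hom {R : Type*} [CommRing R] {B D : ℕ} {G : MvPolynomial (Fin B) R}
    (h : G.IsHomogeneous D) (t : R) (y : Fin B → R) :
    MvPolynomial.eval (t • y) G = t ^ D * MvPolynomial.eval y G := by
  rw [MvPolynomial.eval_eq, MvPolynomial.eval_eq, Finset.mul_sum]
  apply Finset.sum_congr rfl
  intro d hd
  have hdeg : ∑ i ∈ d.support, d i = D := (h.degree_eq_sum_deg_support hd).symm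
  simp only [Pi.smul_apply, smul_eq_mul, mul_pow]
  rw [Finset.prod_mul_distrib, Finset.prod_pow_eq_pow_sum, hdeg]
  ring

private lemma bd_eval_smul {R : Type*} [CommRing R] {B : ℕ} (f : MvPolynomial (Fin B) R)
    (t : R) (y : Fin B → R) (h : ∀ n, MvPolynomial.eval y (f.homogeneousComponent n) = 0) :
    MvPolynomial.eval (t • y) f = 0 := by
  rw [← MvPolynomial.sum_homogeneousComponent f, map_sum]
  refine Finset.sum_eq_zero fun n _ => ?_
  rw [bd_eval_hom (MvPolynomial.homogeneousComponent_isHomogeneous n f), h n, mul_zero]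

private lemma bd_map_hom {R S : Type*} [CommRing R] [CommRing S] {B : ℕ} (φ : R →+* S)
    (f : MvPolynomial (Fin B) R) (n : ℕ) :
    (MvPolynomial.map φ f).homogeneousComponent n =
      MvPolynomial.map φ (f.homogeneousComponent n) := by
  ext d
  rw [MvPolynomial.coeff_homogeneousComponent, MvPolynomial.coeff_map, MvPolynomial.coeff_map,
    MvPolynomial.coeff_homogeneousComponent]
  split_ifs
  · rfl
  · rw [map_zero]

private lemma bd_eval_map {R S : Type*} [CommRing R] [CommRing S] {B : ℕ} (φ : R →+* S)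
    (f : MvPolynomial (Fin B) R) (y : Fin B → R) :
    MvPolynomial.eval (fun i => φ (y i)) (MvPolynomial.map φ f) = φ (MvPolynomial.eval y f) := by
  rw [MvPolynomial.eval_map, MvPolynomial.eval₂_comp]
  rfl

theorem st_mem (P : Plc 𝕂) {r : ℕ} {J : Ideal (MvPolynomial (Fin r) 𝕂)} (y : Fin r → P.O)
    (hy : (fun i => (y i : 𝕂)) ∈ VK J) : (fun i => P.st (y i)) ∈ ZC P J := by
  intro F hF
  have h1 := hy _ hF
  have h2 := bd_eval_map P.O.subtype F y
  have h3 : P.O.subtype (MvPolynomial.eval y F) = 0 := by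
    rw [← h2]
    exact h1
  have h4 : MvPolynomial.eval y F = 0 := Subtype.ext h3
  rw [bd_eval_map P.st F y, h4, map_zero]

theorem vk_smul {r : ℕ} {J : Ideal (MvPolynomial (Fin r) 𝕂)} (hJ : HI J) (t : 𝕂)
    {y : Fin r → 𝕂} (hy : y ∈ VK J) : t • y ∈ VK J := by
  intro f hf
  exact bd_eval_smul f t y fun n => hy _ (hJ.hom f hf n)

theorem zc_smul (P : Plc 𝕂) {r : ℕ} {J : Ideal (MvPolynomial (Fin r) 𝕂)} (hJ : HI J) (t : ℂ)
    {y : Fin r → ℂ} (hy : y ∈ ZC P J) : t • y ∈ ZC P J := by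
  intro F hF
  refine bd_eval_smul _ t y fun n => ?_
  rw [bd_map_hom]
  refine hy _ ?_
  rw [← bd_map_hom]
  exact hJ.hom _ hF n

theorem zc_closed (P : Plc 𝕂) {r : ℕ} (J : Ideal (MvPolynomial (Fin r) 𝕂)) :
    IsClosed (ZC P J) := by
  have h1 : ZC P J = ⋂ (F : MvPolynomial (Fin r) P.O) (_ : MvPolynomial.map P.O.subtype F ∈ J),
      {y | MvPolynomial.eval y (MvPolynomial.map P.st F) = 0} := by
    ext y
    simp only [ZC, Set.mem_ofPred_eq, Set.mem_iInter]
  rw [h1]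
  refine isClosed_iInter fun F => isClosed_iInter fun _ => ?_
  exact isClosed_eq (MvPolynomial.continuous_eval _) continuous_const

theorem eval_thp (P : Plc 𝕂) {μ r : ℕ} (p : Matrix (Fin μ) (Fin r) ℂ) (y : Fin r → 𝕂)
    (G : MvPolynomial (Fin μ) 𝕂) :
    MvPolynomial.eval y (thp P p G) = MvPolynomial.eval (pK P p y) G := by
  have hX : ∀ k, MvPolynomial.eval y
      (∑ i, MvPolynomial.C (P.ι (p k i)) * MvPolynomial.X i : MvPolynomial (Fin r) 𝕂) =
      pK P p y k := by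
    intro k
    rw [map_sum]
    simp only [map_mul, MvPolynomial.eval_C, MvPolynomial.eval_X]
    rfl
  induction G using MvPolynomial.induction_on with
  | C a =>
    simp [thp, MvPolynomial.algebraMap_eq]
  | add f g hf hg => rw [map_add, map_add, map_add, hf, hg]
  | mul_X f k hf =>
    rw [map_mul, map_mul, map_mul, hf, MvPolynomial.eval_X]
    congr 1
    rw [thp, MvPolynomial.aeval_X]
    exact hX k

theorem v_bdd (P : Plc 𝕂) {μ r : ℕ} {J : Ideal (MvPolynomial (Fin r) 𝕂)} (hJ : HI J)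
    {p : Matrix (Fin μ) (Fin r) ℂ} (hN : Nz P J p) {y : Fin r → 𝕂} (hy : y ∈ VK J)
    (hp : ∀ k, pK P p y k ∈ P.O) (i : Fin r) : y i ∈ P.O := by
  by_contra hi
  have hyi : y i ≠ 0 := by
    intro h
    apply hi
    rw [h]
    exact P.O.zero_mem
  obtain ⟨i₀, -, h0, hmax⟩ := P.plc_max Finset.univ y ⟨i, Finset.mem_univ i, hyi⟩
  have hi0 : y i₀ ∉ P.O := by
    intro h
    apply hi
    have h1 := P.O.mul_mem (hmax i (Finset.mem_univ i)) h
    rwa [div_mul_cancel₀ _ h0] at h1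
  obtain ⟨hinv, hst⟩ := P.inv _ hi0
  let z : Fin r → P.O := fun k => ⟨y k / y i₀, hmax k (Finset.mem_univ k)⟩
  have hz : (fun k => (z k : 𝕂)) = (y i₀)⁻¹ • y := by
    funext k
    show y k / y i₀ = (y i₀)⁻¹ * y k
    rw [div_eq_inv_mul]
  have hzV : (fun k => (z k : 𝕂)) ∈ VK J := by
    rw [hz]
    exact vk_smul hJ _ hy
  have hzC := st_mem P z hzV
  have hpz : p.mulVec (fun k => P.st (z k)) = 0 := by
    funext k
    have h1 : (p.mulVec fun k => P.st (z k)) k =
        P.st (∑ j, ⟨P.ι (p k j), P.mem _⟩ * z j) := by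
      rw [map_sum]
      simp only [map_mul, P.st_ι]
      rfl
    have h2 : (∑ j, (⟨P.ι (p k j), P.mem _⟩ : P.O) * z j) =
        ⟨pK P p y k, hp k⟩ * ⟨(y i₀)⁻¹, hinv⟩ := by
      apply Subtype.ext
      have h3 : ((∑ j, (⟨P.ι (p k j), P.mem _⟩ : P.O) * z j : P.O) : 𝕂) =
          ∑ j, P.ι (p k j) * (y j / y i₀) := by
        rw [← P.O.subtype_apply, map_sum]
        rfl
      rw [h3]
      show _ = pK P p y k * (y i₀)⁻¹
      have h4 : pK P p y k = ∑ j, P.ι (p k j) * y j := rfl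
      rw [h4, Finset.sum_mul]
      refine Finset.sum_congr rfl fun j _ => ?_
      rw [div_eq_mul_inv, mul_assoc]
    rw [h1, h2, map_mul, hst, mul_zero]
    rfl
  have h5 := hN _ hzC hpz
  have h6 : P.st (z i₀) = 0 := congrFun h5 i₀
  have h7 : z i₀ = 1 := by
    apply Subtype.ext
    show y i₀ / y i₀ = 1
    exact div_self h0
  rw [h7, map_one] at h6
  exact one_ne_zero h6

theorem v_zero (P : Plc 𝕂) {μ r : ℕ} {J : Ideal (MvPolynomial (Fin r) 𝕂)} (hJ : HI J)
    {p : Matrix (Fin μ) (Fin r) ℂ} (hN : Nz P J p) {y : Fin r → 𝕂} (hy : y ∈ VK J)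
    (hp : pK P p y = 0) : y = 0 := by
  by_contra hne
  obtain ⟨i, hi⟩ := Function.ne_iff.1 hne
  obtain ⟨x, hx⟩ := P.ne
  apply hx
  have h1 := vk_smul hJ (x / y i) hy
  have h2 : pK P p ((x / y i) • y) = 0 := by
    rw [pK, Matrix.mulVec_smul]
    rw [pK] at hp
    rw [hp, smul_zero]
  have h3 := v_bdd P hJ hN h1 (fun k => by
    rw [h2]
    exact P.O.zero_mem) i
  have h4 : ((x / y i) • y) i = x := by
    show x / y i * y i = x
    exact div_mul_cancel₀ _ hi
  rwa [h4] at h3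

theorem min_exists (P : Plc 𝕂) {r : ℕ} (J : Ideal (MvPolynomial (Fin r) 𝕂)) :
    ∃ (μ : ℕ) (p : Matrix (Fin μ) (Fin r) ℂ), Nz P J p ∧
      ∀ (μ' : ℕ) (p' : Matrix (Fin μ') (Fin r) ℂ), Nz P J p' → μ ≤ μ' := by
  classical
  have h : ∃ (μ : ℕ), ∃ p : Matrix (Fin μ) (Fin r) ℂ, Nz P J p :=
    ⟨r, 1, fun y _ hy => by rwa [Matrix.one_mulVec] at hy⟩
  obtain ⟨p, hp⟩ := Nat.find_spec h
  exact ⟨Nat.find h, p, hp, fun μ' p' hp' => Nat.find_min' h ⟨p', hp'⟩⟩

end FreyTN
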