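import Pool.Agent.Lib.MP_6babc4_nt.TN.Ame
import Pool.Agent.Lib.MP_6babc4_nt.G2.Ctb

/-!
# Module Cnv: convergence on a cone

PROOF. For an ultrafilter `U ≤ atTop` on `ℕ` let `λ b y = lim_U l j b y` and `λ' b y = lim_U l (j+1) b y` (they exist: the values are bounded by `C ‖y‖`, closed balls are compact: `IsCompact.ultrafilter_le_nhds`);
`λ b`, `λ' b` are linear. For `y ∈ V` the numbers `s j = max_b ‖l j b y‖` (`Finset.univ.sup'`) do not increase (`step_le`), so `s j → μ y`, and `max_b ‖λ b y‖ = max_b ‖λ' b y‖ = μ y`; `Step (λ · y) (λ' · y)`. By `step_eq`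
`‖λ b y‖ = μ y` for all `b`. `hV.ratio` for `λ b`, `λ 0`: `λ b = c λ 0` on `V`, and `λ b z = 1 = λ 0 z` gives `c = 1`. So `λ b y = M_U y := λ 0 y`. For a second ultrafilter `‖M_U' y‖ = μ y = ‖M_U y‖` on `V`, `hV.ratio` and `z` again: `M_U' = M_U` on `V`.
`M = M_U` for one `U` (`hyperfilter ℕ`), `tendsto_iff_ultrafilter`.
-/

set_option autoImplicit false

open Filter Topology

namespace FreyTN

open FreyG2

/-- The limit of bounded linear functionals along an ultrafilter. -/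
private lemma ultra_lim {r : ℕ} (U : Ultrafilter ℕ) (l : ℕ → (Fin r → ℂ) →ₗ[ℂ] ℂ) {C : ℝ}
    (hC : ∀ j y, ‖l j y‖ ≤ C * ‖y‖) :
    ∃ Λ : (Fin r → ℂ) →ₗ[ℂ] ℂ, ∀ y, Tendsto (fun j => l j y) U (𝓝 (Λ y)) := by
  have h1 : ∀ y : Fin r → ℂ, ∃ x : ℂ, Tendsto (fun j => l j y) U (𝓝 x) := by
    intro y
    have h2 := (isCompact_closedBall (0 : ℂ) (C * ‖y‖)).ultrafilter_le_nhds
      (U.map fun j => l j y) (by
        rw [le_principal_iff, Ultrafilter.mem_coe, Ultrafilter.mem_map]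
        refine Filter.univ_mem' fun j => ?_
        rw [Set.mem_preimage, mem_closedBall_zero_iff]
        exact hC j y)
    obtain ⟨x, -, hx⟩ := h2
    exact ⟨x, hx⟩
  choose f hf using h1
  refine ⟨{ toFun := f, map_add' := ?_, map_smul' := ?_ }, fun y => hf y⟩
  · intro x y
    refine tendsto_nhds_unique (hf (x + y)) ?_
    simpa only [map_add] using (hf x).add (hf y)
  · intro c x
    refine tendsto_nhds_unique (hf (c • x)) ?_
    simpa only [map_smul, RingHom.id_apply, smul_eq_mul] using (hf x).const_mul c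

private lemma univ_ne (g : ℕ) : (Finset.univ : Finset (GI g)).Nonempty := ⟨0, Finset.mem_univ _⟩

/-- The maximum of the absolute values. -/
private noncomputable def mx {g : ℕ} (v : GI g → ℂ) : ℝ :=
  Finset.univ.sup' (univ_ne g) fun b => ‖v b‖

private lemma le_mx {g : ℕ} (v : GI g → ℂ) (b : GI g) : ‖v b‖ ≤ mx v :=
  Finset.le_sup' (fun b => ‖v b‖) (Finset.mem_univ b)

private lemma mx_att {g : ℕ} (v : GI g → ℂ) : ∃ b, ‖v b‖ = mx v := by
  obtain ⟨b, -, hb⟩ := Finset.exists_mem_eq_sup' (univ_ne g) (fun b => ‖v b‖)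
  exact ⟨b, hb.symm⟩

private lemma mx_tendsto {g : ℕ} (U : Filter ℕ) (v : ℕ → GI g → ℂ) (w : GI g → ℂ)
    (h : ∀ b, Tendsto (fun j => v j b) U (𝓝 (w b))) :
    Tendsto (fun j => mx (v j)) U (𝓝 (mx w)) := by
  unfold mx
  exact Filter.Tendsto.finset_sup'_nhds_apply (univ_ne g) (fun b _ => (h b).norm)

private lemma mx_step {g : ℕ} {v w : GI g → ℂ} (h : Step v w) : mx w ≤ mx v := by
  obtain ⟨b, hb⟩ := mx_att w
  rw [← hb]
  exact step_le h (le_mx v) b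

/-- The limit along one ultrafilter. -/
private lemma ultra_cone {g r : ℕ} {V : Set (Fin r → ℂ)} (hV : IsCone V)
    (l : ℕ → GI g → (Fin r → ℂ) →ₗ[ℂ] ℂ)
    (hl : ∀ y ∈ V, ∀ j, Step (fun b => l j b y) (fun b => l (j + 1) b y))
    (hbd : ∃ C : ℝ, ∀ j b y, ‖l j b y‖ ≤ C * ‖y‖) {z : Fin r → ℂ} (hz : z ∈ V)
    (hz1 : ∀ b, Tendsto (fun j => l j b z) atTop (𝓝 1)) (U : Ultrafilter ℕ) (hU : ↑U ≤ (atTop : Filter ℕ)) :
    ∃ M : (Fin r → ℂ) →ₗ[ℂ] ℂ, M z = 1 ∧ (∀ y ∈ V, ∀ b, Tendsto (fun j => l j b y) U (𝓝 (M y))) ∧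
      ∀ y ∈ V, ‖M y‖ = ⨅ j, mx (fun b => l j b y) := by
  obtain ⟨C, hC⟩ := hbd
  choose Λ hΛ using fun b : GI g => ultra_lim U (fun j => l j b) (fun j y => hC j b y)
  choose Λ' hΛ' using fun b : GI g => ultra_lim U (fun j => l (j + 1) b) (fun j y => hC (j + 1) b y)
  have hs : ∀ y ∈ V, Tendsto (fun j => mx (fun b => l j b y)) atTop (𝓝 (⨅ j, mx (fun b => l j b y))) := by
    intro y hy
    refine tendsto_atTop_ciInf (antitone_nat_of_succ_le fun j => mx_step (hl y hy j)) ?_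
    refine ⟨0, ?_⟩
    rintro x ⟨j, rfl⟩
    exact (norm_nonneg _).trans (le_mx (fun b => l j b y) 0)
  have h1 : ∀ y ∈ V, mx (fun b => Λ b y) = ⨅ j, mx (fun b => l j b y) := by
    intro y hy
    exact tendsto_nhds_unique (mx_tendsto (U : Filter ℕ) (fun j b => l j b y) (fun b => Λ b y)
      (fun b => hΛ b y)) ((hs y hy).mono_left hU)
  have h2 : ∀ y ∈ V, mx (fun b => Λ' b y) = ⨅ j, mx (fun b => l j b y) := by
    intro y hy
    exact tendsto_nhds_unique (mx_tendsto (U : Filter ℕ) (fun j b => l (j + 1) b y) (fun b => Λ' b y)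
      (fun b => hΛ' b y)) (((hs y hy).comp (tendsto_add_atTop_nat 1)).mono_left hU)
  have h3 : ∀ y ∈ V, Step (fun b => Λ b y) (fun b => Λ' b y) := by
    intro y hy b
    have h4 : Tendsto (fun j => (l (j + 1) b y) ^ 2) U (𝓝 ((Λ' b y) ^ 2)) := (hΛ' b y).pow 2
    have h5 : Tendsto (fun j => sq (fun b => l j b y) b / 2 ^ g) U (𝓝 (sq (fun b => Λ b y) b / 2 ^ g)) := by
      refine Tendsto.div_const ?_ _
      unfold sq
      exact tendsto_finsetSum _ fun c _ => (hΛ c y).mul (hΛ (b + c) y)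
    refine tendsto_nhds_unique h4 (h5.congr fun j => ?_)
    exact (hl y hy j b).symm
  have h4 : ∀ y ∈ V, ∀ b, ‖Λ b y‖ = ⨅ j, mx (fun b => l j b y) := by
    intro y hy b
    refine step_eq (h3 y hy) (fun b => ?_) ?_ b
    · rw [← h1 y hy]
      exact le_mx (fun b => Λ b y) b
    · rw [← h2 y hy]
      exact mx_att (fun b => Λ' b y)
  have hz2 : ∀ b, Λ b z = 1 := fun b => tendsto_nhds_unique (hΛ b z) ((hz1 b).mono_left hU)
  refine ⟨Λ 0, hz2 0, fun y hy b => ?_, fun y hy => h4 y hy 0⟩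
  obtain ⟨c, hc⟩ := hV.ratio (Λ b) (Λ 0) (fun y hy => by rw [h4 y hy b, h4 y hy 0])
  have h5 := hc z hz
  rw [hz2, hz2, mul_one] at h5
  have h6 := hc y hy
  rw [← h5, one_mul] at h6
  rw [← h6]
  exact hΛ b y

theorem cone_conv {g r : ℕ} {V : Set (Fin r → ℂ)} (hV : IsCone V)
    (l : ℕ → GI g → (Fin r → ℂ) →ₗ[ℂ] ℂ)
    (hl : ∀ y ∈ V, ∀ j, Step (fun b => l j b y) (fun b => l (j + 1) b y))
    (hbd : ∃ C : ℝ, ∀ j b y, ‖l j b y‖ ≤ C * ‖y‖) {z : Fin r → ℂ} (hz : z ∈ V)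
    (hz1 : ∀ b, Tendsto (fun j => l j b z) atTop (𝓝 1)) :
    ∃ M : (Fin r → ℂ) →ₗ[ℂ] ℂ, M z = 1 ∧ ∀ y ∈ V, ∀ b, Tendsto (fun j => l j b y) atTop (𝓝 (M y)) := by
  obtain ⟨M, hMz, -, hM2⟩ := ultra_cone hV l hl hbd hz hz1 (hyperfilter ℕ) Nat.hyperfilter_le_atTop
  refine ⟨M, hMz, fun y hy b => ?_⟩
  rw [tendsto_iff_ultrafilter]
  intro U hU
  obtain ⟨N, hNz, hN1, hN2⟩ := ultra_cone hV l hl hbd hz hz1 U hU
  obtain ⟨c, hc⟩ := hV.ratio N M (fun y hy => by rw [hN2 y hy, hM2 y hy])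
  have h5 := hc z hz
  rw [hNz, hMz, mul_one] at h5
  have h6 := hc y hy
  rw [← h5, one_mul] at h6
  rw [← h6]
  exact hN1 y hy b

end FreyTN
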