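import Pool.Agent.Lib.MP_6babc4_nt.TN.Defs
import Pool.Agent.Lib.MP_6babc4_nt.G2.Ctb

/-!
# Module Coi: the ideal of infinitely many lines; a cone through a limit point

`coneId_exists`, `coneId_hom`. PROOF. As `cone_max`, `cone_prime` in G2/Ctb (there for `ℂ`; only `𝕂` infinite is used): `S` infinite with `coneId φ S` maximal (`MvPolynomial (Fin r) 𝕂` is noetherian), restriction to lines
(polynomials in one variable). `1` is not in the ideal (`S` is not empty). `coneId_hom`: `eval (t • φ x) f = ∑_n t^n eval (φ x) (homogeneousComponent n f)` is the zero polynomial in `t`, so all its coefficients vanish.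

`cone_seq`. PROOF. `cone_exists_mem` (G2/Ctb) for the points `y i`: `V` contains `y i` for infinitely many `i`, and it is closed.
-/

set_option autoImplicit false

open Filter Topology

namespace FreyTN

open FreyG2

/-- The polynomials that vanish on the lines of the `φ x`, `x ∈ S`. -/
def coneId {𝕂 X : Type} [Field 𝕂] {r : ℕ} (φ : X → Fin r → 𝕂) (S : Set X) :
    Ideal (MvPolynomial (Fin r) 𝕂) where
  carrier := {f | ∀ x ∈ S, ∀ t : 𝕂, MvPolynomial.eval (t • φ x) f = 0}
  add_mem' := by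
    intro f g hf hg x hx t
    rw [map_add, hf x hx t, hg x hx t, add_zero]
  zero_mem' := fun x _ t => map_zero _
  smul_mem' := by
    intro c f hf x hx t
    rw [smul_eq_mul, map_mul, hf x hx t, mul_zero]

/-- The restriction to a line. -/
private noncomputable def coiLine {𝕂 : Type} [Field 𝕂] {r : ℕ} (a : Fin r → 𝕂)
    (f : MvPolynomial (Fin r) 𝕂) : Polynomial 𝕂 :=
  MvPolynomial.aeval (fun i => Polynomial.C (a i) * Polynomial.X) f

private lemma coiLine_eval {𝕂 : Type} [Field 𝕂] {r : ℕ} (a : Fin r → 𝕂)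
    (f : MvPolynomial (Fin r) 𝕂) (t : 𝕂) :
    (coiLine a f).eval t = MvPolynomial.eval (t • a) f := by
  unfold coiLine
  have h1 : (Polynomial.evalRingHom t).comp (MvPolynomial.aeval
      (fun i => Polynomial.C (a i) * Polynomial.X : Fin r → Polynomial 𝕂)).toRingHom =
      (MvPolynomial.eval (t • a)) := by
    apply MvPolynomial.ringHom_ext
    · intro s
      rw [RingHom.comp_apply, AlgHom.toRingHom_eq_coe, RingHom.coe_coe, MvPolynomial.algHom_C,
        MvPolynomial.eval_C]
      exact Polynomial.eval_C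
    · intro i
      rw [RingHom.comp_apply, AlgHom.toRingHom_eq_coe, RingHom.coe_coe, MvPolynomial.aeval_X,
        MvPolynomial.eval_X, Polynomial.coe_evalRingHom, Polynomial.eval_mul, Polynomial.eval_C,
        Polynomial.eval_X, Pi.smul_apply, smul_eq_mul, mul_comm]
  exact congrArg (fun F => F f) h1

private lemma coiLine_zero {𝕂 : Type} [Field 𝕂] [Infinite 𝕂] {r : ℕ} {a : Fin r → 𝕂}
    {f : MvPolynomial (Fin r) 𝕂} :
    coiLine a f = 0 ↔ ∀ t : 𝕂, MvPolynomial.eval (t • a) f = 0 := by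
  constructor
  · intro h t
    rw [← coiLine_eval, h, Polynomial.eval_zero]
  · intro h
    apply Polynomial.funext
    intro t
    rw [coiLine_eval, h t, Polynomial.eval_zero]

private lemma coi_max {𝕂 X : Type} [Field 𝕂] [Infinite X] {r : ℕ} (φ : X → Fin r → 𝕂) :
    ∃ S₀ : Set X, S₀.Infinite ∧ ∀ S : Set X, S.Infinite → S ⊆ S₀ →
      ∀ f ∈ coneId φ S, f ∈ coneId φ S₀ := by
  have h1 : IsNoetherian (MvPolynomial (Fin r) 𝕂) (MvPolynomial (Fin r) 𝕂) :=
    (inferInstance : IsNoetherianRing (MvPolynomial (Fin r) 𝕂))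
  obtain ⟨M, ⟨S₀, hS₀, rfl⟩, hM⟩ := set_has_maximal_iff_noetherian.2 h1
    {I | ∃ S : Set X, S.Infinite ∧ coneId φ S = I} ⟨_, Set.univ, Set.infinite_univ, rfl⟩
  refine ⟨S₀, hS₀, fun S hS hSS f hf => ?_⟩
  by_contra hf0
  refine hM _ ⟨S, hS, rfl⟩ (lt_of_le_of_ne ?_ ?_)
  · intro g hg x hx t
    exact hg x (hSS hx) t
  · intro h2
    apply hf0
    rw [h2]
    exact hf

theorem coneId_exists {𝕂 X : Type} [Field 𝕂] [Infinite 𝕂] [Infinite X] {r : ℕ}
    (φ : X → Fin r → 𝕂) : ∃ S : Set X, S.Infinite ∧ (coneId φ S).IsPrime := by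
  obtain ⟨S₀, hS₀, hmax⟩ := coi_max φ
  refine ⟨S₀, hS₀, ⟨?_, ?_⟩⟩
  · intro htop
    obtain ⟨x, hx⟩ := hS₀.nonempty
    have h1 : (1 : MvPolynomial (Fin r) 𝕂) ∈ coneId φ S₀ := by
      rw [htop]
      exact Submodule.mem_top
    have h2 := h1 x hx 0
    rw [map_one] at h2
    exact one_ne_zero h2
  · intro f g h
    have h1 : S₀ = {x ∈ S₀ | coiLine (φ x) f = 0} ∪ {x ∈ S₀ | coiLine (φ x) g = 0} := by
      ext x
      constructor
      · intro hx
        have h2 : coiLine (φ x) (f * g) = 0 := coiLine_zero.2 (h x hx)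
        have h4 : coiLine (φ x) (f * g) = coiLine (φ x) f * coiLine (φ x) g := map_mul _ f g
        rw [h4] at h2
        rcases mul_eq_zero.1 h2 with h3 | h3
        · exact Or.inl ⟨hx, h3⟩
        · exact Or.inr ⟨hx, h3⟩
      · rintro (hx | hx)
        · exact hx.1
        · exact hx.1
    have h2 := hS₀
    rw [h1, Set.infinite_union] at h2
    rcases h2 with h3 | h3
    · left
      apply hmax _ h3 (fun x hx => hx.1)
      intro x hx
      exact coiLine_zero.1 hx.2
    · right
      apply hmax _ h3 (fun x hx => hx.1)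
      intro x hx
      exact coiLine_zero.1 hx.2

private lemma coi_hom {𝕂 : Type} [Field 𝕂] {r D : ℕ} {G : MvPolynomial (Fin r) 𝕂}
    (h : G.IsHomogeneous D) (t : 𝕂) (y : Fin r → 𝕂) :
    MvPolynomial.eval (t • y) G = t ^ D * MvPolynomial.eval y G := by
  rw [MvPolynomial.eval_eq, MvPolynomial.eval_eq, Finset.mul_sum]
  apply Finset.sum_congr rfl
  intro d hd
  have hdeg : ∑ i ∈ d.support, d i = D := (h.degree_eq_sum_deg_support hd).symm
  simp only [Pi.smul_apply, smul_eq_mul, mul_pow]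
  rw [Finset.prod_mul_distrib, Finset.prod_pow_eq_pow_sum, hdeg]
  ring

theorem coneId_hom {𝕂 X : Type} [Field 𝕂] [Infinite 𝕂] {r : ℕ} (φ : X → Fin r → 𝕂) (S : Set X)
    (f : MvPolynomial (Fin r) 𝕂) (hf : f ∈ coneId φ S) (n : ℕ) :
    MvPolynomial.homogeneousComponent n f ∈ coneId φ S := by
  intro x hx t
  rw [coi_hom (MvPolynomial.homogeneousComponent_isHomogeneous n f)]
  have h1 : ∀ s : 𝕂, MvPolynomial.eval (s • φ x) f =
      (∑ i ∈ Finset.range (f.totalDegree + 1), Polynomial.C
        (MvPolynomial.eval (φ x) (MvPolynomial.homogeneousComponent i f)) *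
          Polynomial.X ^ i : Polynomial 𝕂).eval s := by
    intro s
    conv_lhs => rw [← MvPolynomial.sum_homogeneousComponent f]
    rw [map_sum, Polynomial.eval_finsetSum]
    refine Finset.sum_congr rfl fun i _ => ?_
    rw [coi_hom (MvPolynomial.homogeneousComponent_isHomogeneous i f)]
    simp only [Polynomial.eval_mul, Polynomial.eval_C, Polynomial.eval_pow, Polynomial.eval_X]
    ring
  have h2 : (∑ i ∈ Finset.range (f.totalDegree + 1), Polynomial.C
        (MvPolynomial.eval (φ x) (MvPolynomial.homogeneousComponent i f)) *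
          Polynomial.X ^ i : Polynomial 𝕂) = 0 := by
    apply Polynomial.funext
    intro s
    rw [← h1, hf x hx s, Polynomial.eval_zero]
  by_cases hn : n < f.totalDegree + 1
  · have h3 := congrArg (fun p : Polynomial 𝕂 => p.coeff n) h2
    simp only [Polynomial.finsetSum_coeff, Polynomial.coeff_C_mul, Polynomial.coeff_X_pow,
      Polynomial.coeff_zero] at h3
    rw [Finset.sum_eq_single n] at h3
    · rw [if_pos rfl, mul_one] at h3
      rw [h3, mul_zero]
    · intro b _ hb
      rw [if_neg (fun h => hb h.symm), mul_zero]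
    · intro hb
      exact absurd (Finset.mem_range.2 hn) hb
  · rw [MvPolynomial.homogeneousComponent_eq_zero n f (by omega), map_zero, mul_zero]

/-- A cone through the limit of a sequence of points. -/
theorem cone_seq {r : ℕ} (y : ℕ → Fin r → ℂ)
    (hy : ∀ i j, i ≠ j → LinearIndependent ℂ ![y i, y j]) {z : Fin r → ℂ}
    (hz : Tendsto y atTop (𝓝 z)) :
    ∃ V : Set (Fin r → ℂ), IsCone V ∧ z ∈ V ∧ ∀ f : MvPolynomial (Fin r) ℂ,
      (∀ i, ∀ t : ℂ, MvPolynomial.eval (t • y i) f = 0) → ∀ v ∈ V, MvPolynomial.eval v f = 0 := by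
  obtain ⟨V, hV, hinf, hf⟩ := cone_exists_mem y hy
  refine ⟨V, hV, ?_, hf⟩
  have h1 : ∃ᶠ i in atTop, y i ∈ V := Nat.frequently_atTop_iff_infinite.2 hinf
  by_contra hz0
  have h2 : ∀ᶠ i in atTop, y i ∈ Vᶜ := hz (hV.closed.isOpen_compl.mem_nhds hz0)
  exact h1 h2

end FreyTN
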