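import Mathlib

/-!
# Theta null points and Frey's inequality in all dimensions: basic definitions

`GI g` is the index set `𝔽₂^g`, `theta τ b` the theta constant `∑ (-1)^(b.m) exp(π i mᵀ τ m)`, `sq v b` the sum
`∑_c v_c v_(b+c)` of Borchardt's arithmetic-geometric mean.
-/

set_option autoImplicit false

namespace FreyTN

/-- The index set `𝔽₂^g`. -/
abbrev GI (g : ℕ) : Type := Fin g → ZMod 2

/-- The sign `(-1)^(b.m)`. -/
def sgn {g : ℕ} (b : GI g) (m : Fin g → ℤ) : ℤ :=
  if ∑ i, b i * (m i : ZMod 2) = 0 then 1 else -1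

/-- The quadratic form `mᵀ τ m`. -/
def quad {R : Type*} [CommRing R] {g : ℕ} (τ : Matrix (Fin g) (Fin g) R) (m : Fin g → ℤ) : R :=
  ∑ i, ∑ j, (m i : R) * τ i j * (m j : R)

/-- The theta constant `∑ (-1)^(b.m) exp(π i mᵀ τ m)`, the sum over `m` in `ℤ^g`. -/
noncomputable def theta {g : ℕ} (τ : Matrix (Fin g) (Fin g) ℂ) (b : GI g) : ℂ :=
  ∑' m : Fin g → ℤ, (sgn b m : ℂ) * Complex.exp (Real.pi * Complex.I * quad τ m)

/-- The matrix `τ` is a point of Siegel's upper half space, and the imaginary part of `mᵀ τ m` is at least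
`ρ` for all integral vectors `m ≠ 0`. -/
def Siegel {g : ℕ} (ρ : ℝ) (τ : Matrix (Fin g) (Fin g) ℂ) : Prop :=
  τ.IsSymm ∧ (τ.map Complex.im).PosDef ∧
    ∀ m : Fin g → ℤ, m ≠ 0 → ρ ≤ quad (τ.map Complex.im) m

/-- `∑_c v_c v_(b+c)`. -/
def sq {R : Type*} [CommRing R] {g : ℕ} (v : GI g → R) (b : GI g) : R := ∑ c, v c * v (b + c)

/-- A path of length `k` of the (not normalised) arithmetic-geometric mean. -/
def Path {R : Type*} [CommRing R] {g : ℕ} (k : ℕ) (v : ℕ → GI g → R) : Prop :=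
  ∀ j < k, ∀ b, v (j + 1) b ^ 2 = 2 ^ g * sq (v j) b

/-- The relation of the normalised arithmetic-geometric mean. -/
def Step {g : ℕ} (v w : GI g → ℂ) : Prop := ∀ b, w b ^ 2 = sq v b / 2 ^ g

/-- The vectors are not proportional. -/
def NPr {α R : Type*} [CommRing R] (u w : α → R) : Prop := ∃ i j, u i * w j ≠ u j * w i

/-- All determinants of size `B` of the functions of level at most `k` vanish. -/
def RankLt {g : ℕ} {X F : Type} [Field F] (k B : ℕ) (f : X → ℕ → GI g → F) : Prop :=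
  ∀ (r : Fin B → ℕ × GI g) (x : Fin B → X), (∀ i, (r i).1 ≤ k) →
    Matrix.det (Matrix.of fun i j => f (x j) (r i).1 (r i).2) = 0

end FreyTN
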