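import Pool.Agent.Lib.MP_6babc4_nt.TN.Bdd

/-!
# Module Itg: the coordinate ring is integral over the polynomials in `p`

PROOF. Let `L k = ∑ i, p k i X i` (`= thp P p (X k)`). The only zero of the ideal `J ⊔ span (range L)` in `𝕂^r` is `0` (`v_zero`), so by the Nullstellensatz (`MvPolynomial.vanishingIdeal_zeroLocus_eq_radical`) there is `e ≥ 1` with
`X i ^ e ∈ J ⊔ span (range L)` for all `i`. Take the homogeneous component of degree `e` (`hJ.hom`): `X i ^ e = f_i + ∑_k a_(i,k) L k`, `f_i ∈ J`, `a_(i,k)` homogeneous of degree `e - 1`. Let `A = 𝕂[X] / J`, `h : 𝕂[Y] → A` the homomorphism of the statement, `M ⊆ A` the `𝕂[Y]`-submodule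
(`𝕂[Y]` acts by `h`) spanned by the classes of the monomials of degree `< E = r e + 1`. `X i M ⊆ M`: a monomial of degree `E` in `r` variables is `X_j^e m'` with `deg m' = E - e`, so modulo `J` it is `∑_k L k (a_(j,k) m')`, and `a_(j,k) m'` has degree `E - 1`. `M` is finitely generated, `1 ∈ M`:
`isIntegral_of_smul_mem_submodule` (or `LinearMap.charpoly` / `IsIntegral.of_finite` for the subalgebra). So all `X i` are integral, and `A` is generated by them (`RingHom.IsIntegral`, `MvPolynomial.induction_on`, constants are in the image).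
-/

set_option autoImplicit false

namespace FreyTN

variable {𝕂 : Type} [Field 𝕂] [IsAlgClosed 𝕂]

open MvPolynomial in
private theorem itg_hc {σ R : Type} [CommRing R] (q L : MvPolynomial σ R) (hL : L.IsHomogeneous 1)
    (e : ℕ) : homogeneousComponent (e + 1) (q * L) = homogeneousComponent e q * L := by
  classical
  conv_lhs => rw [← sum_homogeneousComponent q, Finset.sum_mul, map_sum]
  have h1 : ∀ n ∈ Finset.range (q.totalDegree + 1),
      homogeneousComponent (e + 1) (homogeneousComponent n q * L)
        = if n = e then homogeneousComponent e q * L else 0 := by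
    intro n _
    rw [homogeneousComponent_of_mem (n := n + 1)
      ((homogeneousComponent_isHomogeneous n q).mul hL)]
    by_cases h : n = e
    · subst h; simp
    · rw [if_neg (by omega), if_neg h]
  rw [Finset.sum_congr rfl h1, Finset.sum_ite_eq']
  split_ifs with h
  · rfl
  · rw [homogeneousComponent_eq_zero e q (by
      rw [Finset.mem_range] at h; omega), zero_mul]

open MvPolynomial in
private theorem itg_null (P : Plc 𝕂) {μ r : ℕ} {J : Ideal (MvPolynomial (Fin r) 𝕂)} (hJ : HI J)
    {p : Matrix (Fin μ) (Fin r) ℂ} (hN : Nz P J p) (i : Fin r) :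
    (X i : MvPolynomial (Fin r) 𝕂) ∈
      (J ⊔ Ideal.span (Set.range fun k => thp P p (X k))).radical := by
  rw [← vanishingIdeal_zeroLocus_eq_radical (K := 𝕂), mem_vanishingIdeal_iff]
  intro y hy
  have hy1 : y ∈ VK J := by
    intro f hf
    have := hy f (Ideal.mem_sup_left hf)
    rwa [aeval_eq_eval] at this
  have hy2 : pK P p y = 0 := by
    funext k
    have := hy (thp P p (X k)) (Ideal.mem_sup_right (Ideal.subset_span ⟨k, rfl⟩))
    rw [aeval_eq_eval] at this
    have h2 := eval_thp P p y (X k)
    rw [eval_X] at h2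
    rw [← h2]
    exact this
  have : y = 0 := v_zero P hJ hN hy1 hy2
  simp [this]

open MvPolynomial in
private theorem itg_rel (P : Plc 𝕂) {μ r : ℕ} {J : Ideal (MvPolynomial (Fin r) 𝕂)} (hJ : HI J)
    {p : Matrix (Fin μ) (Fin r) ℂ} (hN : Nz P J p) :
    ∃ (e : ℕ) (a : Fin r → Fin μ → MvPolynomial (Fin r) 𝕂),
      (∀ i k, (a i k).IsHomogeneous e) ∧
      ∀ i, X i ^ (e + 1) - ∑ k, a i k * thp P p (X k) ∈ J := by
  choose n hn using fun i => itg_null P hJ hN i
  set e := ∑ i, n i with he
  have h1 : ∀ i, ∃ a : Fin μ → MvPolynomial (Fin r) 𝕂, (∀ k, (a k).IsHomogeneous e) ∧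
      X i ^ (e + 1) - ∑ k, a k * thp P p (X k) ∈ J := by
    intro i
    have h2 : (X i : MvPolynomial (Fin r) 𝕂) ^ (e + 1) ∈
        J ⊔ Ideal.span (Set.range fun k => thp P p (X k)) := by
      have h3 : n i ≤ e + 1 :=
        le_trans (Finset.single_le_sum (f := n) (fun _ _ => Nat.zero_le _) (Finset.mem_univ i))
          (Nat.le_succ _)
      have h4 : (X i : MvPolynomial (Fin r) 𝕂) ^ (e + 1) = X i ^ (n i) * X i ^ (e + 1 - n i) := by
        rw [← pow_add, Nat.add_sub_cancel' h3]
      rw [h4]
      exact Ideal.mul_mem_right _ _ (hn i)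
    obtain ⟨f, hf, g, hg, hfg⟩ := Submodule.mem_sup.1 h2
    obtain ⟨c, hc⟩ := Ideal.mem_span_range_iff_exists_fun.1 hg
    have hL : ∀ k, (thp P p (X k)).IsHomogeneous 1 := by
      intro k
      unfold thp
      rw [aeval_X]
      apply IsHomogeneous.sum
      intro j _
      have := (isHomogeneous_C (Fin r) (P.ι (p k j))).mul (isHomogeneous_X 𝕂 j)
      simpa using this
    refine ⟨fun k => homogeneousComponent e (c k),
      fun k => homogeneousComponent_isHomogeneous e (c k), ?_⟩
    have h5 : homogeneousComponent (e + 1) ((X i : MvPolynomial (Fin r) 𝕂) ^ (e + 1))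
        = X i ^ (e + 1) := by
      apply homogeneousComponent_eq_self
      have := (isHomogeneous_X 𝕂 i).pow (e + 1)
      simpa using this
    have h6 : homogeneousComponent (e + 1) f + ∑ k, homogeneousComponent e (c k) * thp P p (X k)
        = X i ^ (e + 1) := by
      rw [← h5, ← hfg, map_add, ← hc, map_sum]
      congr 1
      exact Finset.sum_congr rfl fun k _ => (itg_hc (c k) _ (hL k) e).symm
    have h7 : X i ^ (e + 1) - ∑ k, homogeneousComponent e (c k) * thp P p (X k)
        = homogeneousComponent (e + 1) f := by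
      rw [← h6]; ring
    rw [h7]
    exact hJ.hom f hf (e + 1)
  choose a ha hb using h1
  exact ⟨e, a, ha, hb⟩

omit [IsAlgClosed 𝕂] in
open MvPolynomial in
private theorem itg_fin (P : Plc 𝕂) {μ r : ℕ} {J : Ideal (MvPolynomial (Fin r) 𝕂)}
    {p : Matrix (Fin μ) (Fin r) ℂ} (e : ℕ) (a : Fin r → Fin μ → MvPolynomial (Fin r) 𝕂)
    (ha : ∀ i k, (a i k).IsHomogeneous e)
    (hr : ∀ i, X i ^ (e + 1) - ∑ k, a i k * thp P p (X k) ∈ J) :
    ((Ideal.Quotient.mk J).comp (thp P p).toRingHom).Finite := by
  classical
  let _ : Algebra (MvPolynomial (Fin μ) 𝕂) (MvPolynomial (Fin r) 𝕂 ⧸ J) :=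
    ((Ideal.Quotient.mk J).comp (thp P p).toRingHom).toAlgebra
  have hsm : ∀ (y : MvPolynomial (Fin μ) 𝕂) (x : MvPolynomial (Fin r) 𝕂),
      y • (Ideal.Quotient.mk J x) = Ideal.Quotient.mk J (thp P p y * x) := by
    intro y x
    rw [Algebra.smul_def, map_mul]
    rfl
  set E := r * (e + 1) + 1 with hE
  set M : Submodule (MvPolynomial (Fin μ) 𝕂) (MvPolynomial (Fin r) 𝕂 ⧸ J) :=
    Submodule.span _ ((fun s : Fin r →₀ ℕ => Ideal.Quotient.mk J (monomial s 1)) ''
      {s | s.degree < E}) with hM
  have hC : ∀ f : MvPolynomial (Fin r) 𝕂,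
      (∀ s ∈ f.support, Ideal.Quotient.mk J (monomial s 1) ∈ M) → Ideal.Quotient.mk J f ∈ M := by
    intro f hf
    rw [f.as_sum, map_sum]
    refine Submodule.sum_mem _ fun s hs => ?_
    have h1 : Ideal.Quotient.mk J (monomial s (coeff s f))
        = (C (coeff s f) : MvPolynomial (Fin μ) 𝕂) • Ideal.Quotient.mk J (monomial s 1) := by
      rw [hsm]
      congr 1
      have : thp P p (C (coeff s f)) = C (coeff s f) := by
        unfold thp
        rw [aeval_C]
        rfl
      rw [this, C_mul_monomial, mul_one]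
    rw [h1]
    exact Submodule.smul_mem _ _ (hf s hs)
  have hI : ∀ n : ℕ, ∀ s : Fin r →₀ ℕ, s.degree = n → Ideal.Quotient.mk J (monomial s 1) ∈ M := by
    intro n
    induction n using Nat.strong_induction_on with
    | _ n ih =>
      intro s hs
      by_cases hn : n < E
      · exact Submodule.subset_span ⟨s, by simpa [hs] using hn, rfl⟩
      · have h1 : ∃ j, e + 1 ≤ s j := by
          by_contra hcon
          push Not at hcon
          have h2 : s.degree ≤ r * e := by
            rw [Finsupp.degree_eq_sum]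
            calc ∑ i, s i ≤ ∑ _i : Fin r, e :=
                  Finset.sum_le_sum fun i _ => Nat.lt_succ_iff.1 (hcon i)
              _ = r * e := by simp
          have h3 : r * e ≤ r * (e + 1) := Nat.mul_le_mul_left _ (Nat.le_succ _)
          omega
        obtain ⟨j, hj⟩ := h1
        set t := s - Finsupp.single j (e + 1) with ht
        have hst : Finsupp.single j (e + 1) + t = s := by
          rw [ht]
          apply add_tsub_cancel_of_le
          rw [Finsupp.single_le_iff]
          exact hj
        have hdt : t.degree + (e + 1) = n := by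
          rw [← hs, ← hst, map_add, Finsupp.degree_single]
          ring
        have h4 : (monomial s (1 : 𝕂)) = X j ^ (e + 1) * monomial t 1 := by
          rw [X_pow_eq_monomial, monomial_mul, hst, mul_one]
        have h5 : Ideal.Quotient.mk J (monomial s (1 : 𝕂))
            = ∑ k, (X k : MvPolynomial (Fin μ) 𝕂) • Ideal.Quotient.mk J (a j k * monomial t 1) := by
          have h6 : Ideal.Quotient.mk J (X j ^ (e + 1))
              = Ideal.Quotient.mk J (∑ k, a j k * thp P p (X k)) :=
            Ideal.Quotient.eq.2 (hr j)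
          rw [h4, map_mul, h6, ← map_mul, Finset.sum_mul, map_sum]
          refine Finset.sum_congr rfl fun k _ => ?_
          rw [hsm]
          congr 1
          ring
        rw [h5]
        refine Submodule.sum_mem _ fun k _ => Submodule.smul_mem _ _ (hC _ ?_)
        intro s' hs'
        have h7 : (a j k * monomial t (1 : 𝕂)).IsHomogeneous (e + t.degree) :=
          (ha j k).mul (isHomogeneous_monomial 1 rfl)
        have h8 : s'.degree = e + t.degree := by
          have := h7 (mem_support_iff.1 hs')
          rw [← this, Finsupp.degree_eq_weight_one]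
          rfl
        exact ih (e + t.degree) (by omega) s' h8
  have hT : M = ⊤ := by
    rw [eq_top_iff]
    rintro x -
    obtain ⟨f, rfl⟩ := Ideal.Quotient.mk_surjective x
    exact hC f fun s _ => hI _ s rfl
  have hF : ({s : Fin r →₀ ℕ | s.degree < E}).Finite := by
    refine (Set.finite_Iic (Finsupp.equivFunOnFinite.symm fun _ : Fin r => E)).subset ?_
    intro s hs i
    have h1 : s i ≤ s.degree := Finsupp.le_degree i s
    have h2 : s.degree < E := hs
    simp only [Finsupp.equivFunOnFinite_symm_apply_apply]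
    omega
  have hG : Module.Finite (MvPolynomial (Fin μ) 𝕂) (MvPolynomial (Fin r) 𝕂 ⧸ J) := by
    refine ⟨?_⟩
    rw [← hT, hM]
    exact Submodule.fg_span (hF.image _)
  exact hG

theorem v_int (P : Plc 𝕂) {μ r : ℕ} {J : Ideal (MvPolynomial (Fin r) 𝕂)} (hJ : HI J)
    {p : Matrix (Fin μ) (Fin r) ℂ} (hN : Nz P J p) :
    ((Ideal.Quotient.mk J).comp (thp P p).toRingHom).IsIntegral := by
  obtain ⟨e, a, ha, hr⟩ := itg_rel P hJ hN
  exact (itg_fin P e a ha hr).to_isIntegral

end FreyTN
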