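import Pool.Agent.Lib.MP_6babc4_nt.TN.Defs

/-!
# Module Lat: sums over a lattice whose shortest vector has length at least `√ρ`

PROOF. `q = quad Y` satisfies the parallelogram identity and is nonnegative on `ℤ^g`.
COUNT: the number of `m` with `q m < (n + 1) ρ` is at most `K^g`, `K = 2 (n + 1)`: if `m ≡ m'` modulo `K` (all coordinates; map to `Fin g → ZMod K`) and `m ≠ m'` then `m - m' = K x`, `x ≠ 0`,
`K^2 ρ ≤ q (m - m') ≤ 2 q m + 2 q m' < 4 (n + 1) ρ`, a contradiction.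
All finite partial sums of `exp(-π q m)` are at most `C = ∑ (2 (n + 1))^g exp(-π ρ n)` (group the `m` by `n = ⌊q m / ρ⌋`), and
`δ j = exp(-π (2^j - 1) ρ) C`.
-/

set_option autoImplicit false

open Filter Topology

namespace FreyTN

private theorem lat_count {g : ℕ} {ρ : ℝ} (hρ : 0 < ρ) (q : (Fin g → ℤ) → ℝ)
    (h0 : ∀ m, 0 ≤ q m) (hpar : ∀ m m', q (m - m') + q (m + m') = 2 * q m + 2 * q m')
    (hsc : ∀ (K : ℤ) (m : Fin g → ℤ), q (fun i => K * m i) = (K : ℝ) ^ 2 * q m)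
    (hmin : ∀ m : Fin g → ℤ, m ≠ 0 → ρ ≤ q m) (n : ℕ) (T : Finset (Fin g → ℤ))
    (hT : ∀ m ∈ T, q m < ((n : ℝ) + 1) * ρ) : T.card ≤ (2 * (n + 1)) ^ g := by
  classical
  have : NeZero (2 * (n + 1)) := ⟨by omega⟩
  have hcard : Fintype.card (Fin g → ZMod (2 * (n + 1))) = (2 * (n + 1)) ^ g := by
    rw [Fintype.card_fun, ZMod.card, Fintype.card_fin]
  rw [← hcard, ← Finset.card_univ]
  refine Finset.card_le_card_of_injOn (fun m i => (m i : ZMod (2 * (n + 1))))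
    (fun _ _ => Finset.mem_coe.2 (Finset.mem_univ _)) ?_
  intro m hm m' hm' he
  by_contra hne
  have hd : ∀ i, ∃ x : ℤ, m i - m' i = ((2 * (n + 1) : ℕ) : ℤ) * x := by
    intro i
    have h1 : ((m i - m' i : ℤ) : ZMod (2 * (n + 1))) = 0 := by
      rw [Int.cast_sub, sub_eq_zero]
      exact congrFun he i
    exact (ZMod.intCast_zmod_eq_zero_iff_dvd _ _).1 h1
  choose x hx using hd
  have hmx : m - m' = fun i => ((2 * (n + 1) : ℕ) : ℤ) * x i := by
    funext i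
    exact hx i
  have hx0 : x ≠ 0 := by
    rintro rfl
    apply hne
    have : m - m' = 0 := by
      rw [hmx]
      funext i
      simp
    exact sub_eq_zero.1 this
  have h1 := hsc ((2 * (n + 1) : ℕ) : ℤ) x
  rw [← hmx] at h1
  have h2 := hpar m m'
  have h3 := h0 (m + m')
  have h4 := hT m hm
  have h5 := hT m' hm'
  have h6 := hmin x hx0
  have h7 : ((((2 * (n + 1) : ℕ) : ℤ) : ℝ)) ^ 2 = 4 * ((n : ℝ) + 1) ^ 2 := by
    push_cast
    ring
  rw [h7] at h1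
  have h8 : (4 * ((n : ℝ) + 1) ^ 2) * ρ ≤ (4 * ((n : ℝ) + 1) ^ 2) * q x :=
    mul_le_mul_of_nonneg_left h6 (by positivity)
  have h9 : 4 * ((n : ℝ) + 1) * ρ ≤ (4 * ((n : ℝ) + 1) ^ 2) * ρ := by
    refine mul_le_mul_of_nonneg_right ?_ hρ.le
    have : (0 : ℝ) ≤ n := n.cast_nonneg
    nlinarith
  linarith

private theorem lat_summable (g : ℕ) {ρ : ℝ} (hρ : 0 < ρ) :
    Summable (fun n : ℕ => (2 * ((n : ℝ) + 1)) ^ g * Real.exp (-(Real.pi * ρ)) ^ n) := by
  have hr0 : (0 : ℝ) < Real.exp (-(Real.pi * ρ)) := Real.exp_pos _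
  have hr1 : Real.exp (-(Real.pi * ρ)) < 1 := by
    rw [Real.exp_lt_one_iff]
    have : 0 < Real.pi * ρ := mul_pos Real.pi_pos hρ
    linarith
  have h := summable_pow_mul_geometric_of_norm_lt_one g
    (r := Real.exp (-(Real.pi * ρ))) (by rwa [Real.norm_of_nonneg hr0.le])
  have h2 := (summable_nat_add_iff 1).2 h
  refine (h2.mul_left (2 ^ g * (Real.exp (-(Real.pi * ρ)))⁻¹)).congr fun n => ?_
  push_cast
  rw [mul_pow, pow_succ]
  field_simp

private theorem lat_sum_le {g : ℕ} {ρ : ℝ} (hρ : 0 < ρ) (q : (Fin g → ℤ) → ℝ)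
    (h0 : ∀ m, 0 ≤ q m) (hpar : ∀ m m', q (m - m') + q (m + m') = 2 * q m + 2 * q m')
    (hsc : ∀ (K : ℤ) (m : Fin g → ℤ), q (fun i => K * m i) = (K : ℝ) ^ 2 * q m)
    (hmin : ∀ m : Fin g → ℤ, m ≠ 0 → ρ ≤ q m) (T : Finset (Fin g → ℤ)) :
    ∑ m ∈ T, Real.exp (-(Real.pi * q m)) ≤
      ∑' n : ℕ, (2 * ((n : ℝ) + 1)) ^ g * Real.exp (-(Real.pi * ρ)) ^ n := by
  classical
  have h1 : ∑ m ∈ T, Real.exp (-(Real.pi * q m)) ≤
      ∑ m ∈ T, Real.exp (-(Real.pi * ρ)) ^ ⌊q m / ρ⌋₊ := by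
    refine Finset.sum_le_sum fun m _ => ?_
    rw [← Real.exp_nat_mul]
    refine Real.exp_le_exp.2 ?_
    have h2 : (⌊q m / ρ⌋₊ : ℝ) ≤ q m / ρ := Nat.floor_le (div_nonneg (h0 m) hρ.le)
    have h3 : (⌊q m / ρ⌋₊ : ℝ) * ρ ≤ q m := (le_div_iff₀ hρ).1 h2
    have h4 := mul_le_mul_of_nonneg_left h3 Real.pi_pos.le
    linarith
  refine h1.trans ?_
  rw [Finset.sum_comp (fun n : ℕ => Real.exp (-(Real.pi * ρ)) ^ n) (fun m => ⌊q m / ρ⌋₊)]
  refine le_trans (Finset.sum_le_sum fun n _ => ?_)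
    ((lat_summable g hρ).sum_le_tsum (T.image fun m => ⌊q m / ρ⌋₊)
      (fun n _ => by positivity))
  rw [nsmul_eq_mul]
  refine mul_le_mul_of_nonneg_right ?_ (by positivity)
  have h5 := lat_count hρ q h0 hpar hsc hmin n (T.filter fun m => ⌊q m / ρ⌋₊ = n) (by
    intro m hm
    obtain ⟨-, hm⟩ := Finset.mem_filter.1 hm
    have h6 := Nat.lt_floor_add_one (q m / ρ)
    rw [hm] at h6
    exact (div_lt_iff₀ hρ).1 h6)
  exact_mod_cast h5

theorem lat_bound (g : ℕ) {ρ : ℝ} (hρ : 0 < ρ) : ∃ δ : ℕ → ℝ, Tendsto δ atTop (𝓝 0) ∧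
    ∀ Y : Matrix (Fin g) (Fin g) ℝ, Y.PosDef → (∀ m : Fin g → ℤ, m ≠ 0 → ρ ≤ quad Y m) → ∀ j : ℕ,
      Summable (fun m : Fin g → ℤ => Real.exp (-(Real.pi * (2 ^ j * quad Y m)))) ∧
      (∑' m : Fin g → ℤ, if m = 0 then 0 else Real.exp (-(Real.pi * (2 ^ j * quad Y m)))) ≤ δ j := by
  classical
  set C : ℝ := ∑' n : ℕ, (2 * ((n : ℝ) + 1)) ^ g * Real.exp (-(Real.pi * ρ)) ^ n with hC
  refine ⟨fun j => Real.exp (-(Real.pi * ((2 ^ j - 1) * ρ))) * C, ?_, ?_⟩
  · have h1 : Tendsto (fun j : ℕ => Real.pi * (((2 : ℝ) ^ j - 1) * ρ)) atTop atTop := by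
      refine Tendsto.const_mul_atTop Real.pi_pos (Tendsto.atTop_mul_const hρ ?_)
      exact tendsto_atTop_add_const_right _ (-1)
        (tendsto_pow_atTop_atTop_of_one_lt one_lt_two)
    have h2 := (Real.tendsto_exp_neg_atTop_nhds_zero.comp h1).mul_const C
    rw [zero_mul] at h2
    exact h2
  intro Y _ hmin j
  have hq0 : quad Y (0 : Fin g → ℤ) = 0 := by simp [quad]
  have h0 : ∀ m : Fin g → ℤ, 0 ≤ quad Y m := by
    intro m
    by_cases hm : m = 0
    · rw [hm, hq0]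
    · exact hρ.le.trans (hmin m hm)
  have hpar : ∀ m m' : Fin g → ℤ,
      quad Y (m - m') + quad Y (m + m') = 2 * quad Y m + 2 * quad Y m' := by
    intro m m'
    simp only [quad, Pi.sub_apply, Pi.add_apply, Finset.mul_sum, ← Finset.sum_add_distrib]
    refine Finset.sum_congr rfl fun i _ => Finset.sum_congr rfl fun k _ => ?_
    push_cast
    ring
  have hsc : ∀ (K : ℤ) (m : Fin g → ℤ), quad Y (fun i => K * m i) = (K : ℝ) ^ 2 * quad Y m := by
    intro K m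
    simp only [quad, Finset.mul_sum]
    refine Finset.sum_congr rfl fun i _ => Finset.sum_congr rfl fun k _ => ?_
    push_cast
    ring
  have hsum := lat_sum_le hρ (quad Y) h0 hpar hsc hmin
  have hs0 : Summable (fun m : Fin g → ℤ => Real.exp (-(Real.pi * quad Y m))) :=
    summable_of_sum_le (fun m => (Real.exp_pos _).le) hsum
  have h2j : (1 : ℝ) ≤ 2 ^ j := one_le_pow₀ one_le_two
  have hle : ∀ m : Fin g → ℤ, Real.exp (-(Real.pi * (2 ^ j * quad Y m))) ≤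
      Real.exp (-(Real.pi * quad Y m)) := by
    intro m
    refine Real.exp_le_exp.2 (neg_le_neg (mul_le_mul_of_nonneg_left ?_ Real.pi_pos.le))
    exact le_mul_of_one_le_left (h0 m) h2j
  have hsj : Summable (fun m : Fin g → ℤ => Real.exp (-(Real.pi * (2 ^ j * quad Y m)))) :=
    Summable.of_nonneg_of_le (fun m => (Real.exp_pos _).le) hle hs0
  refine ⟨hsj, ?_⟩
  have hs' : Summable (fun m : Fin g → ℤ =>
      if m = 0 then 0 else Real.exp (-(Real.pi * (2 ^ j * quad Y m)))) := by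
    refine Summable.of_nonneg_of_le (fun m => ?_) (fun m => ?_) hsj
    · split_ifs
      · exact le_rfl
      · exact (Real.exp_pos _).le
    · split_ifs
      · exact (Real.exp_pos _).le
      · exact le_rfl
  refine hs'.tsum_le_of_sum_le fun T => ?_
  calc ∑ m ∈ T, (if m = 0 then 0 else Real.exp (-(Real.pi * (2 ^ j * quad Y m))))
      ≤ ∑ m ∈ T, Real.exp (-(Real.pi * ((2 ^ j - 1) * ρ))) * Real.exp (-(Real.pi * quad Y m)) := by
        refine Finset.sum_le_sum fun m _ => ?_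
        split_ifs with hm
        · positivity
        · rw [← Real.exp_add]
          refine Real.exp_le_exp.2 ?_
          have h3 : (2 ^ j - 1) * ρ ≤ (2 ^ j - 1) * quad Y m :=
            mul_le_mul_of_nonneg_left (hmin m hm) (by linarith)
          have h4 := mul_le_mul_of_nonneg_left h3 Real.pi_pos.le
          linarith
    _ = Real.exp (-(Real.pi * ((2 ^ j - 1) * ρ))) * ∑ m ∈ T, Real.exp (-(Real.pi * quad Y m)) := by
        rw [Finset.mul_sum]
    _ ≤ _ := mul_le_mul_of_nonneg_left (hsum T) (Real.exp_pos _).le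

end FreyTN
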