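import Mathlib

/-!
# Module Lif: lifting of points, and no isolated points (over `ℂ`)

`fib_finite`. PROOF. `hroot` for `t = Pi.single i 1`: the coordinate `y i` of a point of the fibre is a root of the monic polynomial `R(π) ≠ 0`; `Set.Finite.pi'`.
`separate`: the vectors `(c^0, c^1, .., c^(r-1))`, `c ∈ ℂ`: for `y ≠ ζ` the polynomial `∑ (y i - ζ i) c^i` in `c` is not zero, so it has finitely many roots; `ℂ` is infinite.
`lift_all`. PROOF. `y₀ ∈ Z`, `F` = fibre of `p y₀` in `Z`, `t` separates `y₀`: `R(p y₀)(t y₀) = 0`, so there is `y ∈ Y ⊆ Z` with `p y = p y₀`, `t y = t y₀`, so `y = y₀`.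
`acc`. PROOF. `a = p z ≠ 0`; as `μ ≥ 2` there are `e` and linear forms `P0, P1` on `ℂ^μ` with `P0 a = 1`, `P0 e = 0`, `P1 a = 0`, `P1 e = 1`; `p0 = P0 ∘ p`, `p1 = P1 ∘ p`. `π w = a + w e`. `t` separates `z` in the fibre of `a`, `R` the polynomial of `t`, `D` its degree. By contradiction: suppose for some `δ > 0` there are `w_n → 0` such that no
`y ∈ Z` has `p0 y = 1`, `p1 y = w_n`, `‖y - z‖ < δ`. `|R(π w)(t z)| = ∏ |t z - s|` over the roots `s` of `R(π w)`, it tends to `R(a)(t z) = 0`; so some root `s_n` of `R(π w_n)` has `|t z - s_n|^D ≤ |R(π w_n)(t z)|`, `s_n → t z`; `y_n ∈ Z` with `p y_n = π w_n`, `t y_n = s_n`. The `y_n` are bounded: each coordinate is a root of the monic polynomial `R_i(π w_n)`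
of `t = Pi.single i 1`, whose coefficients are bounded. A limit point `ζ ∈ Z` (closed) has `p ζ = a`, `t ζ = t z`, so `ζ = z`: contradiction with `‖y_n - z‖ ≥ δ`.
-/

set_option autoImplicit false

namespace FreyTN

theorem fib_finite {μ r : ℕ} (p : Matrix (Fin μ) (Fin r) ℂ) (Z : Set (Fin r → ℂ))
    (hroot : ∀ t : Fin r → ℂ, ∃ R : Polynomial (MvPolynomial (Fin μ) ℂ), R.Monic ∧
      ∀ y ∈ Z, (R.map (MvPolynomial.eval (p.mulVec y))).eval (∑ i, t i * y i) = 0)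
    (π : Fin μ → ℂ) : {y ∈ Z | p.mulVec y = π}.Finite := by
  have h : ∀ i : Fin r, ∃ S : Finset ℂ, ∀ y ∈ Z, p.mulVec y = π → y i ∈ S := by
    intro i
    obtain ⟨R, hR, h⟩ := hroot (Pi.single i 1)
    refine ⟨(R.map (MvPolynomial.eval π)).roots.toFinset, fun y hy hp => ?_⟩
    have h1 := h y hy
    rw [hp] at h1
    have h2 : ∑ j, (Pi.single i 1 : Fin r → ℂ) j * y j = y i := by
      simp [Pi.single_apply]
    rw [h2] at h1
    rw [Multiset.mem_toFinset, Polynomial.mem_roots ((hR.map _).ne_zero)]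
    exact h1
  choose S hS using h
  refine Set.Finite.subset (Set.Finite.pi' (fun i => (S i).finite_toSet)) ?_
  intro y hy i
  exact hS i y hy.1 hy.2

theorem separate {r : ℕ} (F : Set (Fin r → ℂ)) (hF : F.Finite) (y : Fin r → ℂ) :
    ∃ t : Fin r → ℂ, ∀ ζ ∈ F, ∑ i, t i * ζ i = ∑ i, t i * y i → ζ = y := by
  have hQ : ∀ ζ : Fin r → ℂ, ζ ≠ y → (∑ i : Fin r, Polynomial.C (ζ i - y i) * Polynomial.X ^ (i : ℕ)) ≠ 0 := by
    intro ζ hζ h0
    apply hζ
    funext i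
    have h1 := congrArg (fun P => Polynomial.coeff P (i : ℕ)) h0
    simp only [Polynomial.finsetSum_coeff, Polynomial.coeff_C_mul, Polynomial.coeff_X_pow,
      Polynomial.coeff_zero] at h1
    rw [Finset.sum_eq_single i] at h1
    · simpa [sub_eq_zero] using h1
    · intro j _ hj
      rw [if_neg, mul_zero]
      intro h
      exact hj (Fin.ext h.symm)
    · intro h
      exact absurd (Finset.mem_univ i) h
  have hbad : (⋃ ζ ∈ F, {c : ℂ | ζ ≠ y ∧ (∑ i : Fin r, Polynomial.C (ζ i - y i) *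
      Polynomial.X ^ (i : ℕ)).eval c = 0}).Finite := by
    refine hF.biUnion fun ζ _ => ?_
    by_cases hζ : ζ = y
    · simp [hζ]
    · refine Set.Finite.subset (Polynomial.finite_setOfPred_isRoot (hQ ζ hζ)) ?_
      intro c hc
      exact hc.2
  obtain ⟨c, hc⟩ := hbad.infinite_compl.nonempty
  refine ⟨fun i => c ^ (i : ℕ), fun ζ hζ h => ?_⟩
  by_contra hne
  apply hc
  refine Set.mem_biUnion hζ ⟨hne, ?_⟩
  rw [Polynomial.eval_finsetSum]
  have h2 : ∀ i : Fin r, (Polynomial.C (ζ i - y i) * Polynomial.X ^ (i : ℕ)).eval c =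
      c ^ (i : ℕ) * ζ i - c ^ (i : ℕ) * y i := by
    intro i
    simp
    ring
  rw [Finset.sum_congr rfl fun i _ => h2 i, Finset.sum_sub_distrib, h, sub_self]

theorem lift_all {μ r : ℕ} (p : Matrix (Fin μ) (Fin r) ℂ) (Z Y : Set (Fin r → ℂ)) (hYZ : Y ⊆ Z)
    (hroot : ∀ t : Fin r → ℂ, ∃ R : Polynomial (MvPolynomial (Fin μ) ℂ), R.Monic ∧
      (∀ y ∈ Z, (R.map (MvPolynomial.eval (p.mulVec y))).eval (∑ i, t i * y i) = 0) ∧
      ∀ (π : Fin μ → ℂ) (s : ℂ), (R.map (MvPolynomial.eval π)).eval s = 0 →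
        ∃ y ∈ Y, p.mulVec y = π ∧ ∑ i, t i * y i = s) : Z ⊆ Y := by
  intro y0 hy0
  have hfin : {y ∈ Z | p.mulVec y = p.mulVec y0}.Finite := fib_finite p Z (fun t => by
    obtain ⟨R, hR, h, -⟩ := hroot t
    exact ⟨R, hR, h⟩) (p.mulVec y0)
  obtain ⟨t, ht⟩ := separate _ hfin y0
  obtain ⟨R, -, h1, h2⟩ := hroot t
  obtain ⟨y, hyY, hpy, hty⟩ := h2 (p.mulVec y0) _ (h1 y0 hy0)
  have := ht y ⟨hYZ hyY, hpy⟩ hty
  rwa [← this]

/-- a value of a monic polynomial is not small far from the roots -/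
private theorem lif_prod (x : ℂ) (ε : ℝ) (hε : 0 ≤ ε) (M : Multiset ℂ) (h : ∀ s ∈ M, ε ≤ ‖x - s‖) :
    ε ^ M.card ≤ ‖(M.map fun s => x - s).prod‖ := by
  induction M using Multiset.induction with
  | empty => simp
  | cons a M ih =>
    rw [Multiset.card_cons, Multiset.map_cons, Multiset.prod_cons, norm_mul, pow_succ, mul_comm]
    exact mul_le_mul (h a (Multiset.mem_cons_self a M))
      (ih fun s hs => h s (Multiset.mem_cons_of_mem hs)) (by positivity) (norm_nonneg _)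

private theorem lif_root (P : Polynomial ℂ) (hP : P.Monic) (x : ℂ) (ε : ℝ) (hε : 0 < ε)
    (h : ‖P.eval x‖ < ε ^ P.natDegree) : ∃ s, P.eval s = 0 ∧ ‖x - s‖ < ε := by
  by_contra hcon
  push Not at hcon
  have hs : P.Splits := IsAlgClosed.splits P
  have hcard : P.roots.card = P.natDegree := hs.natDegree_eq_card_roots.symm
  have h1 := lif_prod x ε hε.le P.roots fun s hs' => hcon s
    (by have := (Polynomial.mem_roots hP.ne_zero).1 hs'; exact this)
  rw [hcard] at h1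
  have h2 : P.eval x = (P.roots.map fun s => x - s).prod := by
    conv_lhs => rw [hs.eq_prod_roots_of_monic hP]
    rw [Polynomial.eval_multiset_prod, Multiset.map_map]
    simp
  rw [← h2] at h1
  linarith

private theorem lif_bd (P : Polynomial ℂ) (hP : P.Monic) (C : ℝ) (hC0 : 0 ≤ C)
    (hC : ∀ k ∈ Finset.range P.natDegree, ‖P.coeff k‖ ≤ C)
    (x : ℂ) (hx : P.eval x = 0) : ‖x‖ ≤ C + 1 := by
  have h1 := Polynomial.IsRoot.norm_lt_cauchyBound hP.ne_zero (a := x) hx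
  have h2 : P.cauchyBound ≤ C.toNNReal + 1 := by
    unfold Polynomial.cauchyBound
    rw [hP.leadingCoeff, nnnorm_one, div_one]
    refine add_le_add (Finset.sup_le fun k hk => ?_) le_rfl
    rw [← NNReal.coe_le_coe, Real.coe_toNNReal C hC0]
    exact hC k hk
  have h3 : ‖x‖₊ ≤ C.toNNReal + 1 := (h1.le).trans h2
  have h4 := NNReal.coe_le_coe.2 h3
  rw [NNReal.coe_add, Real.coe_toNNReal C hC0, NNReal.coe_one] at h4
  exact h4

private theorem lif_cont {μ : ℕ} (R : Polynomial (MvPolynomial (Fin μ) ℂ)) (a e : Fin μ → ℂ) (s : ℂ) :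
    Continuous fun w : ℂ => (R.map (MvPolynomial.eval (a + w • e))).eval s := by
  have h : ∀ w : ℂ, (R.map (MvPolynomial.eval (a + w • e))).eval s =
      ∑ i ∈ Finset.range (R.natDegree + 1), MvPolynomial.eval (a + w • e) (R.coeff i) * s ^ i := by
    intro w
    rw [Polynomial.eval_map, Polynomial.eval₂_eq_sum_range]
  simp_rw [h]
  refine continuous_finsetSum _ fun i _ => Continuous.mul ?_ continuous_const
  exact (MvPolynomial.continuous_eval (R.coeff i)).comp (by fun_prop)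

private theorem lif_coef {μ : ℕ} (R : Polynomial (MvPolynomial (Fin μ) ℂ)) (hR : R.Monic)
    (a e : Fin μ → ℂ) : ∃ C : ℝ, 0 ≤ C ∧ ∀ w : ℂ, ‖w‖ ≤ 1 → ∀ s : ℂ,
    (R.map (MvPolynomial.eval (a + w • e))).eval s = 0 → ‖s‖ ≤ C + 1 := by
  have hc : Continuous fun w : ℂ => ∑ i ∈ Finset.range R.natDegree,
      ‖MvPolynomial.eval (a + w • e) (R.coeff i)‖ := by
    refine continuous_finsetSum _ fun i _ => Continuous.norm ?_
    exact (MvPolynomial.continuous_eval (R.coeff i)).comp (by fun_prop)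
  obtain ⟨C, hC⟩ := (isCompact_closedBall (0 : ℂ) 1).exists_bound_of_continuousOn hc.continuousOn
  have hC0 : 0 ≤ C := (norm_nonneg _).trans (hC 0 (by simp))
  refine ⟨C, hC0, fun w hw s hs => ?_⟩
  have hw' : w ∈ Metric.closedBall (0 : ℂ) 1 := by simpa using hw
  have h1 := hC w hw'
  refine lif_bd _ (hR.map _) C hC0 (fun k hk => ?_) s hs
  rw [hR.natDegree_map] at hk
  rw [Polynomial.coeff_map]
  refine le_trans ?_ ((le_abs_self _).trans h1)
  exact Finset.single_le_sum (f := fun i => ‖MvPolynomial.eval (a + w • e) (R.coeff i)‖)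
    (fun i _ => norm_nonneg _) hk

private theorem lif_lin {μ : ℕ} (hμ : 2 ≤ μ) (a : Fin μ → ℂ) (ha : a ≠ 0) :
    ∃ (P0 P1 : (Fin μ → ℂ) →ₗ[ℂ] ℂ) (e : Fin μ → ℂ), P0 a = 1 ∧ P0 e = 0 ∧ P1 a = 0 ∧ P1 e = 1 := by
  obtain ⟨i, hi⟩ : ∃ i, a i ≠ 0 := by
    by_contra h
    push Not at h
    exact ha (funext h)
  obtain ⟨j, hj⟩ : ∃ j : Fin μ, j ≠ i := by
    have : Nontrivial (Fin μ) := Fin.nontrivial_iff_two_le.2 hμ
    exact exists_ne i
  refine ⟨(a i)⁻¹ • LinearMap.proj i, LinearMap.proj j - (a j / a i) • LinearMap.proj i,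
    Pi.single j 1, ?_, ?_, ?_, ?_⟩
  · simp [hi]
  · simp [Pi.single_apply, hj.symm]
  · simp [hi]
  · simp [Pi.single_apply, hj.symm]

theorem acc {μ r : ℕ} (hμ : 2 ≤ μ) (p : Matrix (Fin μ) (Fin r) ℂ) (Z : Set (Fin r → ℂ))
    (hZ : IsClosed Z)
    (hroot : ∀ t : Fin r → ℂ, ∃ R : Polynomial (MvPolynomial (Fin μ) ℂ), R.Monic ∧
      (∀ y ∈ Z, (R.map (MvPolynomial.eval (p.mulVec y))).eval (∑ i, t i * y i) = 0) ∧
      ∀ (π : Fin μ → ℂ) (s : ℂ), (R.map (MvPolynomial.eval π)).eval s = 0 →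
        ∃ y ∈ Z, p.mulVec y = π ∧ ∑ i, t i * y i = s)
    {z : Fin r → ℂ} (hz : z ∈ Z) (hz0 : p.mulVec z ≠ 0) :
    ∃ p0 p1 : (Fin r → ℂ) →ₗ[ℂ] ℂ, p0 z = 1 ∧ p1 z = 0 ∧ ∀ δ : ℝ, 0 < δ → ∃ η : ℝ, 0 < η ∧
      ∀ w : ℂ, ‖w‖ < η → ∃ y ∈ Z, p0 y = 1 ∧ p1 y = w ∧ ‖y - z‖ < δ := by
  obtain ⟨P0, P1, e, h0a, h0e, h1a, h1e⟩ := lif_lin hμ (p.mulVec z) hz0
  refine ⟨P0.comp p.mulVecLin, P1.comp p.mulVecLin, by simpa using h0a, by simpa using h1a, ?_⟩
  suffices hmain : ∀ δ : ℝ, 0 < δ → ∃ η : ℝ, 0 < η ∧ ∀ w : ℂ, ‖w‖ < η →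
      ∃ y ∈ Z, p.mulVec y = p.mulVec z + w • e ∧ ‖y - z‖ < δ by
    intro δ hδ
    obtain ⟨η, hη, h⟩ := hmain δ hδ
    refine ⟨η, hη, fun w hw => ?_⟩
    obtain ⟨y, hy, hpy, hyz⟩ := h w hw
    refine ⟨y, hy, ?_, ?_, hyz⟩
    · rw [LinearMap.comp_apply, Matrix.mulVecLin_apply, hpy, map_add, map_smul, h0a, h0e]
      simp
    · rw [LinearMap.comp_apply, Matrix.mulVecLin_apply, hpy, map_add, map_smul, h1a, h1e]
      simp
  intro δ hδ
  by_contra hcon
  push Not at hcon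
  -- the separating functional
  have hfin : {y ∈ Z | p.mulVec y = p.mulVec z}.Finite := fib_finite p Z (fun t => by
    obtain ⟨R, hR, h, -⟩ := hroot t
    exact ⟨R, hR, h⟩) (p.mulVec z)
  obtain ⟨t, ht⟩ := separate _ hfin z
  obtain ⟨R, hR, hR1, hR2⟩ := hroot t
  have hcont := lif_cont R (p.mulVec z) e (∑ i, t i * z i)
  have hval0 : (R.map (MvPolynomial.eval (p.mulVec z + (0 : ℂ) • e))).eval (∑ i, t i * z i) = 0 := by
    rw [zero_smul, add_zero]
    exact hR1 z hz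
  -- for every `ε` there is a bad point with `‖w‖ < ε`, `‖t z - t y‖ < ε`
  have hseq : ∀ ε : ℝ, 0 < ε → ∃ (w : ℂ) (y : Fin r → ℂ), ‖w‖ < ε ∧ y ∈ Z ∧
      p.mulVec y = p.mulVec z + w • e ∧ ‖∑ i, t i * z i - ∑ i, t i * y i‖ < ε ∧ δ ≤ ‖y - z‖ := by
    intro ε hε
    have hlim := hcont.tendsto 0
    rw [hval0] at hlim
    have hpos : 0 < ε ^ R.natDegree := by positivity
    obtain ⟨η, hη, h⟩ := Metric.tendsto_nhds_nhds.1 hlim (ε ^ R.natDegree) hpos
    obtain ⟨w, hw, hbad⟩ := hcon (min η ε) (lt_min hη hε)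
    have hw1 : dist w 0 < η := by
      rw [dist_zero_right]
      exact hw.trans_le (min_le_left _ _)
    have h1 := h hw1
    rw [dist_zero_right] at h1
    have h2 : ‖(R.map (MvPolynomial.eval (p.mulVec z + w • e))).eval (∑ i, t i * z i)‖ <
        ε ^ (R.map (MvPolynomial.eval (p.mulVec z + w • e))).natDegree := by
      rw [hR.natDegree_map]
      exact h1
    obtain ⟨s, hs, hs2⟩ := lif_root _ (hR.map _) _ ε hε h2
    obtain ⟨y, hy, hpy, hty⟩ := hR2 _ s hs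
    refine ⟨w, y, hw.trans_le (min_le_right _ _), hy, hpy, ?_, hbad y hy hpy⟩
    rw [hty]
    exact hs2
  have hseq' : ∀ n : ℕ, ∃ (w : ℂ) (y : Fin r → ℂ), ‖w‖ < 1 / ((n : ℝ) + 1) ∧ y ∈ Z ∧
      p.mulVec y = p.mulVec z + w • e ∧
      ‖∑ i, t i * z i - ∑ i, t i * y i‖ < 1 / ((n : ℝ) + 1) ∧ δ ≤ ‖y - z‖ :=
    fun n => hseq _ (by positivity)
  choose w y hw hyZ hpy hty hδy using hseq'
  -- boundedness
  have hbd : ∀ i : Fin r, ∃ C : ℝ, 0 ≤ C ∧ ∀ n, ‖y n i‖ ≤ C := by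
    intro i
    obtain ⟨Ri, hRi, hRi1, -⟩ := hroot (Pi.single i 1)
    obtain ⟨C, hC0, hC⟩ := lif_coef Ri hRi (p.mulVec z) e
    refine ⟨C + 1, by linarith, fun n => hC (w n) ?_ (y n i) ?_⟩
    · refine (hw n).le.trans ?_
      rw [div_le_one (by positivity)]
      have : (0 : ℝ) ≤ n := by positivity
      linarith
    · have h1 := hRi1 (y n) (hyZ n)
      rw [hpy n] at h1
      have h2 : ∑ j, (Pi.single i 1 : Fin r → ℂ) j * y n j = y n i := by
        simp [Pi.single_apply]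
      rwa [h2] at h1
  choose C hC0 hC using hbd
  have hbdd : Bornology.IsBounded (Metric.closedBall (0 : Fin r → ℂ) (∑ i, C i)) :=
    Metric.isBounded_closedBall
  have hmem : ∀ n, y n ∈ Metric.closedBall (0 : Fin r → ℂ) (∑ i, C i) := by
    intro n
    rw [mem_closedBall_zero_iff, pi_norm_le_iff_of_nonneg (Finset.sum_nonneg fun i _ => hC0 i)]
    intro i
    exact (hC i n).trans (Finset.single_le_sum (fun j _ => hC0 j) (Finset.mem_univ i))
  obtain ⟨ζ, -, φ, hφ, hζ⟩ := tendsto_subseq_of_bounded hbdd hmem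
  have hζZ : ζ ∈ Z := hZ.mem_of_tendsto hζ (Filter.Eventually.of_forall fun n => hyZ (φ n))
  have hwlim : Filter.Tendsto (fun n => w (φ n)) Filter.atTop (nhds 0) := by
    have h1 : Filter.Tendsto w Filter.atTop (nhds 0) := by
      rw [tendsto_zero_iff_norm_tendsto_zero]
      exact squeeze_zero (fun n => norm_nonneg _) (fun n => (hw n).le)
        tendsto_one_div_add_atTop_nhds_zero_nat
    exact h1.comp hφ.tendsto_atTop
  have hpζ : p.mulVec ζ = p.mulVec z := by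
    have h1 : Filter.Tendsto (fun n => p.mulVec (y (φ n))) Filter.atTop (nhds (p.mulVec ζ)) :=
      ((Continuous.matrix_mulVec continuous_const continuous_id).tendsto ζ).comp hζ
    have h2 : Filter.Tendsto (fun n => p.mulVec z + w (φ n) • e) Filter.atTop
        (nhds (p.mulVec z + (0 : ℂ) • e)) :=
      tendsto_const_nhds.add (hwlim.smul tendsto_const_nhds)
    rw [zero_smul, add_zero] at h2
    refine tendsto_nhds_unique h1 (h2.congr fun n => ?_)
    exact (hpy (φ n)).symm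
  have htζ : ∑ i, t i * ζ i = ∑ i, t i * z i := by
    have h1 : Filter.Tendsto (fun n => ∑ i, t i * y (φ n) i) Filter.atTop
        (nhds (∑ i, t i * ζ i)) := by
      have hc : Continuous fun v : Fin r → ℂ => ∑ i, t i * v i := by fun_prop
      exact (hc.tendsto ζ).comp hζ
    have h2 : Filter.Tendsto (fun n => ∑ i, t i * y n i) Filter.atTop
        (nhds (∑ i, t i * z i)) := by
      rw [tendsto_iff_norm_sub_tendsto_zero]
      refine squeeze_zero (fun n => norm_nonneg _) (fun n => ?_)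
        tendsto_one_div_add_atTop_nhds_zero_nat
      rw [norm_sub_rev]
      exact (hty n).le
    exact tendsto_nhds_unique h1 (h2.comp hφ.tendsto_atTop)
  have hζz : ζ = z := ht ζ ⟨hζZ, hpζ⟩ htζ
  have hlast : δ ≤ ‖ζ - z‖ :=
    ge_of_tendsto ((hζ.sub_const z).norm) (Filter.Eventually.of_forall fun n => hδy (φ n))
  rw [hζz, sub_self, norm_zero] at hlast
  linarith

end FreyTN
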