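import Pool.Agent.Lib.MP_6babc4_nt.TN.Dfn

/-!
# Module Loa: the theta constants in one variable

`th1 a t = ∑_(m ∈ ℤ) (-1)^(a m) exp(-π m² t)`.

`ratio_surj`. PROOF. `t ↦ th1 1 t`, `t ↦ th1 0 t` are continuous on `[ρ, ∞)` (`continuousOn_tsum`, terms at most `exp(-π m² ρ) ≤ exp(-π |m| ρ)`), tend to `1` as `t → ∞` (the terms `m ≠ 0`: `exp(-π m² t) ≤ exp(-π t) exp(-π (|m|-1) ρ)` or
dominated convergence `tendsto_tsum_of_dominated_convergence`), `th1 0 t ≥ 1`, and `th1 1 t < th1 0 t` (the terms are at most those of `th1 0`, with a strict inequality at `m = 1`). So `r(t) = th1 1 t / th1 0 t` is continuous on `[ρ, ∞)`, less than `1`, with limit `1`: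
all values in `[r(ρ), 1)` are attained (intermediate value theorem). `l₀ = max (r ρ) (1/2) ∈ (0, 1)`.
-/

set_option autoImplicit false

open Filter Topology

namespace FreyTN

/-- The theta constants in one variable. -/
noncomputable def th1 (a : ZMod 2) (t : ℝ) : ℝ :=
  ∑' m : ℤ, (if a * (m : ZMod 2) = 0 then 1 else -1) * Real.exp (-Real.pi * m ^ 2 * t)

private theorem loa_term_le (a : ZMod 2) {t ρ : ℝ} (h : ρ ≤ t) (m : ℤ) :
    ‖(if a * (m : ZMod 2) = 0 then (1 : ℝ) else -1) * Real.exp (-Real.pi * m ^ 2 * t)‖ ≤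
      Real.exp (-Real.pi * m ^ 2 * ρ) := by
  have h1 : ‖(if a * (m : ZMod 2) = 0 then (1 : ℝ) else -1)‖ = 1 := by
    split_ifs <;> simp
  rw [norm_mul, h1, one_mul, Real.norm_eq_abs, abs_of_pos (Real.exp_pos _), Real.exp_le_exp]
  have h2 : 0 ≤ Real.pi * (m : ℝ) ^ 2 := by positivity
  nlinarith

private theorem loa_summable_exp {ρ : ℝ} (hρ : 0 < ρ) :
    Summable fun m : ℤ => Real.exp (-Real.pi * m ^ 2 * ρ) := by
  have hr0 : 0 ≤ Real.exp (-Real.pi * ρ) := (Real.exp_pos _).le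
  have hr1 : Real.exp (-Real.pi * ρ) < 1 := by
    rw [Real.exp_lt_one_iff]
    have := mul_pos Real.pi_pos hρ
    linarith
  have hle : ∀ n : ℕ, Real.exp (-Real.pi * ((n : ℤ) : ℝ) ^ 2 * ρ) ≤
      Real.exp (-Real.pi * ρ) ^ n := by
    intro n
    rw [← Real.exp_nat_mul, Real.exp_le_exp]
    have h1 : (n : ℝ) ≤ (n : ℝ) ^ 2 := by
      exact_mod_cast Nat.le_self_pow (by norm_num) n
    have h2 := mul_pos Real.pi_pos hρ
    push_cast
    nlinarith
  have hnat : Summable fun n : ℕ => Real.exp (-Real.pi * ((n : ℤ) : ℝ) ^ 2 * ρ) :=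
    Summable.of_nonneg_of_le (fun n => (Real.exp_pos _).le) hle
      (summable_geometric_of_lt_one hr0 hr1)
  refine Summable.of_nat_of_neg hnat ?_
  refine hnat.congr fun n => ?_
  push_cast
  ring_nf

private theorem loa_summable (a : ZMod 2) {t : ℝ} (ht : 0 < t) :
    Summable fun m : ℤ => (if a * (m : ZMod 2) = 0 then (1 : ℝ) else -1) *
      Real.exp (-Real.pi * m ^ 2 * t) :=
  Summable.of_norm_bounded (loa_summable_exp ht) fun m => loa_term_le a le_rfl m

private theorem loa_cont (a : ZMod 2) {ρ : ℝ} (hρ : 0 < ρ) : ContinuousOn (th1 a) (Set.Ici ρ) := by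
  unfold th1
  refine continuousOn_tsum (fun m => ?_) (loa_summable_exp hρ) fun m t ht => loa_term_le a ht m
  fun_prop

private theorem loa_tendsto (a : ZMod 2) : Tendsto (th1 a) atTop (𝓝 1) := by
  have h := tendsto_tsum_of_dominated_convergence (𝓕 := (atTop : Filter ℝ))
    (f := fun (t : ℝ) (m : ℤ) => (if a * (m : ZMod 2) = 0 then (1 : ℝ) else -1) *
      Real.exp (-Real.pi * m ^ 2 * t))
    (g := fun m : ℤ => if m = 0 then (1 : ℝ) else 0)
    (loa_summable_exp one_pos) (fun m => ?_) ?_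
  · rw [tsum_ite_eq] at h
    exact h
  · by_cases hm : m = 0
    · subst hm
      simp
    · rw [if_neg hm]
      have h1 : Tendsto (fun t : ℝ => Real.exp (-Real.pi * m ^ 2 * t)) atTop (𝓝 0) := by
        refine Real.tendsto_exp_atBot.comp ?_
        have h2 : -Real.pi * (m : ℝ) ^ 2 < 0 := by
          have : (m : ℝ) ≠ 0 := by exact_mod_cast hm
          have := Real.pi_pos
          have h3 : 0 < (m : ℝ) ^ 2 := by positivity
          nlinarith
        exact tendsto_id.const_mul_atTop_of_neg h2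
      have h3 := h1.const_mul (if a * (m : ZMod 2) = 0 then (1 : ℝ) else -1)
      rwa [mul_zero] at h3
  · filter_upwards [eventually_ge_atTop (1 : ℝ)] with t ht m
    exact loa_term_le a ht m

theorem th1_zero_pos {t : ℝ} (ht : 0 < t) : 0 < th1 0 t := by
  unfold th1
  refine (loa_summable 0 ht).tsum_pos (fun m => ?_) 0 ?_
  · rw [if_pos (zero_mul _), one_mul]
    exact (Real.exp_pos _).le
  · rw [if_pos (zero_mul _), one_mul]
    exact Real.exp_pos _

private theorem loa_lt {t : ℝ} (ht : 0 < t) : th1 1 t < th1 0 t := by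
  unfold th1
  refine Summable.tsum_lt_tsum (i := 1) (fun m => ?_) ?_ (loa_summable 1 ht) (loa_summable 0 ht)
  · rw [if_pos (zero_mul (m : ZMod 2)), one_mul]
    have h1 := Real.exp_pos (-Real.pi * (m : ℝ) ^ 2 * t)
    split_ifs <;> linarith
  · rw [if_pos (zero_mul ((1 : ℤ) : ZMod 2)), if_neg (by decide)]
    have h1 := Real.exp_pos (-Real.pi * ((1 : ℤ) : ℝ) ^ 2 * t)
    linarith

theorem ratio_surj {ρ : ℝ} (hρ : 0 < ρ) : ∃ l₀ : ℝ, 0 < l₀ ∧ l₀ < 1 ∧
    ∀ l : ℝ, l₀ ≤ l → l < 1 → ∃ t : ℝ, ρ ≤ t ∧ th1 1 t = l * th1 0 t := by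
  have hlt : ∀ t, ρ ≤ t → th1 1 t / th1 0 t < 1 := by
    intro t ht
    rw [div_lt_one (th1_zero_pos (hρ.trans_le ht))]
    exact loa_lt (hρ.trans_le ht)
  have hc : ContinuousOn (fun t => th1 1 t / th1 0 t) (Set.Ici ρ) :=
    (loa_cont 1 hρ).div (loa_cont 0 hρ) fun t ht => (th1_zero_pos (hρ.trans_le ht)).ne'
  have hlim : Tendsto (fun t => th1 1 t / th1 0 t) atTop (𝓝 1) := by
    have h := (loa_tendsto 1).div (loa_tendsto 0) one_ne_zero
    rwa [div_one] at h
  refine ⟨max (th1 1 ρ / th1 0 ρ) (1 / 2), lt_max_of_lt_right (by norm_num),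
    max_lt (hlt ρ le_rfl) (by norm_num), fun l hl hl1 => ?_⟩
  obtain ⟨T, hT1, hT2⟩ := ((hlim.eventually_const_lt hl1).and (eventually_ge_atTop ρ)).exists
  have hivt := intermediate_value_Icc hT2 (hc.mono Set.Icc_subset_Ici_self)
  obtain ⟨t, ht, htl⟩ := hivt ⟨(le_max_left _ _).trans hl, hT1.le⟩
  refine ⟨t, ht.1, ?_⟩
  rw [← htl]
  exact (div_mul_cancel₀ _ (th1_zero_pos (hρ.trans_le ht.1)).ne').symm

end FreyTN
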