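import Pool.Agent.Lib.MP_6babc4_nt.TN.Loc

/-!
# Module Lob: there are at least `c H` theta null points of height at most `H`

PROOF. `l₀` from `ratio_surj hρ`; `q₀ : ℕ`, `2 ≤ q₀`, `1 - 1/q₀ ≥ l₀`. For a natural number `q ≥ q₀` let `l(q) = (q - 1)/q ∈ [l₀, 1)`; `t(q) ≥ ρ` with `th1 1 = l(q) th1 0`. For `g ≥ 1` let `t = (t(q), t(q₀), .., t(q₀))`, `τ = diag(i t)`: `Siegel ρ τ` and
`theta τ b = ∏_j th1 (b j) (t j) = θ₀ · ∏_j l_j^(b_j)` (`l_j^(b_j) = if b j = 0 then 1 else l_j`), so `θ` is proportional to `u_b = l(q)^(b_0) l(q₀)^(b_1 + .. + b_(g-1))`, a rational vector; `w = q q₀^(g-1) u` has natural coordinates at most `q q₀^(g-1)`, so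
`logHeight u = logHeight w ≤ d log (q q₀^(g-1))` (`Height.mulHeight_smul_eq_mulHeight`; for an integral vector the factor of the finite places is at most `1`, that of the infinite places at most `∏_v M^(mult v) = M^d`). The points `u` for different `q` are not proportional
(coordinates at `b = 0` and `b = e_0`: `1` and `l(q)`). For `H ≥ 2 q₀^g` the `q` with `q₀ ≤ q ≤ H / q₀^(g-1)` are at least `H / q₀^(g-1) - q₀ ≥ H / (2 q₀^(g-1))`; for `1 ≤ H < 2 q₀^g` use that `c` may be small: `c H ≤ 1` and `U = {one point}` is NOT allowed (its height may be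
larger), so the statement is for `H ≥ H₀`.
-/

set_option autoImplicit false

open NumberField IsDedekindDomain Module

namespace FreyTN

/-- `q` for `a = 0`, `q - 1` for `a = 1`. -/
private def pp (q : ℕ) (a : ZMod 2) : ℕ := if a = 0 then q else q - 1

private lemma pp_le (q : ℕ) (a : ZMod 2) : pp q a ≤ q := by
  unfold pp
  split_ifs
  · exact le_refl _
  · exact Nat.sub_le _ _

private lemma th1_eq {q : ℕ} (hq : 1 ≤ q) {t : ℝ} (h : th1 1 t = ((q : ℝ) - 1) / q * th1 0 t)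
    (a : ZMod 2) : th1 a t = (pp q a : ℝ) * (th1 0 t / q) := by
  have hq0 : (q : ℝ) ≠ 0 := by
    have : (0 : ℝ) < q := by exact_mod_cast hq
    exact this.ne'
  rcases (show a = 0 ∨ a = 1 by revert a; decide) with rfl | rfl
  · unfold pp
    rw [if_pos rfl]
    field_simp
  · unfold pp
    rw [if_neg (by decide), h, Nat.cast_sub hq, Nat.cast_one]
    field_simp

/-- The coordinates of the point. -/
private def ww (q₀ : ℕ) {n : ℕ} (q : ℕ) (b : GI (n + 1)) : ℕ :=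
  pp q (b 0) * ∏ i : Fin n, pp q₀ (b i.succ)

private lemma ww_le (q₀ : ℕ) {n : ℕ} (q : ℕ) (b : GI (n + 1)) : ww q₀ q b ≤ q * q₀ ^ n := by
  unfold ww
  refine Nat.mul_le_mul (pp_le _ _) ?_
  calc ∏ i : Fin n, pp q₀ (b i.succ) ≤ ∏ _i : Fin n, q₀ :=
        Finset.prod_le_prod' fun i _ => pp_le _ _
    _ = q₀ ^ n := by simp

private lemma ww_zero (q₀ : ℕ) {n : ℕ} (q : ℕ) : ww q₀ q (0 : GI (n + 1)) = q * q₀ ^ n := by
  unfold ww pp
  simp

private lemma ww_one (q₀ : ℕ) {n : ℕ} (q : ℕ) :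
    ww q₀ q (Fin.cons 1 0 : GI (n + 1)) = (q - 1) * q₀ ^ n := by
  unfold ww pp
  simp

private lemma height_nat {K : Type*} [Field K] [NumberField K] {ι : Type*} [Fintype ι]
    (w : ι → ℕ) (hw : (fun b => (w b : K)) ≠ 0) {X : ℝ} (hX : 1 ≤ X) (hwX : ∀ b, (w b : ℝ) ≤ X) :
    Height.mulHeight (fun b => (w b : K)) ≤ X ^ finrank ℚ K := by
  classical
  have hne : Nonempty ι := by
    by_contra h
    rw [not_nonempty_iff] at h
    exact hw (Subsingleton.elim _ _)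
  rw [NumberField.mulHeight_eq hw]
  have hinf : ∏ v : InfinitePlace K, (⨆ i, v ((w i : K))) ^ v.mult ≤ X ^ finrank ℚ K := by
    rw [← InfinitePlace.sum_mult_eq, ← Finset.prod_pow_eq_pow_sum]
    refine Finset.prod_le_prod (fun v _ => ?_) fun v _ => ?_
    · refine pow_nonneg (Real.iSup_nonneg fun i => ?_) _
      exact AbsoluteValue.nonneg _ _
    · refine pow_le_pow_left₀ (Real.iSup_nonneg fun i => AbsoluteValue.nonneg _ _) ?_ _
      refine ciSup_le fun i => ?_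
      show v ((w i : K)) ≤ X
      rw [← InfinitePlace.norm_embedding_eq, map_natCast, Complex.norm_natCast]
      exact hwX i
  have hfin : 0 ≤ (∏ᶠ v : FinitePlace K, ⨆ i, v ((w i : K))) ∧
      (∏ᶠ v : FinitePlace K, ⨆ i, v ((w i : K))) ≤ 1 := by
    refine finprod_induction (fun x : ℝ => 0 ≤ x ∧ x ≤ 1) ⟨zero_le_one, le_refl _⟩ ?_ ?_
    · rintro x y ⟨hx0, hx1⟩ ⟨hy0, hy1⟩
      exact ⟨mul_nonneg hx0 hy0, mul_le_one₀ hx1 hy0 hy1⟩
    · intro v
      refine ⟨Real.iSup_nonneg fun i => AbsoluteValue.nonneg _ _, ciSup_le fun i => ?_⟩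
      have h1 := FinitePlace.norm_le_one K v.maximalIdeal ((w i : ℕ) : 𝓞 K)
      have h2 := FinitePlace.norm_embedding_eq v ((w i : ℕ) : K)
      rw [← h2]
      have h3 : (algebraMap (𝓞 K) K) ((w i : ℕ) : 𝓞 K) = ((w i : ℕ) : K) := map_natCast _ _
      rw [h3] at h1
      exact h1
  calc _ ≤ X ^ finrank ℚ K * 1 := mul_le_mul hinf hfin.2 hfin.1 (by positivity)
    _ = X ^ finrank ℚ K := mul_one _

private lemma many_aux (n : ℕ) {ρ : ℝ} (hρ : 0 < ρ) : ∃ c H₀ : ℝ, 0 < c ∧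
    ∀ H : ℝ, H₀ ≤ H → ∀ (K : IntermediateField ℚ ℂ) [NumberField K],
      ∃ U : Finset (GI (n + 1) → K), c * H ≤ U.card ∧
        (∀ u ∈ U, ∀ w ∈ U, u ≠ w → ∃ a b, u a * w b ≠ u b * w a) ∧
        ∀ u ∈ U, u ≠ 0 ∧ Height.logHeight u / finrank ℚ K ≤ Real.log H ∧
          ∃ τ : Matrix (Fin (n + 1)) (Fin (n + 1)) ℂ, Siegel ρ τ ∧
            ∀ a b, (u a : ℂ) * theta τ b = (u b : ℂ) * theta τ a := by
  classical
  obtain ⟨l₀, hl0, hl1, hl⟩ := ratio_surj hρ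
  obtain ⟨q₀, hq₀⟩ := exists_nat_gt (max 2 (1 / (1 - l₀)))
  have hq2 : 2 ≤ q₀ := by
    have h1 : (2 : ℝ) < q₀ := (le_max_left _ _).trans_lt hq₀
    exact_mod_cast h1.le
  have hql : ∀ q : ℕ, q₀ ≤ q → l₀ ≤ ((q : ℝ) - 1) / q ∧ ((q : ℝ) - 1) / q < 1 := by
    intro q hq
    have h1 : (q₀ : ℝ) ≤ q := by exact_mod_cast hq
    have h2 : (2 : ℝ) ≤ q₀ := by exact_mod_cast hq2
    have h3 : (0 : ℝ) < q := by linarith
    have h4 : 1 / (1 - l₀) < q := ((le_max_right _ _).trans_lt hq₀).trans_le h1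
    have h5 : 0 < 1 - l₀ := by linarith
    rw [div_lt_iff₀ h5] at h4
    constructor
    · rw [le_div_iff₀ h3]
      nlinarith
    · rw [div_lt_one h3]
      linarith
  have hT : ∀ q : ℕ, ∃ t : ℝ, ρ ≤ t ∧ (q₀ ≤ q → th1 1 t = ((q : ℝ) - 1) / q * th1 0 t) := by
    intro q
    by_cases hq : q₀ ≤ q
    · obtain ⟨t, h1, h2⟩ := hl _ (hql q hq).1 (hql q hq).2
      exact ⟨t, h1, fun _ => h2⟩
    · exact ⟨ρ, le_refl _, fun h => absurd h hq⟩
  choose T hTρ hT1 using hT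
  have hq0R : (0 : ℝ) < (q₀ : ℝ) ^ n := by
    have h2 : (0 : ℝ) < q₀ := by exact_mod_cast (by omega : 0 < q₀)
    positivity
  refine ⟨1 / (2 * (q₀ : ℝ) ^ n), 2 * (q₀ : ℝ) ^ n * q₀, by positivity, fun H hH K _ => ?_⟩
  set N : ℕ := ⌊H / (q₀ : ℝ) ^ n⌋₊ with hN
  let f : ℕ → (GI (n + 1) → K) := fun q b => ((ww q₀ q b : ℕ) : K)
  have hprop : ∀ q q' : ℕ, q₀ ≤ q → q₀ ≤ q' → q ≠ q' →
      f q (0 : GI (n + 1)) * f q' (Fin.cons 1 0 : GI (n + 1)) ≠
        f q (Fin.cons 1 0 : GI (n + 1)) * f q' (0 : GI (n + 1)) := by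
    intro q q' hq hq' hne h
    simp only [f] at h
    rw [ww_zero, ww_one, ww_zero, ww_one] at h
    have h1 : q * q₀ ^ n * ((q' - 1) * q₀ ^ n) = (q - 1) * q₀ ^ n * (q' * q₀ ^ n) := by
      exact_mod_cast h
    have h2 : 0 < q₀ ^ n * q₀ ^ n := by positivity
    have h3 : (q * (q' - 1)) * (q₀ ^ n * q₀ ^ n) = ((q - 1) * q') * (q₀ ^ n * q₀ ^ n) := by
      calc (q * (q' - 1)) * (q₀ ^ n * q₀ ^ n) = q * q₀ ^ n * ((q' - 1) * q₀ ^ n) := by ring
        _ = (q - 1) * q₀ ^ n * (q' * q₀ ^ n) := h1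
        _ = _ := by ring
    have h4 := Nat.eq_of_mul_eq_mul_right h2 h3
    obtain ⟨r, rfl⟩ : ∃ r, q = r + 1 := ⟨q - 1, by omega⟩
    obtain ⟨r', rfl⟩ : ∃ r, q' = r + 1 := ⟨q' - 1, by omega⟩
    simp only [Nat.add_sub_cancel] at h4
    apply hne
    nlinarith
  have hinj : Set.InjOn f (Finset.Icc q₀ N : Finset ℕ) := by
    intro q hq q' hq' h
    by_contra hne
    rw [Finset.coe_Icc, Set.mem_Icc] at hq hq'
    refine hprop q q' hq.1 hq'.1 hne ?_
    rw [h]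
    ring
  have hHpos : 0 < H := by
    have h2 : (0 : ℝ) < q₀ := by exact_mod_cast (by omega : 0 < q₀)
    have : 0 < 2 * (q₀ : ℝ) ^ n * q₀ := by positivity
    linarith
  refine ⟨(Finset.Icc q₀ N).image f, ?_, ?_, ?_⟩
  · rw [Finset.card_image_of_injOn hinj, Nat.card_Icc]
    have h1 : H / (q₀ : ℝ) ^ n < (N : ℝ) + 1 := Nat.lt_floor_add_one _
    have h2 : (N : ℝ) + 1 - q₀ ≤ ((N + 1 - q₀ : ℕ) : ℝ) := by
      have h3 : N + 1 ≤ (N + 1 - q₀) + q₀ := by omega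
      have h4 : ((N + 1 : ℕ) : ℝ) ≤ ((N + 1 - q₀ : ℕ) : ℝ) + q₀ := by exact_mod_cast h3
      push_cast at h4
      linarith
    refine le_trans ?_ h2
    have h5 : (q₀ : ℝ) ≤ H / (q₀ : ℝ) ^ n / 2 := by
      rw [le_div_iff₀ (by norm_num), le_div_iff₀ hq0R]
      linarith
    have h6 : 1 / (2 * (q₀ : ℝ) ^ n) * H = H / (q₀ : ℝ) ^ n / 2 := by
      field_simp
    rw [h6]
    linarith
  · intro u hu w hw hne
    rw [Finset.mem_image] at hu hw
    obtain ⟨q, hq, rfl⟩ := hu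
    obtain ⟨q', hq', rfl⟩ := hw
    rw [Finset.mem_Icc] at hq hq'
    exact ⟨_, _, hprop q q' hq.1 hq'.1 fun h => hne (by rw [h])⟩
  · intro u hu
    rw [Finset.mem_image] at hu
    obtain ⟨q, hq, rfl⟩ := hu
    rw [Finset.mem_Icc] at hq
    have hq1 : 1 ≤ q := by omega
    have hf0 : f q ≠ 0 := by
      intro h
      have h1 := congrFun h (0 : GI (n + 1))
      simp only [f, Pi.zero_apply] at h1
      rw [ww_zero, Nat.cast_eq_zero] at h1
      have : 0 < q * q₀ ^ n := by positivity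
      omega
    have hHle : (q : ℝ) * (q₀ : ℝ) ^ n ≤ H := by
      have h1 : (q : ℝ) ≤ N := by exact_mod_cast hq.2
      have h2 : (N : ℝ) ≤ H / (q₀ : ℝ) ^ n := Nat.floor_le (by positivity)
      have h3 := h1.trans h2
      rwa [le_div_iff₀ hq0R] at h3
    have hH1 : 1 ≤ H := by
      have h1 : 1 ≤ q * q₀ ^ n := Nat.one_le_iff_ne_zero.mpr (by positivity)
      have h2 : (1 : ℝ) ≤ (q : ℝ) * (q₀ : ℝ) ^ n := by exact_mod_cast h1
      exact h2.trans hHle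
    refine ⟨hf0, ?_, ?_⟩
    · have h1 := height_nat (K := K) (fun b => ww q₀ q b) hf0 hH1 fun b => by
        have h2 : (ww q₀ q b : ℝ) ≤ (q : ℝ) * (q₀ : ℝ) ^ n := by exact_mod_cast ww_le q₀ q b
        exact h2.trans hHle
      have hd : (0 : ℝ) < finrank ℚ K := by exact_mod_cast finrank_pos
      rw [div_le_iff₀ hd, Height.logHeight_eq_log_mulHeight]
      have h3 := Real.log_le_log (Height.mulHeight_pos _) h1
      rw [Real.log_pow] at h3
      linarith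
    · let t : Fin (n + 1) → ℝ := Fin.cons (T q) fun _ => T q₀
      have htρ : ∀ i, ρ ≤ t i := by
        intro i
        refine Fin.cases ?_ (fun i => ?_) i
        · exact hTρ q
        · exact hTρ q₀
      refine ⟨Matrix.diagonal fun i => Complex.I * (t i : ℂ), siegel_diag hρ t htρ, ?_⟩
      have hth : ∀ b : GI (n + 1), theta (Matrix.diagonal fun i => Complex.I * (t i : ℂ)) b =
          (ww q₀ q b : ℂ) * (((th1 0 (T q) / q) * ∏ _i : Fin n, (th1 0 (T q₀) / q₀) : ℝ) : ℂ) := by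
        intro b
        rw [theta_diag t (fun i => hρ.trans_le (htρ i)) b, Fin.prod_univ_succ]
        have h1 : th1 (b 0) (t 0) = (pp q (b 0) : ℝ) * (th1 0 (T q) / q) :=
          th1_eq hq1 (hT1 q hq.1) _
        have h2 : ∀ i : Fin n, th1 (b i.succ) (t i.succ) =
            (pp q₀ (b i.succ) : ℝ) * (th1 0 (T q₀) / q₀) := fun i =>
          th1_eq (by omega) (hT1 q₀ (le_refl _)) _
        rw [h1]
        simp_rw [h2]
        rw [← Complex.ofReal_prod, ← Complex.ofReal_mul, Finset.prod_mul_distrib]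
        unfold ww
        push_cast
        ring
      intro a b
      rw [hth, hth]
      have hc : ∀ x, ((f q x : K) : ℂ) = (ww q₀ q x : ℂ) := by
        intro x
        simp [f]
      rw [hc, hc]
      ring

theorem many_points (g : ℕ) (hg : 1 ≤ g) {ρ : ℝ} (hρ : 0 < ρ) : ∃ c H₀ : ℝ, 0 < c ∧
    ∀ H : ℝ, H₀ ≤ H → ∀ (K : IntermediateField ℚ ℂ) [NumberField K],
      ∃ U : Finset (GI g → K), c * H ≤ U.card ∧
        (∀ u ∈ U, ∀ w ∈ U, u ≠ w → ∃ a b, u a * w b ≠ u b * w a) ∧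
        ∀ u ∈ U, u ≠ 0 ∧ Height.logHeight u / finrank ℚ K ≤ Real.log H ∧
          ∃ τ : Matrix (Fin g) (Fin g) ℂ, Siegel ρ τ ∧
            ∀ a b, (u a : ℂ) * theta τ b = (u b : ℂ) * theta τ a := by
  obtain ⟨n, rfl⟩ : ∃ n, g = n + 1 := ⟨g - 1, by omega⟩
  exact many_aux n hρ

end FreyTN
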