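import Pool.Agent.Lib.MP_6babc4_nt.TN.Bdd

/-!
# Module Lyo: minimal polynomials and lying over

PROOF. `R = MvPolynomial (Fin μ) 𝕂` is a unique factorisation domain, so integrally closed; `A = 𝕂[X] / J` is a domain (`hJ.prime`), an `R`-algebra by `h = (mk J) ∘ thp` (`RingHom.toAlgebra`), integral, `algebraMap` injective. `q = minpoly R (mk J t)`: monic (`minpoly.monic`), `q.eval₂ (thp) t ∈ J`
(`minpoly.aeval`). Let `q(π)(s) = 0`. `e : R[S] → A`, `S ↦ mk J t` (`Polynomial.aeval`), integral (as `A` is integral over `R`); its kernel is `span {q}` (`minpoly.isIntegrallyClosed_dvd`). `m = ker (ev : R[S] → 𝕂, Y ↦ π, S ↦ s)` is a maximal ideal (`ev` is surjective) and contains `q`, so `ker e ≤ m`. By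
`Ideal.exists_ideal_over_maximal_of_isIntegral` there is a maximal ideal `M` of `A` with `comap e M = m`. Its preimage in `𝕂[X]` is maximal, contains `J`, so it is the vanishing ideal of a point `y` (`MvPolynomial.isMaximal_iff_eq_vanishingIdeal_singleton`). `y ∈ VK J`; `Y k - π k ∈ m` gives `pK P p y k = π k` (`eval_thp` or directly),
`S - s ∈ m` gives `eval y t = s`.
-/

set_option autoImplicit false

namespace FreyTN

variable {𝕂 : Type} [Field 𝕂] [IsAlgClosed 𝕂]

private theorem lyo_gen {R A : Type} [CommRing R] [IsDomain R] [IsIntegrallyClosed R] [CommRing A]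
    [IsDomain A] (φ : R →+* A) (hint : φ.IsIntegral) (hinj : Function.Injective φ) (a : A) :
    ∃ q : Polynomial R, q.Monic ∧ q.eval₂ φ a = 0 ∧
      ∀ {K : Type} [Field K] (ev : R →+* K) (s : K), Function.Surjective ev →
        (q.map ev).eval s = 0 →
        ∃ M : Ideal A, M.IsMaximal ∧
          ∀ f : Polynomial R, f.eval₂ φ a ∈ M ↔ (f.map ev).eval s = 0 := by
  let : Algebra R A := φ.toAlgebra
  have : Algebra.IsIntegral R A := ⟨hint⟩
  have : FaithfulSMul R A := (faithfulSMul_iff_algebraMap_injective R A).2 hinj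
  have hs : IsIntegral R a := Algebra.IsIntegral.isIntegral a
  refine ⟨minpoly R a, minpoly.monic hs, minpoly.aeval R a, ?_⟩
  intro K _ ev s hev hq
  set e : Polynomial R →+* A := Polynomial.eval₂RingHom φ a with he
  set g : Polynomial R →+* K := (Polynomial.evalRingHom s).comp (Polynomial.mapRingHom ev) with hg
  have hgs : Function.Surjective g := by
    intro c
    obtain ⟨x, hx⟩ := hev c
    refine ⟨Polynomial.C x, ?_⟩
    simp [hg, hx]
  have hmax : (RingHom.ker g).IsMaximal := RingHom.ker_isMaximal_of_surjective g hgs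
  have heint : e.IsIntegral := by
    intro b
    obtain ⟨f, hf, hfb⟩ := hint b
    refine ⟨f.map Polynomial.C, hf.map _, ?_⟩
    rw [Polynomial.eval₂_map]
    have : e.comp Polynomial.C = φ := by
      ext x
      simp [he]
    rw [this]
    exact hfb
  let : Algebra (Polynomial R) A := e.toAlgebra
  have : Algebra.IsIntegral (Polynomial R) A := ⟨heint⟩
  have hker : RingHom.ker (algebraMap (Polynomial R) A) ≤ RingHom.ker g := by
    intro f hf
    have hf0 : Polynomial.aeval a f = 0 := hf
    obtain ⟨f', rfl⟩ := minpoly.isIntegrallyClosed_dvd hs hf0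
    rw [RingHom.mem_ker, map_mul]
    have : g (minpoly R a) = 0 := by
      simpa [hg] using hq
    rw [this, zero_mul]
  obtain ⟨M, hM, hMc⟩ := Ideal.exists_ideal_over_maximal_of_isIntegral (S := A)
    (RingHom.ker g) hker
  refine ⟨M, hM, ?_⟩
  intro f
  have h1 : f ∈ M.comap (algebraMap (Polynomial R) A) ↔ f ∈ RingHom.ker g := by rw [hMc]
  exact h1

theorem v_minpoly (P : Plc 𝕂) {μ r : ℕ} {J : Ideal (MvPolynomial (Fin r) 𝕂)} (hJ : HI J)
    {p : Matrix (Fin μ) (Fin r) ℂ}
    (hint : ((Ideal.Quotient.mk J).comp (thp P p).toRingHom).IsIntegral)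
    (hinj : Function.Injective ((Ideal.Quotient.mk J).comp (thp P p).toRingHom))
    (t : MvPolynomial (Fin r) 𝕂) :
    ∃ q : Polynomial (MvPolynomial (Fin μ) 𝕂), q.Monic ∧ q.eval₂ (thp P p).toRingHom t ∈ J ∧
      ∀ (π : Fin μ → 𝕂) (s : 𝕂), (q.map (MvPolynomial.eval π)).eval s = 0 →
        ∃ y ∈ VK J, pK P p y = π ∧ MvPolynomial.eval y t = s := by
  have := hJ.prime
  have : IsIntegrallyClosed (MvPolynomial (Fin μ) 𝕂) := inferInstance
  obtain ⟨q, hq1, hq2, hq3⟩ := lyo_gen _ hint hinj (Ideal.Quotient.mk J t)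
  refine ⟨q, hq1, ?_, ?_⟩
  · rw [← Ideal.Quotient.eq_zero_iff_mem, Polynomial.hom_eval₂]
    exact hq2
  · intro π s hs
    obtain ⟨M, hM, hMf⟩ := hq3 (MvPolynomial.eval π) s
      (fun c => ⟨MvPolynomial.C c, MvPolynomial.eval_C c⟩) hs
    have hM' : (M.comap (Ideal.Quotient.mk J)).IsMaximal :=
      Ideal.comap_isMaximal_of_surjective _ Ideal.Quotient.mk_surjective
    obtain ⟨y, hy⟩ := MvPolynomial.isMaximal_iff_eq_vanishingIdeal_singleton.1 hM'
    have hyv : ∀ f : MvPolynomial (Fin r) 𝕂, Ideal.Quotient.mk J f ∈ M →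
        MvPolynomial.eval y f = 0 := by
      intro f hf
      have h1 : f ∈ M.comap (Ideal.Quotient.mk J) := hf
      rw [hy, MvPolynomial.mem_vanishingIdeal_singleton_iff] at h1
      simpa [MvPolynomial.aeval_eq_eval] using h1
    refine ⟨y, ?_, ?_, ?_⟩
    · intro f hf
      apply hyv
      rw [Ideal.Quotient.eq_zero_iff_mem.2 hf]
      exact M.zero_mem
    · funext k
      have h1 : Ideal.Quotient.mk J (thp P p (MvPolynomial.X k - MvPolynomial.C (π k))) ∈ M := by
        have h2 := (hMf (Polynomial.C (MvPolynomial.X k - MvPolynomial.C (π k)))).2 (by simp)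
        simpa using h2
      have h3 := hyv _ h1
      rw [eval_thp] at h3
      have h4 : pK P p y k - π k = 0 := by simpa using h3
      exact sub_eq_zero.1 h4
    · have h1 : Ideal.Quotient.mk J (t - MvPolynomial.C s) ∈ M := by
        have h2 := (hMf (Polynomial.X - Polynomial.C (MvPolynomial.C s))).2 (by simp)
        have h5 : (Polynomial.X - Polynomial.C (MvPolynomial.C s)).eval₂
            ((Ideal.Quotient.mk J).comp (thp P p).toRingHom) (Ideal.Quotient.mk J t)
            = Ideal.Quotient.mk J (t - MvPolynomial.C s) := by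
          have h6 : (thp P p) (MvPolynomial.C s) = MvPolynomial.C s := by
            rw [thp, MvPolynomial.aeval_C]
            rfl
          simp [h6]
        rw [h5] at h2
        exact h2
      have h3 := hyv _ h1
      have h4 : MvPolynomial.eval y t - s = 0 := by simpa using h3
      exact sub_eq_zero.1 h4

end FreyTN
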