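import Pool.Agent.Lib.MP_6babc4_nt.TN.Fxd
import Pool.Agent.Lib.MP_6babc4_nt.Cyc.Fld

/-!
# Module Pai: all pairs of fields together, in `ℂ`

PROOF. COPY of G2/Pai (on main): pairs `(θ₀, θ)` of algebraic integers with
`σ(E) = ℚ(θ₀)`, `σ(F) = ℚ(θ)` (`field_in_C`, `algInt_card`). For a fixed pair: reference fields `E, F, σ`; all the other `E', F', σ'` with the same images are transported by
`φ : F' → F`, `σ ∘ φ = σ'` (`pai_iso`), which maps `E'` to `E`: `u'` to vectors of `𝓞 E`, `v'` to `𝓞 F` (`Path` is preserved by ring homomorphisms, the condition at `σ` holds as `σ (φ x) = σ' x`, the conjugates of `φ x` are among those of `x`).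
The set of all these vectors `u ≠ 0` in `𝓞 E`: any finite set of pairwise not proportional elements has at most `C R^ε` elements (`fixed_count`); so there is a maximal finite set `U` of such elements (`pai_max`),
and each `u` is proportional to one `w` of `U`: `z b = σ (w b / w b₀)`. So `z` depends on `w` and `b₀` only: at most `2^g |U|` vectors `z`.
-/

set_option autoImplicit false

open Filter Topology NumberField Module

namespace FreyTN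

open FreyCyc FreySparse

/-- The normalised vectors `u / u_(b₀)` with a path of length `k`, in `ℂ`. -/
def PSet (g : ℕ) (δ : ℕ → ℝ) (k M₀ M : ℕ) (D R : ℝ) : Set (GI g → ℂ) :=
  {z | ∃ (E F : Type) (_ : Field E) (_ : NumberField E) (_ : Field F) (_ : NumberField F)
    (_ : Algebra E F) (σ : F →+* ℂ) (u : GI g → 𝓞 E) (v : ℕ → GI g → 𝓞 F) (b₀ : GI g),
      finrank ℚ E ≤ M₀ ∧ finrank ℚ F ≤ M ∧ |(discr E : ℝ)| ≤ D ∧ |(discr F : ℝ)| ≤ D ∧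
      Arc k R δ σ v ∧ (∀ b, v 0 b = algebraMap (𝓞 E) (𝓞 F) (u b)) ∧ u b₀ ≠ 0 ∧
      ∀ b, z b = σ (algebraMap E F ((u b : E) / (u b₀ : E)))}

/-- Two fields with the same image in `ℂ`. -/
private lemma pai_iso {E E' : Type} [Field E] [Field E'] (ι : E →+* ℂ) (ι' : E' →+* ℂ)
    (h : ∀ x : E', ∃ y : E, ι y = ι' x) : ∃ φ : E' →+* E, ∀ x, ι (φ x) = ι' x := by
  choose f hf using h
  have hinj : Function.Injective ι := ι.injective
  refine ⟨{ toFun := f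
            map_one' := ?_
            map_mul' := ?_
            map_zero' := ?_
            map_add' := ?_ }, fun x => hf x⟩
  · apply hinj
    rw [hf, map_one, map_one]
  · intro x y
    apply hinj
    rw [hf, map_mul, map_mul, hf, hf]
  · apply hinj
    rw [hf, map_zero, map_zero]
  · intro x y
    apply hinj
    rw [hf, map_add, map_add, hf, hf]

private lemma pai_path_map {R S : Type*} [CommRing R] [CommRing S] (f : R →+* S) {g k : ℕ}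
    {v : ℕ → GI g → R} (h : Path k v) : Path k (fun j b => f (v j b)) := by
  intro j hj b
  show f (v (j + 1) b) ^ 2 = 2 ^ g * sq (fun b => f (v j b)) b
  rw [← map_pow, h j hj b, map_mul, map_pow, map_ofNat]
  congr 1
  simp only [sq, map_sum, map_mul]

private lemma pai_max {α : Type*} (P : Finset α → Prop) (h0 : P ∅) (N : ℕ)
    (hN : ∀ U, P U → U.card ≤ N) : ∃ U, P U ∧ ∀ V, P V → V.card ≤ U.card := by
  classical
  have hex : ∃ n, ∃ U, P U ∧ U.card = n := ⟨0, ∅, h0, rfl⟩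
  have hb : ∀ n, (∃ U, P U ∧ U.card = n) → n ≤ N := by
    rintro n ⟨U, hU, rfl⟩
    exact hN U hU
  obtain ⟨U, hU, hc⟩ := Nat.findGreatest_spec (P := fun n => ∃ U, P U ∧ U.card = n)
    (Nat.zero_le N) ⟨∅, h0, rfl⟩
  refine ⟨U, hU, fun V hV => ?_⟩
  rw [hc]
  exact Nat.le_findGreatest (hb _ ⟨V, hV, rfl⟩) ⟨V, hV, rfl⟩

/-- The vectors for given images in `ℂ` of the two fields. -/
private def pai_T (g : ℕ) (δ : ℕ → ℝ) (k M₀ M : ℕ) (R : ℝ) (θ₀ θ : ℂ) : Set (GI g → ℂ) :=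
  {z | ∃ (E F : Type) (_ : Field E) (_ : NumberField E) (_ : Field F) (_ : NumberField F)
    (_ : Algebra E F) (σ : F →+* ℂ) (u : GI g → 𝓞 E) (v : ℕ → GI g → 𝓞 F) (b₀ : GI g),
      finrank ℚ E ≤ M₀ ∧ finrank ℚ F ≤ M ∧
      Arc k R δ σ v ∧ (∀ b, v 0 b = algebraMap (𝓞 E) (𝓞 F) (u b)) ∧ u b₀ ≠ 0 ∧
      (∀ b, z b = σ (algebraMap E F ((u b : E) / (u b₀ : E)))) ∧
      (∀ z : ℂ, z ∈ IntermediateField.adjoin ℚ {θ₀} ↔ ∃ x : E, σ (algebraMap E F x) = z) ∧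
      (∀ z : ℂ, z ∈ IntermediateField.adjoin ℚ {θ} ↔ ∃ x : F, σ x = z)}

/-- Transport of a path to the reference fields. -/
private lemma pai_move {g : ℕ} {δ : ℕ → ℝ} (k : ℕ) {R : ℝ}
    {E F : Type} [Field E] [NumberField E] [Field F] [NumberField F] [Algebra E F]
    (σ : F →+* ℂ)
    {E' F' : Type} [Field E'] [NumberField E'] [Field F'] [NumberField F'] [Algebra E' F']
    (σ' : F' →+* ℂ)
    (h₀ : ∀ x : E', ∃ y : E, σ (algebraMap E F y) = σ' (algebraMap E' F' x))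
    (h₁ : ∀ x : F', ∃ y : F, σ y = σ' x)
    {u' : GI g → 𝓞 E'} {v' : ℕ → GI g → 𝓞 F'} {b₀ : GI g} (hu' : u' b₀ ≠ 0)
    (ha : Arc k R δ σ' v') (hv : ∀ b, v' 0 b = algebraMap (𝓞 E') (𝓞 F') (u' b)) :
    ∃ (u : GI g → 𝓞 E) (v : ℕ → GI g → 𝓞 F), u b₀ ≠ 0 ∧ Arc k R δ σ v ∧
      (∀ b, v 0 b = algebraMap (𝓞 E) (𝓞 F) (u b)) ∧
      ∀ b, σ (algebraMap E F ((u b : E) / (u b₀ : E))) =
        σ' (algebraMap E' F' ((u' b : E') / (u' b₀ : E'))) := by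
  obtain ⟨φ, hφ⟩ := pai_iso σ σ' h₁
  obtain ⟨φ₀, hφ₀⟩ := pai_iso (σ.comp (algebraMap E F)) (σ'.comp (algebraMap E' F')) h₀
  have hφ₀' : ∀ x, σ (algebraMap E F (φ₀ x)) = σ' (algebraMap E' F' x) := hφ₀
  have hinj : Function.Injective σ := σ.injective
  have hcomm : ∀ x : E', algebraMap E F (φ₀ x) = φ (algebraMap E' F' x) := by
    intro x
    apply hinj
    rw [hφ₀', hφ]
  obtain ⟨Φ, hΦ⟩ : ∃ Φ : 𝓞 F' →+* 𝓞 F, ∀ x, ((Φ x : 𝓞 F) : F) = φ (x : F') :=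
    ⟨RingOfIntegers.mapRingHom φ, fun x => rfl⟩
  obtain ⟨Φ₀, hΦ₀⟩ : ∃ Φ₀ : 𝓞 E' →+* 𝓞 E, ∀ x, ((Φ₀ x : 𝓞 E) : E) = φ₀ (x : E') :=
    ⟨RingOfIntegers.mapRingHom φ₀, fun x => rfl⟩
  have hcommO : ∀ x : 𝓞 E', Φ (algebraMap (𝓞 E') (𝓞 F') x) = algebraMap (𝓞 E) (𝓞 F) (Φ₀ x) := by
    intro x
    refine RingOfIntegers.ext ?_
    rw [hΦ]
    show φ (algebraMap E' F' (x : E')) = algebraMap E F ((Φ₀ x : 𝓞 E) : E)
    rw [hΦ₀, hcomm]
  obtain ⟨hp, ⟨s, hs, hsb⟩, hb⟩ := ha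
  refine ⟨fun i => Φ₀ (u' i), fun j b => Φ (v' j b), ?_, ⟨?_, ⟨s, hs, ?_⟩, ?_⟩, ?_, ?_⟩
  · intro h
    apply hu'
    have h0 : Φ₀ (u' b₀) = 0 := h
    have h1 : ((Φ₀ (u' b₀) : 𝓞 E) : E) = 0 := by rw [h0]; rfl
    rw [hΦ₀, map_eq_zero] at h1
    exact RingOfIntegers.coe_eq_zero_iff.1 h1
  · exact pai_path_map Φ hp
  · intro j hj b
    show ‖σ ((Φ (v' j b) : 𝓞 F) : F) - (2 ^ g) ^ j * s‖ ≤ _
    rw [hΦ, hφ]
    exact hsb j hj b
  · intro j hj b τ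
    show ‖τ ((Φ (v' j b) : 𝓞 F) : F)‖ ≤ _
    rw [hΦ]
    exact hb j hj b (τ.comp φ)
  · intro b
    show Φ (v' 0 b) = _
    rw [hv, hcommO]
  · intro b
    show σ (algebraMap E F (((Φ₀ (u' b) : 𝓞 E) : E) / ((Φ₀ (u' b₀) : 𝓞 E) : E))) = _
    rw [hΦ₀, hΦ₀, ← map_div₀ φ₀, hφ₀']

private lemma pai_prop {g : ℕ} {E : Type} [Field E] [NumberField E] {u w : GI g → 𝓞 E}
    {b₀ : GI g} (hu : u b₀ ≠ 0) (hw : ∃ i, w i ≠ 0) (h : ¬ NPr u w) (b : GI g) :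
    (u b : E) / (u b₀ : E) = (w b : E) / (w b₀ : E) := by
  have h' : ∀ i j, u i * w j = u j * w i := by
    intro i j
    by_contra hc
    exact h ⟨i, j, hc⟩
  obtain ⟨j, hj⟩ := hw
  have hw0 : w b₀ ≠ 0 := by
    intro h0
    have h1 := h' b₀ j
    rw [h0, mul_zero] at h1
    exact mul_ne_zero hu hj h1
  have huE : (u b₀ : E) ≠ 0 := fun h0 => hu (RingOfIntegers.coe_eq_zero_iff.1 h0)
  have hwE : (w b₀ : E) ≠ 0 := fun h0 => hw0 (RingOfIntegers.coe_eq_zero_iff.1 h0)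
  rw [div_eq_div_iff huE hwE]
  have h2 := congrArg (fun x : 𝓞 E => (x : E)) (h' b b₀)
  simp only [map_mul] at h2
  rw [h2]
  ring

private lemma pai_pair (g : ℕ) {δ : ℕ → ℝ} (k M₀ M : ℕ) {C R ε : ℝ} (hC : 1 ≤ C) (hR : 1 ≤ R)
    (hfix : ∀ (E F : Type) [Field E] [NumberField E] [Field F] [NumberField F] [Algebra E F],
      finrank ℚ E ≤ M₀ → finrank ℚ F ≤ M → ∀ (σ : F →+* ℂ) (R : ℝ), 1 ≤ R →
        ∀ U : Finset (GI g → 𝓞 E), (∀ u ∈ U, ∀ w ∈ U, u ≠ w → NPr u w) →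
          (∀ u ∈ U, ∃ v : ℕ → GI g → 𝓞 F,
            Arc k R δ σ v ∧ ∀ b, v 0 b = algebraMap (𝓞 E) (𝓞 F) (u b)) →
          (U.card : ℝ) ≤ C * R ^ ε) (θ₀ θ : ℂ) :
    (pai_T g δ k M₀ M R θ₀ θ).Finite ∧
      ((pai_T g δ k M₀ M R θ₀ θ).ncard : ℝ) ≤ 2 ^ g * C * R ^ ε := by
  classical
  have hR0 : 0 < R := by linarith
  have hRε : 0 ≤ R ^ ε := Real.rpow_nonneg hR0.le _
  by_cases hne : (pai_T g δ k M₀ M R θ₀ θ).Nonempty
  swap
  · rw [Set.not_nonempty_iff_eq_empty] at hne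
    rw [hne]
    refine ⟨Set.finite_empty, ?_⟩
    rw [Set.ncard_empty, Nat.cast_zero]
    have : 0 ≤ C := by linarith
    positivity
  obtain ⟨z₀, E, F, _, _, _, _, _, σ, -, -, -, hM₀, hM, -, -, -, -, hr₀, hr₁⟩ := hne
  obtain ⟨P, hP⟩ : ∃ P : Finset (GI g → 𝓞 E) → Prop, P = fun U =>
      (∀ u ∈ U, ∀ w ∈ U, u ≠ w → NPr u w) ∧ ∀ u ∈ U, (∃ i, u i ≠ 0) ∧
        ∃ v : ℕ → GI g → 𝓞 F,
            Arc k R δ σ v ∧ ∀ b, v 0 b = algebraMap (𝓞 E) (𝓞 F) (u b) := ⟨_, rfl⟩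
  have hPc : ∀ U, P U → (U.card : ℝ) ≤ C * R ^ ε := by
    intro U hU
    rw [hP] at hU
    exact hfix E F hM₀ hM σ R hR U hU.1 fun u hu => (hU.2 u hu).2
  obtain ⟨U, hU, hmax⟩ := pai_max P (by
    rw [hP]
    refine ⟨fun u hu => ?_, fun u hu => ?_⟩
    · exact absurd hu (Finset.notMem_empty u)
    · exact absurd hu (Finset.notMem_empty u)) ⌊C * R ^ ε⌋₊ (fun U hU => Nat.le_floor (hPc U hU))
  have hUc := hPc U hU
  have hU' := hU
  rw [hP] at hU'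
  obtain ⟨hU1, hU2⟩ := hU'
  -- each vector is proportional to one of `U`
  have hprop : ∀ (u : GI g → 𝓞 E) (v : ℕ → GI g → 𝓞 F), (∃ i, u i ≠ 0) →
      Arc k R δ σ v → (∀ b, v 0 b = algebraMap (𝓞 E) (𝓞 F) (u b)) →
      ∃ w ∈ U, ¬ NPr u w := by
    intro u v hu ht hb
    by_contra hcon
    push Not at hcon
    have hnot : u ∉ U := by
      intro hmem
      obtain ⟨i, j, hij⟩ := hcon u hmem
      exact hij (mul_comm _ _)
    have hP' : P (insert u U) := by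
      rw [hP]
      refine ⟨?_, ?_⟩
      · intro x hx y hy hxy
        rw [Finset.mem_insert] at hx hy
        rcases hx with rfl | hx
        · rcases hy with rfl | hy
          · exact absurd rfl hxy
          · exact hcon y hy
        · rcases hy with rfl | hy
          · obtain ⟨i, j, hij⟩ := hcon x hx
            refine ⟨i, j, fun he => hij ?_⟩
            rw [mul_comm (y i), mul_comm (y j)]
            exact he.symm
          · exact hU1 x hx y hy hxy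
      · intro x hx
        rw [Finset.mem_insert] at hx
        rcases hx with rfl | hx
        · exact ⟨hu, v, ht, hb⟩
        · exact hU2 x hx
    have h1 := hmax _ hP'
    rw [Finset.card_insert_of_notMem hnot] at h1
    omega
  -- the finite set
  obtain ⟨f, hf⟩ : ∃ f : (GI g → 𝓞 E) × GI g → (GI g → ℂ),
      f = fun t b => σ (algebraMap E F ((t.1 b : E) / (t.1 t.2 : E))) := ⟨_, rfl⟩
  obtain ⟨V, hV⟩ : ∃ V : Finset (GI g → ℂ), V = (U ×ˢ Finset.univ).image f := ⟨_, rfl⟩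
  have hsub : pai_T g δ k M₀ M R θ₀ θ ⊆ (V : Set (GI g → ℂ)) := by
    rintro z ⟨E', F', _, _, _, _, _, σ', u', v', b₀, -, -, ha', hv', hu', hz, hr₀', hr₁'⟩
    obtain ⟨u, v, hu, ha, hv, hrt⟩ := pai_move k σ σ'
      (fun x => (hr₀ _).1 ((hr₀' _).2 ⟨x, rfl⟩)) (fun x => (hr₁ _).1 ((hr₁' _).2 ⟨x, rfl⟩))
      hu' ha' hv'
    obtain ⟨w, hw, hnp⟩ := hprop u v ⟨b₀, hu⟩ ha hv
    rw [hV, Finset.coe_image]
    refine ⟨(w, b₀), ?_, ?_⟩
    · rw [Finset.mem_coe, Finset.mem_product]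
      exact ⟨hw, Finset.mem_univ _⟩
    · rw [hf]
      funext b
      show σ (algebraMap E F ((w b : E) / (w b₀ : E))) = z b
      rw [hz, ← hrt, pai_prop hu (hU2 w hw).1 hnp]
  refine ⟨V.finite_toSet.subset hsub, ?_⟩
  have h1 := Set.ncard_le_ncard hsub V.finite_toSet
  rw [Set.ncard_coe_finset] at h1
  have h2 : V.card ≤ U.card * 2 ^ g := by
    rw [hV]
    refine Finset.card_image_le.trans ?_
    rw [Finset.card_product, Finset.card_univ]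
    have h3 : Fintype.card (GI g) = 2 ^ g := by
      rw [Fintype.card_fun, ZMod.card, Fintype.card_fin]
    rw [h3]
  calc ((pai_T g δ k M₀ M R θ₀ θ).ncard : ℝ) ≤ (U.card : ℝ) * 2 ^ g := by exact_mod_cast h1.trans h2
    _ ≤ (C * R ^ ε) * 2 ^ g := mul_le_mul_of_nonneg_right hUc (by positivity)
    _ = _ := by ring

private lemma pai_algInt_mono {N : ℕ} {B B' : ℝ} (h : B ≤ B') : AlgInt N B ⊆ AlgInt N B' := by
  rintro z ⟨h1, h2, h3⟩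
  exact ⟨h1, h2, fun w hw => (h3 w hw).trans h⟩

theorem pset_count (g : ℕ) {δ : ℕ → ℝ} (hδ : Tendsto δ atTop (𝓝 0)) (M₀ : ℕ) {ε : ℝ}
    (hε : 0 < ε) : ∃ k : ℕ, ∀ M : ℕ, ∃ (A : ℕ) (C : ℝ), 1 ≤ C ∧
    ∀ D R : ℝ, 1 ≤ D → 1 ≤ R → (PSet g δ k M₀ M D R).Finite ∧
      ((PSet g δ k M₀ M D R).ncard : ℝ) ≤ C * D ^ A * R ^ ε := by
  classical
  obtain ⟨k, hk⟩ := fixed_count g hδ M₀ hε
  refine ⟨k, fun M => ?_⟩
  obtain ⟨C, hC, hfix⟩ := hk M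
  obtain ⟨C₀, hC₀, hF₀⟩ := field_in_C M₀
  obtain ⟨C₁, hC₁, hF₁⟩ := field_in_C M
  obtain ⟨B₀, hB₀, hA₀⟩ := algInt_card M₀
  obtain ⟨B₁, hB₁, hA₁⟩ := algInt_card M
  obtain ⟨e₀, he₀⟩ : ∃ e₀ : ℕ, e₀ = M₀ * (M₀ + 1) := ⟨_, rfl⟩
  obtain ⟨e₁, he₁⟩ : ∃ e₁ : ℕ, e₁ = M * (M + 1) := ⟨_, rfl⟩
  obtain ⟨C₃, hC₃⟩ : ∃ C₃ : ℝ, C₃ = 2 ^ g * C := ⟨_, rfl⟩
  have hC₃1 : 1 ≤ C₃ := by
    rw [hC₃]
    exact one_le_mul_of_one_le_of_one_le (one_le_pow₀ (by norm_num)) hC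
  refine ⟨e₀ + e₁, (B₀ * C₀ ^ e₀) * (B₁ * C₁ ^ e₁) * C₃, ?_, fun D R hD hR => ?_⟩
  · have h1 : 1 ≤ B₀ * C₀ ^ e₀ := one_le_mul_of_one_le_of_one_le hB₀ (one_le_pow₀ hC₀)
    have h2 : 1 ≤ B₁ * C₁ ^ e₁ := one_le_mul_of_one_le_of_one_le hB₁ (one_le_pow₀ hC₁)
    exact one_le_mul_of_one_le_of_one_le (one_le_mul_of_one_le_of_one_le h1 h2) hC₃1
  have hD0 : 0 < D := by linarith
  have hR0 : 0 < R := by linarith
  have hsD1 : 1 ≤ √D := by
    rw [Real.one_le_sqrt]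
    exact hD
  have hsD : √D ≤ D := by
    rw [Real.sqrt_le_left (by linarith)]
    nlinarith
  obtain ⟨hfin₀, hcard₀⟩ := hA₀ (C₀ * √D) (one_le_mul_of_one_le_of_one_le hC₀ hsD1)
  obtain ⟨hfin₁, hcard₁⟩ := hA₁ (C₁ * √D) (one_le_mul_of_one_le_of_one_le hC₁ hsD1)
  rw [← he₀] at hcard₀
  rw [← he₁] at hcard₁
  -- the pairs
  obtain ⟨T, hT⟩ : ∃ T : Finset (ℂ × ℂ), T = hfin₀.toFinset ×ˢ hfin₁.toFinset := ⟨_, rfl⟩
  have hTcard : (T.card : ℝ) ≤ (B₀ * (C₀ * √D) ^ e₀) * (B₁ * (C₁ * √D) ^ e₁) := by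
    rw [hT, Finset.card_product, ← Set.ncard_eq_toFinset_card _ hfin₀,
      ← Set.ncard_eq_toFinset_card _ hfin₁]
    push_cast
    exact mul_le_mul hcard₀ hcard₁ (by positivity) (by positivity)
  obtain ⟨W, hW⟩ : ∃ W : ℝ, W = C₃ * R ^ ε := ⟨_, rfl⟩
  have hW0 : 0 ≤ W := by
    rw [hW]
    exact mul_nonneg (by linarith) (Real.rpow_nonneg hR0.le _)
  have htr : ∀ t : ℂ × ℂ, (pai_T g δ k M₀ M R t.1 t.2).Finite ∧
      ((pai_T g δ k M₀ M R t.1 t.2).ncard : ℝ) ≤ W := by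
    intro t
    rw [hW, hC₃]
    exact pai_pair g k M₀ M hC hR hfix t.1 t.2
  obtain ⟨V, hV⟩ : ∃ V : Finset (GI g → ℂ), V = T.biUnion fun t => (htr t).1.toFinset := ⟨_, rfl⟩
  have hsub : PSet g δ k M₀ M D R ⊆ (V : Set (GI g → ℂ)) := by
    rintro z ⟨E, F, _, _, _, _, _, σ, u, v, b₀, hM₀, hM, hDE, hDF, ha, hv, hu, hz⟩
    obtain ⟨θ₀, hθ₀, hr₀⟩ := hF₀ E hM₀ (σ.comp (algebraMap E F))
    obtain ⟨θ, hθ, hr₁⟩ := hF₁ F hM σ
    rw [hV, Finset.coe_biUnion]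
    rw [Set.mem_iUnion₂]
    refine ⟨(θ₀, θ), ?_, ?_⟩
    · rw [hT, Finset.mem_coe, Finset.mem_product, Set.Finite.mem_toFinset,
        Set.Finite.mem_toFinset]
      refine ⟨pai_algInt_mono ?_ hθ₀, pai_algInt_mono ?_ hθ⟩
      · exact mul_le_mul_of_nonneg_left (Real.sqrt_le_sqrt hDE) (by linarith)
      · exact mul_le_mul_of_nonneg_left (Real.sqrt_le_sqrt hDF) (by linarith)
    · rw [Finset.mem_coe, Set.Finite.mem_toFinset]
      exact ⟨E, F, inferInstance, inferInstance, inferInstance, inferInstance, inferInstance, σ,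
        u, v, b₀, hM₀, hM, ha, hv, hu, hz, hr₀, hr₁⟩
  refine ⟨V.finite_toSet.subset hsub, ?_⟩
  have hVcard : (V.card : ℝ) ≤ T.card * W := by
    have h1 : V.card ≤ ∑ t ∈ T, ((htr t).1.toFinset).card := by
      rw [hV]
      exact Finset.card_biUnion_le
    have h2 : (V.card : ℝ) ≤ ∑ t ∈ T, (((htr t).1.toFinset).card : ℝ) := by exact_mod_cast h1
    refine h2.trans ?_
    rw [← nsmul_eq_mul, ← Finset.sum_const]
    refine Finset.sum_le_sum fun t _ => ?_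
    rw [← Set.ncard_eq_toFinset_card _ (htr t).1]
    exact (htr t).2
  have hnc : ((PSet g δ k M₀ M D R).ncard : ℝ) ≤ V.card := by
    have h1 := Set.ncard_le_ncard hsub V.finite_toSet
    rw [Set.ncard_coe_finset] at h1
    exact_mod_cast h1
  have hsD₀ : (C₀ * √D) ^ e₀ ≤ C₀ ^ e₀ * D ^ e₀ := by
    rw [mul_pow]
    exact mul_le_mul_of_nonneg_left (pow_le_pow_left₀ (by linarith) hsD _) (by positivity)
  have hsD₁ : (C₁ * √D) ^ e₁ ≤ C₁ ^ e₁ * D ^ e₁ := by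
    rw [mul_pow]
    exact mul_le_mul_of_nonneg_left (pow_le_pow_left₀ (by linarith) hsD _) (by positivity)
  calc ((PSet g δ k M₀ M D R).ncard : ℝ) ≤ T.card * W := hnc.trans hVcard
    _ ≤ ((B₀ * (C₀ * √D) ^ e₀) * (B₁ * (C₁ * √D) ^ e₁)) * W :=
        mul_le_mul_of_nonneg_right hTcard hW0
    _ ≤ ((B₀ * (C₀ ^ e₀ * D ^ e₀)) * (B₁ * (C₁ ^ e₁ * D ^ e₁))) * W := by
        gcongr
    _ = _ := by
        rw [hW, pow_add]
        ring

end FreyTN
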