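import Pool.Agent.Lib.MP_6babc4_nt.TN.Defs

/-!
# Module Plc: places of an algebraically closed field with residue field `ℂ` and a section

`st_unit`: if `x⁻¹ ∉ O` then by `inv` for `x⁻¹` the inverse `x` of `x⁻¹` has `st x = 0`. `plc_max`: induction on the finite set; for `x, y ≠ 0` one of `x / y`, `y / x` is in `O` (`inv`). `pull`: divide by a coefficient `c₀` from `plc_max`
(for the support of `G`); the coefficient `1` has `st 1 = 1 ≠ 0`. `interp`: if `G ≠ 0` and some coefficient is not in `O`, take the maximal coefficient `c₀ ∉ O` from `plc_max`: `G / c₀ = F.map P.O.subtype`, and for all `π` over `ℂ` the value of `F.map P.st` at `π`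
is `st (eval (ι π) G / c₀) = 0` (`c₀⁻¹ ∈ O`, `st c₀⁻¹ = 0`), so `F.map P.st = 0` (`MvPolynomial.funext`), but its coefficient at `c₀ / c₀ = 1` is `1`. (A polynomial with all coefficients in `O` is in the range of `map P.O.subtype`:
`MvPolynomial.mem_map_range` / `MvPolynomial.mem_range_map_iff_coeffs_subset`, or build it as a `Finsupp` sum.)
-/

set_option autoImplicit false

namespace FreyTN

/-- A place of `𝕂` (with the valuation ring `O`) with residue field `ℂ`, and a section of it. -/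
structure Plc (𝕂 : Type) [Field 𝕂] where
  /-- the finite elements -/
  O : Subring 𝕂
  /-- the standard part -/
  st : O →+* ℂ
  /-- the section -/
  ι : ℂ →+* 𝕂
  mem : ∀ c, ι c ∈ O
  st_ι : ∀ c, st ⟨ι c, mem c⟩ = c
  inv : ∀ x, x ∉ O → ∃ h : x⁻¹ ∈ O, st ⟨x⁻¹, h⟩ = 0
  ne : ∃ x, x ∉ O

variable {𝕂 : Type} [Field 𝕂]

theorem Plc.st_unit (P : Plc 𝕂) (x : P.O) (hx : P.st x ≠ 0) : (x : 𝕂)⁻¹ ∈ P.O := by
  by_contra h
  obtain ⟨h1, h2⟩ := P.inv _ h
  have h3 : (⟨((x : 𝕂)⁻¹)⁻¹, h1⟩ : P.O) = x := Subtype.ext (inv_inv (x : 𝕂))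
  rw [h3] at h2
  exact hx h2

theorem Plc.plc_max (P : Plc 𝕂) {α : Type} (s : Finset α) (x : α → 𝕂) (h : ∃ i ∈ s, x i ≠ 0) :
    ∃ i ∈ s, x i ≠ 0 ∧ ∀ k ∈ s, x k / x i ∈ P.O := by
  classical
  induction s using Finset.induction_on with
  | empty =>
    obtain ⟨i, hi, -⟩ := h
    exact absurd hi (Finset.notMem_empty i)
  | insert a s ha ih =>
    by_cases hs : ∃ i ∈ s, x i ≠ 0
    · obtain ⟨i, hi, hi0, hk⟩ := ih hs
      by_cases h1 : x a / x i ∈ P.O
      · refine ⟨i, Finset.mem_insert_of_mem hi, hi0, fun k hk' => ?_⟩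
        rcases Finset.mem_insert.mp hk' with rfl | h2
        · exact h1
        · exact hk k h2
      · have ha0 : x a ≠ 0 := by
          intro h2
          apply h1
          rw [h2, zero_div]
          exact P.O.zero_mem
        have h3 : x i / x a ∈ P.O := by
          obtain ⟨h4, -⟩ := P.inv _ h1
          rwa [inv_div] at h4
        refine ⟨a, Finset.mem_insert_self a s, ha0, fun k hk' => ?_⟩
        rcases Finset.mem_insert.mp hk' with rfl | h2
        · rw [div_self ha0]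
          exact P.O.one_mem
        · have h5 : x k / x a = (x k / x i) * (x i / x a) := by
            field_simp
          rw [h5]
          exact P.O.mul_mem (hk k h2) h3
    · push Not at hs
      have ha0 : x a ≠ 0 := by
        obtain ⟨i, hi, hi0⟩ := h
        rcases Finset.mem_insert.mp hi with rfl | h2
        · exact hi0
        · exact absurd (hs i h2) hi0
      refine ⟨a, Finset.mem_insert_self a s, ha0, fun k hk' => ?_⟩
      rcases Finset.mem_insert.mp hk' with rfl | h2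
      · rw [div_self ha0]
        exact P.O.one_mem
      · rw [hs k h2, zero_div]
        exact P.O.zero_mem

theorem Plc.lift_coeffs (P : Plc 𝕂) {σ : Type} (G : MvPolynomial σ 𝕂)
    (h : ∀ m, MvPolynomial.coeff m G ∈ P.O) :
    ∃ F : MvPolynomial σ P.O, MvPolynomial.map P.O.subtype F = G := by
  have h1 : G ∈ Set.range (MvPolynomial.map (σ := σ) P.O.subtype) := by
    rw [MvPolynomial.mem_range_map_iff_coeffs_subset]
    intro c hc
    have hc' : c ∈ G.coeffs := hc
    rw [MvPolynomial.mem_coeffs_iff] at hc'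
    obtain ⟨m, -, rfl⟩ := hc'
    exact ⟨⟨_, h m⟩, rfl⟩
  exact h1

theorem Plc.pull_aux (P : Plc 𝕂) {σ : Type} (G : MvPolynomial σ 𝕂) (hG : G ≠ 0) :
    ∃ (m : σ →₀ ℕ) (F : MvPolynomial σ P.O), MvPolynomial.coeff m G ≠ 0 ∧
      (∀ k, MvPolynomial.coeff k G / MvPolynomial.coeff m G ∈ P.O) ∧
      MvPolynomial.map P.O.subtype F = MvPolynomial.C (MvPolynomial.coeff m G)⁻¹ * G ∧
      MvPolynomial.coeff m (MvPolynomial.map P.st F) = 1 := by
  obtain ⟨m, -, hm0, hm⟩ := P.plc_max G.support (fun k => MvPolynomial.coeff k G) (by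
    obtain ⟨m, hm⟩ := MvPolynomial.ne_zero_iff.mp hG
    exact ⟨m, MvPolynomial.mem_support_iff.mpr hm, hm⟩)
  have hm' : ∀ k, MvPolynomial.coeff k G / MvPolynomial.coeff m G ∈ P.O := by
    intro k
    by_cases hk : k ∈ G.support
    · exact hm k hk
    · rw [MvPolynomial.notMem_support_iff.mp hk, zero_div]
      exact P.O.zero_mem
  obtain ⟨F, hF⟩ := P.lift_coeffs (MvPolynomial.C (MvPolynomial.coeff m G)⁻¹ * G) (by
    intro k
    rw [MvPolynomial.coeff_C_mul, ← div_eq_inv_mul]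
    exact hm' k)
  refine ⟨m, F, hm0, hm', hF, ?_⟩
  rw [MvPolynomial.coeff_map]
  have h1 : ((MvPolynomial.coeff m F : P.O) : 𝕂) = 1 := by
    have h2 := congrArg (MvPolynomial.coeff m) hF
    rw [MvPolynomial.coeff_map, MvPolynomial.coeff_C_mul, inv_mul_cancel₀ hm0] at h2
    exact h2
  have h3 : MvPolynomial.coeff m F = 1 := Subtype.ext h1
  rw [h3, map_one]

theorem Plc.pull (P : Plc 𝕂) {σ : Type} (G : MvPolynomial σ 𝕂) (hG : G ≠ 0) :
    ∃ (c : 𝕂) (F : MvPolynomial σ P.O), c ≠ 0 ∧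
      MvPolynomial.map P.O.subtype F = MvPolynomial.C c * G ∧ MvPolynomial.map P.st F ≠ 0 := by
  obtain ⟨m, F, h0, -, h1, h2⟩ := P.pull_aux G hG
  refine ⟨(MvPolynomial.coeff m G)⁻¹, F, inv_ne_zero h0, h1, fun h3 => ?_⟩
  rw [h3, MvPolynomial.coeff_zero] at h2
  exact zero_ne_one h2

theorem Plc.interp (P : Plc 𝕂) {σ : Type} (G : MvPolynomial σ 𝕂)
    (hG : ∀ π : σ → ℂ, MvPolynomial.eval (fun i => P.ι (π i)) G ∈ P.O) :
    ∃ F : MvPolynomial σ P.O, MvPolynomial.map P.O.subtype F = G := by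
  by_cases h0 : G = 0
  · exact ⟨0, by rw [h0, map_zero]⟩
  obtain ⟨m, F, hm0, hm, hF, h1⟩ := P.pull_aux G h0
  by_cases hc : MvPolynomial.coeff m G ∈ P.O
  · refine P.lift_coeffs G fun k => ?_
    have h2 : MvPolynomial.coeff k G =
        (MvPolynomial.coeff k G / MvPolynomial.coeff m G) * MvPolynomial.coeff m G := by
      field_simp
    rw [h2]
    exact P.O.mul_mem (hm k) hc
  · exfalso
    obtain ⟨h2, h3⟩ := P.inv _ hc
    have h4 : MvPolynomial.map P.st F = 0 := by
      refine MvPolynomial.funext fun π => ?_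
      rw [map_zero]
      have h5 : MvPolynomial.eval π (MvPolynomial.map P.st F) =
          P.st (MvPolynomial.eval (fun i => (⟨P.ι (π i), P.mem (π i)⟩ : P.O)) F) := by
        rw [MvPolynomial.eval_map, MvPolynomial.eval, MvPolynomial.coe_eval₂Hom,
          MvPolynomial.hom_eval₂]
        refine congrArg₂ (fun f g => MvPolynomial.eval₂ f g F) ?_ ?_
        · rw [RingHom.comp_id]
        · funext i
          exact (P.st_ι (π i)).symm
      have h6 : MvPolynomial.eval (fun i => (⟨P.ι (π i), P.mem (π i)⟩ : P.O)) F =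
          (⟨(MvPolynomial.coeff m G)⁻¹, h2⟩ : P.O) *
            ⟨MvPolynomial.eval (fun i => P.ι (π i)) G, hG π⟩ := by
        apply Subtype.ext
        have h7 := congrArg (MvPolynomial.eval (fun i => P.ι (π i))) hF
        rw [map_mul, MvPolynomial.eval_C, MvPolynomial.eval_map] at h7
        have h8 : ((MvPolynomial.eval (fun i => (⟨P.ι (π i), P.mem (π i)⟩ : P.O)) F : P.O) : 𝕂) =
            MvPolynomial.eval₂ P.O.subtype (fun i => P.ι (π i)) F := by
          have h9 : ((MvPolynomial.eval (fun i => (⟨P.ι (π i), P.mem (π i)⟩ : P.O)) F : P.O) : 𝕂) =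
              P.O.subtype (MvPolynomial.eval (fun i => (⟨P.ι (π i), P.mem (π i)⟩ : P.O)) F) := rfl
          rw [h9, MvPolynomial.eval, MvPolynomial.coe_eval₂Hom, MvPolynomial.hom_eval₂,
            RingHom.comp_id]
          rfl
        rw [h8]
        exact h7
      rw [h5, h6, map_mul, h3, zero_mul]
    rw [h4, MvPolynomial.coeff_zero] at h1
    exact zero_ne_one h1

/-- The zeros of an ideal. -/
def VK {r : ℕ} (J : Ideal (MvPolynomial (Fin r) 𝕂)) : Set (Fin r → 𝕂) :=
  {y | ∀ f ∈ J, MvPolynomial.eval y f = 0}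

/-- The specialisation. -/
def ZC (P : Plc 𝕂) {r : ℕ} (J : Ideal (MvPolynomial (Fin r) 𝕂)) : Set (Fin r → ℂ) :=
  {y | ∀ F : MvPolynomial (Fin r) P.O, MvPolynomial.map P.O.subtype F ∈ J →
    MvPolynomial.eval y (MvPolynomial.map P.st F) = 0}

/-- A homogeneous prime ideal of a nonempty cone. -/
structure HI {r : ℕ} (J : Ideal (MvPolynomial (Fin r) 𝕂)) : Prop where
  prime : J.IsPrime
  hom : ∀ f ∈ J, ∀ n, MvPolynomial.homogeneousComponent n f ∈ J
  zero : ∀ f ∈ J, MvPolynomial.eval 0 f = 0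

/-- The linear map `p` over `𝕂`. -/
def pK (P : Plc 𝕂) {μ r : ℕ} (p : Matrix (Fin μ) (Fin r) ℂ) (y : Fin r → 𝕂) : Fin μ → 𝕂 :=
  (p.map P.ι).mulVec y

/-- No nonzero point of the specialisation is mapped to `0`. -/
def Nz (P : Plc 𝕂) {μ r : ℕ} (J : Ideal (MvPolynomial (Fin r) 𝕂)) (p : Matrix (Fin μ) (Fin r) ℂ) :
    Prop := ∀ y ∈ ZC P J, p.mulVec y = 0 → y = 0

/-- The homomorphism `X k ↦ ∑ i, p k i * X i`. -/
noncomputable def thp (P : Plc 𝕂) {μ r : ℕ} (p : Matrix (Fin μ) (Fin r) ℂ) :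
    MvPolynomial (Fin μ) 𝕂 →ₐ[𝕂] MvPolynomial (Fin r) 𝕂 :=
  MvPolynomial.aeval fun k => ∑ i, MvPolynomial.C (P.ι (p k i)) * MvPolynomial.X i

end FreyTN
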