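import Pool.Agent.Lib.MP_6babc4_nt.TN.App
import Pool.Agent.Lib.MP_6babc4_nt.TN.Dfn

/-!
# Module Rnk: the rank on a congruence class; the number of the classes

COPY of G2/Rnk (on main), `GI g` in place of `Fin 4`, the path in place of the tree (`Fintype.card (GI g) = 2 ^ g`; it is convenient to replace `2 ^ g` by `Fintype.card (GI g)` first).

`rank_lt`. PROOF. `approx` (for a point `x₀ ∈ X`; if `t = 0` then `hbig` is false (`0! * R^0 = 1 < p^0 = 1`), otherwise there is a point)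
and `det_dvd` with `π = p`: `p^(t^(2^g+1))` divides the determinant `Δ ∈ 𝓞 F`. All conjugates of `Δ` are at most `(2t^(2^g))! R^(2t^(2^g)) < p^(t^(2^g+1))`, so the integer `Δ / p^(..)` has all its
conjugates `< 1` in absolute value, `Δ = 0`.

`classes`. PROOF. `cls x` = the residues of the `v x 0 b = u x b` in `𝓞 E / p` (`p^(2^g [E:ℚ])` possibilities) and, for `j < k` and `b`, the number (`rnk_idx` of G2/Rnk, private: copy) of the residue of `v x (j+1) b` among the
square roots, zero or units, of the residue of `2^g sq (v x j) b` in `𝓞 F / p` (at most `1 + 2^D` of them). `C = (1 + 2^D)^(k 2^g)` (or `Nat.card (Fin k × GI g → Fin (1 + 2^D))`).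
-/

set_option autoImplicit false

open NumberField Module

namespace FreyTN

private theorem rnk_sq_map {R S : Type*} [CommRing R] [CommRing S] {g : ℕ} (φ : R →+* S)
    (w : GI g → R) (b : GI g) : φ (2 ^ g * sq w b) = 2 ^ g * sq (fun i => φ (w i)) b := by
  have h2 : φ 2 = 2 := map_ofNat φ 2
  simp [sq, map_sum, map_mul, h2]

private theorem rnk_norm {F : Type} [Field F] [NumberField F] (p : ℕ) :
    Algebra.norm ℤ ((p : 𝓞 F)) = (p : ℤ) ^ finrank ℚ F := by
  have h1 : ((p : 𝓞 F)) = algebraMap ℤ (𝓞 F) (p : ℤ) := by simp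
  rw [h1, Algebra.norm_algebraMap_of_basis (RingOfIntegers.basis F)]
  congr 1
  rw [← RingOfIntegers.rank F]
  exact (Module.finrank_eq_card_basis (RingOfIntegers.basis F)).symm

private theorem rnk_not_unit {F : Type} [Field F] [NumberField F] {p : ℕ} (hp : p.Prime) :
    ¬ IsUnit (p : 𝓞 F) := by
  intro h
  have h1 := h.map (Algebra.norm ℤ)
  rw [rnk_norm, isUnit_pow_iff (Module.finrank_pos (R := ℚ) (M := F)).ne',
    Int.isUnit_iff_natAbs_eq, Int.natAbs_natCast] at h1
  exact hp.one_lt.ne' h1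

private theorem rnk_two {R : Type} [CommRing R] {p : ℕ} (hp : p.Prime) (hp2 : p ≠ 2) :
    IsCoprime (2 : R) (p : R) := by
  have h1 : Nat.Coprime 2 p := (Nat.coprime_primes Nat.prime_two hp).mpr (Ne.symm hp2)
  have h2 : IsCoprime ((2 : ℕ) : ℤ) ((p : ℕ) : ℤ) := Nat.isCoprime_iff_coprime.mpr h1
  have h3 := h2.map (Int.castRingHom R)
  simpa using h3

theorem rank_lt {g : ℕ} {F : Type} [Field F] [NumberField F] {p : ℕ} (hp : p.Prime) (hp2 : p ≠ 2)
    {X : Type} (v : X → ℕ → GI g → 𝓞 F) {k t : ℕ} (hv : ∀ x, Path k (v x))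
    (hc : ∀ x y, ∀ j ≤ k, ∀ b, (p : 𝓞 F) ∣ v x j b - v y j b)
    (hn : ∀ x j b, 1 ≤ j → j ≤ k → v x j b = 0 ∨ IsCoprime (v x j b) (p : 𝓞 F))
    {R : ℝ} (hR : ∀ x, ∀ j ≤ k, ∀ b, ∀ τ : F →+* ℂ, ‖τ (v x j b : F)‖ ≤ R)
    (hbig : ((2 * t ^ 2 ^ g).factorial : ℝ) * R ^ (2 * t ^ 2 ^ g) < (p : ℝ) ^ (t ^ (2 ^ g + 1))) :
    RankLt k (2 * t ^ 2 ^ g) (fun x j b => (v x j b : F)) := by
  have hcard : Fintype.card (GI g) = 2 ^ g := by
    rw [Fintype.card_fun, ZMod.card, Fintype.card_fin]
  obtain ⟨N, hN⟩ : ∃ N, N = 2 ^ g := ⟨_, rfl⟩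
  rw [← hN] at hbig ⊢
  rw [← hcard] at hN
  intro r x hr
  have ht : t ≠ 0 := by
    rintro rfl
    have hN0 : N ≠ 0 := by
      rw [hN, hcard]
      positivity
    rw [zero_pow hN0, zero_pow (Nat.succ_ne_zero N)] at hbig
    norm_num at hbig
  have h0 : 0 < 2 * t ^ N := by positivity
  subst hN
  obtain ⟨Q, hQ⟩ := det_dvd (π := (p : 𝓞 F)) (t := t)
    (fun y i => v y 0 i - v (x ⟨0, h0⟩) 0 i)
    (fun y i => hc y (x ⟨0, h0⟩) 0 (Nat.zero_le k) i)
    (fun j y => v y (r j).1 (r j).2) x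
    (fun j => approx (rnk_two hp hp2) (rnk_not_unit hp) v hv (x ⟨0, h0⟩)
      (fun y s hs b => hc y (x ⟨0, h0⟩) s hs b) hn (t ^ (Fintype.card (GI g) + 1)) (r j).1 (hr j)
      (r j).2)
  have hdet : Matrix.det (Matrix.of fun i j => ((v (x j) (r i).1 (r i).2 : 𝓞 F) : F)) =
      ((p : F)) ^ (t ^ (Fintype.card (GI g) + 1)) * (Q : F) := by
    have h1 := congrArg (algebraMap (𝓞 F) F) hQ
    rw [RingHom.map_det, map_mul, map_pow, map_natCast] at h1
    exact h1
  have hQ0 : Q = 0 := by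
    by_contra hQ0
    have hlt : ∀ w : InfinitePlace F, w (Q : F) < 1 := by
      intro w
      have h1 : ‖w.embedding (Matrix.det (Matrix.of fun i j =>
          ((v (x j) (r i).1 (r i).2 : 𝓞 F) : F)))‖ ≤
          ((2 * t ^ Fintype.card (GI g)).factorial : ℝ) * R ^ (2 * t ^ Fintype.card (GI g)) := by
        rw [RingHom.map_det]
        have h2 := Matrix.det_le (abv := (NormedField.toAbsoluteValue ℂ))
          (A := (w.embedding.mapMatrix (Matrix.of fun i j =>
          ((v (x j) (r i).1 (r i).2 : 𝓞 F) : F)))) (x := R)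
          (fun i j => hR (x j) (r i).1 (hr i) (r i).2 w.embedding)
        rw [Fintype.card_fin, nsmul_eq_mul] at h2
        exact h2
      rw [hdet, map_mul, map_pow, map_natCast, norm_mul, norm_pow, Complex.norm_natCast] at h1
      have h3 : (0 : ℝ) < (p : ℝ) ^ (t ^ (Fintype.card (GI g) + 1)) := by
        have := hp.pos
        positivity
      have h4 : w (Q : F) = ‖w.embedding (Q : F)‖ := (InfinitePlace.norm_embedding_eq w _).symm
      rw [h4]
      by_contra h5
      rw [not_lt] at h5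
      have h6 : (p : ℝ) ^ (t ^ (Fintype.card (GI g) + 1)) ≤
          (p : ℝ) ^ (t ^ (Fintype.card (GI g) + 1)) * ‖w.embedding (Q : F)‖ :=
        le_mul_of_one_le_right h3.le h5
      linarith
    obtain ⟨w⟩ : Nonempty (InfinitePlace F) := inferInstance
    have h7 : 1 ≤ w (Q : F) := InfinitePlace.one_le_of_lt_one hQ0 (fun z _ => hlt z)
    exact absurd (hlt w) (not_lt.mpr h7)
  change Matrix.det (Matrix.of fun i j => ((v (x j) (r i).1 (r i).2 : 𝓞 F) : F)) = 0
  rw [hdet, hQ0]
  simp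

private theorem rnk_card {F : Type} [Field F] [NumberField F] {p : ℕ} (hp : p.Prime) :
    ∃ _ : Finite (𝓞 F ⧸ Ideal.span {(p : 𝓞 F)}),
      Nat.card (𝓞 F ⧸ Ideal.span {(p : 𝓞 F)}) = p ^ finrank ℚ F := by
  have h1 : Nat.card (𝓞 F ⧸ Ideal.span {(p : 𝓞 F)}) = p ^ finrank ℚ F := by
    have h2 := Ideal.absNorm_span_singleton (p : 𝓞 F)
    rw [rnk_norm, Int.natAbs_pow, Int.natAbs_natCast] at h2
    rw [← h2, Ideal.absNorm_apply]
    rfl
  refine ⟨Nat.finite_of_card_ne_zero ?_, h1⟩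
  rw [h1]
  exact pow_ne_zero _ hp.ne_zero

/-- The number of the square roots which are zero or units. -/
private theorem rnk_roots {A : Type} [CommRing A] [Finite A] {p n : ℕ} (hp : p.Prime) (hp2 : p ≠ 2)
    (hcard : Nat.card A = p ^ n) (a : A) :
    {y : A | y ^ 2 = a ∧ (y = 0 ∨ IsUnit y)}.ncard ≤ 1 + 2 ^ n := by
  classical
  have : Fintype (MaximalSpectrum A) := Fintype.ofFinite _
  have hMS : Nat.card (MaximalSpectrum A) ≤ n := by
    have h1 : p ^ Nat.card (MaximalSpectrum A) ≤ p ^ n := by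
      calc p ^ Nat.card (MaximalSpectrum A)
          ≤ ∏ m : MaximalSpectrum A, Nat.card (A ⧸ m.asIdeal) := by
            rw [Nat.card_eq_fintype_card, ← Finset.card_univ, ← Finset.prod_const]
            refine Finset.prod_le_prod' fun m _ => ?_
            have hm : Nat.card (A ⧸ m.asIdeal) ∣ p ^ n := by
              rw [← hcard]
              exact AddSubgroup.card_quotient_dvd_card (m.asIdeal.toAddSubgroup)
            obtain ⟨i, _, hi⟩ := (Nat.dvd_prime_pow hp).mp hm
            have hne : Nontrivial (A ⧸ m.asIdeal) :=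
              Ideal.Quotient.nontrivial_iff.mpr m.isMaximal.ne_top
            have hfin : Finite (A ⧸ m.asIdeal) :=
              Finite.of_surjective _ (Ideal.Quotient.mk_surjective (I := m.asIdeal))
            have h2 : 1 < Nat.card (A ⧸ m.asIdeal) := Finite.one_lt_card
            rw [hi] at h2 ⊢
            have hi0 : i ≠ 0 := by
              rintro rfl
              simp at h2
            exact Nat.le_self_pow hi0 p
        _ = Nat.card (∀ m : MaximalSpectrum A, A ⧸ m.asIdeal) := Nat.card_pi.symm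
        _ = Nat.card (A ⧸ nilradical A) :=
            (Nat.card_congr (IsArtinianRing.quotNilradicalEquivPi A).toEquiv).symm
        _ ≤ Nat.card A :=
            Nat.card_le_card_of_surjective _ (Ideal.Quotient.mk_surjective (I := nilradical A))
        _ = p ^ n := hcard
    exact (Nat.pow_le_pow_iff_right hp.one_lt).mp h1
  have h2u : IsUnit (2 : A) := by
    have h1 : ((p : ℕ) : A) ^ n = 0 := by
      have h2 : (Nat.card A) • (1 : A) = 0 := card_nsmul_eq_zero'
      rw [hcard, nsmul_eq_mul, mul_one, Nat.cast_pow] at h2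
      exact h2
    have h3 : IsCoprime (2 : A) ((p : A) ^ n) := (rnk_two hp hp2).pow_right
    rw [h1, isCoprime_zero_right] at h3
    exact h3
  have hU : {y : A | y ^ 2 = a ∧ IsUnit y}.ncard ≤ 2 ^ n := by
    rcases Set.eq_empty_or_nonempty {y : A | y ^ 2 = a ∧ IsUnit y} with he | ⟨y₀, hy₀⟩
    · rw [he, Set.ncard_empty]
      exact Nat.zero_le _
    · have h1 : {y : A | y ^ 2 = a ∧ IsUnit y}.ncard ≤
          (Set.univ : Set (Set (MaximalSpectrum A))).ncard := by
        refine Set.ncard_le_ncard_of_injOn (fun y => {m | y - y₀ ∈ m.asIdeal})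
          (fun _ _ => Set.mem_univ _) ?_
        intro y hy z hz hyz
        have hmem : ∀ m : MaximalSpectrum A, y - y₀ ∈ m.asIdeal ↔ z - y₀ ∈ m.asIdeal :=
          fun m => Set.ext_iff.mp hyz m
        have halt : ∀ (w : A), w ^ 2 = a → ∀ m : MaximalSpectrum A,
            w - y₀ ∉ m.asIdeal → w + y₀ ∈ m.asIdeal := by
          intro w hw m hm
          have h2 : (w - y₀) * (w + y₀) ∈ m.asIdeal := by
            have h3 : (w - y₀) * (w + y₀) = 0 := by
              have h4 : (w - y₀) * (w + y₀) = w ^ 2 - y₀ ^ 2 := by ring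
              rw [h4, hw, hy₀.1, sub_self]
            rw [h3]
            exact m.asIdeal.zero_mem
          exact (m.isMaximal.isPrime.mem_or_mem h2).resolve_left hm
        have hd : ∀ m : MaximalSpectrum A, y - z ∈ m.asIdeal := by
          intro m
          by_cases hm : y - y₀ ∈ m.asIdeal
          · have h2 := m.asIdeal.sub_mem hm ((hmem m).mp hm)
            rwa [sub_sub_sub_cancel_right] at h2
          · have h2 := m.asIdeal.sub_mem (halt y hy.1 m hm)
              (halt z hz.1 m (fun h => hm ((hmem m).mpr h)))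
            rwa [add_sub_add_right_eq_sub] at h2
        have hs : IsUnit (y + z) := by
          by_contra hs
          obtain ⟨m, hm, hmz⟩ := exists_max_ideal_of_mem_nonunits (show y + z ∈ nonunits A from hs)
          have h2 := m.add_mem hmz (hd ⟨m, hm⟩)
          have h3 : y + z + (y - z) = 2 * y := by ring
          rw [h3] at h2
          exact hm.ne_top (Ideal.eq_top_of_isUnit_mem m h2 (h2u.mul hy.2))
        have h4 : (y - z) * (y + z) = 0 := by
          have h5 : (y - z) * (y + z) = y ^ 2 - z ^ 2 := by ring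
          rw [h5, hy.1, hz.1, sub_self]
        exact sub_eq_zero.mp ((hs.mul_left_eq_zero).mp h4)
      rw [Set.ncard_univ] at h1
      have h2 : Nat.card (Set (MaximalSpectrum A)) = 2 ^ Nat.card (MaximalSpectrum A) := by
        rw [Nat.card_eq_fintype_card, Nat.card_eq_fintype_card, Fintype.card_set]
      rw [h2] at h1
      exact h1.trans (Nat.pow_le_pow_right (by norm_num) hMS)
  have hsub : {y : A | y ^ 2 = a ∧ (y = 0 ∨ IsUnit y)} ⊆
      {0} ∪ {y : A | y ^ 2 = a ∧ IsUnit y} := by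
    rintro y ⟨h1, h2 | h2⟩
    · exact Or.inl h2
    · exact Or.inr ⟨h1, h2⟩
  calc {y : A | y ^ 2 = a ∧ (y = 0 ∨ IsUnit y)}.ncard
      ≤ ({0} ∪ {y : A | y ^ 2 = a ∧ IsUnit y}).ncard := Set.ncard_le_ncard hsub
    _ ≤ ({0} : Set A).ncard + {y : A | y ^ 2 = a ∧ IsUnit y}.ncard := Set.ncard_union_le _ _
    _ ≤ 1 + 2 ^ n := by
        rw [Set.ncard_singleton]
        exact Nat.add_le_add_left hU 1

/-- A numbering of the square roots. -/
private theorem rnk_idx {A : Type} [CommRing A] [Finite A] {p n D : ℕ} (hp : p.Prime) (hp2 : p ≠ 2)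
    (hcard : Nat.card A = p ^ n) (hn : n ≤ D) :
    ∃ idx : A → A → Fin (1 + 2 ^ D), ∀ a y z : A, y ^ 2 = a → z ^ 2 = a →
      (y = 0 ∨ IsUnit y) → (z = 0 ∨ IsUnit z) → idx a y = idx a z → y = z := by
  have h1 : ∀ a : A, ∃ f : A → Fin (1 + 2 ^ D), ∀ y z : A, y ^ 2 = a → z ^ 2 = a →
      (y = 0 ∨ IsUnit y) → (z = 0 ∨ IsUnit z) → f y = f z → y = z := by
    intro a
    classical
    have h2 : Nat.card {y : A // y ^ 2 = a ∧ (y = 0 ∨ IsUnit y)} ≤ Nat.card (Fin (1 + 2 ^ D)) := by
      rw [Nat.card_fin]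
      exact (rnk_roots hp hp2 hcard a).trans
        (Nat.add_le_add_left (Nat.pow_le_pow_right (by norm_num) hn) 1)
    have hft : Fintype {y : A // y ^ 2 = a ∧ (y = 0 ∨ IsUnit y)} := Fintype.ofFinite _
    rw [Nat.card_eq_fintype_card, Nat.card_eq_fintype_card] at h2
    obtain ⟨e⟩ := Function.Embedding.nonempty_of_card_le h2
    refine ⟨fun y => if h : y ^ 2 = a ∧ (y = 0 ∨ IsUnit y) then e ⟨y, h⟩ else
      ⟨0, by positivity⟩, ?_⟩
    intro y z hy hz hy' hz' hyz
    have h3 : y ^ 2 = a ∧ (y = 0 ∨ IsUnit y) := ⟨hy, hy'⟩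
    have h4 : z ^ 2 = a ∧ (z = 0 ∨ IsUnit z) := ⟨hz, hz'⟩
    simp only [h3, h4, dite_true, and_self] at hyz
    exact congrArg Subtype.val (e.injective hyz)
  choose idx hidx using h1
  exact ⟨idx, hidx⟩

theorem classes (g k D : ℕ) : ∃ C : ℕ, ∀ (E F : Type) [Field E] [NumberField E] [Field F]
    [NumberField F] [Algebra E F], finrank ℚ F ≤ D → ∀ p : ℕ, p.Prime → p ≠ 2 →
      ∀ (X : Type) (u : X → GI g → 𝓞 E) (v : X → ℕ → GI g → 𝓞 F),
        (∀ x, Path k (v x)) → (∀ x b, v x 0 b = algebraMap (𝓞 E) (𝓞 F) (u x b)) →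
        (∀ x j b, 1 ≤ j → j ≤ k → v x j b = 0 ∨ IsCoprime (v x j b) (p : 𝓞 F)) →
        ∃ (α : Type) (_ : Fintype α) (cls : X → α),
          Fintype.card α ≤ C * p ^ (2 ^ g * finrank ℚ E) ∧
          ∀ x y, cls x = cls y → ∀ j ≤ k, ∀ b, (p : 𝓞 F) ∣ v x j b - v y j b := by
  classical
  refine ⟨Nat.card (Fin k × GI g → Fin (1 + 2 ^ D)), ?_⟩
  intro E F _ _ _ _ _ hD p hp hp2 X u v hv h0 hn
  obtain ⟨fE, hcE⟩ := rnk_card (F := E) hp
  obtain ⟨fF, hcF⟩ := rnk_card (F := F) hp
  obtain ⟨idx, hidx⟩ := rnk_idx (D := D) hp hp2 hcF hD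
  refine ⟨(GI g → 𝓞 E ⧸ Ideal.span {(p : 𝓞 E)}) × (Fin k × GI g → Fin (1 + 2 ^ D)),
    Fintype.ofFinite _,
    fun x => (fun i => Ideal.Quotient.mk _ (u x i), fun q =>
      idx (Ideal.Quotient.mk _ (2 ^ g * sq (v x (q.1 : ℕ)) q.2))
        (Ideal.Quotient.mk _ (v x ((q.1 : ℕ) + 1) q.2))), ?_, ?_⟩
  · rw [← @Nat.card_eq_fintype_card _ (Fintype.ofFinite _), Nat.card_prod, mul_comm]
    refine Nat.mul_le_mul_left _ (le_of_eq ?_)
    rw [Nat.card_fun, hcE, Nat.card_eq_fintype_card (α := GI g), Fintype.card_fun, ZMod.card,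
      Fintype.card_fin, ← pow_mul, mul_comm]
  · intro x y hxy j
    rw [Prod.mk.injEq] at hxy
    have hmk : ∀ a b : 𝓞 F, Ideal.Quotient.mk (Ideal.span {(p : 𝓞 F)}) a =
        Ideal.Quotient.mk (Ideal.span {(p : 𝓞 F)}) b ↔ (p : 𝓞 F) ∣ a - b := by
      intro a b
      rw [Ideal.Quotient.eq, Ideal.mem_span_singleton]
    have key : j ≤ k → ∀ b, Ideal.Quotient.mk (Ideal.span {(p : 𝓞 F)}) (v x j b) =
        Ideal.Quotient.mk (Ideal.span {(p : 𝓞 F)}) (v y j b) := by
      induction j with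
      | zero =>
        intro _ b
        rw [h0, h0, hmk]
        have h1 := congrFun hxy.1 b
        rw [Ideal.Quotient.eq, Ideal.mem_span_singleton] at h1
        have h2 := map_dvd (algebraMap (𝓞 E) (𝓞 F)) h1
        rw [map_natCast, map_sub] at h2
        exact h2
      | succ j ih =>
        intro hs b
        have hs' : j < k := hs
        have h1 := congrFun hxy.2 (⟨j, hs'⟩, b)
        have h2 : Ideal.Quotient.mk (Ideal.span {(p : 𝓞 F)}) (2 ^ g * sq (v x j) b) =
            Ideal.Quotient.mk (Ideal.span {(p : 𝓞 F)}) (2 ^ g * sq (v y j) b) := by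
          rw [rnk_sq_map, rnk_sq_map]
          simp only [ih hs'.le]
        have hu : ∀ z : X, Ideal.Quotient.mk (Ideal.span {(p : 𝓞 F)}) (v z (j + 1) b) = 0 ∨
            IsUnit (Ideal.Quotient.mk (Ideal.span {(p : 𝓞 F)}) (v z (j + 1) b)) := by
          intro z
          rcases hn z (j + 1) b (Nat.le_add_left 1 j) hs with h | ⟨c, d, h⟩
          · left
            rw [h, map_zero]
          · right
            have h3 := congrArg (Ideal.Quotient.mk (Ideal.span {(p : 𝓞 F)})) h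
            rw [map_add, map_mul, map_mul, map_one] at h3
            have h4 : Ideal.Quotient.mk (Ideal.span {(p : 𝓞 F)}) (p : 𝓞 F) = 0 :=
              Ideal.Quotient.eq_zero_iff_mem.mpr (Ideal.mem_span_singleton_self _)
            rw [h4, mul_zero, add_zero] at h3
            exact IsUnit.of_mul_eq_one _ ((mul_comm _ _).trans h3)
        refine hidx _ _ _ ?_ ?_ (hu x) (hu y) (h1.trans ?_)
        · rw [← map_pow, hv x j hs' b]
        · rw [← map_pow, hv y j hs' b, h2]
        · simp only [h2]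
    intro hs b
    exact (hmk _ _).mp (key hs b)

end FreyTN
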