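import Pool.Agent.Lib.MP_6babc4_nt.TN.Bdd

/-!
# Module Roo: the minimal polynomial over `O` and over `ℂ`

PROOF. `q` from the hypothesis `hq` for `t = ∑ i, C (ι (t i)) X i`. Its coefficients are in `O[Y]`: by `Plc.interp` it is enough that for `π : Fin μ → ℂ` the coefficients of the monic polynomial `q(ι π) ∈ 𝕂[S]` are in `O`; it is the product of the `S - s` over its roots `s` (`𝕂` algebraically closed), and each root is `∑ ι (t i) y i`
with `y ∈ VK J`, `pK P p y = ι π`, so `y i ∈ O` by `v_bdd`, `s ∈ O`. So `q = Q.map (map O.subtype)`, `Q : Polynomial (MvPolynomial (Fin μ) P.O)`, monic (`O.subtype` is injective). `R = Q.map (map st)`, monic. (a) for `y ∈ ZC`: the polynomial `F = Q.eval₂ (aeval (p)) (∑ t i X i)` over `O` maps to `q.eval₂ (thp P p) t ∈ J`, so `eval y (F.map st) = 0`,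
which is `R(p y)(t y)`. (b) `π : Fin μ → ℂ`: `q(ι π) = ∏ (S - s_i)` with `s_i ∈ O`, so `Q(ι π) = ∏ (S - s_i)` over `O` and `R(π) = ∏ (S - st s_i)`; a root `s` of `R(π)` is `st s_i`; take `y` for `s_i`; its coordinates are in `O` by `v_bdd`; `p.mulVec (st y) = st (pK P p y) = π`, `∑ t i st (y i) = st s_i = s`.
-/

set_option autoImplicit false

namespace FreyTN

variable {𝕂 : Type} [Field 𝕂] [IsAlgClosed 𝕂]

/-- A polynomial over `𝕂`, monic, all roots in `O`, is a product of linear factors over `O`. -/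
private lemma roo_split (P : Plc 𝕂) (f : Polynomial 𝕂) (hf : f.Monic)
    (hr : ∀ s, f.eval s = 0 → s ∈ P.O) :
    ∃ ms : Multiset P.O, (∀ a ∈ ms, f.eval (a : 𝕂) = 0) ∧
      ((ms.map fun a => Polynomial.X - Polynomial.C a).prod).map P.O.subtype = f := by
  have h0 : f ≠ 0 := hf.ne_zero
  have hroots : ∀ a ∈ f.roots, a ∈ P.O := fun a ha => hr a ((Polynomial.mem_roots h0).1 ha)
  refine ⟨f.roots.attach.map fun a => ⟨a.1, hroots a.1 a.2⟩, ?_, ?_⟩
  · intro a ha
    obtain ⟨b, -, rfl⟩ := Multiset.mem_map.1 ha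
    exact (Polynomial.mem_roots h0).1 b.2
  · rw [Polynomial.map_multiset_prod, Multiset.map_map, Multiset.map_map]
    have h1 : (Multiset.map (((Polynomial.map P.O.subtype) ∘ fun a : P.O => Polynomial.X - Polynomial.C a) ∘
        fun a : {x // x ∈ f.roots} => (⟨a.1, hroots a.1 a.2⟩ : P.O)) f.roots.attach)
        = Multiset.map (fun a => Polynomial.X - Polynomial.C a) f.roots := by
      conv_rhs => rw [← Multiset.attach_map_val f.roots]
      rw [Multiset.map_map]
      refine Multiset.map_congr rfl fun a _ => ?_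
      simp
    rw [h1]
    have h2 := (IsAlgClosed.splits f).eq_prod_roots
    rw [hf.leadingCoeff, Polynomial.C_1, one_mul] at h2
    exact h2.symm

theorem v_root (P : Plc 𝕂) {μ r : ℕ} {J : Ideal (MvPolynomial (Fin r) 𝕂)} (hJ : HI J)
    {p : Matrix (Fin μ) (Fin r) ℂ} (hN : Nz P J p)
    (hq : ∀ t : MvPolynomial (Fin r) 𝕂, ∃ q : Polynomial (MvPolynomial (Fin μ) 𝕂), q.Monic ∧
      q.eval₂ (thp P p).toRingHom t ∈ J ∧
      ∀ (π : Fin μ → 𝕂) (s : 𝕂), (q.map (MvPolynomial.eval π)).eval s = 0 →
        ∃ y ∈ VK J, pK P p y = π ∧ MvPolynomial.eval y t = s)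
    (t : Fin r → ℂ) :
    ∃ R : Polynomial (MvPolynomial (Fin μ) ℂ), R.Monic ∧
      (∀ y ∈ ZC P J, (R.map (MvPolynomial.eval (p.mulVec y))).eval (∑ i, t i * y i) = 0) ∧
      ∀ (π : Fin μ → ℂ) (s : ℂ), (R.map (MvPolynomial.eval π)).eval s = 0 →
        ∃ y : Fin r → P.O, (fun i => (y i : 𝕂)) ∈ VK J ∧
          p.mulVec (fun i => P.st (y i)) = π ∧ ∑ i, t i * P.st (y i) = s := by
  set t' : MvPolynomial (Fin r) 𝕂 := ∑ i, MvPolynomial.C (P.ι (t i)) * MvPolynomial.X i with ht'
  obtain ⟨q, hqm, hqJ, hqr⟩ := hq t'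
  have hmemO : ∀ c : ℂ, P.ι c ∈ P.O := P.mem
  have hev : ∀ y : Fin r → 𝕂, MvPolynomial.eval y t' = ∑ i, P.ι (t i) * y i := by
    intro y
    simp [ht']
  -- roots of the specialised polynomial
  have hroot : ∀ (π : Fin μ → ℂ) (s : 𝕂),
      (q.map (MvPolynomial.eval fun i => P.ι (π i))).eval s = 0 →
      ∃ y : Fin r → P.O, (fun i => (y i : 𝕂)) ∈ VK J ∧
        pK P p (fun i => (y i : 𝕂)) = (fun i => P.ι (π i)) ∧ ∑ i, P.ι (t i) * (y i : 𝕂) = s := by
    intro π s hs
    obtain ⟨y, hy, hp, he⟩ := hqr (fun i => P.ι (π i)) s hs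
    have hO : ∀ i, y i ∈ P.O := by
      intro i
      refine v_bdd P hJ hN hy ?_ i
      intro k
      rw [hp]
      exact hmemO _
    refine ⟨fun i => ⟨y i, hO i⟩, hy, hp, ?_⟩
    rw [hev] at he
    exact he
  have hrootO : ∀ (π : Fin μ → ℂ) (s : 𝕂),
      (q.map (MvPolynomial.eval fun i => P.ι (π i))).eval s = 0 → s ∈ P.O := by
    intro π s hs
    obtain ⟨y, -, -, he⟩ := hroot π s hs
    rw [← he]
    exact Subring.sum_mem _ fun i _ => Subring.mul_mem _ (hmemO _) (y i).2
  have hms : ∀ π : Fin μ → ℂ, ∃ ms : Multiset P.O,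
      (∀ a ∈ ms, (q.map (MvPolynomial.eval fun i => P.ι (π i))).eval (a : 𝕂) = 0) ∧
      ((ms.map fun a => Polynomial.X - Polynomial.C a).prod).map P.O.subtype
        = q.map (MvPolynomial.eval fun i => P.ι (π i)) := fun π =>
    roo_split P _ (hqm.map _) (hrootO π)
  -- lift of q to O
  have hlift : ∀ n, q.coeff n ∈ Set.range (MvPolynomial.map (σ := Fin μ) P.O.subtype) := by
    intro n
    obtain ⟨F, hF⟩ := P.interp (q.coeff n) (fun π => by
      obtain ⟨ms, -, hm⟩ := hms π
      have h1 : MvPolynomial.eval (fun i => P.ι (π i)) (q.coeff n)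
          = (q.map (MvPolynomial.eval fun i => P.ι (π i))).coeff n := by
        rw [Polynomial.coeff_map]
      rw [h1, ← hm, Polynomial.coeff_map]
      exact Subtype.property _)
    exact ⟨F, hF⟩
  obtain ⟨Q, hQ⟩ : ∃ Q : Polynomial (MvPolynomial (Fin μ) P.O),
      Q.map (MvPolynomial.map P.O.subtype) = q := by
    have h1 : q ∈ Polynomial.lifts (MvPolynomial.map (σ := Fin μ) P.O.subtype) :=
      (Polynomial.lifts_iff_coeff_lifts q).2 hlift
    exact (Polynomial.mem_lifts q).1 h1
  have hinj : Function.Injective (P.O.subtype : P.O → 𝕂) := Subtype.val_injective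
  have hinjM : Function.Injective (MvPolynomial.map (σ := Fin μ) P.O.subtype) :=
    MvPolynomial.map_injective _ hinj
  have hQm : Q.Monic := by
    refine Polynomial.monic_of_injective hinjM ?_
    rw [hQ]
    exact hqm
  refine ⟨Q.map (MvPolynomial.map P.st), hQm.map _, ?_, ?_⟩
  · intro y hy
    set g : MvPolynomial (Fin μ) P.O →+* MvPolynomial (Fin r) P.O :=
      (MvPolynomial.aeval (R := P.O) fun k : Fin μ => ∑ i, MvPolynomial.C (⟨P.ι (p k i), hmemO _⟩ : P.O)
        * MvPolynomial.X (R := P.O) i).toRingHom with hg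
    set x : MvPolynomial (Fin r) P.O :=
      ∑ i, MvPolynomial.C (⟨P.ι (t i), hmemO _⟩ : P.O) * MvPolynomial.X i with hx
    have hF : MvPolynomial.map P.O.subtype (Q.eval₂ g x) ∈ J := by
      have h1 : MvPolynomial.map P.O.subtype (Q.eval₂ g x)
          = Q.eval₂ ((MvPolynomial.map P.O.subtype).comp g) (MvPolynomial.map P.O.subtype x) :=
        Polynomial.hom_eval₂ Q g (MvPolynomial.map P.O.subtype) x
      have h2 : (MvPolynomial.map P.O.subtype).comp g
          = (thp P p).toRingHom.comp (MvPolynomial.map P.O.subtype) := by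
        refine MvPolynomial.ringHom_ext ?_ ?_
        · intro c
          simp [hg, thp]
        · intro k
          simp [hg, thp]
      have h3 : MvPolynomial.map P.O.subtype x = t' := by
        simp [hx, ht']
      rw [h1, h2, h3, ← Polynomial.eval₂_map, hQ]
      exact hqJ
    have h4 := hy _ hF
    have h5 : MvPolynomial.eval y (MvPolynomial.map P.st (Q.eval₂ g x))
        = Q.eval₂ (((MvPolynomial.eval y).comp (MvPolynomial.map P.st)).comp g)
          (((MvPolynomial.eval y).comp (MvPolynomial.map P.st)) x) :=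
      Polynomial.hom_eval₂ Q g ((MvPolynomial.eval y).comp (MvPolynomial.map P.st)) x
    have h6 : ((MvPolynomial.eval y).comp (MvPolynomial.map P.st)).comp g
        = (MvPolynomial.eval (p.mulVec y)).comp (MvPolynomial.map P.st) := by
      refine MvPolynomial.ringHom_ext ?_ ?_
      · intro c
        simp [hg]
      · intro k
        simp [hg, P.st_ι, Matrix.mulVec, dotProduct]
    have h7 : ((MvPolynomial.eval y).comp (MvPolynomial.map P.st)) x = ∑ i, t i * y i := by
      simp [hx, P.st_ι]
    rw [h5, h6, h7] at h4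
    rw [Polynomial.map_map, Polynomial.eval_map]
    exact h4
  · intro π s hs
    obtain ⟨ms, hm1, hm2⟩ := hms π
    set e : MvPolynomial (Fin μ) P.O →+* P.O :=
      MvPolynomial.eval fun i => (⟨P.ι (π i), hmemO _⟩ : P.O) with he
    have h1 : (MvPolynomial.eval fun i => P.ι (π i)).comp (MvPolynomial.map P.O.subtype)
        = P.O.subtype.comp e := by
      refine MvPolynomial.ringHom_ext ?_ ?_
      · intro c
        simp [he]
      · intro k
        simp [he]
    have h2 : Q.map e = (ms.map fun a => Polynomial.X - Polynomial.C a).prod := by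
      apply Polynomial.map_injective P.O.subtype hinj
      rw [hm2, Polynomial.map_map, ← h1, ← Polynomial.map_map, hQ]
    have h3 : (MvPolynomial.eval π).comp (MvPolynomial.map P.st) = P.st.comp e := by
      refine MvPolynomial.ringHom_ext ?_ ?_
      · intro c
        simp [he]
      · intro k
        simp [he, P.st_ι]
    have h4 : (Q.map (MvPolynomial.map P.st)).map (MvPolynomial.eval π)
        = (ms.map fun a => Polynomial.X - Polynomial.C (P.st a)).prod := by
      rw [Polynomial.map_map, h3, ← Polynomial.map_map, h2, Polynomial.map_multiset_prod,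
        Multiset.map_map]
      congr 1
      refine Multiset.map_congr rfl fun a _ => ?_
      simp
    rw [h4, Polynomial.eval_multiset_prod, Multiset.map_map, Multiset.prod_eq_zero_iff,
      Multiset.mem_map] at hs
    obtain ⟨a, ha, hs⟩ := hs
    have h5 : s = P.st a := by
      simp only [Function.comp_apply, Polynomial.eval_sub, Polynomial.eval_X,
        Polynomial.eval_C] at hs
      exact sub_eq_zero.1 hs
    obtain ⟨y, hy, hp, hy2⟩ := hroot π a (hm1 a ha)
    refine ⟨y, hy, ?_, ?_⟩
    · funext k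
      have h6 : ∑ i, (⟨P.ι (p k i), hmemO _⟩ : P.O) * y i = ⟨P.ι (π k), hmemO _⟩ := by
        apply Subtype.ext
        have h7 := congrFun hp k
        simp only [pK, Matrix.mulVec, dotProduct, Matrix.map_apply] at h7
        push_cast
        exact h7
      have h8 := congrArg P.st h6
      rw [map_sum, P.st_ι] at h8
      rw [← h8]
      simp only [Matrix.mulVec, dotProduct, map_mul, P.st_ι]
    · have h6 : ∑ i, (⟨P.ι (t i), hmemO _⟩ : P.O) * y i = a := by
        apply Subtype.ext
        push_cast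
        exact hy2
      have h8 := congrArg P.st h6
      rw [map_sum] at h8
      rw [h5, ← h8]
      simp only [map_mul, P.st_ι]

end FreyTN
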