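import Pool.Agent.Lib.MP_6babc4_nt.TN.Alg
import Pool.Agent.Lib.MP_6babc4_nt.TN.Lyo
import Pool.Agent.Lib.MP_6babc4_nt.TN.Roo
import Pool.Agent.Lib.MP_6babc4_nt.TN.Lif

/-!
# Module Spc: the specialisation of a projective variety of positive dimension

PROOF. `min_exists`, `v_int`, `v_inj`, `v_minpoly`, `v_root`: the hypothesis `hroot` of `lift_all` with `Z = ZC P J`, `Y = {st y | y : Fin r → O, y ∈ VK J}` (`Y ⊆ Z` by `st_mem`). `acc` with `two_le`; `p z ≠ 0` by `Nz` as `z ≠ 0`.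
-/

set_option autoImplicit false

namespace FreyTN

variable {𝕂 : Type} [Field 𝕂] [IsAlgClosed 𝕂]

private lemma spc_root (P : Plc 𝕂) {μ r : ℕ} {J : Ideal (MvPolynomial (Fin r) 𝕂)} (hJ : HI J)
    {p : Matrix (Fin μ) (Fin r) ℂ} (hN : Nz P J p)
    (hmin : ∀ (μ' : ℕ) (p' : Matrix (Fin μ') (Fin r) ℂ), Nz P J p' → μ ≤ μ') (t : Fin r → ℂ) :
    ∃ R : Polynomial (MvPolynomial (Fin μ) ℂ), R.Monic ∧
      (∀ y ∈ ZC P J, (R.map (MvPolynomial.eval (p.mulVec y))).eval (∑ i, t i * y i) = 0) ∧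
      ∀ (π : Fin μ → ℂ) (s : ℂ), (R.map (MvPolynomial.eval π)).eval s = 0 →
        ∃ y : Fin r → P.O, (fun i => (y i : 𝕂)) ∈ VK J ∧
          p.mulVec (fun i => P.st (y i)) = π ∧ ∑ i, t i * P.st (y i) = s :=
  v_root P hJ hN (v_minpoly P hJ (v_int P hJ hN) (v_inj P hJ hN hmin)) t

theorem spec_points (P : Plc 𝕂) {r : ℕ} {J : Ideal (MvPolynomial (Fin r) 𝕂)} (hJ : HI J)
    {y : Fin r → ℂ} (hy : y ∈ ZC P J) :
    ∃ y' : Fin r → P.O, (fun i => (y' i : 𝕂)) ∈ VK J ∧ (fun i => P.st (y' i)) = y := by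
  obtain ⟨μ, p, hN, hmin⟩ := min_exists P J
  have h := lift_all p (ZC P J) {x | ∃ y' : Fin r → P.O, (fun i => (y' i : 𝕂)) ∈ VK J ∧
    (fun i => P.st (y' i)) = x} ?_ ?_ hy
  · exact h
  · rintro x ⟨y', h1, rfl⟩
    exact st_mem P y' h1
  · intro t
    obtain ⟨R, hR, h1, h2⟩ := spc_root P hJ hN hmin t
    refine ⟨R, hR, h1, fun π s hs => ?_⟩
    obtain ⟨y', h3, h4, h5⟩ := h2 π s hs
    exact ⟨fun i => P.st (y' i), ⟨y', h3, rfl⟩, h4, h5⟩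

theorem spec_acc (P : Plc 𝕂) {r : ℕ} {J : Ideal (MvPolynomial (Fin r) 𝕂)} (hJ : HI J)
    (f : ℕ → Fin r → 𝕂) (hf : ∀ i, f i ∈ VK J)
    (hli : ∀ i j, i ≠ j → LinearIndependent 𝕂 ![f i, f j]) {z : Fin r → ℂ} (hz : z ∈ ZC P J)
    (hz0 : z ≠ 0) :
    ∃ p0 p1 : (Fin r → ℂ) →ₗ[ℂ] ℂ, p0 z = 1 ∧ p1 z = 0 ∧ ∀ δ : ℝ, 0 < δ → ∃ η : ℝ, 0 < η ∧
      ∀ w : ℂ, ‖w‖ < η → ∃ y ∈ ZC P J, p0 y = 1 ∧ p1 y = w ∧ ‖y - z‖ < δ := by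
  obtain ⟨μ, p, hN, hmin⟩ := min_exists P J
  refine acc (two_le P hJ hN f hf hli) p (ZC P J) (zc_closed P J) ?_ hz
    (fun h => hz0 (hN z hz h))
  intro t
  obtain ⟨R, hR, h1, h2⟩ := spc_root P hJ hN hmin t
  refine ⟨R, hR, h1, fun π s hs => ?_⟩
  obtain ⟨y', h3, h4, h5⟩ := h2 π s hs
  exact ⟨fun i => P.st (y' i), st_mem P y' h3, h4, h5⟩

end FreyTN
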